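import Pool.Agent.U162.TS.Tail

/-!
Approximations of global flows and of solutions of the cell problem by families with finitely many modes.
-/

open MeasureTheory Set Filter Topology
open scoped ENNReal NNReal

namespace Pool.Agent.U162.TS

open Pool.Agent.H356R3.NS

/-- global flows on the Fourier side -/
structure FlowC (c : ℝ) (X : Fam) : Prop where
  cf : CF X
  cb : CF (Bt X)
  z : ∀ t, X 0 t = 0
  sym : SymF X
  mx : ∀ k t, X k t = X k (max t 0)
  bd : ∃ B : ℝ, ∀ k t, ‖X k t‖ ≤ B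
  sn : ∀ t, SN (at' X t)
  ode : ∀ k t, 0 < t → HasDerivAt (X k) (-(c * H356R3.NS.sq k) • X k t + Bt X k t) t
  l2 : LN (fun t => NW (Wa 0) (at' X t)) ≠ ⊤

/-- truncation -/
def resF (F : Finset K) (X : Fam) : Fam := fun k t => if k ∈ F then X k t else 0

lemma at'_resF (F : Finset K) (X : Fam) (t : ℝ) : at' (resF F X) t = res F (at' X t) := rfl

lemma resF_cf {F : Finset K} {X : Fam} (h : CF X) : CF (resF F X) := by
  intro k
  unfold resF
  by_cases hk : k ∈ F
  · simp only [hk, if_true]; exact h k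
  · simp only [hk, if_false]; exact continuous_const

lemma resF_fin (F : Finset K) (X : Fam) : FinS (resF F X) := ⟨F, fun k hk t => by simp [resF, hk]⟩

lemma resF_sym {F : Finset K} (hF : ∀ k ∈ F, -k ∈ F) {X : Fam} (h : SymF X) : SymF (resF F X) := by
  intro t k i
  have hiff : -k ∈ F ↔ k ∈ F := ⟨fun h => by simpa using hF _ h, hF k⟩
  simp only [at'_resF, res, hiff]
  split_ifs
  · exact h t k i
  · simp

lemma base_apx {c : ℝ} {X : Fam} (h : FlowC c X) {F : Finset K} (hF : ∀ k ∈ F, -k ∈ F) :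
    Apx c (res F (at' X 0)) (resF F X) (resF F (Bt X)) := by
  obtain ⟨B, hB⟩ := h.bd
  have hB0 : 0 ≤ B := (norm_nonneg _).trans (hB 0 0)
  have ho : Od c (resF F X) (resF F (Bt X)) := by
    refine ⟨resF_cf h.cf, resF_cf h.cb, resF_fin _ _, resF_fin _ _, ⟨B, fun k t => ?_⟩, fun k t => ?_,
      fun k t ht => ?_⟩
    · unfold resF; split_ifs
      · exact hB k t
      · simpa using hB0
    · unfold resF; rw [h.mx k t]
    · by_cases hk : k ∈ F
      · have e : resF F X k = X k := by funext s; simp [resF, hk]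
        rw [e]
        refine (h.ode k t ht).congr_deriv ?_
        simp [resF, hk]
      · have e : resF F X k = fun _ => 0 := by funext s; simp [resF, hk]
        rw [e]
        refine (hasDerivAt_const t (0 : C3)).congr_deriv ?_
        simp [resF, hk]
  refine ho.apx (fun t => ?_) (fun t => ?_) (resF_sym hF h.sym) (resF_sym hF (Bt_sym h.sym)) fun k => rfl
  · unfold resF; rw [h.z]; simp
  · unfold resF Bt; rw [Bf_zero]; simp

lemma base_res {c : ℝ} {X : Fam} (h : FlowC c X) (F : Finset K) :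
    ∫⁻ t in Ioi 0, NW (Wm 0) (at' (Bt (resF F X) - resF F (Bt X)) t)
      ≤ ENNReal.ofReal C0 * ∫⁻ t in Ioi 0, lost F fun k => ‖X k t‖ₑ := by
  have hm : Measurable fun t => lost F fun k => ‖X k t‖ₑ := by
    unfold lost
    refine Measurable.tsum fun p => ?_
    split_ifs
    · exact measurable_const
    · exact (h.cf _).enorm.measurable.mul (h.cf _).enorm.measurable
  rw [← lintegral_const_mul _ hm]
  exact lintegral_mono fun t => NW_Bf_res (h.sn t) F

lemma NW_Wa0 (x : K → C3) : NW (Wa 0) x = ∑' k, ‖x k‖ₑ := by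
  unfold NW Wa om
  simp

lemma base_close {c : ℝ} {X : Fam} (_h : FlowC c X) (F : Finset K) :
    LN (fun t => NW (Wa 0) (at' (X - resF F X) t)) ≤ (∫⁻ t in Ioi 0, lost F fun k => ‖X k t‖ₑ) ^ (1 / 2 : ℝ) := by
  unfold LN
  apply ENNReal.rpow_le_rpow _ (by norm_num)
  refine lintegral_mono fun t => ?_
  simp only
  rw [NW_Wa0, ENNReal.rpow_two, pow_two]
  have e : ∀ k, ‖at' (X - resF F X) t k‖ₑ = if k ∈ F then 0 else ‖X k t‖ₑ := by
    intro k
    simp only [at', Pi.sub_apply, resF]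
    split_ifs <;> simp
  simp only [e]
  exact tail_sq_le F fun k => ‖X k t‖ₑ

lemma base_norm {c : ℝ} {X : Fam} (_h : FlowC c X) (F : Finset K) :
    LN (fun t => NW (Wa 0) (at' (resF F X) t)) ≤ LN (fun t => NW (Wa 0) (at' X t)) := by
  refine LN_mono fun t _ => ?_
  unfold NW
  refine ENNReal.tsum_le_tsum fun k => mul_le_mul' le_rfl ?_
  simp only [at'_resF, res]
  split_ifs <;> simp

lemma FlowC.l2' {c : ℝ} {X : Fam} (h : FlowC c X) :
    ∫⁻ t in Ioi (0 : ℝ), (∑' k, ‖X k t‖ₑ) * ∑' k, ‖X k t‖ₑ ≠ ⊤ := by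
  have h1 := h.l2
  unfold LN at h1
  intro h2
  apply h1
  have e : ∫⁻ t in Ioi (0 : ℝ), NW (Wa 0) (at' X t) ^ (2 : ℝ) = ⊤ := by
    rw [← h2]
    refine lintegral_congr fun t => ?_
    rw [NW_Wa0, ENNReal.rpow_two, pow_two]
    rfl
  rw [e, ENNReal.top_rpow_of_pos (by norm_num)]

/-! ### the cell problem -/

/-- the full bilinear term of the cell problem -/
noncomputable def full (w : K × K → ℝ → C3) (R : K × K) (s : ℝ) : C3 := ∑' P, qb R (w P s) (w (R - P) s)

/-- the kick of the mean flow -/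
noncomputable def Kick (w : K × K → ℝ → C3) (κ : K) : C3 := ∫ s in Ioi 0, full w (κ, 0) s

/-- solutions of the cell problem on the Fourier side -/
structure CellFlow (c : ℝ) (w : K × K → ℝ → C3) (σ : ℝ) : Prop where
  hσ : 0 < σ
  k0 : ∀ P : K × K, P.2 = 0 → ∀ s, w P s = 0
  cw : ∀ P, Continuous (w P)
  cb : ∀ P, Continuous (full w P)
  sw : ∀ P s i, w (-P) s i = star (w P s i)
  dv : ∀ P : K × K, dt P.2 (w P 0) = 0
  ode : ∀ P : K × K, P.2 ≠ 0 → ∀ s, 0 < s → HasDerivAt (w P) (-(c * H356R3.NS.sq P.2) • w P s + full w P s) s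
  bw : ∃ B : ℝ, ∀ P s, 0 ≤ s → ‖w P s‖ ≤ B * Real.exp (-(σ * s))
  sn : ∀ s, Summable fun P => ‖w P s‖
  l2 : ∫⁻ s in Ioi (0 : ℝ), (∑' P, ‖w P s‖ₑ) * ∑' P, ‖w P s‖ₑ ≠ ⊤

/-- the frequencies of the truncated cell problem -/
noncomputable def cS (F : Finset (K × K)) : Finset (K × K) := F.filter fun P => P.2 ≠ 0

lemma mem_cS {F : Finset (K × K)} {P : K × K} : P ∈ cS F ↔ P ∈ F ∧ P.2 ≠ 0 := by
  unfold cS; rw [Finset.mem_filter]

/-- the truncated solution -/
noncomputable def cw' (F : Finset (K × K)) (w : K × K → ℝ → C3) : K × K → ℝ → C3 :=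
  fun P s => if P ∈ cS F then w P s else 0

/-- its forcing -/
noncomputable def cf'' (F : Finset (K × K)) (w : K × K → ℝ → C3) : K × K → ℝ → C3 :=
  fun P s => if P ∈ cS F then full w P s else 0

lemma full_sym {w : K × K → ℝ → C3} (hw : ∀ P s i, w (-P) s i = star (w P s i))
    (hs : ∀ s, Summable fun P => ‖w P s‖) (R : K × K) (s : ℝ) (i : Fin 3) :
    full w (-R) s i = star (full w R s i) := by
  have hS : ∀ R : K × K, Summable fun P => qb R (w P s) (w (R - P) s) := by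
    intro R
    have hs2 : Summable fun P => ‖w P s‖ * ‖w (R - P) s‖ := by
      refine Summable.of_nonneg_of_le (fun P => by positivity) (fun P => ?_)
        ((hs s).mul_right (∑' P, ‖w P s‖))
      exact mul_le_mul_of_nonneg_left ((hs s).le_tsum (R - P) fun _ _ => norm_nonneg _) (norm_nonneg _)
    exact Summable.of_norm_bounded (hs2.mul_left _) fun P => norm_qb_le _ _ _
  unfold full
  rw [tsum_apply (hS _), tsum_apply (hS _), show star (∑' P, qb R (w P s) (w (R - P) s) i)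
    = ∑' P, star (qb R (w P s) (w (R - P) s) i) from tsum_star]
  rw [← (Equiv.neg (K × K)).tsum_eq]
  refine tsum_congr fun P => ?_
  rw [Equiv.neg_apply, qb_neg]
  congr 1
  · funext j; rw [hw]
  · funext j
    rw [← hw]
    congr 2
    abel

lemma cell_apx {c : ℝ} {w : K × K → ℝ → C3} {σ : ℝ} (h : CellFlow c w σ) {F : Finset (K × K)}
    (hF : ∀ P ∈ F, -P ∈ F) : ∃ B, CApx c (cS F) (cw' F w) (cf'' F w) B σ := by
  obtain ⟨B, hB⟩ := h.bw
  have hB0 : 0 ≤ B := by
    have := (norm_nonneg _).trans (hB 0 0 le_rfl)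
    simpa using this
  have hneg : ∀ P ∈ cS F, -P ∈ cS F := by
    intro P hP
    rw [mem_cS] at hP ⊢
    exact ⟨hF P hP.1, by simpa using hP.2⟩
  have hiff : ∀ P, -P ∈ cS F ↔ P ∈ cS F := fun P => ⟨fun h => by simpa using hneg _ h, hneg P⟩
  refine ⟨B, h.hσ, hneg, fun P hP => (mem_cS.1 hP).2, fun P hP s => if_neg hP, fun P hP s => if_neg hP,
    fun P => ?_, fun P => ?_, fun P s i => ?_, fun P s i => ?_, fun P => ?_, fun P s hs => ?_, fun P s hs => ?_⟩
  · unfold cw'
    by_cases hP : P ∈ cS F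
    · simp only [hP, if_true]; exact h.cw P
    · simp only [hP, if_false]; exact continuous_const
  · unfold cf''
    by_cases hP : P ∈ cS F
    · simp only [hP, if_true]; exact h.cb P
    · simp only [hP, if_false]; exact continuous_const
  · unfold cw'
    simp only [hiff]
    split_ifs
    · exact h.sw P s i
    · simp
  · unfold cf''
    simp only [hiff]
    split_ifs
    · exact full_sym h.sw h.sn P s i
    · simp
  · unfold cw'
    split_ifs
    · exact h.dv P
    · simp [dt]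
  · by_cases hP : P ∈ cS F
    · have e : cw' F w P = w P := by funext s; simp [cw', hP]
      rw [e]
      refine (h.ode P (mem_cS.1 hP).2 s hs).congr_deriv ?_
      simp [cf'', hP]
    · have e : cw' F w P = fun _ => 0 := by funext s; simp [cw', hP]
      rw [e]
      refine (hasDerivAt_const s (0 : C3)).congr_deriv ?_
      simp [cf'', hP]
  · unfold cw'
    split_ifs
    · exact hB P s hs
    · rw [norm_zero]; positivity

lemma Cb_cw' {c : ℝ} {w : K × K → ℝ → C3} {σ : ℝ} (h : CellFlow c w σ) (F : Finset (K × K)) (R : K × K) (s : ℝ) :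
    Cb (cS F) (fun P => cw' F w P s) R = ∑ P ∈ F, qb R (res F (fun P => w P s) P) (res F (fun P => w P s) (R - P)) := by
  have e : (fun P => cw' F w P s) = res F fun P => w P s := by
    funext P
    simp only [cw', res, mem_cS]
    by_cases hP : P ∈ F
    · by_cases h2 : P.2 = 0
      · simp [hP, h2, h.k0 P h2]
      · simp [hP, h2]
    · simp [hP]
  rw [e]
  unfold Cb
  refine Finset.sum_subset (Finset.filter_subset _ _) fun P hP hP2 => ?_
  have h2 : P.2 = 0 := by
    by_contra h2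
    exact hP2 (mem_cS.2 ⟨hP, h2⟩)
  have : res F (fun P => w P s) P = 0 := by
    simp only [res, hP, if_true]
    exact h.k0 P h2 s
  rw [this]
  unfold qb; split_ifs <;> exact bt_zero_l _ _

lemma norm_qb_le' (R : K × K) (v v' : C3) :
    ‖qb R v v'‖ ≤ C0 * (if R.2 = 0 then nk R.1 else nk R.2) * (‖v‖ * ‖v'‖) := by
  unfold qb
  split_ifs <;> exact norm_bt_le _ _ _

/-- the residual of the truncated cell problem -/
lemma cell_res {c : ℝ} {w : K × K → ℝ → C3} {σ : ℝ} (h : CellFlow c w σ) (F : Finset (K × K)) (s : ℝ) :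
    ENNReal.ofReal (rho (cS F) (cw' F w) (cf'' F w) s) ≤ ENNReal.ofReal C0 * lost F fun P => ‖w P s‖ₑ := by
  unfold rho
  rw [ENNReal.ofReal_sum_of_nonneg fun R _ => mul_nonneg (one_div_nonneg.2 (nk_nonneg _)) (norm_nonneg _)]
  rw [lost_eq, ← ENNReal.tsum_mul_left]
  refine le_trans ?_ (ENNReal.sum_le_tsum (TT (cS F)))
  refine Finset.sum_le_sum fun R _ => ?_
  by_cases hR : R.2 = 0
  · rw [hR, nk_zero]; simp
  have hn := nk_pos hR
  rw [Cb_cw' h]
  have e : cf'' F w R s = if R ∈ F then ∑' P, qb R (w P s) (w (R - P) s) else 0 := by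
    unfold cf'' full
    simp only [mem_cS, hR, ne_eq, not_false_eq_true, and_true]
  rw [e]
  have h1 := gen_diff (q := qb R) (C := C0 * (if R.2 = 0 then nk R.1 else nk R.2)) (norm_qb_le' R) (h.sn s) F R
  rw [if_neg hR] at h1
  rw [ENNReal.ofReal_mul (one_div_nonneg.2 hn.le), ofReal_norm]
  calc _ ≤ ENNReal.ofReal (1 / nk R.2) * (ENNReal.ofReal (C0 * nk R.2) *
        ∑' P, if P ∈ F ∧ R - P ∈ F ∧ R ∈ F then 0 else ‖w P s‖ₑ * ‖w (R - P) s‖ₑ) := mul_le_mul' le_rfl h1
    _ = _ := by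
        rw [← mul_assoc, ← ENNReal.ofReal_mul (one_div_nonneg.2 hn.le)]
        congr 2
        field_simp

lemma full_le {c : ℝ} {w : K × K → ℝ → C3} {σ : ℝ} (_h : CellFlow c w σ) (R : K × K) (s : ℝ) :
    ‖full w R s‖ₑ ≤ ENNReal.ofReal (C0 * (nk R.1 + nk R.2)) * ((∑' P, ‖w P s‖ₑ) * ∑' P, ‖w P s‖ₑ) := by
  have hn1 := nk_nonneg R.1
  have hn2 := nk_nonneg R.2
  have hC := C0_pos
  have hen : ∀ f : K × K → C3, ‖∑' P, f P‖ₑ ≤ ∑' P, ‖f P‖ₑ := by
    intro f
    by_cases h : Summable fun P => ‖f P‖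
    · rw [← ofReal_norm]
      refine (ENNReal.ofReal_le_ofReal (norm_tsum_le_tsum_norm h)).trans ?_
      rw [ENNReal.ofReal_tsum_of_nonneg (fun _ => norm_nonneg _) h]
      simp
    · by_cases h2 : ∑' P, ‖f P‖ₑ = ⊤
      · rw [h2]; exact le_top
      · exfalso; apply h
        have := ENNReal.summable_toReal h2
        simpa using this
  unfold full
  refine (hen _).trans ?_
  rw [← ENNReal.tsum_mul_right, ← ENNReal.tsum_mul_left]
  refine ENNReal.tsum_le_tsum fun P => ?_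
  calc ‖qb R (w P s) (w (R - P) s)‖ₑ ≤ ENNReal.ofReal (C0 * (nk R.1 + nk R.2)) * (‖w P s‖ₑ * ‖w (R - P) s‖ₑ) := by
        rw [← ofReal_norm, ← ofReal_norm, ← ofReal_norm, ← ENNReal.ofReal_mul (norm_nonneg _),
          ← ENNReal.ofReal_mul (by positivity)]
        exact ENNReal.ofReal_le_ofReal (norm_qb_le _ _ _)
    _ ≤ _ := by
        refine mul_le_mul' le_rfl (mul_le_mul' le_rfl ?_)
        exact ENNReal.le_tsum (f := fun P => ‖w P s‖ₑ) (R - P)

lemma full_int {c : ℝ} {w : K × K → ℝ → C3} {σ : ℝ} (h : CellFlow c w σ) (R : K × K) :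
    IntegrableOn (full w R) (Ioi 0) := by
  refine ⟨(h.cb R).aestronglyMeasurable, ?_⟩
  unfold HasFiniteIntegral
  refine lt_of_le_of_lt (lintegral_mono fun s => full_le h R s) ?_
  have hm : Measurable fun s => (∑' P, ‖w P s‖ₑ) * ∑' P, ‖w P s‖ₑ := by
    have : Measurable fun s => ∑' P, ‖w P s‖ₑ := Measurable.tsum fun P => (h.cw P).enorm.measurable
    exact this.mul this
  rw [lintegral_const_mul _ hm]
  exact ENNReal.mul_lt_top ENNReal.ofReal_lt_top (lt_top_iff_ne_top.2 h.l2)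

/-- the mismatch of the mean flows -/
noncomputable def mis (F : Finset (K × K)) (w : K × K → ℝ → C3) (κ : K) : C3 :=
  kick (cS F) (cw' F w) κ - (if ((κ, 0) : K × K) ∈ F then Kick w κ else 0)

lemma mis_le {c : ℝ} {w : K × K → ℝ → C3} {σ : ℝ} (h : CellFlow c w σ) {F : Finset (K × K)}
    (hF : ∀ P ∈ F, -P ∈ F) (κ : K) :
    ‖mis F w κ‖ₑ ≤ ENNReal.ofReal (C0 * nk κ) * ∫⁻ s in Ioi 0,
      ∑' P : K × K, if P ∈ F ∧ (κ, 0) - P ∈ F ∧ (κ, 0) ∈ F then 0 else ‖w P s‖ₑ * ‖w ((κ, 0) - P) s‖ₑ := by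
  obtain ⟨B, hA⟩ := cell_apx h hF
  have i1 : IntegrableOn (fun s => Cb (cS F) (fun P => cw' F w P s) (κ, 0)) (Ioi 0) := by
    have := Dk_int hA (κ, 0) le_rfl
    have e : Dk (cS F) (cw' F w) (κ, 0) = fun s => Cb (cS F) (fun P => cw' F w P s) (κ, 0) := by
      funext s; simp [Dk]
    rwa [e] at this
  have i2 : IntegrableOn (fun s => if ((κ, 0) : K × K) ∈ F then full w (κ, 0) s else 0) (Ioi 0) := by
    split_ifs
    · exact full_int h _
    · exact integrableOn_zero
  have e : mis F w κ = ∫ s in Ioi 0, (Cb (cS F) (fun P => cw' F w P s) (κ, 0)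
      - if ((κ, 0) : K × K) ∈ F then full w (κ, 0) s else 0) := by
    rw [integral_sub i1 i2]
    unfold mis kick Kick
    congr 1
    split_ifs
    · rfl
    · simp
  rw [e]
  refine (enorm_integral_le_lintegral_enorm _).trans ?_
  have hm : Measurable fun s => ∑' P : K × K, if P ∈ F ∧ (κ, 0) - P ∈ F ∧ (κ, 0) ∈ F then 0
      else ‖w P s‖ₑ * ‖w ((κ, 0) - P) s‖ₑ := by
    refine Measurable.tsum fun p => ?_
    split_ifs
    · exact measurable_const
    · exact (h.cw _).enorm.measurable.mul (h.cw _).enorm.measurable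
  rw [← lintegral_const_mul _ hm]
  refine lintegral_mono fun s => ?_
  have h1 := gen_diff (q := qb (κ, 0)) (C := C0 * (if ((κ, 0) : K × K).2 = 0 then nk ((κ, 0) : K × K).1
    else nk ((κ, 0) : K × K).2)) (norm_qb_le' (κ, 0)) (h.sn s) F (κ, 0)
  simp only [if_true] at h1
  rw [Cb_cw' h]
  exact h1

lemma mis_sum {c : ℝ} {w : K × K → ℝ → C3} {σ : ℝ} (h : CellFlow c w σ) {F : Finset (K × K)}
    (hF : ∀ P ∈ F, -P ∈ F) (M : Finset K) :
    ∑ κ ∈ M, ‖mis F w κ‖ₑ * ENNReal.ofReal (1 / nk κ) ≤ ENNReal.ofReal C0 *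
      ∫⁻ s in Ioi 0, lost F fun P => ‖w P s‖ₑ := by
  have hterm : ∀ κ : K, Measurable fun s => ∑' P : K × K, if P ∈ F ∧ (κ, 0) - P ∈ F ∧ (κ, 0) ∈ F then 0
      else ‖w P s‖ₑ * ‖w ((κ, 0) - P) s‖ₑ := by
    intro κ
    refine Measurable.tsum fun p => ?_
    split_ifs
    · exact measurable_const
    · exact (h.cw _).enorm.measurable.mul (h.cw _).enorm.measurable
  calc _ ≤ ∑ κ ∈ M, ENNReal.ofReal C0 * ∫⁻ s in Ioi 0,
      ∑' P : K × K, if P ∈ F ∧ (κ, 0) - P ∈ F ∧ (κ, 0) ∈ F then 0 else ‖w P s‖ₑ * ‖w ((κ, 0) - P) s‖ₑ := by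
        refine Finset.sum_le_sum fun κ _ => ?_
        by_cases hκ : κ = 0
        · subst hκ; rw [nk_zero]; simp
        have hn := nk_pos hκ
        rw [mul_comm]
        refine (mul_le_mul' le_rfl (mis_le h hF κ)).trans (le_of_eq ?_)
        rw [← mul_assoc, ← ENNReal.ofReal_mul (one_div_nonneg.2 hn.le)]
        congr 2
        field_simp
    _ = ENNReal.ofReal C0 * ∫⁻ s in Ioi 0, ∑ κ ∈ M,
      ∑' P : K × K, if P ∈ F ∧ (κ, 0) - P ∈ F ∧ (κ, 0) ∈ F then 0 else ‖w P s‖ₑ * ‖w ((κ, 0) - P) s‖ₑ := by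
        rw [← Finset.mul_sum, lintegral_finsetSum _ fun κ _ => hterm κ]
    _ ≤ _ := by
        refine mul_le_mul' le_rfl (lintegral_mono fun s => ?_)
        rw [lost_eq]
        classical
        have hinj : Function.Injective fun κ : K => ((κ, 0) : K × K) := fun a b h => (Prod.mk.injEq _ _ _ _ ▸ h).1
        calc _ = ∑ R ∈ M.image (fun κ : K => ((κ, 0) : K × K)), ∑' P : K × K,
              (if P ∈ F ∧ R - P ∈ F ∧ R ∈ F then 0 else ‖w P s‖ₑ * ‖w (R - P) s‖ₑ) := by
              rw [Finset.sum_image fun a _ b _ h => hinj h]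
          _ ≤ _ := ENNReal.sum_le_tsum _

end Pool.Agent.U162.TS
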