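import Pool.Agent.Q63.Win.FromSol
import Pool.Agent.H459R3.NS.Lp
import Pool.Agent.H459R3.NS.Mult
import Pool.Agent.U162.TS.Base

/-!
Global smooth solutions: the equation for the Fourier coefficients.
-/

open MeasureTheory Set Filter Topology
open scoped ContDiff

namespace Pool.Agent.U162.TS.Ph

open H459R3.NS Pool.Agent.Q63.Win

variable {ν T : ℝ} {u : ℝ → V → V} {p : ℝ → V → ℝ}

/-- the coefficients of the products -/
noncomputable def pq (v : V → V) (k : K3) (i j : Fin 3) : ℂ := fr (fun y => v y i * v y j) k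

lemma fr_conv {v : Fin 3 → V → ℝ} (hv : ∀ i, SP (v i)) (hdiv : ∀ x, ∑ i, pd i (v i) x = 0) (k : K3)
    (i : Fin 3) : fr (conv v i) k = ∑ j, 2 * Real.pi * Complex.I * (k j : ℂ) * fr (fun y => v j y * v i y) k := by
  have e : conv v i = fun x => ∑ j, pd j (fun y => v j y * v i y) x := by
    funext x
    have h1 : ∀ j, pd j (fun y => v j y * v i y) x = v j x * pd j (v i) x + pd j (v j) x * v i x :=
      fun j => pd_mul (hv j) (hv i) j x
    simp_rw [h1]
    rw [Finset.sum_add_distrib, ← Finset.sum_mul, hdiv, zero_mul, add_zero]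
    rfl
  rw [e, fr_sum fun j _ => ((hv j).mul (hv i)).pd j]
  refine Finset.sum_congr rfl fun j _ => ?_
  rw [fr_pd ((hv j).mul (hv i)), D]

/-- the equation for the coefficients, with the pressure -/
theorem fr_dt (h : IsSol ν T u p) {t : ℝ} (ht : t ∈ Ioo 0 T) (k : K3) (i : Fin 3) :
    fr (dt (fun s y => u s y i) t) k = -((msym ν k : ℝ) : ℂ) * cof (u t) k i
      - (∑ j, 2 * Real.pi * Complex.I * (k j : ℂ) * pq (u t) k j i)
      - 2 * Real.pi * Complex.I * (k i : ℂ) * fr (p t) k := by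
  have hI : t ∈ Ico 0 T := ⟨ht.1.le, ht.2⟩
  set v : Fin 3 → V → ℝ := fun i y => u t y i with hv
  have hsp : ∀ i, SP (v i) := fun i => h.sp hI i
  have e0 : dt (fun s y => u s y i) t = fun x => ν * lap (v i) x - conv v i x - pd i (p t) x := by
    funext x
    exact h.dt_eq ht i x
  have c1 : Continuous (lap (v i)) := (hsp i).lap.cont
  have c2 : Continuous (conv v i) := (sp_conv hsp i).cont
  have c3 : Continuous (pd i (p t)) := ((h.sp_p hI).pd i).cont
  have e1 : fr (fun x => ν * lap (v i) x - conv v i x - pd i (p t) x) k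
      = ν * fr (lap (v i)) k - fr (conv v i) k - fr (pd i (p t)) k := by
    unfold fr fc
    have hee := ee_continuous (-k)
    have i1 : IntegrableOn (fun x => (ν : ℂ) * (ee (-k) x * ((lap (v i) x : ℝ) : ℂ))) cube :=
      integrableOn_cube (continuous_const.mul (hee.mul (Complex.continuous_ofReal.comp c1)))
    have i2 : IntegrableOn (fun x => ee (-k) x * ((conv v i x : ℝ) : ℂ)) cube :=
      integrableOn_cube (hee.mul (Complex.continuous_ofReal.comp c2))
    have i3 : IntegrableOn (fun x => ee (-k) x * ((pd i (p t) x : ℝ) : ℂ)) cube :=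
      integrableOn_cube (hee.mul (Complex.continuous_ofReal.comp c3))
    have i12 : IntegrableOn (fun x => (ν : ℂ) * (ee (-k) x * ((lap (v i) x : ℝ) : ℂ))
        - ee (-k) x * ((conv v i x : ℝ) : ℂ)) cube := i1.sub i2
    rw [← integral_const_mul, ← integral_sub i1 i2, ← integral_sub i12 i3]
    congr 1
    funext x
    push_cast
    ring
  have e2 : fr (lap (v i)) k = -(4 * Real.pi ^ 2 * ∑ j, (k j : ℝ) ^ 2 : ℝ) * fr (v i) k := by
    have : lap (v i) = fun x => ∑ j, pd j (pd j (v i)) x := rfl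
    rw [this, fr_sum (fun j _ => ((hsp i).pd j).pd j)]
    simp_rw [fr_pd ((hsp i).pd _), D, fr_pd (hsp i), D]
    push_cast
    rw [Finset.mul_sum, ← Finset.sum_neg_distrib, Finset.sum_mul]
    refine Finset.sum_congr rfl fun j _ => ?_
    have hI2 : Complex.I ^ 2 = -1 := Complex.I_sq
    linear_combination (4 * (Real.pi : ℂ) ^ 2 * (k j : ℂ) ^ 2 * fr (v i) k) * hI2
  have e3 := fr_conv hsp (h.divfree t hI) k i
  have e4 : fr (pd i (p t)) k = 2 * Real.pi * Complex.I * (k i : ℂ) * fr (p t) k := by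
    rw [fr_pd (h.sp_p hI), D]
  rw [e0, e1, e2, e3, e4]
  unfold msym cof pq
  push_cast
  ring

theorem div_dt (h : IsSol ν T u p) {t : ℝ} (ht : t ∈ Ioo 0 T) (k : K3) :
    ∑ i, (k i : ℂ) * fr (dt (fun s y => u s y i) t) k = 0 := by
  have hd : ∀ i, HasDerivAt (fun s => cof (u s) k i) (fr (dt (fun s y => u s y i) t) k) t :=
    fun i => hasDerivAt_frc (F := fun s y => u s y i) (h.smooth_c i) ht k
  have h1 : HasDerivAt (fun s => ∑ i, (k i : ℂ) * cof (u s) k i)
      (∑ i, (k i : ℂ) * fr (dt (fun s y => u s y i) t) k) t :=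
    HasDerivAt.fun_sum fun i _ => (hd i).const_mul _
  have h2 : (fun s => ∑ i, (k i : ℂ) * cof (u s) k i) =ᶠ[𝓝 t] fun _ => 0 := by
    filter_upwards [Ioo_mem_nhds ht.1 ht.2] with s hs
    exact fr_div (v := fun i y => u s y i) (fun i => h.sp ⟨hs.1.le, hs.2⟩ i)
      (h.divfree s ⟨hs.1.le, hs.2⟩) k
  exact h1.unique ((hasDerivAt_const t (0 : ℂ)).congr_of_eventuallyEq h2)

/-- the equation for the coefficients -/
theorem cof_deriv (h : IsSol ν T u p) {t : ℝ} (ht : t ∈ Ioo 0 T) (k : K3) (i : Fin 3) :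
    HasDerivAt (fun s => cof (u s) k i) (-((msym ν k : ℝ) : ℂ) * cof (u t) k i
      + ∑ j, ∑ m, Pool.Agent.H356R3.NS.coef k i j m * pq (u t) k j m) t := by
  have hI : t ∈ Ico 0 T := ⟨ht.1.le, ht.2⟩
  refine (hasDerivAt_frc (F := fun s y => u s y i) (h.smooth_c i) ht k).congr_deriv ?_
  have hdiv : ∑ i, (k i : ℂ) * cof (u t) k i = 0 :=
    fr_div (v := fun i y => u t y i) (fun i => h.sp hI i) (h.divfree t hI) k
  have h1 := div_dt h ht k
  simp only [fr_dt h ht] at h1 ⊢
  by_cases hk : k = 0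
  · subst hk
    simp [Pool.Agent.H356R3.NS.coef_zero]
  have hs : ((Pool.Agent.H356R3.NS.sq k : ℝ) : ℂ) ≠ 0 := by
    exact_mod_cast (Pool.Agent.H356R3.NS.sq_pos hk).ne'
  have hsq : ((Pool.Agent.H356R3.NS.sq k : ℝ) : ℂ) = (k 0 : ℂ) ^ 2 + (k 1 : ℂ) ^ 2 + (k 2 : ℂ) ^ 2 := by
    unfold Pool.Agent.H356R3.NS.sq
    push_cast [Fin.sum_univ_three]
    rfl
  set P := fr (p t) k
  set A : Fin 3 → ℂ := fun i => ∑ j, 2 * Real.pi * Complex.I * (k j : ℂ) * pq (u t) k j i with hA
  have hAi : ∀ i, ∑ j, 2 * Real.pi * Complex.I * (k j : ℂ) * pq (u t) k j i = A i := fun i => rfl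
  simp only [hAi] at h1 ⊢
  have hP : 2 * Real.pi * Complex.I * P * ((Pool.Agent.H356R3.NS.sq k : ℝ) : ℂ) = -∑ m, (k m : ℂ) * A m := by
    rw [hsq]
    simp only [Fin.sum_univ_three] at h1 hdiv ⊢
    linear_combination (-1 : ℂ) * h1 - ((msym ν k : ℝ) : ℂ) * hdiv
  have hR : ∑ j, ∑ m, Pool.Agent.H356R3.NS.coef k i j m * pq (u t) k j m
      = -A i + (k i : ℂ) * (∑ m, (k m : ℂ) * A m) / ((Pool.Agent.H356R3.NS.sq k : ℝ) : ℂ) := by
    have e : ∀ j m, Pool.Agent.H356R3.NS.coef k i j m * pq (u t) k j m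
        = -((if m = i then 1 else 0) * (2 * Real.pi * Complex.I * (k j : ℂ) * pq (u t) k j m))
          + (k i : ℂ) / ((Pool.Agent.H356R3.NS.sq k : ℝ) : ℂ) * ((k m : ℂ) *
            (2 * Real.pi * Complex.I * (k j : ℂ) * pq (u t) k j m)) := by
      intro j m
      unfold Pool.Agent.H356R3.NS.coef
      ring
    simp only [e]
    rw [Finset.sum_comm]
    simp only [Finset.sum_add_distrib, Finset.sum_neg_distrib, ← Finset.mul_sum]
    rw [hA]
    simp only [ite_mul, one_mul, zero_mul, Finset.sum_ite_eq', Finset.mem_univ, if_true]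
    ring
  rw [hR]
  have hP2 : 2 * Real.pi * Complex.I * P = -(∑ m, (k m : ℂ) * A m) / ((Pool.Agent.H356R3.NS.sq k : ℝ) : ℂ) := by
    rw [eq_div_iff hs]; exact hP
  have : 2 * Real.pi * Complex.I * (k i : ℂ) * P = (k i : ℂ) * (2 * Real.pi * Complex.I * P) := by ring
  rw [this, hP2]
  ring

/-- the bilinear term in terms of the products -/
theorem Bf_cof {v : V → V} (hv : ∀ i, SP fun y => v y i) (k : K3) (i : Fin 3) :
    Pool.Agent.H356R3.NS.Bf (cof v) (cof v) k i = ∑ j, ∑ m, Pool.Agent.H356R3.NS.coef k i j m * pq v k j m := by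
  unfold Pool.Agent.H356R3.NS.Bf
  refine Finset.sum_congr rfl fun j _ => Finset.sum_congr rfl fun m _ => ?_
  congr 1
  unfold Pool.Agent.H356R3.NS.cv
  have h1 := fr_mul (hv m) (hv j) k
  have e : pq v k j m = fr (fun x => v x m * v x j) k := by
    unfold pq; congr 1; funext x; ring
  rw [e, ← h1.tsum_eq]
  refine tsum_congr fun l => ?_
  unfold cof
  ring

theorem cont_fr {F : ℝ → V → ℝ} (hF : ContDiffOn ℝ ∞ (fun z : ℝ × V => F z.1 z.2) (Ico 0 T ×ˢ univ))
    (k : K3) : ContinuousOn (fun s => fr (F s) k) (Ico 0 T) := by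
  have hph : Continuous (ph k) := (ph_contDiff k (n := 0)).continuous
  have h1 : ContinuousOn (fun z : ℝ × V => Real.cos (2 * Real.pi * ph k z.2) * F z.1 z.2) (Ico 0 T ×ˢ univ) := by
    refine ContinuousOn.mul ?_ hF.continuousOn
    have : Continuous fun z : ℝ × V => Real.cos (2 * Real.pi * ph k z.2) := by fun_prop
    exact this.continuousOn
  have h2 : ContinuousOn (fun z : ℝ × V => Real.sin (2 * Real.pi * ph k z.2) * F z.1 z.2) (Ico 0 T ×ˢ univ) := by
    refine ContinuousOn.mul ?_ hF.continuousOn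
    have : Continuous fun z : ℝ × V => Real.sin (2 * Real.pi * ph k z.2) := by fun_prop
    exact this.continuousOn
  have h3 := continuousOn_int (F := fun s x => Real.cos (2 * Real.pi * ph k x) * F s x) h1
  have h4 := continuousOn_int (F := fun s x => Real.sin (2 * Real.pi * ph k x) * F s x) h2
  have h5 : ContinuousOn (fun s => ((∫ x in cube, Real.cos (2 * Real.pi * ph k x) * F s x : ℝ) : ℂ) +
      ((-∫ x in cube, Real.sin (2 * Real.pi * ph k x) * F s x : ℝ) : ℂ) * Complex.I) (Ico 0 T) :=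
    (Complex.continuous_ofReal.comp_continuousOn h3).add
      ((Complex.continuous_ofReal.comp_continuousOn h4.neg).mul continuousOn_const)
  refine h5.congr fun s hs => ?_
  exact fr_eq (contDiff_slice hF hs).continuous k

end Pool.Agent.U162.TS.Ph
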