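import Pool.Agent.H356R3.NS.Step3

/-!
From approximate solutions with finitely many modes to solutions.
-/

open MeasureTheory Set Filter Topology
open scoped ENNReal NNReal

namespace Pool.Agent.U162.TS

open Pool.Agent.H356R3.NS

/-- only finitely many modes -/
def FinS (x : Fam) : Prop := ∃ S : Finset K, ∀ k ∉ S, ∀ t, x k t = 0

/-- `U` has finitely many modes, the initial value `V` and the forcing `G` -/
structure Apx (c : ℝ) (V : K → C3) (U G : Fam) : Prop where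
  cf : CF U
  cg : CF G
  zu : ∀ t, U 0 t = 0
  zg : ∀ t, G 0 t = 0
  su : SymF U
  sg : SymF G
  fu : FinS U
  fg : FinS G
  bd : ∃ B : ℝ, ∀ k t, ‖U k t‖ ≤ B
  eq : ∀ k t, U k t = Real.exp (-(c * H356R3.NS.sq k * max t 0)) • V k + Duh c G k t

lemma FinS.sn {x : Fam} (h : FinS x) (t : ℝ) : SN (at' x t) := by
  obtain ⟨S, hS⟩ := h
  exact summable_of_ne_finset_zero (s := S) fun k hk => by simp [at', hS k hk t]

lemma FinS.dom {x : Fam} (h : FinS x) {B : ℝ} (hB : ∀ k t, ‖x k t‖ ≤ B) : Dom x := by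
  obtain ⟨S, hS⟩ := h
  have hB0 : 0 ≤ B := (norm_nonneg _).trans (hB 0 0)
  classical
  refine ⟨fun k => if k ∈ S then B else 0, summable_of_ne_finset_zero (s := S) fun k hk => by
    simp [hk], fun k t => ?_⟩
  by_cases hk : k ∈ S
  · simp only [hk, if_true]; exact hB k t
  · rw [hS k hk t]; simp [hk]

lemma FinS.wdom {x : Fam} (h : FinS x) {B : ℝ} (hB : ∀ k t, ‖x k t‖ ≤ B) (a : ℝ) : WDom a x := by
  obtain ⟨S, hS⟩ := h
  have hB0 : 0 ≤ B := (norm_nonneg _).trans (hB 0 0)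
  classical
  refine ⟨fun k => if k ∈ S then B else 0, summable_of_ne_finset_zero (s := S) fun k hk => by
    simp [hk], fun k t => ?_⟩
  by_cases hk : k ∈ S
  · simp only [hk, if_true]; exact hB k t
  · rw [hS k hk t]; simp [hk]

lemma cv_supp {x y : K → C3} {S S' : Finset K} (hx : ∀ k ∉ S, x k = 0) (hy : ∀ k ∉ S', y k = 0)
    {k : K} (hk : k ∉ Finset.image₂ (· + ·) S S') (i j : Fin 3) : cv x y k i j = 0 := by
  classical
  unfold cv
  rw [← tsum_zero (α := ℂ) (β := K)]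
  refine tsum_congr fun l => ?_
  by_cases h1 : l ∈ S
  · by_cases h2 : k - l ∈ S'
    · exfalso
      apply hk
      rw [Finset.mem_image₂]
      exact ⟨l, h1, k - l, h2, by abel⟩
    · rw [hy _ h2]; simp
  · rw [hx _ h1]; simp

lemma FinS.bt {x : Fam} (h : FinS x) : FinS (Bt x) := by
  classical
  obtain ⟨S, hS⟩ := h
  refine ⟨Finset.image₂ (· + ·) S S, fun k hk t => ?_⟩
  funext i
  unfold Bt Bf
  simp only [cv_supp (x := at' x t) (y := at' x t) (fun k hk => hS k hk t) (fun k hk => hS k hk t) hk,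
    mul_zero, Finset.sum_const_zero, Pi.zero_apply]

lemma FinS.sub {x y : Fam} (hx : FinS x) (hy : FinS y) : FinS (x - y) := by
  classical
  obtain ⟨S, hS⟩ := hx
  obtain ⟨S', hS'⟩ := hy
  refine ⟨S ∪ S', fun k hk t => ?_⟩
  rw [Finset.mem_union, not_or] at hk
  simp [hS k hk.1 t, hS' k hk.2 t]

lemma FinS.add {x y : Fam} (hx : FinS x) (hy : FinS y) : FinS (x + y) := by
  classical
  obtain ⟨S, hS⟩ := hx
  obtain ⟨S', hS'⟩ := hy
  refine ⟨S ∪ S', fun k hk t => ?_⟩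
  rw [Finset.mem_union, not_or] at hk
  simp [hS k hk.1 t, hS' k hk.2 t]

lemma NW_fin {W : K → ℝ≥0∞} {x : K → C3} {S : Finset K} (hx : ∀ k ∉ S, x k = 0) :
    NW W x = ∑ k ∈ S, W k * ‖x k‖ₑ := by
  unfold NW
  exact tsum_eq_sum fun k hk => by simp [hx k hk]

/-- the weights with a small exponent -/
lemma NW_small {W W' : K → ℝ≥0∞} {x : K → C3} {S : Finset K} (hx : ∀ k ∉ S, x k = 0)
    (hW : ∀ k ∈ S, W k ≤ 2 * W' k) : NW W x ≤ 2 * NW W' x := by
  rw [NW_fin hx, NW_fin hx, Finset.mul_sum]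
  refine Finset.sum_le_sum fun k hk => ?_
  rw [← mul_assoc]
  exact mul_le_mul' (hW k hk) le_rfl

lemma om_le_two {T a : ℝ} (hT : 0 < T) (ha0 : 0 ≤ a) (ha : a ≤ Real.log 2 / T) {k : K} (hk : l1 k ≤ T) :
    om a k ≤ 2 := by
  unfold om
  calc Real.exp (a * l1 k) ≤ Real.exp (Real.log 2) := by
        apply Real.exp_le_exp.2
        calc a * l1 k ≤ a * T := mul_le_mul_of_nonneg_left hk ha0
          _ ≤ Real.log 2 / T * T := mul_le_mul_of_nonneg_right ha hT.le
          _ = _ := by field_simp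
    _ = 2 := Real.exp_log (by norm_num)

lemma Wa_small {a : ℝ} {k : K} (h : om a k ≤ 2) : Wa a k ≤ 2 * Wa 0 k := by
  unfold Wa
  rw [show (2 : ℝ≥0∞) = ENNReal.ofReal 2 by simp, ← ENNReal.ofReal_mul (by norm_num)]
  apply ENNReal.ofReal_le_ofReal
  have : om 0 k = 1 := by simp [om]
  rw [this]; linarith

lemma Wm_small {a : ℝ} {k : K} (h : om a k ≤ 2) : Wm a k ≤ 2 * Wm 0 k := by
  unfold Wm
  rw [show (2 : ℝ≥0∞) = ENNReal.ofReal 2 by simp, ← ENNReal.ofReal_mul (by norm_num)]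
  apply ENNReal.ofReal_le_ofReal
  have : om 0 k = 1 := by simp [om]
  rw [this, mul_one_div]
  exact div_le_div_of_nonneg_right h (nk_nonneg k)

/-- approximate solutions with finitely many modes are close to solutions -/
theorem approx {c D ee : ℝ} (hc : 0 < c) (hD : 0 < D) (hee : 0 < ee) : ∃ η : ℝ, 0 < η ∧
    ∀ (V : K → C3) (U G : Fam), Apx c V U G →
      LN (fun t => NW (Wa 0) (at' U t)) ≤ ENNReal.ofReal D →
      ∫⁻ s in Ioi 0, NW (Wm 0) (at' (Bt U - G) s) ≤ ENNReal.ofReal η →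
      ∃ (a : ℝ) (u : Fam), 0 < a ∧ Sol c a V u ∧
        LN (fun t => NW (Wa 0) (at' (u - U) t)) ≤ ENNReal.ofReal ee := by
  classical
  have hD2 : 0 < 2 * D := by positivity
  obtain ⟨Lam, ρ0, hp0⟩ := exists_par hc hD2
  have hρ0 := hp0.hρ
  set ρ := min ρ0 (ee / Real.exp (Lam * (2 * D) ^ 2)) with hρd
  have hρ : 0 < ρ := lt_min hρ0 (by positivity)
  have hp : Par c (2 * D) Lam ρ := hp0.mono hρ (min_le_left _ _)
  have hρe : Real.exp (Lam * (2 * D) ^ 2) * ρ ≤ ee := by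
    have h1 : ρ ≤ ee / Real.exp (Lam * (2 * D) ^ 2) := min_le_right _ _
    rw [le_div_iff₀ (Real.exp_pos _)] at h1
    linarith
  have hsc := Real.sqrt_pos.2 hc
  refine ⟨Real.sqrt c * (ρ / 2) / 2, by positivity, ?_⟩
  intro V U G hA hUD hres
  obtain ⟨S, hS⟩ := hA.fu
  obtain ⟨B, hB⟩ := hA.bd
  have hUd : Dom U := hA.fu.dom hB
  have hfE : FinS (Bt U - G) := hA.fu.bt.sub hA.fg
  obtain ⟨S', hS'⟩ := hfE
  set T : ℝ := ∑ k ∈ S ∪ S', l1 k + 1 with hTd
  have hT : 0 < T := by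
    have : 0 ≤ ∑ k ∈ S ∪ S', l1 k := Finset.sum_nonneg fun k _ => l1_nonneg k
    linarith
  have hlT : ∀ k ∈ S ∪ S', l1 k ≤ T := by
    intro k hk
    have := Finset.single_le_sum (f := fun k => l1 k) (fun k _ => l1_nonneg k) hk
    linarith
  set a := Real.log 2 / T with had
  have hlog : 0 < Real.log 2 := Real.log_pos (by norm_num)
  have ha : 0 < a := by positivity
  have hom : ∀ k ∈ S ∪ S', om a k ≤ 2 := fun k hk => om_le_two hT ha.le le_rfl (hlT k hk)
  have h1 : ∀ t, NW (Wa a) (at' U t) ≤ 2 * NW (Wa 0) (at' U t) := fun t =>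
    NW_small (fun k hk => hS k hk t) fun k hk => Wa_small (hom k (Finset.mem_union_left _ hk))
  have h2 : ∀ t, NW (Wm a) (at' (Bt U - G) t) ≤ 2 * NW (Wm 0) (at' (Bt U - G) t) := fun t =>
    NW_small (fun k hk => hS' k hk t) fun k hk => Wm_small (hom k (Finset.mem_union_right _ hk))
  -- the majorant
  set A : ℝ → ℝ := fun t => 2 * ∑ k ∈ S, ‖U k t‖ with hAd
  have hAc : Continuous A := by
    simp only [hAd]
    refine continuous_const.mul (continuous_finsetSum _ fun k _ => (hA.cf k).norm)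
  have hA0 : ∀ t, 0 ≤ A t := fun t => by
    have : 0 ≤ ∑ k ∈ S, ‖U k t‖ := Finset.sum_nonneg fun k _ => norm_nonneg _
    simp only [hAd]; linarith
  have hAe : ∀ t, ENNReal.ofReal (A t) = 2 * NW (Wa 0) (at' U t) := by
    intro t
    rw [NW_fin (S := S) (x := at' U t) (fun k hk => hS k hk t)]
    simp only [hAd]
    rw [ENNReal.ofReal_mul (by norm_num), ENNReal.ofReal_sum_of_nonneg fun k _ => norm_nonneg _]
    simp only [ENNReal.ofReal_ofNat]
    congr 1
    refine Finset.sum_congr rfl fun k _ => ?_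
    unfold Wa om at'
    simp
  have hAi : LN (fun t => ENNReal.ofReal (A t)) ≤ ENNReal.ofReal (2 * D) := by
    simp_rw [hAe]
    rw [LN_const_mul _ (NW_meas _ hA.cf), ENNReal.ofReal_mul (by norm_num)]
    exact mul_le_mul' (by simp) hUD
  have hUA : ∀ t, 0 < t → NW (Wa a) (at' U t) ≤ ENNReal.ofReal (A t) := fun t _ => by
    rw [hAe]; exact h1 t
  have hBc : CF (Bt U) := Bt_cont hA.cf hUd
  have hFEc : CF (Bt U - G) := fun k => (hBc k).sub (hA.cg k)
  have hFEs : SymF (Bt U - G) := fun t => (Bt_sym hA.su t).sub (hA.sg t)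
  have hFE0 : ∀ t, (Bt U - G) 0 t = 0 := by
    intro t
    simp only [Pi.sub_apply, Bt, Bf_zero, hA.zg, sub_self]
  have hFEi : ∫⁻ s in Ioi 0, NW (Wm a) (at' (Bt U - G) s) ≤ ENNReal.ofReal (Real.sqrt c * (ρ / 2)) := by
    calc _ ≤ ∫⁻ s in Ioi 0, 2 * NW (Wm 0) (at' (Bt U - G) s) := lintegral_mono fun s => h2 s
      _ = 2 * ∫⁻ s in Ioi 0, NW (Wm 0) (at' (Bt U - G) s) := by
          rw [lintegral_const_mul _ (NW_meas _ hFEc)]
      _ ≤ 2 * ENNReal.ofReal (Real.sqrt c * (ρ / 2) / 2) := mul_le_mul' le_rfl hres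
      _ = _ := by
          rw [show (2 : ℝ≥0∞) = ENNReal.ofReal 2 by simp, ← ENNReal.ofReal_mul (by norm_num)]
          congr 1; ring
  obtain ⟨r, M, hM, hrc, hr0, hrM, hrL, hrfix, hrs⟩ := exist hp ha hAc hA0 hAi hA.cf hUd hA.su hUA hFEc
    hFEs hFE0 (by positivity) (by rw [mul_pow, Real.sq_sqrt hc.le]) hFEi
  have hrW : WDom (a / 2) r := by
    refine ⟨fun k => M * (nk k * Real.exp (-(a * l1 k))), ?_, fun k t =>
      norm_le_of_NWm hM (hr0 t) (hrM t) k⟩
    refine ((summ_nk (half_pos ha)).mul_left M).congr fun k => ?_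
    unfold om
    have : Real.exp (-(a / 2 * l1 k)) = Real.exp (a / 2 * l1 k) * Real.exp (-(a * l1 k)) := by
      rw [← Real.exp_add]; congr 1; ring
    rw [this]; ring
  have hrd : Dom r := hrW.dom (half_pos ha).le
  have hUrc : CF (U + r) := fun k => (hA.cf k).add (hrc k)
  have hLr : LN (fun t => NW (Wa 0) (at' r t)) ≤ ENNReal.ofReal ee := by
    refine (LN_le_LF hp.hL.le hD2.le hAc hA0 hAi ha.le hrc).trans ((mul_le_mul' le_rfl hrL).trans ?_)
    rw [← ENNReal.ofReal_mul (Real.exp_pos _).le]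
    exact ENNReal.ofReal_le_ofReal hρe
  refine ⟨a / 2, U + r, half_pos ha, ⟨hUrc, ?_, fun t => (hA.su t).add (hrs t),
    (hA.fu.wdom hB _).add hrW, ?_, ?_⟩, ?_⟩
  · intro t
    show U 0 t + r 0 t = 0
    rw [hA.zu, hr0]; simp
  · have m1 : Measurable fun t => NW (Wa (a / 2)) (at' U t) := NW_meas _ hA.cf
    have m2 : Measurable fun t => NW (Wa (a / 2)) (at' r t) := NW_meas _ hrc
    have h1 : LN (fun t => NW (Wa (a / 2)) (at' U t)) ≠ ⊤ := by
      refine ne_top_of_le_ne_top ENNReal.ofReal_ne_top ((LN_mono fun t ht => ?_).trans hAi)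
      exact (NW_mono (fun k => Wa_mono (by linarith) k) _).trans (hUA t ht)
    have h2 : LN (fun t => NW (Wa (a / 2)) (at' r t)) ≠ ⊤ :=
      ne_top_of_le_ne_top (ENNReal.mul_ne_top ENNReal.ofReal_ne_top
        (ne_top_of_le_ne_top ENNReal.ofReal_ne_top hrL))
        (LN_le_LF hp.hL.le hD2.le hAc hA0 hAi (half_le_self ha.le) hrc)
    refine ne_top_of_le_ne_top (ENNReal.add_ne_top.2 ⟨h1, h2⟩) ((LN_mono fun t _ => ?_).trans
      (LN_add_le m1 m2))
    exact NW_add_le _ _ _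
  · intro k t
    have hBr : CF (Bt (U + r)) := Bt_cont hUrc (hUd.add hrd)
    have e1 : (Bt U - G) + (Bt (U + r) - Bt U) = Bt (U + r) - G := by abel
    rw [e1, Duh_sub hBr hA.cg] at hrfix
    have e2 : r k t = Duh c (Bt (U + r)) k t - Duh c G k t := congrFun (congrFun hrfix k) t
    have e3 := hA.eq k t
    show U k t + r k t = _
    rw [e2, e3]
    abel
  · have e : U + r - U = r := by abel
    rw [e]
    exact hLr

end Pool.Agent.U162.TS
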