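import Pool.Agent.U162.TS.Glue

/-!
The pieces of the two-scale approximation.
-/

open MeasureTheory Set Filter Topology
open scoped ENNReal NNReal

namespace Pool.Agent.U162.TS

open Pool.Agent.H356R3.NS

/-- approximate solutions of the cell problem -/
structure CApx (c : ℝ) (S : Finset (K × K)) (w f : K × K → ℝ → C3) (β σ : ℝ) : Prop where
  hσ : 0 < σ
  neg : ∀ P ∈ S, -P ∈ S
  k0 : ∀ P ∈ S, P.2 ≠ 0
  w0 : ∀ P ∉ S, ∀ s, w P s = 0
  f0 : ∀ P ∉ S, ∀ s, f P s = 0
  cw : ∀ P, Continuous (w P)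
  cf : ∀ P, Continuous (f P)
  sw : ∀ P s i, w (-P) s i = star (w P s i)
  sf : ∀ P s i, f (-P) s i = star (f P s i)
  dv : ∀ P, dt P.2 (w P 0) = 0
  ode : ∀ P s, 0 < s → HasDerivAt (w P) (-(c * H356R3.NS.sq P.2) • w P s + f P s) s
  bw : ∀ P s, 0 ≤ s → ‖w P s‖ ≤ β * Real.exp (-(σ * s))

/-- frequencies of the interactions -/
noncomputable def TT (S : Finset (K × K)) : Finset (K × K) := by
  classical exact S ∪ Finset.image₂ (· + ·) S S

lemma sub_TT (S : Finset (K × K)) : S ⊆ TT S := by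
  classical
  unfold TT; exact Finset.subset_union_left

lemma add_TT {S : Finset (K × K)} : ∀ P ∈ S, ∀ Q ∈ S, P + Q ∈ TT S := by
  classical
  intro P hP Q hQ
  unfold TT
  exact Finset.mem_union_right _ (Finset.mem_image₂.2 ⟨P, hP, Q, hQ, rfl⟩)

lemma neg_TT {S : Finset (K × K)} (h : ∀ P ∈ S, -P ∈ S) : ∀ P ∈ TT S, -P ∈ TT S := by
  classical
  intro P hP
  unfold TT at hP ⊢
  rw [Finset.mem_union, Finset.mem_image₂] at hP
  rw [Finset.mem_union, Finset.mem_image₂]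
  rcases hP with hP | ⟨a, ha, b, hb, rfl⟩
  · exact Or.inl (h P hP)
  · exact Or.inr ⟨-a, h a ha, -b, h b hb, by abel⟩

/-- families given by pairs -/
noncomputable def FM (N : ℕ) (T : Finset (K × K)) (φ : K × K → ℝ → C3) : Fam :=
  fun k t => lf N T (fun P => φ P (max t 0)) k

lemma FM_eq (N : ℕ) (T : Finset (K × K)) (φ : K × K → ℝ → C3) :
    FM N T φ = ∑ P ∈ T, Md (kp N P) (φ P) := by
  funext k t
  simp only [FM, lf, Finset.sum_apply, Md]

lemma at'_FM (N : ℕ) (T : Finset (K × K)) (φ : K × K → ℝ → C3) (t : ℝ) :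
    at' (FM N T φ) t = lf N T fun P => φ P (max t 0) := rfl

lemma FM_od {c : ℝ} {N : ℕ} {T : Finset (K × K)} {φ γ : K × K → ℝ → C3} (hφ : ∀ P, Continuous (φ P))
    (hγ : ∀ P, Continuous (γ P)) (hb : ∀ P, ∃ B : ℝ, ∀ t, 0 ≤ t → ‖φ P t‖ ≤ B)
    (ho : ∀ P t, 0 < t → HasDerivAt (φ P) (-(c * H356R3.NS.sq (kp N P)) • φ P t + γ P t) t) :
    Od c (FM N T φ) (FM N T γ) := by
  rw [FM_eq, FM_eq]
  exact Od.sum _ fun P _ => Md_od (hφ P) (hγ P) (hb P) (ho P)

lemma lf_sym {N : ℕ} {T : Finset (K × K)} (hT : ∀ P ∈ T, -P ∈ T) {x : K × K → C3}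
    (hx : ∀ P i, x (-P) i = star (x P i)) : Sym (lf N T x) := by
  intro k i
  unfold lf
  simp only [Finset.sum_apply, star_sum]
  refine Finset.sum_nbij' (fun P => -P) (fun P => -P) hT hT (fun P _ => neg_neg P)
    (fun P _ => neg_neg P) fun P _ => ?_
  simp only [Sg, kp_neg]
  by_cases h : -k = kp N P
  · have h2 : k = -kp N P := by rw [← h, neg_neg]
    rw [if_pos h, if_pos h2, hx, star_star]
  · have h2 : k ≠ -kp N P := fun h3 => h (by rw [h3, neg_neg])
    rw [if_neg h, if_neg h2]; simp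

lemma lf_zero_at {N : ℕ} {T : Finset (K × K)} {x : K × K → C3}
    (h : ∀ P ∈ T, kp N P = 0 → x P = 0) : lf N T x 0 = 0 := by
  unfold lf
  rw [Finset.sum_apply]
  refine Finset.sum_eq_zero fun P hP => ?_
  unfold Sg
  split_ifs with h0
  · exact h P hP h0.symm
  · rfl

lemma lf_add (N : ℕ) (T : Finset (K × K)) (x y : K × K → C3) : lf N T x + lf N T y = lf N T fun P => x P + y P := by
  unfold lf
  rw [← Finset.sum_add_distrib]
  exact Finset.sum_congr rfl fun P _ => (Sg_add _ _ _).symm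

lemma lf_sub {N : ℕ} {S T : Finset (K × K)} (h : S ⊆ T) {x : K × K → C3} (hx : ∀ P ∉ S, x P = 0) :
    lf N T x = lf N S x := by
  unfold lf
  symm
  refine Finset.sum_subset h fun P _ hP => ?_
  rw [hx P hP, Sg_zero]

lemma bt_cont {k : K} {x y : ℝ → C3} (hx : Continuous x) (hy : Continuous y) :
    Continuous fun s => bt k (x s) (y s) := by
  refine continuous_pi fun i => ?_
  unfold bt
  fun_prop

lemma qb_cont {R : K × K} {x y : ℝ → C3} (hx : Continuous x) (hy : Continuous y) :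
    Continuous fun s => qb R (x s) (y s) := by
  unfold qb
  split_ifs
  · exact bt_cont hx hy
  · exact bt_cont hx hy

lemma Cb_cont (S : Finset (K × K)) {w : K × K → ℝ → C3} (hw : ∀ P, Continuous (w P)) (R : K × K) :
    Continuous fun s => Cb S (fun P => w P s) R := by
  unfold Cb
  exact continuous_finsetSum _ fun P _ => qb_cont (hw P) (hw _)

lemma star_bt (k : K) (v v' : C3) (i : Fin 3) :
    star (bt k v v' i) = bt (-k) (fun j => star (v j)) (fun j => star (v' j)) i := by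
  unfold bt
  simp only [star_sum, star_mul', coef_neg]

lemma qb_neg (R : K × K) (v v' : C3) (i : Fin 3) :
    star (qb R v v' i) = qb (-R) (fun j => star (v j)) (fun j => star (v' j)) i := by
  unfold qb
  simp only [Prod.snd_neg, Prod.fst_neg, neg_eq_zero]
  split_ifs <;> exact star_bt _ _ _ _

lemma Cb_neg {S : Finset (K × K)} (hS : ∀ P ∈ S, -P ∈ S) {x : K × K → C3}
    (hx : ∀ P i, x (-P) i = star (x P i)) (R : K × K) (i : Fin 3) :
    Cb S x (-R) i = star (Cb S x R i) := by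
  unfold Cb
  simp only [Finset.sum_apply, star_sum]
  refine Finset.sum_nbij' (fun P => -P) (fun P => -P) hS hS (fun P _ => neg_neg P)
    (fun P _ => neg_neg P) fun P _ => ?_
  rw [qb_neg]
  congr 1
  · funext j; rw [← hx, neg_neg]
  · funext j
    rw [← hx]
    congr 2
    abel

section
variable {c : ℝ} {S : Finset (K × K)} {w f : K × K → ℝ → C3} {β σ : ℝ}

lemma CApx.β0 (h : CApx c S w f β σ) : 0 ≤ β := by
  have := (norm_nonneg _).trans (h.bw 0 0 le_rfl)
  simpa using this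

/-- the forcing of the mean flow -/
noncomputable def Dk (S : Finset (K × K)) (w : K × K → ℝ → C3) (R : K × K) (s : ℝ) : C3 :=
  if R.2 = 0 then Cb S (fun P => w P s) R else 0

/-- the correction of the mean flow -/
noncomputable def kc (S : Finset (K × K)) (w : K × K → ℝ → C3) (R : K × K) (τ : ℝ) : C3 :=
  -((∫ s in Ioi 0, Dk S w R s) - ∫ s in (0 : ℝ)..τ, Dk S w R s)

lemma CApx.tot_le (h : CApx c S w f β σ) {s : ℝ} (hs : 0 ≤ s) :
    tot S (fun P => w P s) ≤ S.card * β * Real.exp (-(σ * s)) := by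
  unfold tot
  calc _ ≤ ∑ P ∈ S, β * Real.exp (-(σ * s)) := Finset.sum_le_sum fun P _ => h.bw P s hs
    _ = _ := by rw [Finset.sum_const, nsmul_eq_mul]; ring

lemma tot_cont (h : CApx c S w f β σ) : Continuous fun s => tot S (fun P => w P s) := by
  unfold tot
  exact continuous_finsetSum _ fun P _ => (h.cw P).norm

lemma Dk_cont (h : CApx c S w f β σ) (R : K × K) : Continuous (Dk S w R) := by
  unfold Dk
  by_cases hR : R.2 = 0
  · simp only [hR, if_true]
    exact Cb_cont S h.cw R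
  · simp only [hR, if_false]
    exact continuous_const

lemma Dk_le (h : CApx c S w f β σ) {R : K × K} {Lm : ℝ} (hL : nk R.1 ≤ Lm) {s : ℝ} (hs : 0 ≤ s) :
    ‖Dk S w R s‖ ≤ C0 * Lm * (S.card * β) ^ 2 * Real.exp (-(σ * s)) := by
  have hC := C0_pos
  have hL0 : 0 ≤ Lm := (nk_nonneg _).trans hL
  have hβ := h.β0
  unfold Dk
  split_ifs with hR
  · refine (norm_Cb_le (fun P hP => h.w0 P hP s) R).trans ?_
    rw [hR, nk_zero, add_zero]
    have h1 := h.tot_le hs
    have h0 := tot_nonneg S (fun P => w P s)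
    have he : Real.exp (-(σ * s)) ≤ 1 := by
      rw [Real.exp_le_one_iff]
      have := mul_nonneg h.hσ.le hs
      linarith
    have hep := Real.exp_pos (-(σ * s))
    have h2 : tot S (fun P => w P s) ^ 2 ≤ (S.card * β) ^ 2 * Real.exp (-(σ * s)) := by
      calc _ ≤ (S.card * β * Real.exp (-(σ * s))) ^ 2 := by gcongr
        _ = (S.card * β) ^ 2 * (Real.exp (-(σ * s)) * Real.exp (-(σ * s))) := by ring
        _ ≤ (S.card * β) ^ 2 * (Real.exp (-(σ * s)) * 1) := by gcongr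
        _ = _ := by ring
    calc C0 * nk R.1 * tot S (fun P => w P s) ^ 2 ≤ C0 * Lm * ((S.card * β) ^ 2 * Real.exp (-(σ * s))) := by
          gcongr
      _ = _ := by ring
  · rw [norm_zero]; positivity

lemma exp_int {σ : ℝ} (hσ : 0 < σ) (B τ : ℝ) :
    IntegrableOn (fun s => B * Real.exp (-(σ * s))) (Ioi τ) := by
  have : IntegrableOn (fun s => Real.exp (-σ * s)) (Ioi τ) := exp_neg_integrableOn_Ioi τ hσ
  have h2 := this.const_mul B
  simp only [neg_mul] at h2
  exact h2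

lemma Dk_int (h : CApx c S w f β σ) (R : K × K) {τ : ℝ} (hτ : 0 ≤ τ) : IntegrableOn (Dk S w R) (Ioi τ) := by
  refine Integrable.mono' (exp_int h.hσ (C0 * nk R.1 * (S.card * β) ^ 2) τ)
    (Dk_cont h R).aestronglyMeasurable ?_
  refine (ae_restrict_iff' measurableSet_Ioi).2 (Filter.Eventually.of_forall fun s hs => ?_)
  exact Dk_le h le_rfl (hτ.trans (le_of_lt hs))

lemma kc_eq (h : CApx c S w f β σ) (R : K × K) {τ : ℝ} (hτ : 0 ≤ τ) :
    kc S w R τ = -∫ s in Ioi τ, Dk S w R s := by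
  unfold kc
  congr 1
  rw [sub_eq_iff_eq_add, intervalIntegral.integral_of_le hτ, add_comm]
  rw [← setIntegral_union (Ioc_disjoint_Ioi le_rfl) measurableSet_Ioi
    ((Dk_int h R le_rfl).mono_set Ioc_subset_Ioi_self) (Dk_int h R hτ), Ioc_union_Ioi_eq_Ioi hτ]

lemma kc_le (h : CApx c S w f β σ) {R : K × K} {Lm : ℝ} (hL : nk R.1 ≤ Lm) {τ : ℝ} (hτ : 0 ≤ τ) :
    ‖kc S w R τ‖ ≤ C0 * Lm * (S.card * β) ^ 2 / σ * Real.exp (-(σ * τ)) := by
  rw [kc_eq h R hτ, norm_neg]
  have hσ := h.hσ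
  have h1 : ‖∫ s in Ioi τ, Dk S w R s‖ ≤ ∫ s in Ioi τ, C0 * Lm * (S.card * β) ^ 2 * Real.exp (-(σ * s)) := by
    refine norm_integral_le_of_norm_le (exp_int hσ _ _) ?_
    refine (ae_restrict_iff' measurableSet_Ioi).2 (Filter.Eventually.of_forall fun s hs => ?_)
    exact Dk_le h hL (hτ.trans (le_of_lt hs))
  refine h1.trans (le_of_eq ?_)
  rw [integral_const_mul]
  have h2 : ∫ s in Ioi τ, Real.exp (-(σ * s)) = Real.exp (-(σ * τ)) / σ := by
    have := integral_exp_mul_Ioi (neg_lt_zero.2 hσ) τ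
    simp only [neg_mul] at this
    rw [this, neg_div, div_neg, neg_neg]
  rw [h2]; ring

lemma kc_cont (h : CApx c S w f β σ) (R : K × K) : Continuous (kc S w R) := by
  unfold kc
  exact (continuous_const.sub (intervalIntegral.continuous_primitive
      (fun a b => (Dk_cont h R).intervalIntegrable a b) 0)).neg

lemma kc_deriv (h : CApx c S w f β σ) (R : K × K) (τ : ℝ) : HasDerivAt (kc S w R) (Dk S w R τ) τ := by
  have h1 : HasDerivAt (fun u => ∫ s in (0 : ℝ)..u, Dk S w R s) (Dk S w R τ) τ :=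
    intervalIntegral.integral_hasDerivAt_right ((Dk_cont h R).intervalIntegrable _ _)
      (Dk_cont h R).aestronglyMeasurable.stronglyMeasurableAtFilter (Dk_cont h R).continuousAt
  have h2 := (h1.const_sub (∫ s in Ioi 0, Dk S w R s)).fun_neg
  refine h2.congr_deriv ?_
  rw [neg_neg]

lemma kc_high {R : K × K} (hR : R.2 ≠ 0) (τ : ℝ) : kc S w R τ = 0 := by
  unfold kc Dk
  simp [hR]

/-- the projection orthogonal to a frequency -/
noncomputable def pr (κ : K) (v : C3) : C3 := fun i => v i - (κ i : ℂ) * dt κ v / ((H356R3.NS.sq κ : ℝ) : ℂ)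

lemma dt_le (κ : K) (v : C3) : ‖dt κ v‖ ≤ 3 * nk κ * ‖v‖ := by
  unfold dt
  calc ‖∑ j, (κ j : ℂ) * v j‖ ≤ ∑ j : Fin 3, ‖(κ j : ℂ) * v j‖ := norm_sum_le _ _
    _ ≤ ∑ j : Fin 3, nk κ * ‖v‖ := by
        refine Finset.sum_le_sum fun j _ => ?_
        rw [norm_mul, Complex.norm_intCast]
        exact mul_le_mul (abs_le_nk κ j) (norm_le_pi_norm v j) (norm_nonneg _) (nk_nonneg _)
    _ = _ := by simp; ring

lemma dt_add_left (k l : K) (v : C3) : dt (k + l) v = dt k v + dt l v := by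
  unfold dt
  rw [← Finset.sum_add_distrib]
  exact Finset.sum_congr rfl fun j _ => by simp; ring

lemma dt_zsmul (N : ℕ) (k : K) (v : C3) : dt ((N : ℤ) • k) v = N * dt k v := by
  unfold dt
  rw [Finset.mul_sum]
  exact Finset.sum_congr rfl fun j _ => by simp; ring

lemma pr_sub_le {N : ℕ} {P : K × K} (h : P.2 ≠ 0) {Lm : ℝ} (hL : nk P.1 ≤ Lm) (hN : 2 * Lm ≤ N) (hN1 : 1 ≤ N)
    {v : C3} (hv : dt P.2 v = 0) : ‖(N : ℝ) • (pr (kp N P) v - v)‖ ≤ 6 * Lm * ‖v‖ := by
  have hNr : (1 : ℝ) ≤ N := by exact_mod_cast hN1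
  have hL0 : 0 ≤ Lm := (nk_nonneg _).trans hL
  have hN' : 2 * nk P.1 ≤ N := (mul_le_mul_of_nonneg_left hL (by norm_num)).trans hN
  have hκ := kp_ne h hN' hN1
  have hkp := kp_ge h hN'
  have n2 := one_le_nk h
  have nκ := nk_pos hκ
  rw [norm_smul, Real.norm_of_nonneg (by positivity)]
  have h1 : ‖pr (kp N P) v - v‖ ≤ 3 * Lm * ‖v‖ / nk (kp N P) := by
    rw [pi_norm_le_iff_of_nonneg (by positivity)]
    intro i
    have e : (pr (kp N P) v - v) i = -((kp N P i : ℂ) * dt (kp N P) v / ((H356R3.NS.sq (kp N P) : ℝ) : ℂ)) := by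
      simp only [pr, Pi.sub_apply]; ring
    rw [e, norm_neg, norm_div, norm_mul, Complex.norm_intCast, Complex.norm_real,
      Real.norm_of_nonneg (sq_nonneg' _), ← nk_mul_self]
    have e2 : dt (kp N P) v = dt P.1 v := by
      unfold kp
      rw [dt_add_left, dt_zsmul, hv, mul_zero, add_zero]
    rw [e2, div_le_div_iff₀ (by positivity) nκ]
    have h2 := abs_le_nk (kp N P) i
    have h3 : ‖dt P.1 v‖ ≤ 3 * Lm * ‖v‖ := (dt_le _ _).trans (by gcongr)
    have := mul_le_mul h2 h3 (norm_nonneg _) nκ.le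
    nlinarith
  calc (N : ℝ) * ‖pr (kp N P) v - v‖ ≤ N * (3 * Lm * ‖v‖ / nk (kp N P)) := by gcongr
    _ ≤ 6 * Lm * ‖v‖ := by
        rw [mul_div_assoc', div_le_iff₀ nκ]
        have h5 : (N : ℝ) ≤ 2 * nk (kp N P) := by nlinarith
        have h6 : 0 ≤ 3 * Lm * ‖v‖ := by positivity
        nlinarith

lemma sq_kp_sub {N : ℕ} {P : K × K} (h : P.2 ≠ 0) {Lm : ℝ} (hL : nk P.1 ≤ Lm) (hN : 2 * Lm ≤ N) :
    |H356R3.NS.sq (kp N P) - N ^ 2 * H356R3.NS.sq P.2| ≤ 3 * Lm * nk (kp N P) := by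
  have hN' : 2 * nk P.1 ≤ N := (mul_le_mul_of_nonneg_left hL (by norm_num)).trans hN
  have hkp := kp_ge h hN'
  have h1 : (N : ℝ) ^ 2 * H356R3.NS.sq P.2 = nk ((N : ℤ) • P.2) * nk ((N : ℤ) • P.2) := by
    rw [nk_nsmul, ← nk_mul_self]; ring
  have ha : nk (kp N P) ≤ nk ((N : ℤ) • P.2) + nk P.1 := by
    unfold kp; rw [add_comm]; exact nk_add _ _
  have hb : nk ((N : ℤ) • P.2) ≤ nk (kp N P) + nk P.1 := by
    have : (N : ℤ) • P.2 = kp N P + (-P.1) := by unfold kp; abel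
    rw [this, ← H356R3.NS.nk_neg P.1]
    exact nk_add _ _
  rw [h1, ← nk_mul_self]
  set a := nk (kp N P)
  have hc2 : nk ((N : ℤ) • P.2) ≤ 2 * a := by
    rw [nk_nsmul]; linarith
  set b := nk ((N : ℤ) • P.2)
  have ha0 : 0 ≤ a := nk_nonneg _
  have hb0 : 0 ≤ b := nk_nonneg _
  have hL0 : 0 ≤ nk P.1 := nk_nonneg _
  have e : a * a - b * b = (a - b) * (a + b) := by ring
  rw [e, abs_mul, abs_of_nonneg (by linarith : 0 ≤ a + b)]
  have h2 : |a - b| ≤ Lm := by rw [abs_le]; constructor <;> linarith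
  calc |a - b| * (a + b) ≤ Lm * (3 * a) := by
        apply mul_le_mul h2 (by linarith) (by linarith) (by linarith)
    _ = _ := by ring

end

end Pool.Agent.U162.TS
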