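import Pool.Agent.U162.TS.Phys

/-!
Explicit solutions of the cell problem: waves which do not interact.
-/

open MeasureTheory Set Filter Topology
open scoped ENNReal NNReal

namespace Pool.Agent.U162.TS

open Pool.Agent.H356R3.NS

/-- The waves of the profile do not interact in the fast variable: for `(l,k), (l',k') ∈ S` with
`k + k' ≠ 0`, the vector `(k'·b) b' + (k·b') b` is parallel to `k + k'`. -/
def NonInt (b : Fq × Fq → Fin 3 → ℂ) (S : Finset (Fq × Fq)) : Prop :=
  ∀ P ∈ S, ∀ Q ∈ S, P.2 + Q.2 ≠ 0 →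
    leray (P.2 + Q.2) (fun i => (∑ j, (Q.2 j : ℂ) * b P j) * b Q i + (∑ j, (P.2 j : ℂ) * b Q j) * b P i) = 0

lemma bt_leray (κ : K) (v v' : C3) : bt κ v v' = (-(2 * Real.pi * Complex.I) * dt κ v) • pr κ v' := by
  funext i
  rw [bt_eq]
  rfl

lemma pr_add (κ : K) (v v' : C3) : pr κ (v + v') = pr κ v + pr κ v' := by
  funext i
  simp only [pr, Pi.add_apply, dt_add']
  ring

lemma dt_csmul (κ : K) (a : ℂ) (v : C3) : dt κ (a • v) = a * dt κ v := by
  unfold dt
  rw [Finset.mul_sum]
  exact Finset.sum_congr rfl fun j _ => by simp; ring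

lemma pr_csmul (κ : K) (a : ℂ) (v : C3) : pr κ (a • v) = a • pr κ v := by
  funext i
  simp only [pr, Pi.smul_apply, dt_csmul, smul_eq_mul]
  ring

/-- the wave -/
noncomputable def wE (c : ℝ) (b : K × K → C3) (P : K × K) (s : ℝ) : C3 :=
  Real.exp (-(c * H356R3.NS.sq P.2 * s)) • b P

variable {c : ℝ} {b : K × K → C3} {S : Finset (K × K)}

lemma bt_ni (hb : Prof b S) (h : NonInt b S) {R : K × K} (hR : R.2 ≠ 0) (P : K × K) :
    bt R.2 (b P) (b (R - P)) + bt R.2 (b (R - P)) (b P) = 0 := by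
  by_cases h1 : P ∈ S
  · by_cases h2 : R - P ∈ S
    · have h3 := h P h1 (R - P) h2 (by simpa using hR)
      have e : P.2 + (R - P).2 = R.2 := by simp
      rw [e] at h3
      have d1 : dt R.2 (b P) = ∑ j, ((R - P).2 j : ℂ) * b P j := by
        have h4 : R.2 = P.2 + (R - P).2 := by simp
        have h5 : dt R.2 (b P) = dt P.2 (b P) + dt (R - P).2 (b P) := by
          conv_lhs => rw [h4]
          exact dt_add_left _ _ _
        rw [h5]
        have h6 : dt P.2 (b P) = 0 := hb.div P
        rw [h6, zero_add]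
        rfl
      have d2 : dt R.2 (b (R - P)) = ∑ j, (P.2 j : ℂ) * b (R - P) j := by
        have h4 : R.2 = (R - P).2 + P.2 := by simp
        have h5 : dt R.2 (b (R - P)) = dt (R - P).2 (b (R - P)) + dt P.2 (b (R - P)) := by
          conv_lhs => rw [h4]
          exact dt_add_left _ _ _
        rw [h5]
        have h6 : dt (R - P).2 (b (R - P)) = 0 := hb.div (R - P)
        rw [h6, zero_add]
        rfl
      have h7 : pr R.2 ((∑ j, ((R - P).2 j : ℂ) * b P j) • b (R - P) + (∑ j, (P.2 j : ℂ) * b (R - P) j) • b P) = 0 := h3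
      rw [← d1, ← d2, pr_add, pr_csmul, pr_csmul] at h7
      rw [bt_leray, bt_leray, mul_smul, mul_smul, ← smul_add, h7, smul_zero]
    · rw [hb.supp _ h2, bt_zero_l, bt_zero_r, add_zero]
  · rw [hb.supp _ h1, bt_zero_l, bt_zero_r, add_zero]

lemma qb_smul (R : K × K) (x y : ℝ) (v v' : C3) : qb R (x • v) (y • v') = (x * y) • qb R v v' := by
  unfold qb; split_ifs <;> exact bt_smul _ _ _ _ _

lemma qb_zero_l (R : K × K) (v : C3) : qb R 0 v = 0 := by
  unfold qb; split_ifs <;> exact bt_zero_l _ _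

lemma qb_zero_r (R : K × K) (v : C3) : qb R v 0 = 0 := by
  unfold qb; split_ifs <;> exact bt_zero_r _ _

lemma full_wE (hb : Prof b S) (R : K × K) (s : ℝ) : full (wE c b) R s =
    ∑ P ∈ S, Real.exp (-((c * H356R3.NS.sq P.2 + c * H356R3.NS.sq (R - P).2) * s)) • qb R (b P) (b (R - P)) := by
  unfold full wE
  rw [tsum_eq_sum (s := S)]
  · refine Finset.sum_congr rfl fun P _ => ?_
    rw [qb_smul, ← Real.exp_add]
    congr 2
    ring
  · intro P hP
    rw [hb.supp P hP, smul_zero, qb_zero_l]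

lemma full_wE_high (hb : Prof b S) (h : NonInt b S) {R : K × K} (hR : R.2 ≠ 0) (s : ℝ) :
    full (wE c b) R s = 0 := by
  have hs : Summable fun P => qb R (wE c b P s) (wE c b (R - P) s) :=
    summable_of_ne_finset_zero (s := S) fun P hP => by
      unfold wE; rw [hb.supp P hP, smul_zero, qb_zero_l]
  have h1 : full (wE c b) R s = ∑' P, qb R (wE c b (R - P) s) (wE c b P s) := by
    unfold full
    rw [← (Equiv.subLeft R).tsum_eq]
    refine tsum_congr fun P => ?_
    simp only [Equiv.subLeft_apply, sub_sub_cancel]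
  have hs2 : Summable fun P => qb R (wE c b (R - P) s) (wE c b P s) := by
    refine summable_of_ne_finset_zero (s := S) fun P hP => ?_
    unfold wE; rw [hb.supp P hP, smul_zero, qb_zero_r]
  have h2 : full (wE c b) R s + full (wE c b) R s = 0 := by
    nth_rewrite 2 [h1]
    unfold full
    rw [← hs.tsum_add hs2]
    have : ∀ P, qb R (wE c b P s) (wE c b (R - P) s) + qb R (wE c b (R - P) s) (wE c b P s) = 0 := by
      intro P
      unfold wE
      rw [qb_smul, qb_smul, mul_comm (Real.exp (-(c * H356R3.NS.sq (R - P).2 * s))), ← smul_add]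
      have : qb R (b P) (b (R - P)) + qb R (b (R - P)) (b P) = 0 := by
        unfold qb
        rw [if_neg hR, if_neg hR]
        exact bt_ni hb h hR P
      rw [this, smul_zero]
    simp [this]
  have h3 : (2 : ℂ) • full (wE c b) R s = 0 := by rw [two_smul]; exact h2
  exact (smul_eq_zero.1 h3).resolve_left two_ne_zero

lemma wE_flow (hc : 0 < c) (hb : Prof b S) (h : NonInt b S) : CellFlow c (wE c b) c := by
  have hfs : ∀ s P, P ∉ S → ‖wE c b P s‖ = 0 := fun s P hP => by
    unfold wE; rw [hb.supp P hP]; simp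
  have hle : ∀ P s, 0 ≤ s → ‖wE c b P s‖ ≤ ‖b P‖ * Real.exp (-(c * s)) := by
    intro P s hs
    by_cases hP : P.2 = 0
    · unfold wE; rw [hb.mean P hP]; simp
    · unfold wE
      rw [norm_smul, Real.norm_of_nonneg (Real.exp_pos _).le, mul_comm]
      apply mul_le_mul_of_nonneg_left _ (norm_nonneg _)
      apply Real.exp_le_exp.2
      have h1 := one_le_sq hP
      have h2 : c * 1 * s ≤ c * H356R3.NS.sq P.2 * s := by gcongr
      linarith
  refine ⟨hc, fun P hP s => ?_, fun P => ?_, fun R => ?_, fun P s i => ?_, fun P => ?_, fun P hP s _ => ?_,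
    ⟨∑ P ∈ S, ‖b P‖, fun P s hs => ?_⟩, fun s => ?_, ?_⟩
  · unfold wE; rw [hb.mean P hP, smul_zero]
  · unfold wE; fun_prop
  · have : full (wE c b) R = fun s => ∑ P ∈ S, Real.exp (-((c * H356R3.NS.sq P.2 + c * H356R3.NS.sq (R - P).2) * s)) •
      qb R (b P) (b (R - P)) := funext fun s => full_wE hb R s
    rw [this]
    exact continuous_finsetSum _ fun P _ => by fun_prop
  · unfold wE
    simp only [Prod.snd_neg, H356R3.NS.sq_neg, Pi.smul_apply, star_smul, star_trivial, hb.real]
  · unfold wE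
    rw [dt_smul']
    have : dt P.2 (b P) = 0 := hb.div P
    rw [this, mul_zero]
  · rw [full_wE_high hb h hP, add_zero]
    have h2 : HasDerivAt (fun u => Real.exp (-(c * H356R3.NS.sq P.2 * u)))
        (Real.exp (-(c * H356R3.NS.sq P.2 * s)) * -(c * H356R3.NS.sq P.2)) s := by
      have : HasDerivAt (fun u : ℝ => -(c * H356R3.NS.sq P.2 * u)) (-(c * H356R3.NS.sq P.2)) s := by
        simpa using ((hasDerivAt_id' s).const_mul (c * H356R3.NS.sq P.2)).fun_neg
      exact this.exp
    refine (h2.smul_const (b P)).congr_deriv ?_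
    unfold wE
    rw [smul_smul, mul_comm]
  · refine (hle P s hs).trans (mul_le_mul_of_nonneg_right ?_ (Real.exp_pos _).le)
    by_cases hP : P ∈ S
    · exact Finset.single_le_sum (f := fun P => ‖b P‖) (fun _ _ => norm_nonneg _) hP
    · rw [hb.supp P hP, norm_zero]; exact Finset.sum_nonneg fun _ _ => norm_nonneg _
  · exact summable_of_ne_finset_zero (s := S) fun P hP => hfs s P hP
  · have h1 : ∀ s, 0 ≤ s → ∑' P, ‖wE c b P s‖ₑ ≤ ENNReal.ofReal ((∑ P ∈ S, ‖b P‖) * Real.exp (-(c * max s 0))) := by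
      intro s hs
      rw [tsum_eq_sum (s := S) fun P hP => by
        rw [← ofReal_norm, hfs s P hP]; simp]
      rw [Finset.sum_mul, ENNReal.ofReal_sum_of_nonneg fun P _ => by positivity]
      refine Finset.sum_le_sum fun P _ => ?_
      rw [← ofReal_norm, max_eq_left hs]
      exact ENNReal.ofReal_le_ofReal (hle P s hs)
    have h2 : ∫⁻ s in Ioi (0 : ℝ), (∑' P, ‖wE c b P s‖ₑ) * ∑' P, ‖wE c b P s‖ₑ
        ≤ ∫⁻ s in Ioi (0 : ℝ), ENNReal.ofReal ((∑ P ∈ S, ‖b P‖) ^ 2 * Real.exp (-(2 * c * max s 0))) := by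
      refine setLIntegral_mono' measurableSet_Ioi fun s hs => ?_
      have hB : 0 ≤ ∑ P ∈ S, ‖b P‖ := Finset.sum_nonneg fun _ _ => norm_nonneg _
      refine (mul_le_mul' (h1 s (le_of_lt hs)) (h1 s (le_of_lt hs))).trans (le_of_eq ?_)
      rw [← ENNReal.ofReal_mul (by positivity)]
      congr 1
      rw [show -(2 * c * max s 0) = -(c * max s 0) + -(c * max s 0) by ring, Real.exp_add]
      ring
    refine ne_top_of_le_ne_top ?_ h2
    rw [lint_E (by positivity) (by positivity)]
    exact ENNReal.ofReal_ne_top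

/-- The total effect of the waves on the mean flow: the Fourier coefficients of
`-P div_x ∫_0^∞ ∫ W ⊗ W dy ds`, where `W` is the heat flow (in the fast variable `y`) of the profile. -/
noncomputable def effect (ν : ℝ) (b : Fq × Fq → Fin 3 → ℂ) (S : Finset (Fq × Fq)) (l : Fq) (i : Fin 3) : ℂ :=
  ∑ P ∈ S, -(2 * Real.pi * Complex.I) * (∑ j, (l j : ℂ) * b P j) * leray l (b (l - P.1, -P.2)) i
    / ((8 * Real.pi ^ 2 * ν * ∑ j, (P.2 j : ℝ) ^ 2 : ℝ) : ℂ)

lemma Kick_wE {ν : ℝ} (hν : 0 < ν) (hb : Prof b S) (l : K) (i : Fin 3) :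
    Kick (wE (4 * Real.pi ^ 2 * ν) b) l i = effect ν b S l i := by
  have hc : 0 < 4 * Real.pi ^ 2 * ν := by positivity
  set c := 4 * Real.pi ^ 2 * ν with hcd
  unfold Kick
  have e1 : ∀ s, full (wE c b) (l, 0) s = ∑ P ∈ S, Real.exp (-((2 * c * H356R3.NS.sq P.2) * s)) •
      bt l (b P) (b (l - P.1, -P.2)) := by
    intro s
    rw [full_wE hb]
    refine Finset.sum_congr rfl fun P _ => ?_
    have e2 : ((l, 0) : K × K) - P = (l - P.1, -P.2) := by
      ext <;> simp
    rw [e2]
    simp only [H356R3.NS.sq_neg]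
    have e3 : qb (l, 0) (b P) (b (l - P.1, -P.2)) = bt l (b P) (b (l - P.1, -P.2)) := by
      unfold qb; rw [if_pos rfl]
    rw [e3]
    congr 3
    ring
  simp only [e1]
  have hi : ∀ P ∈ S, IntegrableOn (fun s => Real.exp (-((2 * c * H356R3.NS.sq P.2) * s)) •
      bt l (b P) (b (l - P.1, -P.2))) (Ioi 0) := by
    intro P _
    by_cases hP : P.2 = 0
    · have : b P = 0 := hb.mean P hP
      simp only [this, bt_zero_l, smul_zero]
      exact integrableOn_zero
    · have h1 : 0 < 2 * c * H356R3.NS.sq P.2 := by have := H356R3.NS.sq_pos hP; positivity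
      have h2 := exp_int h1 1 0
      simp only [one_mul] at h2
      exact h2.smul_const _
  rw [integral_finsetSum S hi, Finset.sum_apply]
  unfold effect
  refine Finset.sum_congr rfl fun P _ => ?_
  rw [integral_smul_const]
  by_cases hP : P.2 = 0
  · have : b P = 0 := hb.mean P hP
    rw [this, bt_zero_l]
    simp
  · have h1 : 0 < 2 * c * H356R3.NS.sq P.2 := by have := H356R3.NS.sq_pos hP; positivity
    have h2 : ∫ s in Ioi (0 : ℝ), Real.exp (-((2 * c * H356R3.NS.sq P.2) * s)) = 1 / (2 * c * H356R3.NS.sq P.2) := by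
      have := integral_exp_mul_Ioi (neg_lt_zero.2 h1) 0
      simp only [neg_mul] at this
      rw [this]
      simp
    rw [h2, bt_leray]
    simp only [Pi.smul_apply, smul_eq_mul]
    rw [Complex.real_smul]
    have e4 : (8 * Real.pi ^ 2 * ν * ∑ j, (P.2 j : ℝ) ^ 2 : ℝ) = 2 * c * H356R3.NS.sq P.2 := by
      rw [hcd]; unfold H356R3.NS.sq; ring
    rw [e4]
    have e5 : dt l (b P) = ∑ j, (l j : ℂ) * b P j := rfl
    rw [e5, leray_eq]
    push_cast
    ring

end Pool.Agent.U162.TS
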