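import Pool.Agent.U162.TS.Piece

/-!
The two-scale approximation.
-/

open MeasureTheory Set Filter Topology
open scoped ENNReal NNReal

namespace Pool.Agent.U162.TS

open Pool.Agent.H356R3.NS

variable {c : ℝ} {S : Finset (K × K)} {w f : K × K → ℝ → C3} {β σ : ℝ}

/-- the density of the residual of the cell problem -/
noncomputable def rho (S : Finset (K × K)) (w f : K × K → ℝ → C3) (s : ℝ) : ℝ :=
  ∑ R ∈ TT S, 1 / nk R.2 * ‖Cb S (fun P => w P s) R - f R s‖

lemma rho_cont (h : CApx c S w f β σ) : Continuous (rho S w f) := by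
  unfold rho
  refine continuous_finsetSum _ fun R _ => continuous_const.mul ?_
  exact ((Cb_cont S h.cw R).sub (h.cf R)).norm

lemma rho_nonneg (s : ℝ) : 0 ≤ rho S w f s :=
  Finset.sum_nonneg fun R _ => mul_nonneg (one_div_nonneg.2 (nk_nonneg _)) (norm_nonneg _)

/-- the constant in the residual estimate -/
noncomputable def C1 (c : ℝ) (S : Finset (K × K)) (β σ : ℝ) : ℝ :=
  14 * C0 * Lm S * (TT S).card * (S.card * β) ^ 2 + (TT S).card * (3 * c * Lm S * β
    + c * Lm S * (C0 * Lm S * (S.card * β) ^ 2 / σ))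

lemma C1_nonneg (hc : 0 ≤ c) (h : CApx c S w f β σ) : 0 ≤ C1 c S β σ := by
  have h1 := h.β0
  have h2 := h.hσ
  have h3 := C0_pos
  have h4 := Lm_nonneg S
  unfold C1; positivity

lemma z_res_pt (hc : 0 ≤ c) (h : CApx c S w f β σ) {N : ℕ} (hN1 : 1 ≤ N) (hN : 2 * Lm S ≤ N) {t : ℝ}
    (ht : 0 < t) :
    NW (Wm 0) (at' (Bt (FM N (TT S) (zφ w N)) - (FM N (TT S) (zγ c w f N) + FM N (TT S) (vγ c S w N))) t)
      ≤ ENNReal.ofReal (C1 c S β σ * N * Real.exp (-(σ * N ^ 2 * max t 0)))
        + 2 * (ENNReal.ofReal (N ^ 2) * ENNReal.ofReal (rho S w f ((N : ℝ) ^ 2 * t))) := by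
  have hNr : (1 : ℝ) ≤ N := by exact_mod_cast hN1
  have hβ := h.β0
  have hσ := h.hσ
  have hC := C0_pos
  have hL := Lm_nonneg S
  set s := (N : ℝ) ^ 2 * t with hs
  have hs0 : 0 < s := by positivity
  set E := Real.exp (-(σ * N ^ 2 * max t 0)) with hE
  have hEs : Real.exp (-(σ * s)) = E := by
    rw [hE, max_eq_left ht.le, hs]; congr 2; ring
  have hE0 : 0 < E := Real.exp_pos _
  have hE1 : E ≤ 1 := by
    rw [← hEs, Real.exp_le_one_iff]
    have : 0 ≤ σ * s := by positivity
    linarith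
  have hz : at' (FM N (TT S) (zφ w N)) t = lf N S fun P => (N : ℝ) • (fun P => w P s) P := by
    rw [at'_FM, max_eq_left ht.le, lf_sub (sub_TT S) fun P hP => by unfold zφ; rw [h.w0 P hP]; simp]
    rfl
  have hg : at' (FM N (TT S) (zγ c w f N) + FM N (TT S) (vγ c S w N)) t
      = (lf N (TT S) fun R => if R.2 = 0 then (N : ℝ) ^ 2 • Cb S (fun P => w P s) R
          else (N : ℝ) ^ 3 • (fun R => f R s) R)
        + lf N (TT S) fun R => (c * N * (H356R3.NS.sq (kp N R) - N ^ 2 * H356R3.NS.sq R.2)) • w R s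
            + (c * H356R3.NS.sq (kp N R)) • kc S w R s := by
    have e1 : at' (FM N (TT S) (zγ c w f N) + FM N (TT S) (vγ c S w N)) t
        = (lf N (TT S) fun R => zγ c w f N R t) + lf N (TT S) fun R => vγ c S w N R t := by
      have : at' (FM N (TT S) (zγ c w f N) + FM N (TT S) (vγ c S w N)) t
        = at' (FM N (TT S) (zγ c w f N)) t + at' (FM N (TT S) (vγ c S w N)) t := rfl
      rw [this, at'_FM, at'_FM, max_eq_left ht.le]
    rw [e1, lf_add, lf_add]
    congr 1
    funext R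
    simp only [zγ, vγ, ← hs]
    by_cases hR : R.2 = 0
    · have hRS : R ∉ S := fun hRS => h.k0 R hRS hR
      simp only [Dk, hR, if_true, h.f0 R hRS, h.w0 R hRS, smul_zero, zero_add]
    · simp only [Dk, hR, if_false, smul_zero, kc_high hR, zero_add]
      abel
  have e : at' (Bt (FM N (TT S) (zφ w N)) - (FM N (TT S) (zγ c w f N) + FM N (TT S) (vγ c S w N))) t
      = (Bf (lf N S fun P => (N : ℝ) • (fun P => w P s) P) (lf N S fun P => (N : ℝ) • (fun P => w P s) P)
        - lf N (TT S) fun R => if R.2 = 0 then (N : ℝ) ^ 2 • Cb S (fun P => w P s) R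
          else (N : ℝ) ^ 3 • (fun R => f R s) R)
        - lf N (TT S) fun R => (c * N * (H356R3.NS.sq (kp N R) - N ^ 2 * H356R3.NS.sq R.2)) • w R s
            + (c * H356R3.NS.sq (kp N R)) • kc S w R s := by
    have e1 : at' (Bt (FM N (TT S) (zφ w N)) - (FM N (TT S) (zγ c w f N) + FM N (TT S) (vγ c S w N))) t
      = Bf (at' (FM N (TT S) (zφ w N)) t) (at' (FM N (TT S) (zφ w N)) t)
        - at' (FM N (TT S) (zγ c w f N) + FM N (TT S) (vγ c S w N)) t := rfl
    rw [e1, hg, hz]
    abel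
  rw [e]
  refine (NW_sub_le _ _ _).trans ?_
  have b1 := main_est hN1 (S := S) (T := TT S) add_TT (fun R hR => le_Lm hR) hN
    (x := fun P => w P s) (g := fun R => f R s) fun P hP => h.w0 P hP s
  have ht1 := h.tot_le hs0.le
  have ht0 := tot_nonneg S fun P => w P s
  rw [hEs] at ht1
  have ht2 : tot S (fun P => w P s) ^ 2 ≤ (S.card * β) ^ 2 * E := by
    calc _ ≤ (S.card * β * E) ^ 2 := by gcongr
      _ = (S.card * β) ^ 2 * (E * E) := by ring
      _ ≤ (S.card * β) ^ 2 * (E * 1) := by gcongr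
      _ = _ := by ring
  have b2 : NW (Wm 0) (lf N (TT S) fun R => (c * N * (H356R3.NS.sq (kp N R) - N ^ 2 * H356R3.NS.sq R.2)) • w R s
            + (c * H356R3.NS.sq (kp N R)) • kc S w R s)
      ≤ ENNReal.ofReal ((TT S).card * (3 * c * Lm S * β + c * Lm S * (C0 * Lm S * (S.card * β) ^ 2 / σ)) * N * E) := by
    refine (NW_lf_le _ _ _ _).trans ?_
    have hterm : ∀ R ∈ TT S, Wm 0 (kp N R) * ‖(c * N * (H356R3.NS.sq (kp N R) - N ^ 2 * H356R3.NS.sq R.2)) • w R s
            + (c * H356R3.NS.sq (kp N R)) • kc S w R s‖ₑ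
        ≤ ENNReal.ofReal ((3 * c * Lm S * β + c * Lm S * (C0 * Lm S * (S.card * β) ^ 2 / σ)) * N * E) := by
      intro R hR
      unfold Wm
      rw [← ofReal_norm, ← ENNReal.ofReal_mul (div_nonneg (om_pos _ _).le (nk_nonneg _))]
      apply ENNReal.ofReal_le_ofReal
      have ho : om 0 (kp N R) = 1 := by simp [om]
      rw [ho]
      by_cases hR2 : R.2 = 0
      · have hRS : R ∉ S := fun hRS => h.k0 R hRS hR2
        rw [h.w0 R hRS, smul_zero, zero_add, kp_low N hR2, norm_smul,
          Real.norm_of_nonneg (mul_nonneg hc (sq_nonneg' _))]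
        have hk := kc_le h (le_Lm hR) hs0.le
        rw [hEs] at hk
        have hn := nk_nonneg R.1
        have hle := le_Lm hR
        calc 1 / nk R.1 * (c * H356R3.NS.sq R.1 * ‖kc S w R s‖) ≤ c * Lm S * ‖kc S w R s‖ := by
              rw [← nk_mul_self]
              by_cases h0 : nk R.1 = 0
              · rw [h0]
                have := norm_nonneg (kc S w R s)
                simp only [mul_zero, zero_mul]
                positivity
              · have : 1 / nk R.1 * (c * (nk R.1 * nk R.1) * ‖kc S w R s‖) = c * nk R.1 * ‖kc S w R s‖ := by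
                  field_simp
                rw [this]
                gcongr
          _ ≤ c * Lm S * (C0 * Lm S * (S.card * β) ^ 2 / σ * E) := by gcongr
          _ = (0 + c * Lm S * (C0 * Lm S * (S.card * β) ^ 2 / σ)) * 1 * E := by ring
          _ ≤ _ := by gcongr; positivity
      · rw [kc_high hR2, smul_zero, add_zero, norm_smul, Real.norm_eq_abs, abs_mul,
          abs_of_nonneg (by positivity : 0 ≤ c * (N : ℝ))]
        have h1 := sq_kp_sub hR2 (le_Lm hR) hN
        have hκ := nk_pos (kp_ne hR2 ((mul_le_mul_of_nonneg_left (le_Lm hR) (by norm_num)).trans hN) hN1)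
        have hb := h.bw R s hs0.le
        rw [hEs] at hb
        calc 1 / nk (kp N R) * (c * N * |H356R3.NS.sq (kp N R) - N ^ 2 * H356R3.NS.sq R.2| * ‖w R s‖)
            ≤ 1 / nk (kp N R) * (c * N * (3 * Lm S * nk (kp N R)) * (β * E)) := by gcongr
          _ = (3 * c * Lm S * β + 0) * N * E := by field_simp; ring
          _ ≤ _ := by gcongr; positivity
    refine (Finset.sum_le_sum hterm).trans ?_
    rw [Finset.sum_const, nsmul_eq_mul, ← ENNReal.ofReal_natCast, ← ENNReal.ofReal_mul (Nat.cast_nonneg _)]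
    apply ENNReal.ofReal_le_ofReal
    apply le_of_eq; ring
  refine (add_le_add b1 b2).trans ?_
  have hρ0 : 0 ≤ rho S w f s := rho_nonneg s
  have e3 : (2 : ℝ≥0∞) * (ENNReal.ofReal (N ^ 2) * ENNReal.ofReal (rho S w f s))
      = ENNReal.ofReal (2 * (N ^ 2 * rho S w f s)) := by
    rw [ENNReal.ofReal_mul (by norm_num), ENNReal.ofReal_mul (by positivity)]
    simp
  rw [e3, ← ENNReal.ofReal_add (by positivity) (by positivity), ← ENNReal.ofReal_add
    (mul_nonneg (mul_nonneg (C1_nonneg hc h) (by positivity)) hE0.le) (by positivity)]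
  apply ENNReal.ofReal_le_ofReal
  have hr : ∑ R ∈ TT S, 1 / nk R.2 * ‖Cb S (fun P => w P s) R - f R s‖ = rho S w f s := rfl
  rw [hr]
  have h7 : 14 * C0 * Lm S * (TT S).card * (N * tot S (fun P => w P s) ^ 2)
      ≤ 14 * C0 * Lm S * (TT S).card * (S.card * β) ^ 2 * N * E := by
    calc _ ≤ 14 * C0 * Lm S * (TT S).card * (N * ((S.card * β) ^ 2 * E)) := by gcongr
      _ = _ := by ring
  unfold C1
  linarith

lemma lint_E {σ : ℝ} (hσ : 0 < σ) {B : ℝ} (hB : 0 ≤ B) :
    ∫⁻ t in Ioi 0, ENNReal.ofReal (B * Real.exp (-(σ * max t 0))) = ENNReal.ofReal (B / σ) := by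
  have : ∀ t : ℝ, ENNReal.ofReal (B * Real.exp (-(σ * max t 0)))
      = ENNReal.ofReal B * ENNReal.ofReal (Real.exp (-(σ * max t 0))) := fun t => ENNReal.ofReal_mul hB
  simp only [this]
  rw [lintegral_const_mul _ (by fun_prop), lint_e hσ, ← ENNReal.ofReal_mul hB]
  congr 1; ring

lemma LN_E {σ : ℝ} (hσ : 0 < σ) {B : ℝ} (hB : 0 ≤ B) :
    LN (fun t => ENNReal.ofReal (B * Real.exp (-(σ * max t 0)))) = ENNReal.ofReal (B * Real.sqrt (1 / (2 * σ))) := by
  have : ∀ t : ℝ, ENNReal.ofReal (B * Real.exp (-(σ * max t 0)))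
      = ENNReal.ofReal B * ENNReal.ofReal (Real.exp (-(σ * max t 0))) := fun t => ENNReal.ofReal_mul hB
  simp only [this]
  rw [LN_const_mul _ (by fun_prop), LN_e hσ, ← ENNReal.ofReal_mul hB]

lemma z_res (hc : 0 ≤ c) (h : CApx c S w f β σ) {N : ℕ} (hN1 : 1 ≤ N) (hN : 2 * Lm S ≤ N) {E2 : ℝ≥0∞}
    (hE2 : ∫⁻ s in Ioi 0, ENNReal.ofReal (rho S w f s) ≤ E2) :
    ∫⁻ t in Ioi 0, NW (Wm 0) (at' (Bt (FM N (TT S) (zφ w N))
        - (FM N (TT S) (zγ c w f N) + FM N (TT S) (vγ c S w N))) t)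
      ≤ ENNReal.ofReal (C1 c S β σ / σ / N) + 2 * E2 := by
  have hNr : (1 : ℝ) ≤ N := by exact_mod_cast hN1
  have hσ := h.hσ
  have hC1 := C1_nonneg hc h
  have hm : Measurable fun s => ENNReal.ofReal (rho S w f s) := (rho_cont h).measurable.ennreal_ofReal
  refine (setLIntegral_mono' measurableSet_Ioi fun t ht => z_res_pt hc h hN1 hN ht).trans ?_
  rw [lintegral_add_left (by fun_prop)]
  refine add_le_add ?_ ?_
  · rw [lint_E (by positivity) (by positivity)]
    apply ENNReal.ofReal_le_ofReal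
    apply le_of_eq
    field_simp
  · have hm2 : Measurable fun t => ENNReal.ofReal (rho S w f ((N : ℝ) ^ 2 * t)) :=
      hm.comp (measurable_const_mul _)
    rw [lintegral_const_mul _ (hm2.const_mul _), lintegral_const_mul _ hm2]
    rw [lint_scale (F := fun s => ENNReal.ofReal (rho S w f s)) (by positivity) hm, ← mul_assoc (ENNReal.ofReal _),
      ← ENNReal.ofReal_mul (by positivity), mul_inv_cancel₀ (by positivity), ENNReal.ofReal_one, one_mul]
    exact mul_le_mul' le_rfl hE2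

end Pool.Agent.U162.TS
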