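import Pool.Agent.U162.TS.Core

/-!
The two-scale approximation: the main construction.
-/

open MeasureTheory Set Filter Topology
open scoped ENNReal NNReal

namespace Pool.Agent.U162.TS

open Pool.Agent.H356R3.NS

variable {c : ℝ} {S : Finset (K × K)} {w f : K × K → ℝ → C3} {β σ : ℝ}

/-- the oscillating datum -/
noncomputable def dat (N : ℕ) (S : Finset (K × K)) (w : K × K → ℝ → C3) : K → C3 :=
  lf N S fun P => (N : ℝ) • pr (kp N P) (w P 0)

/-- the total forcing of the mean flow -/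
noncomputable def kick (S : Finset (K × K)) (w : K × K → ℝ → C3) : K → C3 :=
  fun κ => ∫ s in Ioi 0, Cb S (fun P => w P s) (κ, 0)

lemma pr_zero (κ : K) : pr κ 0 = 0 := by
  funext i; simp [pr, dt]

lemma Cb_out {x : K × K → C3} (hx : ∀ P ∉ S, x P = 0) {R : K × K} (hR : R ∉ TT S) : Cb S x R = 0 := by
  unfold Cb
  refine Finset.sum_eq_zero fun P hP => ?_
  have : R - P ∉ S := by
    intro h
    apply hR
    have := add_TT P hP _ h
    rwa [add_sub_cancel] at this
  rw [hx _ this]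
  unfold qb
  split_ifs <;> exact bt_zero_r _ _

lemma kc_kick (h : CApx c S w f β σ) (N : ℕ) : (lf N (TT S) fun R => kc S w R 0) = -kick S w := by
  classical
  funext κ
  unfold lf
  rw [Finset.sum_apply]
  have hk : kc S w (κ, 0) 0 = -kick S w κ := by
    rw [kc_eq h _ le_rfl]
    unfold kick Dk
    simp
  by_cases hκ : ((κ, 0) : K × K) ∈ TT S
  · rw [Finset.sum_eq_single (κ, 0)]
    · show Sg (kp N (κ, 0)) (kc S w (κ, 0) 0) κ = _
      rw [hk]
      simp [Sg, kp]
    · intro R hR hne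
      show Sg (kp N R) (kc S w R 0) κ = 0
      by_cases hR2 : R.2 = 0
      · rw [kp_low N hR2]
        have : κ ≠ R.1 := by
          intro h1; apply hne
          exact Prod.ext h1.symm hR2
        simp [Sg, this]
      · rw [kc_high hR2, Sg_zero]; rfl
    · intro h'; exact absurd hκ h'
  · have h0 : kick S w κ = 0 := by
      unfold kick
      have : ∀ s, Cb S (fun P => w P s) (κ, 0) = 0 := fun s => Cb_out (fun P hP => h.w0 P hP s) hκ
      simp [this]
    rw [Pi.neg_apply, h0, neg_zero]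
    refine Finset.sum_eq_zero fun R hR => ?_
    show Sg (kp N R) (kc S w R 0) κ = 0
    by_cases hR2 : R.2 = 0
    · rw [kp_low N hR2]
      have : κ ≠ R.1 := by
        intro h1; apply hκ
        have : R = (κ, 0) := Prod.ext h1.symm hR2
        rwa [this] at hR
      simp [Sg, this]
    · rw [kc_high hR2, Sg_zero]; rfl

/-! ### symmetries -/

lemma FM_sym {N : ℕ} {T : Finset (K × K)} (hT : ∀ P ∈ T, -P ∈ T) {φ : K × K → ℝ → C3}
    (h : ∀ P t i, φ (-P) t i = star (φ P t i)) : SymF (FM N T φ) := fun t => by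
  rw [at'_FM]
  exact lf_sym hT fun P i => h P _ i

lemma FM_zero_at {N : ℕ} {T : Finset (K × K)} {φ : K × K → ℝ → C3}
    (h : ∀ P ∈ T, kp N P = 0 → ∀ t, φ P t = 0) (t : ℝ) : FM N T φ 0 t = 0 :=
  lf_zero_at fun P hP h0 => h P hP h0 _

lemma zφ_sym (h : CApx c S w f β σ) (N : ℕ) (P : K × K) (t : ℝ) (i : Fin 3) :
    zφ w N (-P) t i = star (zφ w N P t i) := by
  unfold zφ
  simp only [Pi.smul_apply, h.sw, star_smul, star_trivial]

lemma zγ_sym (h : CApx c S w f β σ) (N : ℕ) (P : K × K) (t : ℝ) (i : Fin 3) :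
    zγ c w f N (-P) t i = star (zγ c w f N P t i) := by
  unfold zγ
  simp only [Pi.add_apply, Pi.smul_apply, h.sw, h.sf, star_add, star_smul, star_trivial, kp_neg,
    H356R3.NS.sq_neg, Prod.snd_neg]

lemma Dk_sym (h : CApx c S w f β σ) (R : K × K) (s : ℝ) (i : Fin 3) :
    Dk S w (-R) s i = star (Dk S w R s i) := by
  unfold Dk
  simp only [Prod.snd_neg, neg_eq_zero]
  split_ifs
  · exact Cb_neg h.neg (fun P i => h.sw P s i) R i
  · simp

lemma ev_int {g : ℝ → C3} {s : Set ℝ} (hg : IntegrableOn g s) (i : Fin 3) :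
    (∫ t in s, g t) i = ∫ t in s, g t i :=
  ((ContinuousLinearMap.proj (R := ℝ) (φ := fun _ : Fin 3 => ℂ) i).integral_comp_comm hg).symm

lemma kc_sym (h : CApx c S w f β σ) (R : K × K) (τ : ℝ) (i : Fin 3) :
    kc S w (-R) τ i = star (kc S w R τ i) := by
  have hI : ∀ R : K × K, ((∫ s in Ioi 0, Dk S w R s) - ∫ s in (0 : ℝ)..τ, Dk S w R s) i
      = (∫ s in Ioi 0, Dk S w R s i) - ∫ s in (0 : ℝ)..τ, Dk S w R s i := by
    intro R
    rw [Pi.sub_apply, ev_int (Dk_int h R le_rfl)]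
    congr 1
    exact ((ContinuousLinearMap.proj (R := ℝ) (φ := fun _ : Fin 3 => ℂ) i).intervalIntegral_comp_comm
      ((Dk_cont h R).intervalIntegrable _ _)).symm
  unfold kc
  rw [Pi.neg_apply, Pi.neg_apply, hI, hI, star_neg, star_sub]
  simp only [Dk_sym h]
  congr 2
  · exact integral_conj
  · rcases le_total 0 τ with h0 | h0
    · rw [intervalIntegral.integral_of_le h0, intervalIntegral.integral_of_le h0]
      exact integral_conj
    · rw [intervalIntegral.integral_of_ge h0, intervalIntegral.integral_of_ge h0, star_neg]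
      congr 1
      exact integral_conj

lemma star_dt (κ : K) (v : C3) : star (dt κ v) = dt κ fun j => star (v j) := by
  unfold dt
  simp only [star_sum, star_mul']
  refine Finset.sum_congr rfl fun j _ => ?_
  congr 1
  simp

lemma dt_neg (κ : K) (v : C3) : dt (-κ) v = -dt κ v := by
  unfold dt
  rw [← Finset.sum_neg_distrib]
  exact Finset.sum_congr rfl fun j _ => by simp

lemma pr_sym {x y : C3} (h : ∀ i, y i = star (x i)) (κ : K) (i : Fin 3) : pr (-κ) y i = star (pr κ x i) := by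
  unfold pr
  have hy : y = fun j => star (x j) := funext h
  rw [dt_neg, H356R3.NS.sq_neg, star_sub, hy]
  congr 1
  rw [star_div₀, star_mul', star_dt]
  simp only [Pi.neg_apply, Int.cast_neg, Complex.star_def, Complex.conj_ofReal, map_intCast]
  ring

lemma hφ_sym (h : CApx c S w f β σ) (N : ℕ) (P : K × K) (t : ℝ) (i : Fin 3) :
    hφ c w N (-P) t i = star (hφ c w N P t i) := by
  unfold hφ
  simp only [Pi.smul_apply, Pi.sub_apply, star_smul, star_sub, star_trivial, kp_neg, H356R3.NS.sq_neg,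
    h.sw]
  rw [pr_sym (fun i => h.sw P 0 i)]

lemma vφ_sym (h : CApx c S w f β σ) (N : ℕ) (P : K × K) (t : ℝ) (i : Fin 3) :
    vφ S w N (-P) t i = star (vφ S w N P t i) := kc_sym h P _ i

lemma vγ_sym (h : CApx c S w f β σ) (N : ℕ) (P : K × K) (t : ℝ) (i : Fin 3) :
    vγ c S w N (-P) t i = star (vγ c S w N P t i) := by
  unfold vγ
  simp only [Pi.add_apply, Pi.smul_apply, Dk_sym h, kc_sym h, star_add, star_smul, star_trivial, kp_neg,
    H356R3.NS.sq_neg]

lemma kc_00 (τ : ℝ) {R : K × K} (hR : R = 0) : kc S w R τ = 0 := by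
  subst hR
  have : ∀ s, Dk S w 0 s = 0 := by
    intro s
    unfold Dk
    rw [if_pos (show (0 : K × K).2 = 0 from rfl)]
    unfold Cb qb
    simp [bt_freq_zero]
  unfold kc
  simp [this]

lemma Dk_00 (s : ℝ) {R : K × K} (hR : R = 0) : Dk S w R s = 0 := by
  subst hR
  unfold Dk
  rw [if_pos (show (0 : K × K).2 = 0 from rfl)]
  unfold Cb qb
  simp [bt_freq_zero]

lemma bound_fin {x : Fam} (hx : FinS x) (hb : ∃ B : ℝ, ∀ k t, ‖x k t‖ ≤ B) :
    ∃ B : ℝ, 0 ≤ B ∧ ∀ t, NW (Wa 0) (at' x t) ≤ ENNReal.ofReal B := by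
  obtain ⟨S, hS⟩ := hx
  obtain ⟨B, hB⟩ := hb
  have hB0 : 0 ≤ B := (norm_nonneg _).trans (hB 0 0)
  refine ⟨S.card * B, by positivity, fun t => ?_⟩
  rw [NW_fin (S := S) (x := at' x t) fun k hk => hS k hk t]
  calc _ ≤ ∑ k ∈ S, ENNReal.ofReal B := by
        refine Finset.sum_le_sum fun k _ => ?_
        unfold Wa om at'
        rw [← ofReal_norm]
        simp only [zero_mul, Real.exp_zero, ENNReal.ofReal_one, one_mul]
        exact ENNReal.ofReal_le_ofReal (hB k t)
    _ = _ := by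
        rw [Finset.sum_const, nsmul_eq_mul, ENNReal.ofReal_mul (Nat.cast_nonneg _), ENNReal.ofReal_natCast]

lemma sqrt_N {x N : ℝ} (hN : 0 < N) : Real.sqrt (1 / (2 * (x * N ^ 2))) = Real.sqrt (1 / (2 * x)) / N := by
  have : 1 / (2 * (x * N ^ 2)) = 1 / (2 * x) / N ^ 2 := by
    rw [div_div]; ring_nf
  rw [this, Real.sqrt_div' _ (by positivity), Real.sqrt_sq hN.le]

lemma LN_exp_le {x : Fam} {B σ N : ℝ} (hB : 0 ≤ B) (hσ : 0 < σ) (hN : 0 < N)
    (h : ∀ t, NW (Wa 0) (at' x t) ≤ ENNReal.ofReal (B * Real.exp (-(σ * N ^ 2 * max t 0)))) :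
    LN (fun t => NW (Wa 0) (at' x t)) ≤ ENNReal.ofReal (B * Real.sqrt (1 / (2 * σ)) / N) := by
  refine (LN_mono fun t _ => h t).trans ?_
  rw [LN_E (by positivity) hB, sqrt_N hN]
  apply le_of_eq; congr 1; ring

theorem core (hc : 0 < c) {V0 : K → C3} {u fu : Fam} (hu : Apx c V0 u fu) (hw : CApx c S w f β σ)
    {m : K → C3} {M : Finset K} (hm : ∀ k ∉ M, m k = 0) (hms : Sym m) (hm0 : m 0 = 0)
    {D1 D2 D3 : ℝ} (hD1 : 0 ≤ D1) (hD2 : 0 ≤ D2) (hD3 : 0 ≤ D3)
    (h1 : LN (fun t => NW (Wa 0) (at' u t)) ≤ ENNReal.ofReal D1)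
    (h2 : LN (fun s => ENNReal.ofReal (tot S fun P => w P s)) ≤ ENNReal.ofReal D2)
    (h3 : ∑ l ∈ M, ‖m l‖ * Real.sqrt (1 / (2 * c)) * (1 / nk l) ≤ D3)
    {e1 e2 : ℝ} (he1 : 0 ≤ e1) (he2 : 0 ≤ e2)
    (hr1 : ∫⁻ t in Ioi 0, NW (Wm 0) (at' (Bt u - fu) t) ≤ ENNReal.ofReal e1)
    (hr2 : ∫⁻ s in Ioi 0, ENNReal.ofReal (rho S w f s) ≤ ENNReal.ofReal e2)
    {ε δ : ℝ} (hε : 0 < ε) (hδ : 0 < δ) :
    ∃ N0 : ℕ, ∀ N : ℕ, N0 ≤ N → ∃ U G : Fam, Apx c (V0 + m - kick S w + dat N S w) U G ∧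
      LN (fun t => NW (Wa 0) (at' U t)) ≤ ENNReal.ofReal (D1 + D2 + (D3 + ε)) ∧
      ∫⁻ t in Ioi 0, NW (Wm 0) (at' (Bt U - G) t) ≤
        ENNReal.ofReal (e1 + 2 * e2 + ε + C0 * ((D3 + ε) * (2 * D1 + 2 * D2 + (D3 + ε)))) ∧
      LNd δ (U - u) ≤ ENNReal.ofReal (D3 + ε) ∧
      LN (fun t => NW (Wa 0) (at' (U - u - FM N (TT S) (zφ w N)) t)) ≤ ENNReal.ofReal (D3 + ε) := by
  have hβ := hw.β0
  have hσ := hw.hσ
  have hC := C0_pos
  have hL := Lm_nonneg S
  have hC1 := C1_nonneg hc.le hw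
  obtain ⟨Bu, hBu0, hBu⟩ := bound_fin hu.fu hu.bd
  set Bv : ℝ := (TT S).card * (C0 * Lm S * (S.card * β) ^ 2 / σ) with hBv
  set Bh : ℝ := (TT S).card * (6 * Lm S * β) with hBh
  have hBv0 : 0 ≤ Bv := by positivity
  have hBh0 : 0 ≤ Bh := by positivity
  set X1 : ℝ := Bv * Real.sqrt (1 / (2 * σ)) + Bh * Real.sqrt (1 / (2 * (c / 4))) with hX1
  set X2 : ℝ := C1 c S β σ / σ + C0 * (2 * (Bu * (S.card * β / σ))) with hX2
  set X3 : ℝ := (S.card * β) / Real.sqrt σ * (2 / (σ * δ)) / (ε / 2) with hX3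
  have hX10 : 0 ≤ X1 := by positivity
  have hX20 : 0 ≤ X2 := by positivity
  have hX30 : 0 ≤ X3 := by positivity
  refine ⟨⌈1 + 2 * Lm S + 2 * X1 / ε + X2 / ε + X3⌉₊, fun N hN => ?_⟩
  have hNX : 1 + 2 * Lm S + 2 * X1 / ε + X2 / ε + X3 ≤ N := (Nat.le_ceil _).trans (by exact_mod_cast hN)
  have q1 : 0 ≤ 2 * X1 / ε := by positivity
  have q2 : 0 ≤ X2 / ε := by positivity
  have hNr : (1 : ℝ) ≤ N := by linarith
  have hN1 : 1 ≤ N := by exact_mod_cast hNr
  have hN0 : (0 : ℝ) < N := by linarith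
  have hNL : 2 * Lm S ≤ N := by linarith
  have hX1N : X1 / N ≤ ε / 2 := by
    rw [div_le_iff₀ hN0]
    have : 2 * X1 / ε ≤ N := by linarith
    rw [div_le_iff₀ hε] at this
    linarith
  have hX2N : X2 / N ≤ ε := by
    rw [div_le_iff₀ hN0]
    have : X2 / ε ≤ N := by linarith
    rw [div_le_iff₀ hε] at this
    linarith
  have hX3N : X3 ≤ N := by linarith
  -- the pieces
  set z := FM N (TT S) (zφ w N) with hz
  set gz := FM N (TT S) (zγ c w f N) with hgz
  set v := FM N (TT S) (vφ S w N) with hv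
  set gv := FM N (TT S) (vγ c S w N) with hgv
  set hh := FM N (TT S) (hφ c w N) with hhh
  set mm := mF c m with hmm
  have oz : Od c z gz := z_od hw hN1 _
  have ov : Od c v gv := v_od hw hN1 _
  have oh : Od c hh 0 := h_od hc.le _ _ _
  have om' : Od c mm 0 := m_od hc.le hm
  set r := v + (hh + mm) with hr
  have or : Od c r (gv + (0 + 0)) := ov.add (oh.add om')
  rw [add_zero, add_zero] at or
  have ozr : Od c (z + r) (gz + gv) := oz.add or
  have oU : Od c (u + (z + r)) (fu + (gz + gv)) := hu.od.add ozr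
  have dz : Dom z := by obtain ⟨B, hB⟩ := oz.bd; exact oz.fx.dom hB
  have dr : Dom r := by obtain ⟨B, hB⟩ := or.bd; exact or.fx.dom hB
  have du : Dom u := by obtain ⟨B, hB⟩ := hu.bd; exact hu.fu.dom hB
  -- sizes
  have sz : LN (fun t => NW (Wa 0) (at' z t)) ≤ ENNReal.ofReal D2 := by
    refine le_trans (LN_mono fun t ht => z_size hw N ht.le) ?_
    rw [LN_scale (F := fun s => ENNReal.ofReal (tot S fun P => w P s)) hN0
      (tot_cont hw).measurable.ennreal_ofReal]
    exact h2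
  have sv : LN (fun t => NW (Wa 0) (at' v t)) ≤ ENNReal.ofReal (Bv * Real.sqrt (1 / (2 * σ)) / N) :=
    LN_exp_le hBv0 hσ hN0 fun t => v_size hw N t
  have sh : LN (fun t => NW (Wa 0) (at' hh t)) ≤ ENNReal.ofReal (Bh * Real.sqrt (1 / (2 * (c / 4))) / N) :=
    LN_exp_le hBh0 (by positivity) hN0 fun t => h_size hc.le hw hN1 hNL t
  have sm : LN (fun t => NW (Wa 0) (at' mm t)) ≤ ENNReal.ofReal D3 :=
    (m_size hc hm hm0).trans (ENNReal.ofReal_le_ofReal h3)
  have sr' : LN (fun t => NW (Wa 0) (at' r t)) ≤ ENNReal.ofReal (D3 + ε / 2) := by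
    have m1 := NW_meas (Wa 0) ov.cx
    have m2 := NW_meas (Wa 0) oh.cx
    have m3 := NW_meas (Wa 0) om'.cx
    calc _ ≤ LN (fun t => NW (Wa 0) (at' v t) + (NW (Wa 0) (at' hh t) + NW (Wa 0) (at' mm t))) :=
          LN_mono fun t _ => (NW_add_le _ _ _).trans (add_le_add le_rfl (NW_add_le _ _ _))
      _ ≤ LN (fun t => NW (Wa 0) (at' v t)) + (LN (fun t => NW (Wa 0) (at' hh t))
          + LN (fun t => NW (Wa 0) (at' mm t))) :=
          (LN_add_le m1 (m2.add m3)).trans (add_le_add le_rfl (LN_add_le m2 m3))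
      _ ≤ ENNReal.ofReal (Bv * Real.sqrt (1 / (2 * σ)) / N)
          + (ENNReal.ofReal (Bh * Real.sqrt (1 / (2 * (c / 4))) / N) + ENNReal.ofReal D3) :=
          add_le_add sv (add_le_add sh sm)
      _ = ENNReal.ofReal (X1 / N + D3) := by
          rw [← ENNReal.ofReal_add (by positivity) hD3, ← ENNReal.ofReal_add (by positivity) (by positivity)]
          congr 1
          rw [hX1]; ring
      _ ≤ _ := ENNReal.ofReal_le_ofReal (by linarith)
  have sr : LN (fun t => NW (Wa 0) (at' r t)) ≤ ENNReal.ofReal (D3 + ε) :=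
    sr'.trans (ENNReal.ofReal_le_ofReal (by linarith))
  have iz : ∫⁻ t in Ioi 0, NW (Wa 0) (at' z t) ≤ ENNReal.ofReal (S.card * β / σ / N) := by
    refine (lintegral_mono fun t => z_size' hw N t).trans ?_
    rw [lint_E (by positivity) (by positivity)]
    apply le_of_eq; congr 1; field_simp
  refine ⟨u + (z + r), fu + (gz + gv), oU.apx ?_ ?_ ?_ ?_ ?_, ?_, ?_, ?_, ?_⟩
  -- zero modes
  · intro t
    have hz0 : z 0 t = 0 := FM_zero_at (fun P hP h0 t => by
      by_cases hPS : P ∈ S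
      · exact absurd h0 (kp_ne (hw.k0 P hPS) ((mul_le_mul_of_nonneg_left (le_Lm hP) (by norm_num)).trans hNL) hN1)
      · unfold zφ; rw [hw.w0 P hPS]; simp) t
    have hv0 : v 0 t = 0 := FM_zero_at (fun P hP h0 t => by
      unfold vφ
      by_cases hP2 : P.2 = 0
      · rw [kp_low N hP2] at h0
        exact kc_00 _ (Prod.ext h0 hP2)
      · exact kc_high hP2 _) t
    have hh0 : hh 0 t = 0 := FM_zero_at (fun P hP h0 t => by
      by_cases hPS : P ∈ S
      · exact absurd h0 (kp_ne (hw.k0 P hPS) ((mul_le_mul_of_nonneg_left (le_Lm hP) (by norm_num)).trans hNL) hN1)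
      · unfold hφ; rw [hw.w0 P hPS, pr_zero]; simp) t
    show u 0 t + (z 0 t + (v 0 t + (hh 0 t + mm 0 t))) = 0
    rw [hu.zu, hz0, hv0, hh0]
    simp [hmm, mF, hm0]
  · intro t
    have hz0 : gz 0 t = 0 := FM_zero_at (fun P hP h0 t => by
      by_cases hPS : P ∈ S
      · exact absurd h0 (kp_ne (hw.k0 P hPS) ((mul_le_mul_of_nonneg_left (le_Lm hP) (by norm_num)).trans hNL) hN1)
      · unfold zγ; rw [hw.w0 P hPS, hw.f0 P hPS]; simp) t
    have hv0 : gv 0 t = 0 := FM_zero_at (fun P hP h0 t => by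
      unfold vγ
      by_cases hP2 : P.2 = 0
      · rw [kp_low N hP2] at h0
        have hP0 : P = 0 := Prod.ext h0 hP2
        rw [kc_00 _ hP0, Dk_00 _ hP0]; simp
      · rw [kc_high hP2]
        unfold Dk
        simp [hP2]) t
    show fu 0 t + (gz 0 t + gv 0 t) = 0
    rw [hu.zg, hz0, hv0]; simp
  -- symmetries
  · have hT := neg_TT hw.neg
    have s1 : SymF z := FM_sym hT (zφ_sym hw N)
    have s2 : SymF v := FM_sym hT (vφ_sym hw N)
    have s3 : SymF hh := FM_sym hT (hφ_sym hw N)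
    have s4 : SymF mm := by
      intro t k i
      simp only [at', hmm, mF, H356R3.NS.sq_neg, Pi.smul_apply, hms k i, star_smul, star_trivial]
    intro t
    exact (hu.su t).add ((s1 t).add ((s2 t).add ((s3 t).add (s4 t))))
  · have hT := neg_TT hw.neg
    intro t
    exact (hu.sg t).add ((FM_sym hT (zγ_sym hw N) t).add (FM_sym hT (vγ_sym hw N) t))
  -- initial data
  · intro k
    show u k 0 + (z k 0 + (v k 0 + (hh k 0 + mm k 0))) = _
    have ez : z k 0 + hh k 0 = dat N S w k := by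
      have : at' z 0 + at' hh 0 = dat N S w := by
        rw [hz, hhh, at'_FM, at'_FM, lf_add]
        unfold dat
        rw [lf_sub (sub_TT S)]
        · congr 1
          funext P
          simp only [zφ, hφ, max_self, mul_zero, neg_zero, Real.exp_zero, one_smul, smul_sub]
          abel
        · intro P hP
          simp only [zφ, hφ, hw.w0 P hP, pr_zero, smul_zero, sub_zero, add_zero]
      exact congrFun this k
    have ev : v k 0 = -kick S w k := by
      have : at' v 0 = -kick S w := by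
        rw [hv, at'_FM, ← kc_kick hw N]
        simp only [vφ, max_self, mul_zero]
      exact congrFun this k
    have em : mm k 0 = m k := by simp [hmm, mF]
    rw [ev, em, hu.ini]
    simp only [Pi.add_apply, Pi.sub_apply, ← ez]
    abel
  -- size
  · have m1 := NW_meas (Wa 0) hu.cf
    have m2 := NW_meas (Wa 0) oz.cx
    have m3 := NW_meas (Wa 0) or.cx
    calc _ ≤ LN (fun t => NW (Wa 0) (at' u t) + (NW (Wa 0) (at' z t) + NW (Wa 0) (at' r t))) :=
          LN_mono fun t _ => (NW_add_le _ _ _).trans (add_le_add le_rfl (NW_add_le _ _ _))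
      _ ≤ LN (fun t => NW (Wa 0) (at' u t)) + (LN (fun t => NW (Wa 0) (at' z t))
          + LN (fun t => NW (Wa 0) (at' r t))) :=
          (LN_add_le m1 (m2.add m3)).trans (add_le_add le_rfl (LN_add_le m2 m3))
      _ ≤ ENNReal.ofReal D1 + (ENNReal.ofReal D2 + ENNReal.ofReal (D3 + ε)) :=
          add_le_add h1 (add_le_add sz sr)
      _ = _ := by
          rw [← ENNReal.ofReal_add hD2 (by positivity), ← ENNReal.ofReal_add hD1 (by positivity)]
          congr 1; ring
  -- residual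
  · have hg := glue hu.cf oz.cx or.cx hu.cg ozr.cg du dz dr h1 sz sr hBu iz hr1
      (z_res hc.le hw hN1 hNL hr2)
    refine hg.trans ?_
    rw [show (2 : ℝ≥0∞) = ENNReal.ofReal 2 by simp]
    rw [← ENNReal.ofReal_mul hBu0, ← ENNReal.ofReal_mul (by norm_num : (0 : ℝ) ≤ 2),
      ← ENNReal.ofReal_mul (by norm_num : (0 : ℝ) ≤ 2), ← ENNReal.ofReal_mul (by norm_num : (0 : ℝ) ≤ 2),
      ← ENNReal.ofReal_mul (by norm_num : (0 : ℝ) ≤ 2),
      ← ENNReal.ofReal_mul C0_pos.le, ← ENNReal.ofReal_add (by positivity) (by positivity),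
      ← ENNReal.ofReal_add (by positivity) (by positivity),
      ← ENNReal.ofReal_add (by positivity) (by positivity),
      ← ENNReal.ofReal_add (p := 2 * D1) (by positivity) (by positivity),
      ← ENNReal.ofReal_add (p := 2 * D1 + 2 * D2) (by positivity) (by positivity),
      ← ENNReal.ofReal_mul (by positivity),
      ← ENNReal.ofReal_mul C0_pos.le, ← ENNReal.ofReal_add (by positivity) (by positivity)]
    apply ENNReal.ofReal_le_ofReal
    have : C1 c S β σ / σ / N + C0 * (2 * (Bu * (S.card * β / σ / N))) = X2 / N := by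
      rw [hX2]; ring
    linarith
  -- closeness
  · have e : u + (z + r) - u = z + r := by abel
    rw [e]
    refine (LNd_add oz.cx or.cx).trans ?_
    have a1 : LNd δ z ≤ ENNReal.ofReal (ε / 2) := by
      refine (LNd_exp (σ := σ * N ^ 2) (B := N * (S.card * β)) (by positivity) (by positivity)
        fun t => z_size' hw N t).trans (ENNReal.ofReal_le_ofReal ?_)
      have := num_small (c := σ) (Cx := S.card * β) (N := N) hσ hδ (by positivity) hNr hε hX3N
      linarith
    have a2 : LNd δ r ≤ ENNReal.ofReal (D3 + ε / 2) := (LNd_le_LN _ _).trans sr'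
    refine (add_le_add a1 a2).trans ?_
    rw [← ENNReal.ofReal_add (by positivity) (by positivity)]
    apply ENNReal.ofReal_le_ofReal
    linarith
  -- asymptotics
  · have e : u + (z + r) - u - z = r := by abel
    rw [e]
    exact sr

end Pool.Agent.U162.TS
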