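import Pool.Agent.H356R3.NS.Defs

/-!
# Two-scale fields on the torus
-/

open Set MeasureTheory
open scoped ENNReal

namespace Pool.Agent.U162.TS

open Pool.Agent.H356R3.NS

/-- Frequencies. -/
abbrev Fq := Fin 3 → ℤ

/-- The character `exp(2πi k·x)`. -/
noncomputable def ch (k : Fq) (x : R3) : ℂ :=
  Complex.exp (2 * Real.pi * Complex.I * ∑ j, (k j : ℂ) * (x j : ℂ))

/-- The two-scale field `V(x,y) = Re ∑_{(l,k) ∈ S} b(l,k) exp(2πi(l·x + k·y))`. -/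
noncomputable def profile (b : Fq × Fq → Fin 3 → ℂ) (S : Finset (Fq × Fq)) (x y : R3) (i : Fin 3) : ℝ :=
  (∑ P ∈ S, b P i * (ch P.1 x * ch P.2 y)).re

/-- The orthogonal projection of `c` to the plane orthogonal to the frequency `κ`: the symbol of the
Leray projection. -/
noncomputable def leray (κ : Fq) (c : Fin 3 → ℂ) (i : Fin 3) : ℂ :=
  c i - (κ i : ℂ) * (∑ j, (κ j : ℂ) * c j) / ((∑ j, (κ j : ℝ) ^ 2 : ℝ) : ℂ)

/-- The Leray projection of the field `x ↦ V(x, N x)`, where `V` is the two-scale field with the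
coefficients `b`: `Re ∑_{(l,k) ∈ S} Π_κ b(l,k) exp(2πi κ·x)` with `κ = l + N k`. -/
noncomputable def osc (b : Fq × Fq → Fin 3 → ℂ) (S : Finset (Fq × Fq)) (N : ℕ) (x : R3) (i : Fin 3) : ℝ :=
  (∑ P ∈ S, leray (P.1 + (N : ℤ) • P.2) (b P) i * ch (P.1 + (N : ℤ) • P.2) x).re

/-- The coefficients of a real and divergence free trigonometric polynomial without mean, with the
frequencies in `A`. -/
structure Slow (a : Fq → Fin 3 → ℂ) (A : Finset Fq) : Prop where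
  supp : ∀ k ∉ A, a k = 0
  real : ∀ k i, a (-k) i = star (a k i)
  div : ∀ k, ∑ j, (k j : ℂ) * a k j = 0
  mean : a 0 = 0

/-- The coefficients `b(l,k)` of a real two-scale trigonometric polynomial `V(x,y)` with
`div_y V = 0` and `∫ V(x,y) dy = 0`, with the frequencies in `S`. -/
structure Prof (b : Fq × Fq → Fin 3 → ℂ) (S : Finset (Fq × Fq)) : Prop where
  supp : ∀ P ∉ S, b P = 0
  real : ∀ P i, b (-P) i = star (b P i)
  div : ∀ P, ∑ j, (P.2 j : ℂ) * b P j = 0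
  mean : ∀ P, P.2 = 0 → b P = 0

/-- `u` is close to `v` after the time `ε`: `∫_ε^∞ sup_x |u(x,t) - v(x,t)|² dt ≤ ε`. -/
def CloseAfter (ε : ℝ) (u v : ℝ → R3 → R3) : Prop :=
  ∫⁻ t in Ioi ε, (⨆ x, ‖u t x - v t x‖ₑ) ^ 2 ≤ ENNReal.ofReal ε

/-- `u(x,t)` is, over all times, close to `v(x,t) + N W(x, N² t, N x)`:
`∫_0^∞ sup_x |u(x,t) - v(x,t) - N W(x, N² t, N x)|² dt ≤ ε`. -/
def CloseTwoScale (ε : ℝ) (N : ℕ) (u v : ℝ → R3 → R3) (W : R3 → ℝ → R3 → R3) : Prop :=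
  ∫⁻ t in Ioi (0 : ℝ), (⨆ x, ‖u t x - v t x - (N : ℝ) • W x ((N : ℝ) ^ 2 * t) ((N : ℝ) • x)‖ₑ) ^ 2
    ≤ ENNReal.ofReal ε

end Pool.Agent.U162.TS
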