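import Pool.Agent.U162.TS.Defs

/-!
The effect of the fast flows on the slow flow
-/

open Set MeasureTheory

namespace Pool.Agent.U162.TS

open Pool.Agent.H356R3.NS

/-- The total Reynolds stress `R_{jm}(x) = ∫_0^∞ ∫_{[0,1]³} W_j W_m dy ds` of the fast flows
`W(x,·,·)`. -/
noncomputable def stress (W : R3 → ℝ → R3 → R3) (j m : Fin 3) (x : R3) : ℝ :=
  ∫ s in Ioi (0 : ℝ), ∫ y in Icc (0 : R3) 1, W x s y j * W x s y m

/-- The Fourier coefficients of `- P div R`, where `R` is the total Reynolds stress and `P` the Leray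
projection. -/
noncomputable def push (W : R3 → ℝ → R3 → R3) (l : Fq) (i : Fin 3) : ℂ :=
  -(2 * Real.pi * Complex.I) * leray l (fun m => ∑ j, (l j : ℂ) *
    ∫ x in Icc (0 : R3) 1, ch (-l) x * (stress W j m x : ℂ)) i

end Pool.Agent.U162.TS
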