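import Pool.Agent.U162.TS.Base

/-!
The Duhamel form of the equations in the Banach space of absolutely summable families of bounded
continuous functions of time.
-/

open MeasureTheory Set Filter Topology
open scoped ENNReal NNReal

namespace Pool.Agent.U162.TS.EL

open Pool.Agent.H356R3.NS

/-- bounded continuous functions of time -/
abbrev TB := BoundedContinuousFunction ℝ C3

/-- absolutely summable families -/
noncomputable abbrev EE := lp (fun _ : K => TB) 1

lemma nE (x : EE) : ‖x‖ = ∑' k, ‖x k‖ := by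
  have := lp.norm_eq_tsum_rpow (p := 1) (by norm_num) x
  simpa using this

lemma sE (x : EE) : Summable fun k => ‖x k‖ := by
  have := (lp.memℓp x).summable (by norm_num)
  simpa using this

lemma leE (x : EE) (k : K) : ‖x k‖ ≤ ‖x‖ := lp.norm_apply_le_norm one_ne_zero x k

/-- a family as an element of the space -/
noncomputable def mkE (f : K → TB) (h : Summable fun k => ‖f k‖) : EE := ⟨f, memℓp_gen (by simpa using h)⟩

@[simp] lemma mkE_apply (f : K → TB) (h : Summable fun k => ‖f k‖) (k : K) : mkE f h k = f k := rfl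

/-! ### the bilinear symbol -/

lemma bt_add_l (k : K) (u v w : C3) : bt k (u + v) w = bt k u w + bt k v w := by
  funext i
  simp only [bt, Pi.add_apply, ← Finset.sum_add_distrib]
  exact Finset.sum_congr rfl fun j _ => Finset.sum_congr rfl fun m _ => by ring

lemma bt_add_r (k : K) (u v w : C3) : bt k u (v + w) = bt k u v + bt k u w := by
  funext i
  simp only [bt, Pi.add_apply, ← Finset.sum_add_distrib]
  exact Finset.sum_congr rfl fun j _ => Finset.sum_congr rfl fun m _ => by ring

lemma bt_csmul_l (k : K) (a : ℂ) (v w : C3) : bt k (a • v) w = a • bt k v w := by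
  funext i
  simp only [bt, Pi.smul_apply, smul_eq_mul, Finset.mul_sum]
  exact Finset.sum_congr rfl fun j _ => Finset.sum_congr rfl fun m _ => by ring

lemma bt_csmul_r (k : K) (a : ℂ) (v w : C3) : bt k v (a • w) = a • bt k v w := by
  funext i
  simp only [bt, Pi.smul_apply, smul_eq_mul, Finset.mul_sum]
  exact Finset.sum_congr rfl fun j _ => Finset.sum_congr rfl fun m _ => by ring

lemma bt_cont (k : K) : Continuous fun p : C3 × C3 => bt k p.1 p.2 := by
  unfold bt
  refine continuous_pi fun i => continuous_finsetSum _ fun j _ => continuous_finsetSum _ fun m _ => ?_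
  exact continuous_const.mul (((continuous_apply j).comp continuous_fst).mul
    ((continuous_apply m).comp continuous_snd))

/-- the rate of the mode `k`, after the exponential weight is taken out -/
noncomputable def mk (c : ℝ) (k : K) : ℝ := c * max 1 (H356R3.NS.sq k) - c / 2

lemma mk_ge {c : ℝ} (hc : 0 < c) (k : K) : c / 2 * max 1 (H356R3.NS.sq k) ≤ mk c k := by
  unfold mk
  have := le_max_left (1 : ℝ) (H356R3.NS.sq k)
  nlinarith

lemma mk_pos {c : ℝ} (hc : 0 < c) (k : K) : 0 < mk c k := by
  refine lt_of_lt_of_le ?_ (mk_ge hc k)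
  have := le_max_left (1 : ℝ) (H356R3.NS.sq k)
  positivity

lemma nk_sq (k : K) : nk k ^ 2 = H356R3.NS.sq k := by
  unfold nk
  exact Real.sq_sqrt (H356R3.NS.sq_nonneg' k)

lemma nk_le_max (k : K) : nk k ≤ max 1 (H356R3.NS.sq k) := by
  rcases le_total (nk k) 1 with h | h
  · exact h.trans (le_max_left _ _)
  · refine le_trans ?_ (le_max_right _ _)
    rw [← nk_sq]; nlinarith

lemma nk_mk {c : ℝ} (hc : 0 < c) (k : K) : nk k / mk c k ≤ 2 / c := by
  rw [div_le_div_iff₀ (mk_pos hc k) hc]
  have h1 := mk_ge hc k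
  have h2 := nk_le_max k
  nlinarith

lemma nk2_mk {c : ℝ} (hc : 0 < c) (k : K) : nk k ^ 2 / mk c k ≤ 2 / c := by
  rw [div_le_div_iff₀ (mk_pos hc k) hc, nk_sq]
  have h1 := mk_ge hc k
  have h2 := le_max_right (1 : ℝ) (H356R3.NS.sq k)
  nlinarith

/-! ### the Duhamel operator -/

/-- the Duhamel integral -/
noncomputable def duf (m : ℝ) (f : ℝ → C3) (t : ℝ) : C3 := ∫ s in (0 : ℝ)..t, Real.exp (-(m * (t - s))) • f s

lemma duf_eq (m : ℝ) (f : ℝ → C3) (t : ℝ) :
    duf m f t = Real.exp (-(m * t)) • ∫ s in (0 : ℝ)..t, Real.exp (m * s) • f s := by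
  unfold duf
  rw [← intervalIntegral.integral_smul]
  refine intervalIntegral.integral_congr fun s _ => ?_
  show Real.exp (-(m * (t - s))) • f s = Real.exp (-(m * t)) • Real.exp (m * s) • f s
  rw [smul_smul, ← Real.exp_add]
  congr 2
  ring

lemma duf_cont (m : ℝ) {f : ℝ → C3} (hf : Continuous f) : Continuous (duf m f) := by
  have e : duf m f = fun t => Real.exp (-(m * t)) • ∫ s in (0 : ℝ)..t, Real.exp (m * s) • f s :=
    funext fun t => duf_eq m f t
  rw [e]
  have h1 : Continuous fun s => Real.exp (m * s) • f s := by fun_prop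
  have h2 : Continuous fun t => ∫ s in (0 : ℝ)..t, Real.exp (m * s) • f s :=
    intervalIntegral.continuous_primitive (fun a b => h1.intervalIntegrable a b) 0
  have h3 : Continuous fun t : ℝ => Real.exp (-(m * t)) := by fun_prop
  exact h3.smul h2

lemma int_exp {m : ℝ} (hm : 0 < m) (t : ℝ) :
    ∫ s in (0 : ℝ)..t, Real.exp (-(m * (t - s))) = (1 - Real.exp (-(m * t))) / m := by
  have h1 : ∀ s ∈ uIcc 0 t, HasDerivAt (fun s => Real.exp (-(m * (t - s))) / m) (Real.exp (-(m * (t - s)))) s := by
    intro s _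
    have h2 : HasDerivAt (fun s : ℝ => -(m * (t - s))) m s := by
      have := (((hasDerivAt_id' s).const_sub t).const_mul m).fun_neg
      refine this.congr_deriv (by ring)
    refine (h2.exp.div_const m).congr_deriv ?_
    field_simp
  rw [intervalIntegral.integral_eq_sub_of_hasDerivAt h1
    (Continuous.intervalIntegrable (by fun_prop) _ _)]
  simp
  ring

lemma duf_norm {m : ℝ} (hm : 0 < m) {f : ℝ → C3} {C : ℝ} {t : ℝ} (ht : 0 ≤ t)
    (hf : ∀ s, 0 ≤ s → s ≤ t → ‖f s‖ ≤ C) : ‖duf m f t‖ ≤ C / m := by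
  have hC : 0 ≤ C := (norm_nonneg _).trans (hf 0 le_rfl ht)
  unfold duf
  have h1 : ‖∫ s in (0 : ℝ)..t, Real.exp (-(m * (t - s))) • f s‖
      ≤ ∫ s in (0 : ℝ)..t, C * Real.exp (-(m * (t - s))) := by
    refine intervalIntegral.norm_integral_le_of_norm_le ht ?_
      (Continuous.intervalIntegrable (by fun_prop) _ _)
    refine Filter.Eventually.of_forall fun s hs => ?_
    rw [norm_smul, Real.norm_of_nonneg (Real.exp_pos _).le, mul_comm]
    exact mul_le_mul_of_nonneg_right (hf s hs.1.le hs.2) (Real.exp_pos _).le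
  refine h1.trans ?_
  rw [intervalIntegral.integral_const_mul, int_exp hm, mul_div_assoc']
  refine div_le_div_of_nonneg_right ?_ hm.le
  have : 0 < Real.exp (-(m * t)) := Real.exp_pos _
  nlinarith

/-- the product of two functions of time, with the symbol and the exponential weight -/
noncomputable def prf (c : ℝ) (k : K) (f g : ℝ → C3) (s : ℝ) : C3 :=
  Real.exp (-(c / 2 * max s 0)) • bt k (f s) (g s)

lemma prf_cont (c : ℝ) (k : K) {f g : ℝ → C3} (hf : Continuous f) (hg : Continuous g) :
    Continuous (prf c k f g) := by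
  unfold prf
  have h1 : Continuous fun s : ℝ => Real.exp (-(c / 2 * max s 0)) := by fun_prop
  have h2 : Continuous fun s : ℝ => bt k (f s) (g s) :=
    (bt_cont k).comp (f := fun s : ℝ => (f s, g s)) (hf.prodMk hg)
  exact h1.smul h2

lemma prf_norm {c : ℝ} (hc : 0 < c) (k : K) (f g : ℝ → C3) (s : ℝ) :
    ‖prf c k f g s‖ ≤ C0 * nk k * (‖f s‖ * ‖g s‖) := by
  unfold prf
  rw [norm_smul, Real.norm_of_nonneg (Real.exp_pos _).le]
  have h1 : Real.exp (-(c / 2 * max s 0)) ≤ 1 := by
    rw [Real.exp_le_one_iff]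
    have := le_max_right s 0
    have : 0 ≤ c / 2 * max s 0 := by positivity
    linarith
  calc _ ≤ 1 * ‖bt k (f s) (g s)‖ := mul_le_mul_of_nonneg_right h1 (norm_nonneg _)
    _ ≤ _ := by rw [one_mul]; exact norm_bt_le _ _ _

/-- the bilinear operator on functions of time, pointwise -/
noncomputable def tkf (c : ℝ) (k : K) (f g : ℝ → C3) (t : ℝ) : C3 := duf (mk c k) (prf c k f g) (max t 0)

lemma tkf_cont (c : ℝ) (k : K) {f g : ℝ → C3} (hf : Continuous f) (hg : Continuous g) :
    Continuous (tkf c k f g) :=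
  (duf_cont _ (prf_cont c k hf hg)).comp (by fun_prop)

lemma tkf_norm {c : ℝ} (hc : 0 < c) (k : K) (f g : TB) (t : ℝ) :
    ‖tkf c k f g t‖ ≤ 2 * C0 / c * (‖f‖ * ‖g‖) := by
  unfold tkf
  have hC := C0_pos
  have h1 := duf_norm (mk_pos hc k) (f := prf c k f g) (C := C0 * nk k * (‖f‖ * ‖g‖)) (le_max_right t 0)
    fun s _ _ => (prf_norm hc k f g s).trans
      (mul_le_mul_of_nonneg_left (mul_le_mul (f.norm_coe_le_norm s) (g.norm_coe_le_norm s)
        (norm_nonneg _) (norm_nonneg _)) (mul_nonneg hC.le (nk_nonneg k)))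
  refine h1.trans ?_
  have h2 := nk_mk hc k
  have h3 : 0 ≤ ‖f‖ * ‖g‖ := by positivity
  calc C0 * nk k * (‖f‖ * ‖g‖) / mk c k = C0 * (‖f‖ * ‖g‖) * (nk k / mk c k) := by ring
    _ ≤ C0 * (‖f‖ * ‖g‖) * (2 / c) := mul_le_mul_of_nonneg_left h2 (by positivity)
    _ = _ := by ring

lemma duf_add (m : ℝ) {f g : ℝ → C3} (hf : Continuous f) (hg : Continuous g) (t : ℝ) :
    duf m (fun s => f s + g s) t = duf m f t + duf m g t := by
  unfold duf
  simp only [smul_add]
  exact intervalIntegral.integral_add (Continuous.intervalIntegrable (by fun_prop) _ _)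
    (Continuous.intervalIntegrable (by fun_prop) _ _)

lemma duf_csmul (m : ℝ) (a : ℂ) (f : ℝ → C3) (t : ℝ) :
    duf m (fun s => a • f s) t = a • duf m f t := by
  unfold duf
  rw [← intervalIntegral.integral_smul]
  refine intervalIntegral.integral_congr fun s _ => ?_
  simp only
  rw [smul_comm]

/-- the bilinear operator on functions of time -/
noncomputable def TK {c : ℝ} (hc : 0 < c) (k : K) : TB →L[ℂ] TB →L[ℂ] TB :=
  LinearMap.mkContinuous₂
    (LinearMap.mk₂ ℂ (fun f g : TB => BoundedContinuousFunction.ofNormedAddCommGroup (tkf c k f g)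
        (tkf_cont c k f.continuous g.continuous) _ (tkf_norm hc k f g))
      (fun f f' g => by
        ext1 t
        show tkf c k (f + f') g t = tkf c k f g t + tkf c k f' g t
        unfold tkf
        rw [← duf_add _ (prf_cont c k f.continuous g.continuous) (prf_cont c k f'.continuous g.continuous)]
        congr 1
        funext s
        unfold prf
        rw [← smul_add, ← bt_add_l]; rfl)
      (fun a f g => by
        ext1 t
        show tkf c k (a • f) g t = a • tkf c k f g t
        unfold tkf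
        rw [← duf_csmul]
        congr 1
        funext s
        unfold prf
        rw [smul_comm, ← bt_csmul_l]; rfl)
      (fun f g g' => by
        ext1 t
        show tkf c k f (g + g') t = tkf c k f g t + tkf c k f g' t
        unfold tkf
        rw [← duf_add _ (prf_cont c k f.continuous g.continuous) (prf_cont c k f.continuous g'.continuous)]
        congr 1
        funext s
        unfold prf
        rw [← smul_add, ← bt_add_r]; rfl)
      (fun a f g => by
        ext1 t
        show tkf c k f (a • g) t = a • tkf c k f g t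
        unfold tkf
        rw [← duf_csmul]
        congr 1
        funext s
        unfold prf
        rw [smul_comm, ← bt_csmul_r]; rfl))
    (2 * C0 / c)
    (fun f g => by
      have hC := C0_pos
      refine (BoundedContinuousFunction.norm_le (by positivity)).2 fun t => ?_
      have := tkf_norm hc k f g t
      rw [mul_assoc]
      exact this)

lemma TK_apply {c : ℝ} (hc : 0 < c) (k : K) (f g : TB) (t : ℝ) : TK hc k f g t = tkf c k f g t := rfl

lemma TK_norm {c : ℝ} (hc : 0 < c) (k : K) (f g : TB) : ‖TK hc k f g‖ ≤ 2 * C0 / c * (‖f‖ * ‖g‖) := by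
  have hC := C0_pos
  exact (BoundedContinuousFunction.norm_le (by positivity)).2 fun t => tkf_norm hc k f g t

/-! ### the bilinear operator on the space -/

/-- `(k, l) ↦ (l, k - l)` -/
def shEq : K × K ≃ K × K where
  toFun p := (p.2, p.1 - p.2)
  invFun q := (q.1 + q.2, q.1)
  left_inv p := by ext <;> simp
  right_inv q := by ext <;> simp

lemma cvS {a b : K → ℝ} (ha : Summable a) (hb : Summable b) (ha0 : ∀ k, 0 ≤ a k) (hb0 : ∀ k, 0 ≤ b k) :
    Summable fun p : K × K => a p.2 * b (p.1 - p.2) := by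
  have h1 : Summable fun q : K × K => a q.1 * b q.2 := ha.mul_of_nonneg hb ha0 hb0
  exact (shEq.summable_iff (f := fun q : K × K => a q.1 * b q.2)).2 h1

lemma cvT {a b : K → ℝ} (ha : Summable a) (hb : Summable b) (ha0 : ∀ k, 0 ≤ a k) (hb0 : ∀ k, 0 ≤ b k) :
    ∑' k, ∑' l, a l * b (k - l) = (∑' k, a k) * ∑' k, b k := by
  have h1 : Summable fun q : K × K => a q.1 * b q.2 := ha.mul_of_nonneg hb ha0 hb0
  rw [ha.tsum_mul_tsum hb h1, ← shEq.tsum_eq]
  exact ((cvS ha hb ha0 hb0).tsum_prod).symm

lemma cvS1 {a b : K → ℝ} (ha : Summable a) (hb : Summable b) (ha0 : ∀ k, 0 ≤ a k) (hb0 : ∀ k, 0 ≤ b k) (k : K) :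
    Summable fun l => a l * b (k - l) := (cvS ha hb ha0 hb0).prod_factor k

lemma cvS2 {a b : K → ℝ} (ha : Summable a) (hb : Summable b) (ha0 : ∀ k, 0 ≤ a k) (hb0 : ∀ k, 0 ≤ b k) :
    Summable fun k => ∑' l, a l * b (k - l) := (cvS ha hb ha0 hb0).prod

variable {c : ℝ} (hc : 0 < c)

lemma TKs (x y : EE) (k : K) : Summable fun l => ‖TK hc k (x l) (y (k - l))‖ :=
  ((cvS1 (sE x) (sE y) (fun _ => norm_nonneg _) (fun _ => norm_nonneg _) k).mul_left (2 * C0 / c)).of_nonneg_of_le
    (fun _ => norm_nonneg _) fun _ => TK_norm hc k _ _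

/-- the components -/
noncomputable def BBk (x y : EE) (k : K) : TB := ∑' l, TK hc k (x l) (y (k - l))

lemma BBk_norm (x y : EE) (k : K) : ‖BBk hc x y k‖ ≤ 2 * C0 / c * ∑' l, ‖x l‖ * ‖y (k - l)‖ := by
  refine (norm_tsum_le_tsum_norm (TKs hc x y k)).trans ?_
  rw [← tsum_mul_left]
  exact (TKs hc x y k).tsum_le_tsum (fun l => TK_norm hc k _ _)
    ((cvS1 (sE x) (sE y) (fun _ => norm_nonneg _) (fun _ => norm_nonneg _) k).mul_left _)

lemma BBk_summ (x y : EE) : Summable fun k => ‖BBk hc x y k‖ :=
  ((cvS2 (sE x) (sE y) (fun _ => norm_nonneg _) (fun _ => norm_nonneg _)).mul_left (2 * C0 / c)).of_nonneg_of_le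
    (fun _ => norm_nonneg _) fun k => BBk_norm hc x y k

lemma BBk_total (x y : EE) : ∑' k, ‖BBk hc x y k‖ ≤ 2 * C0 / c * (‖x‖ * ‖y‖) := by
  refine ((BBk_summ hc x y).tsum_le_tsum (fun k => BBk_norm hc x y k)
    ((cvS2 (sE x) (sE y) (fun _ => norm_nonneg _) (fun _ => norm_nonneg _)).mul_left _)).trans ?_
  rw [tsum_mul_left, cvT (sE x) (sE y) (fun _ => norm_nonneg _) (fun _ => norm_nonneg _), ← nE, ← nE]

/-- the bilinear operator on the space -/
noncomputable def BB : EE →L[ℂ] EE →L[ℂ] EE :=
  LinearMap.mkContinuous₂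
    (LinearMap.mk₂ ℂ (fun x y : EE => mkE (BBk hc x y) (BBk_summ hc x y))
      (fun x x' y => by
        apply lp.ext
        funext k
        show BBk hc (x + x') y k = BBk hc x y k + BBk hc x' y k
        unfold BBk
        rw [← (TKs hc x y k).of_norm.tsum_add (TKs hc x' y k).of_norm]
        refine tsum_congr fun l => ?_
        rw [lp.coeFn_add, Pi.add_apply, map_add]; rfl)
      (fun a x y => by
        apply lp.ext
        funext k
        show BBk hc (a • x) y k = a • BBk hc x y k
        unfold BBk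
        rw [← tsum_const_smul'']
        refine tsum_congr fun l => ?_
        rw [lp.coeFn_smul, Pi.smul_apply, map_smul]; rfl)
      (fun x y y' => by
        apply lp.ext
        funext k
        show BBk hc x (y + y') k = BBk hc x y k + BBk hc x y' k
        unfold BBk
        rw [← (TKs hc x y k).of_norm.tsum_add (TKs hc x y' k).of_norm]
        refine tsum_congr fun l => ?_
        rw [lp.coeFn_add, Pi.add_apply, map_add])
      (fun a x y => by
        apply lp.ext
        funext k
        show BBk hc x (a • y) k = a • BBk hc x y k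
        unfold BBk
        rw [← tsum_const_smul'']
        refine tsum_congr fun l => ?_
        rw [lp.coeFn_smul, Pi.smul_apply, map_smul]))
    (2 * C0 / c)
    (fun x y => by
      rw [nE, mul_assoc]
      exact BBk_total hc x y)

lemma BB_apply (x y : EE) (k : K) : BB hc x y k = ∑' l, TK hc k (x l) (y (k - l)) := rfl

lemma BB_eval (x y : EE) (k : K) (t : ℝ) : BB hc x y k t = ∑' l, tkf c k (x l) (y (k - l)) t := by
  rw [BB_apply]
  have h1 : (∑' l, TK hc k (x l) (y (k - l))) t = ∑' l, TK hc k (x l) (y (k - l)) t :=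
    ContinuousLinearMap.map_tsum (BoundedContinuousFunction.evalCLM ℂ t) (TKs hc x y k).of_norm
  rw [h1]
  rfl

end Pool.Agent.U162.TS.EL
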