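import Pool.Agent.U162.TS.Ell9

/-!
The two-scale theorem for arbitrary global fast flows.
-/

open MeasureTheory Set Filter Topology
open scoped ENNReal NNReal ContDiff

namespace Pool.Agent.U162.TS.EL

open Pool.Agent.H356R3.NS Pool.Agent.U162.TS.VF Pool.Agent.U162.TS.Ph

lemma ch_neg_star (k : K) (x : R3) : star (ch k x) = ch (-k) x := by
  rw [← ee_eq_ch, ← ee_eq_ch, H459R3.NS.ee_neg, Complex.star_def]

lemma profile_eq {b : K × K → C3} {S : Finset (K × K)} (hb : Prof b S) (x y : R3) (i : Fin 3) :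
    ((profile b S x y i : ℝ) : ℂ) = ∑ P ∈ S, b P i * (ch P.1 x * ch P.2 y) := by
  unfold profile
  set Z := ∑ P ∈ S, b P i * (ch P.1 x * ch P.2 y) with hZ
  have h1 : Z = ∑' P : K × K, b P i * (ch P.1 x * ch P.2 y) := by
    rw [hZ, tsum_eq_sum]
    intro P hP
    rw [hb.supp P hP]; simp
  have h2 : star Z = Z := by
    rw [h1, show star (∑' P : K × K, b P i * (ch P.1 x * ch P.2 y))
      = ∑' P : K × K, star (b P i * (ch P.1 x * ch P.2 y)) from tsum_star, ← (Equiv.neg (K × K)).tsum_eq]
    refine tsum_congr fun P => ?_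
    rw [Equiv.neg_apply, star_mul', star_mul', ch_neg_star, ch_neg_star, hb.real, star_star]
    simp
  exact Complex.conj_eq_iff_re.1 h2

lemma fc_profile {b : K × K → C3} {S : Finset (K × K)} (hb : Prof b S) (x : R3) (k : K) (i : Fin 3) :
    H459R3.NS.fr (fun y => profile b S x y i) k = ∑ P ∈ S, if P.2 = k then ch P.1 x * b P i else 0 := by
  unfold H459R3.NS.fr H459R3.NS.fc
  have e : ∀ y, H459R3.NS.ee (-k) y * ((profile b S x y i : ℝ) : ℂ)
      = ∑ P ∈ S, H459R3.NS.ee (P.2 - k) y * (ch P.1 x * b P i) := by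
    intro y
    rw [profile_eq hb, Finset.mul_sum]
    refine Finset.sum_congr rfl fun P _ => ?_
    rw [sub_eq_add_neg, H459R3.NS.ee_add_left, ← ee_eq_ch P.2]
    ring
  simp only [e]
  rw [integral_finsetSum]
  · refine Finset.sum_congr rfl fun P _ => ?_
    rw [integral_mul_const, H459R3.NS.integral_ee]
    by_cases h : P.2 = k
    · rw [if_pos h, if_pos (sub_eq_zero.2 h), one_mul]
    · rw [if_neg h, if_neg (sub_ne_zero.2 h), zero_mul]
  · intro P _
    exact (H459R3.NS.integrableOn_cube (H459R3.NS.ee_continuous _)).mul_const _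

lemma profile_mean {b : K × K → C3} {S : Finset (K × K)} (hb : Prof b S) (x : R3) (i : Fin 3) :
    ∫ y in Icc (0 : R3) 1, profile b S x y i = 0 := by
  have h := fc_profile hb x 0 i
  rw [Finset.sum_eq_zero fun P _ => by
    split_ifs with h
    · rw [hb.mean P h]; simp
    · rfl] at h
  exact Ph.fr_zero_int h

variable {ν : ℝ} {b : K × K → C3} {S : Finset (K × K)} {W : R3 → ℝ → R3 → R3} {Q : R3 → ℝ → R3 → ℝ}

/-- the family of elements of the Banach space -/
theorem family {c : ℝ} (hc : 0 < c) (hν : 0 < ν) (hcν : c = 4 * Real.pi ^ 2 * ν) (hb : Prof b S)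
    (hW : ∀ x, AdmissiblePeriodic ν (profile b S x) (W x) (Q x)) :
    ∃ z : R3 → EE, (∀ x k t, z x k t = Real.exp (c / 2 * max t 0) • XF (W x) k (max t 0)) ∧
      (∀ x, Phi hc (z x) = UU hc b S x) ∧ ∀ x k t i, z x (-k) t i = star (z x k t i) := by
  have hG : ∀ x, Glob ν (W x) (Q x) := fun x => glob_of_adm (hW x) (profile_mean hb x)
  choose z hz1 hz2 using fun x => mem_of_glob hc hν hcν (hG x)
  refine ⟨z, hz1, fun x => ?_, fun x k t i => ?_⟩
  · rw [hz2]
    apply lp.ext
    funext k
    ext1 t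
    rw [hE_apply, hT_apply]
    have e : UU hc b S x k t = ∑ P ∈ S, H459R3.NS.ee P.1 x • (if k = P.2 then hT hc P.2 (b P) t else 0) := by
      rw [← ev_apply]
      unfold UU
      rw [map_sum]
      refine Finset.sum_congr rfl fun P _ => ?_
      rw [map_smul, ev_apply, lp.single_apply]
      congr 1
      by_cases h : k = P.2
      · subst h; simp
      · rw [if_neg h, Pi.single_eq_of_ne h]; rfl
    rw [e]
    funext i
    rw [Finset.sum_apply]
    have e2 : XF (W x) k 0 i = ∑ P ∈ S, if P.2 = k then ch P.1 x * b P i else 0 := by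
      rw [← fc_profile hb x k i]
      unfold XF Pool.Agent.Q63.Win.cof
      rw [max_self, (hW x).initial]
    rw [Pi.smul_apply, e2, Finset.smul_sum]
    refine Finset.sum_congr rfl fun P _ => ?_
    rw [Pi.smul_apply, ee_eq_ch]
    by_cases h : P.2 = k
    · rw [if_pos h, if_pos h.symm, hT_apply, Pi.smul_apply, ← h]
      simp only [Complex.real_smul, smul_eq_mul]
      ring
    · rw [if_neg h, if_neg (Ne.symm h)]; simp
  · rw [hz1, hz1, Pi.smul_apply, Pi.smul_apply, star_smul, star_trivial]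
    congr 1
    exact ((hG x).flowC hν).sym (max t 0) k i

/-- the stress in terms of its Fourier coefficients -/
theorem stress_eq {c : ℝ} (hc : 0 < c) (_hν : 0 < ν) (hb : Prof b S)
    (hW : ∀ x, AdmissiblePeriodic ν (profile b S x) (W x) (Q x)) {z : R3 → EE} (hsp : SPv z)
    (hz1 : ∀ x k t, z x k t = Real.exp (c / 2 * max t 0) • XF (W x) k (max t 0)) (j m : Fin 3) :
    (Summable fun l => ∫ s in Ioi (0 : ℝ), As c z j m l s) ∧ ∀ x, ((stress W j m x : ℝ) : ℂ)
      = H459R3.NS.S (fun l => ∫ s in Ioi (0 : ℝ), As c z j m l s) x := by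
  have hsum := cfv_summ hsp
  have hcv := (cvS2 hsum hsum (fun _ => norm_nonneg _) (fun _ => norm_nonneg _)).mul_left (1 / c)
  have hsN : Summable fun l => ∫ s in Ioi (0 : ℝ), ‖As c z j m l s‖ :=
    hcv.of_nonneg_of_le (fun _ => integral_nonneg fun _ => norm_nonneg _) fun l => (As_int hc hsp j m l).2
  refine ⟨Summable.of_norm_bounded hsN fun l => norm_integral_le_integral_norm _, fun x => ?_⟩
  have hG : Glob ν (W x) (Q x) := glob_of_adm (hW x) (profile_mean hb x)
  have h1 : ∀ s ∈ Ioi (0 : ℝ), ((∫ y in Icc (0 : R3) 1, W x s y j * W x s y m : ℝ) : ℂ)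
      = ∑' l, H459R3.NS.ee l x * As c z j m l s := by
    intro s hs
    have hs0 : (0 : ℝ) ≤ s := le_of_lt hs
    have e1 := Pool.Agent.Q63.Win.fr_mul (hG.sp hs0 j) (hG.sp hs0 m) 0
    have e2 : H459R3.NS.fr (fun y => W x s y j * W x s y m) 0
        = ((∫ y in Icc (0 : R3) 1, W x s y j * W x s y m : ℝ) : ℂ) := by
      unfold H459R3.NS.fr H459R3.NS.fc
      rw [neg_zero]
      simp_rw [H459R3.NS.ee_zero, one_mul]
      exact integral_ofReal
    rw [e2] at e1
    rw [← e1.tsum_eq, ← (Equiv.neg K).tsum_eq]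
    have e3 : ∀ k : K, H459R3.NS.fr (fun y => W x s y j) (0 - (Equiv.neg K) k) *
        H459R3.NS.fr (fun y => W x s y m) ((Equiv.neg K) k)
        = Real.exp (-(c * s)) * (z x k s j * z x (-k) s m) := by
      intro k
      rw [hz1, hz1, max_eq_left hs0, Equiv.neg_apply, zero_sub, neg_neg]
      unfold XF Pool.Agent.Q63.Win.cof
      simp only [Pi.smul_apply, Complex.real_smul]
      rw [max_eq_left hs0]
      have e4 : (Real.exp (-(c * s)) : ℂ) * (Real.exp (c / 2 * s) * Real.exp (c / 2 * s)) = 1 := by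
        rw [← Complex.ofReal_mul, ← Complex.ofReal_mul, ← Real.exp_add, ← Real.exp_add,
          show -(c * s) + (c / 2 * s + c / 2 * s) = 0 by ring, Real.exp_zero, Complex.ofReal_one]
      linear_combination (-(H459R3.NS.fr (fun y => W x s y j) k * H459R3.NS.fr (fun y => W x s y m) (-k))) * e4
    rw [tsum_congr e3, tsum_mul_left, ← qs_apply]
    have h2 := cfv_hasSum (qs_smooth hsp s j m) x
    rw [← h2.tsum_eq, ← tsum_mul_left]
    refine tsum_congr fun l => ?_
    rw [As_eq hsp j m l hs0, smul_eq_mul]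
    ring
  unfold stress
  rw [← integral_complex_ofReal, setIntegral_congr_fun measurableSet_Ioi h1]
  unfold H459R3.NS.S
  rw [← integral_tsum_of_summable_integral_norm]
  · refine tsum_congr fun l => ?_
    rw [integral_const_mul, mul_comm]
  · intro l
    exact ((As_int hc hsp j m l).1).const_mul _
  · refine hsN.congr fun l => ?_
    refine integral_congr_ae (Filter.Eventually.of_forall fun s => ?_)
    simp only
    rw [norm_mul, H459R3.NS.norm_ee, one_mul]

/-- the kick is given by the total Reynolds stress -/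
theorem push_eq {c : ℝ} (hc : 0 < c) (hν : 0 < ν) (hb : Prof b S)
    (hW : ∀ x, AdmissiblePeriodic ν (profile b S x) (W x) (Q x)) {z : R3 → EE} (hsp : SPv z)
    (hz1 : ∀ x k t, z x k t = Real.exp (c / 2 * max t 0) • XF (W x) k (max t 0))
    (hfl : CellFlow c (WW c z) (c / 2)) (l : K) (i : Fin 3) : push W l i = Kick (WW c z) l i := by
  rw [Kick_As hsp hfl]
  unfold push
  have h : ∀ j m : Fin 3, ∫ x in Icc (0 : R3) 1, ch (-l) x * (stress W j m x : ℂ)
      = ∫ s in Ioi (0 : ℝ), As c z j m l s := by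
    intro j m
    obtain ⟨h1, h2⟩ := stress_eq hc hν hb hW hsp hz1 j m
    simp only [h2]
    have h3 := H459R3.NS.integral_ee_S (-l) h1
    rw [neg_neg] at h3
    rw [← h3]
    unfold H459R3.NS.cube
    refine integral_congr_ae (Filter.Eventually.of_forall fun x => ?_)
    simp only
    rw [ee_eq_ch]
  simp only [h]

/-- the fast flows as series in both variables -/
theorem WW_series {c : ℝ} (hb : Prof b S)
    (hW : ∀ x, AdmissiblePeriodic ν (profile b S x) (W x) (Q x)) {z : R3 → EE} (hsp : SPv z)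
    (hz1 : ∀ x k t, z x k t = Real.exp (c / 2 * max t 0) • XF (W x) k (max t 0))
    (hfl : CellFlow c (WW c z) (c / 2)) (x : R3) (s : ℝ) (y : R3) (i : Fin 3) (hs : 0 ≤ s) :
    ((W x s y i : ℝ) : ℂ) = ∑' P : K × K, WW c z P s i * (ch P.1 x * ch P.2 y) := by
  have hG : Glob ν (W x) (Q x) := glob_of_adm (hW x) (profile_mean hb x)
  have hnc : ∀ (k : K) (x : R3), ‖ch k x‖ = 1 := fun k x => by rw [← ee_eq_ch, H459R3.NS.norm_ee]
  have hS : Summable fun P : K × K => WW c z P s i * (ch P.1 x * ch P.2 y) := by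
    refine Summable.of_norm_bounded (hfl.sn s) fun P => ?_
    rw [norm_mul, norm_mul, hnc, hnc, mul_one, mul_one]
    exact norm_le_pi_norm _ i
  have hS' : Summable fun P : K × K => WW c z (P.2, P.1) s i * (ch P.2 x * ch P.1 y) :=
    (Equiv.prodComm K K).summable_iff.2 hS
  have e0 : ∑' P : K × K, WW c z P s i * (ch P.1 x * ch P.2 y)
      = ∑' P : K × K, WW c z (P.2, P.1) s i * (ch P.2 x * ch P.1 y) :=
    ((Equiv.prodComm K K).tsum_eq fun P : K × K => WW c z P s i * (ch P.1 x * ch P.2 y)).symm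
  rw [e0, hS'.tsum_prod, ← H459R3.NS.S_fr (hG.sp hs i) y]
  unfold H459R3.NS.S
  refine tsum_congr fun k => ?_
  have h3 : HasSum (fun l => H459R3.NS.ee l x • cfv z l k s) (z x k s) := by
    have h2 := (cfv_hasSum hsp x).mapL (ev k s)
    simpa only [map_smul, ev_apply] using h2
  have h4 : HasSum (fun l => H459R3.NS.ee l x * cfv z l k s i) (z x k s i) := by
    have := Pi.hasSum.1 h3 i
    simpa only [Pi.smul_apply, smul_eq_mul] using this
  have h5 : H459R3.NS.fr (fun y => W x s y i) k = Real.exp (-(c / 2 * s)) * z x k s i := by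
    rw [hz1, max_eq_left hs]
    unfold XF Pool.Agent.Q63.Win.cof
    rw [max_eq_left hs, Pi.smul_apply, Complex.real_smul, ← mul_assoc, ← Complex.ofReal_mul, ← Real.exp_add]
    simp
  rw [h5, ← h4.tsum_eq, ← tsum_mul_left, ← tsum_mul_right]
  refine tsum_congr fun l => ?_
  unfold WW
  rw [max_eq_left hs, Pi.smul_apply, Complex.real_smul, ee_eq_ch, ee_eq_ch]
  ring

/-- The two-scale theorem: data which oscillate at two scales have global smooth solutions as soon as the
fast data at each point and the effective slow datum have. -/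
theorem two_scale_data (hν : 0 < ν) {a : Fq → Fin 3 → ℂ} {A : Finset Fq} (ha : Slow a A)
    (hb : Prof b S) (hW : ∀ x, AdmissiblePeriodic ν (profile b S x) (W x) (Q x))
    {g : R3 → R3} {v : ℝ → R3 → R3} {p : ℝ → R3 → ℝ} (hv : AdmissiblePeriodic ν g v p)
    (hg : ∀ l i, H356R3.NS.fc g l i = a l i + push W l i) {ε : ℝ} (hε : 0 < ε) :
    ∃ N0 : ℕ, ∀ N : ℕ, N0 ≤ N → ∃ u q, AdmissiblePeriodic ν (fun x i => trig a A x i + N * osc b S N x i) u q ∧
      CloseAfter ε u v ∧ CloseTwoScale ε N u v W := by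
  have hc : 0 < 4 * Real.pi ^ 2 * ν := by positivity
  obtain ⟨z, hz1, hz2, hz3⟩ := family hc hν rfl hb hW
  have hsp := sol_spv hc hz2
  obtain ⟨hfl, h0⟩ := WW_flow hc hb hz2 hz3
  have hg0 : ∀ i, ∫ x in Icc (0 : R3) 1, g x i = 0 := by
    intro i
    have h := hg 0 i
    have h1 : push W 0 i = 0 := by
      unfold push leray
      simp
    rw [ha.mean, h1] at h
    unfold H356R3.NS.fc at h
    simp only [Pi.zero_apply, Int.cast_zero, zero_mul, Finset.sum_const_zero, mul_zero, neg_zero,
      Complex.exp_zero, mul_one, add_zero] at h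
    rw [integral_complex_ofReal] at h
    exact_mod_cast h
  exact phys hν hv hg0 hfl (fun x s y i hs => WW_series hb hW hsp hz1 hfl x s y i hs) ha h0 hb.supp (fun k i => by
    rw [hg, push_eq hc hν hb hW hsp hz1 hfl]) hε

end Pool.Agent.U162.TS.EL
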