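import Pool.Agent.U162.TS.Ell

/-!
Weights in time: the linearised equations are uniquely solvable.
-/

open MeasureTheory Set Filter Topology
open scoped ENNReal NNReal

namespace Pool.Agent.U162.TS.EL

open Pool.Agent.H356R3.NS

/-- the primitive of the exponential weight -/
noncomputable def psi (c t : ℝ) : ℝ := (1 - Real.exp (-(c / 2 * t))) / (c / 2)

lemma psi_nonneg {c t : ℝ} (hc : 0 < c) (ht : 0 ≤ t) : 0 ≤ psi c t := by
  unfold psi
  have : Real.exp (-(c / 2 * t)) ≤ 1 := by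
    rw [Real.exp_le_one_iff]
    have : 0 ≤ c / 2 * t := by positivity
    linarith
  exact div_nonneg (by linarith) (by positivity)

lemma psi_le {c t : ℝ} (hc : 0 < c) : psi c t ≤ 2 / c := by
  unfold psi
  rw [div_le_div_iff₀ (by positivity) hc]
  have := Real.exp_pos (-(c / 2 * t))
  nlinarith

lemma psi_zero (c : ℝ) : psi c 0 = 0 := by simp [psi]

lemma psi_deriv {c : ℝ} (hc : 0 < c) (t : ℝ) : HasDerivAt (psi c) (Real.exp (-(c / 2 * t))) t := by
  unfold psi
  have h1 : HasDerivAt (fun t : ℝ => -(c / 2 * t)) (-(c / 2)) t := by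
    simpa using ((hasDerivAt_id' t).const_mul (c / 2)).fun_neg
  refine ((h1.exp.const_sub 1).div_const (c / 2)).congr_deriv ?_
  field_simp

lemma psi_cont (c : ℝ) : Continuous (psi c) := by unfold psi; fun_prop

/-- the weight -/
noncomputable def th (c μ t : ℝ) : ℝ := Real.exp (-(μ ^ 2 * psi c (max t 0)))

lemma th_pos (c μ t : ℝ) : 0 < th c μ t := Real.exp_pos _

lemma th_le_one {c : ℝ} (hc : 0 < c) (μ t : ℝ) : th c μ t ≤ 1 := by
  unfold th
  rw [Real.exp_le_one_iff]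
  have := psi_nonneg hc (le_max_right t 0)
  have : 0 ≤ μ ^ 2 * psi c (max t 0) := by positivity
  linarith

lemma th_ge {c : ℝ} (hc : 0 < c) (μ t : ℝ) : Real.exp (-(μ ^ 2 * (2 / c))) ≤ th c μ t := by
  unfold th
  apply Real.exp_le_exp.2
  have := psi_le (t := max t 0) hc
  have : μ ^ 2 * psi c (max t 0) ≤ μ ^ 2 * (2 / c) := mul_le_mul_of_nonneg_left this (sq_nonneg _)
  linarith

lemma th_cont (c μ : ℝ) : Continuous (th c μ) := by
  unfold th
  have := psi_cont c
  fun_prop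

/-- the basic integral estimate -/
lemma wint {c m μ n t : ℝ} (hc : 0 < c) (hm : 0 < m) (hμ : 0 < μ) (ht : 0 ≤ t) :
    ∫ s in (0 : ℝ)..t, n * Real.exp (-(m * (t - s))) *
      (Real.exp (-(c / 2 * s)) * Real.exp (-(μ ^ 2 * (psi c t - psi c s)))) ≤ (n ^ 2 / m + 1) / (4 * μ) := by
  have hp := psi_cont c
  have hG : ∀ s ∈ uIcc 0 t, HasDerivAt (fun s => (n ^ 2 / μ * (Real.exp (-(2 * m * (t - s))) / (2 * m))
      + Real.exp (-(2 * μ ^ 2 * (psi c t - psi c s))) / (2 * μ)) / 2)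
      ((n ^ 2 / μ * Real.exp (-(2 * m * (t - s)))
        + μ * (Real.exp (-(c / 2 * s)) * Real.exp (-(2 * μ ^ 2 * (psi c t - psi c s))))) / 2) s := by
    intro s _
    have h1 : HasDerivAt (fun s : ℝ => -(2 * m * (t - s))) (2 * m) s := by
      have := (((hasDerivAt_id' s).const_sub t).const_mul (2 * m)).fun_neg
      refine this.congr_deriv (by ring)
    have h2 : HasDerivAt (fun s : ℝ => -(2 * μ ^ 2 * (psi c t - psi c s))) (2 * μ ^ 2 * Real.exp (-(c / 2 * s))) s := by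
      have := (((psi_deriv hc s).const_sub (psi c t)).const_mul (2 * μ ^ 2)).fun_neg
      refine this.congr_deriv (by ring)
    refine ((((h1.exp.div_const (2 * m)).const_mul (n ^ 2 / μ)).fun_add (h2.exp.div_const (2 * μ))).div_const 2).congr_deriv ?_
    field_simp
  have hcont : Continuous fun s => (n ^ 2 / μ * Real.exp (-(2 * m * (t - s)))
        + μ * (Real.exp (-(c / 2 * s)) * Real.exp (-(2 * μ ^ 2 * (psi c t - psi c s))))) / 2 := by
    fun_prop
  have h3 := intervalIntegral.integral_eq_sub_of_hasDerivAt hG (hcont.intervalIntegrable _ _)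
  have h4 : ∫ s in (0 : ℝ)..t, n * Real.exp (-(m * (t - s))) *
      (Real.exp (-(c / 2 * s)) * Real.exp (-(μ ^ 2 * (psi c t - psi c s))))
      ≤ ∫ s in (0 : ℝ)..t, (n ^ 2 / μ * Real.exp (-(2 * m * (t - s)))
        + μ * (Real.exp (-(c / 2 * s)) * Real.exp (-(2 * μ ^ 2 * (psi c t - psi c s))))) / 2 := by
    refine intervalIntegral.integral_mono_on ht (Continuous.intervalIntegrable (by fun_prop) _ _)
      (hcont.intervalIntegrable _ _) fun s hs => ?_
    set a := Real.exp (-(m * (t - s))) with ha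
    set e := Real.exp (-(c / 2 * s)) with he
    set q := Real.exp (-(μ ^ 2 * (psi c t - psi c s))) with hq
    have e1 : Real.exp (-(2 * m * (t - s))) = a ^ 2 := by
      rw [ha, ← Real.exp_nat_mul]; congr 1; push_cast; ring
    have e2 : Real.exp (-(2 * μ ^ 2 * (psi c t - psi c s))) = q ^ 2 := by
      rw [hq, ← Real.exp_nat_mul]; congr 1; push_cast; ring
    rw [e1, e2]
    have he0 : 0 < e := Real.exp_pos _
    have he1 : e ≤ 1 := by
      rw [he, Real.exp_le_one_iff]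
      have : 0 ≤ c / 2 * s := mul_nonneg (by positivity) hs.1
      linarith
    have k1 : n ^ 2 / μ * a ^ 2 + μ * (e ^ 2 * q ^ 2) - 2 * (n * a * (e * q)) = (n * a - μ * (e * q)) ^ 2 / μ := by
      field_simp
      ring
    have k2 : 0 ≤ (n * a - μ * (e * q)) ^ 2 / μ := by positivity
    have k3 : μ * (e ^ 2 * q ^ 2) ≤ μ * (e * q ^ 2) := by
      have : e ^ 2 ≤ e := by nlinarith
      gcongr
    linarith
  refine h4.trans ?_
  rw [h3]
  simp only [sub_self, mul_zero, neg_zero, Real.exp_zero, sub_zero, psi_zero]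
  have h5 := Real.exp_pos (-(2 * m * t))
  have h6 := Real.exp_pos (-(2 * μ ^ 2 * psi c t))
  have h7 : 0 ≤ n ^ 2 / μ * (Real.exp (-(2 * m * t)) / (2 * m)) := by positivity
  have h8 : 0 ≤ Real.exp (-(2 * μ ^ 2 * psi c t)) / (2 * μ) := by positivity
  have h9 : (n ^ 2 / μ * (1 / (2 * m)) + 1 / (2 * μ)) / 2 = (n ^ 2 / m + 1) / (4 * μ) := by
    field_simp
    ring
  linarith

/-- the multiplication with the weight -/
noncomputable def ThB {c : ℝ} (hc : 0 < c) (μ : ℝ) : TB →L[ℂ] TB :=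
  LinearMap.mkContinuous
    { toFun := fun f => BoundedContinuousFunction.ofNormedAddCommGroup (fun t => th c μ t • f t)
        ((th_cont c μ).smul f.continuous) ‖f‖ (fun t => by
          rw [norm_smul, Real.norm_of_nonneg (th_pos c μ t).le]
          exact (mul_le_mul (th_le_one hc μ t) (f.norm_coe_le_norm t) (norm_nonneg _) zero_le_one).trans
            (by rw [one_mul]))
      map_add' := fun f g => by
        ext1 t
        show th c μ t • (f + g) t = th c μ t • f t + th c μ t • g t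
        rw [BoundedContinuousFunction.add_apply, smul_add]
      map_smul' := fun a f => by
        ext1 t
        show th c μ t • (a • f) t = a • (th c μ t • f t)
        rw [BoundedContinuousFunction.smul_apply, smul_comm] }
    1 (fun f => by
      rw [one_mul]
      refine (BoundedContinuousFunction.norm_le (norm_nonneg _)).2 fun t => ?_
      show ‖th c μ t • f t‖ ≤ ‖f‖
      rw [norm_smul, Real.norm_of_nonneg (th_pos c μ t).le]
      exact (mul_le_mul (th_le_one hc μ t) (f.norm_coe_le_norm t) (norm_nonneg _) zero_le_one).trans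
        (by rw [one_mul]))

variable {c : ℝ} (hc : 0 < c)

lemma ThB_apply (μ : ℝ) (f : TB) (t : ℝ) : ThB hc μ f t = th c μ t • f t := rfl

lemma ThB_le (μ : ℝ) (f : TB) : ‖ThB hc μ f‖ ≤ ‖f‖ := by
  refine (BoundedContinuousFunction.norm_le (norm_nonneg _)).2 fun t => ?_
  rw [ThB_apply, norm_smul, Real.norm_of_nonneg (th_pos c μ t).le]
  exact (mul_le_mul (th_le_one hc μ t) (f.norm_coe_le_norm t) (norm_nonneg _) zero_le_one).trans
    (by rw [one_mul])

lemma ThB_ge (μ : ℝ) (f : TB) : Real.exp (-(μ ^ 2 * (2 / c))) * ‖f‖ ≤ ‖ThB hc μ f‖ := by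
  have h0 := Real.exp_pos (-(μ ^ 2 * (2 / c)))
  rw [← le_div_iff₀' h0]
  refine (BoundedContinuousFunction.norm_le (by positivity)).2 fun t => ?_
  rw [le_div_iff₀' h0]
  have h1 := (ThB hc μ f).norm_coe_le_norm t
  rw [ThB_apply, norm_smul, Real.norm_of_nonneg (th_pos c μ t).le] at h1
  exact (mul_le_mul_of_nonneg_right (th_ge hc μ t) (norm_nonneg _)).trans h1

lemma ThB_pt (μ : ℝ) (f : TB) (s : ℝ) : ‖f s‖ ≤ ‖ThB hc μ f‖ / th c μ s := by
  rw [le_div_iff₀' (th_pos c μ s)]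
  have h1 := (ThB hc μ f).norm_coe_le_norm s
  rwa [ThB_apply, norm_smul, Real.norm_of_nonneg (th_pos c μ s).le] at h1

/-- the smallness factor -/
noncomputable def dl (c μ : ℝ) : ℝ := C0 * ((2 / c + 1) / (4 * μ))

include hc in
lemma dl_pos {μ : ℝ} (hμ : 0 < μ) : 0 < dl c μ := by
  have := C0_pos
  unfold dl
  positivity

lemma TK_th {μ : ℝ} (hμ : 0 < μ) (k : K) (f g : TB) {M : ℝ} (hM : 0 ≤ M)
    (h : ∀ s, 0 ≤ s → ‖f s‖ * ‖g s‖ ≤ M / th c μ s) : ‖ThB hc μ (TK hc k f g)‖ ≤ dl c μ * M := by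
  have hC := C0_pos
  have hd := dl_pos hc hμ
  refine (BoundedContinuousFunction.norm_le (by positivity)).2 fun t => ?_
  rw [ThB_apply, TK_apply, norm_smul, Real.norm_of_nonneg (th_pos c μ t).le]
  unfold tkf duf
  set t' := max t 0 with ht'
  have ht0 : 0 ≤ t' := le_max_right _ _
  have hth : th c μ t = Real.exp (-(μ ^ 2 * psi c t')) := rfl
  have hp := psi_cont c
  have h1 : ‖∫ s in (0 : ℝ)..t', Real.exp (-(mk c k * (t' - s))) • prf c k f g s‖
      ≤ ∫ s in (0 : ℝ)..t', C0 * M * (nk k * Real.exp (-(mk c k * (t' - s))) *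
      (Real.exp (-(c / 2 * s)) * Real.exp (μ ^ 2 * psi c s))) := by
    refine intervalIntegral.norm_integral_le_of_norm_le ht0 ?_
      (Continuous.intervalIntegrable (by fun_prop) _ _)
    refine Filter.Eventually.of_forall fun s hs => ?_
    unfold prf
    rw [norm_smul, norm_smul, Real.norm_of_nonneg (Real.exp_pos _).le, Real.norm_of_nonneg (Real.exp_pos _).le,
      max_eq_left hs.1.le]
    have h2 := norm_bt_le k (f s) (g s)
    have h3 := h s hs.1.le
    have h4 : M / th c μ s = M * Real.exp (μ ^ 2 * psi c s) := by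
      unfold th
      rw [max_eq_left hs.1.le, Real.exp_neg, div_inv_eq_mul]
    rw [h4] at h3
    have h5 : ‖bt k (f s) (g s)‖ ≤ C0 * nk k * (M * Real.exp (μ ^ 2 * psi c s)) :=
      h2.trans (mul_le_mul_of_nonneg_left h3 (mul_nonneg hC.le (nk_nonneg k)))
    calc _ ≤ Real.exp (-(mk c k * (t' - s))) * (Real.exp (-(c / 2 * s)) *
          (C0 * nk k * (M * Real.exp (μ ^ 2 * psi c s)))) := by gcongr
      _ = _ := by ring
  calc _ ≤ th c μ t * ∫ s in (0 : ℝ)..t', C0 * M * (nk k * Real.exp (-(mk c k * (t' - s))) *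
      (Real.exp (-(c / 2 * s)) * Real.exp (μ ^ 2 * psi c s))) := mul_le_mul_of_nonneg_left h1 (th_pos c μ t).le
    _ = C0 * M * ∫ s in (0 : ℝ)..t', nk k * Real.exp (-(mk c k * (t' - s))) *
      (Real.exp (-(c / 2 * s)) * Real.exp (-(μ ^ 2 * (psi c t' - psi c s)))) := by
        rw [← intervalIntegral.integral_const_mul, ← intervalIntegral.integral_const_mul]
        refine intervalIntegral.integral_congr fun s _ => ?_
        have e : Real.exp (-(μ ^ 2 * (psi c t' - psi c s))) = th c μ t * Real.exp (μ ^ 2 * psi c s) := by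
          rw [hth, ← Real.exp_add]; congr 1; ring
        simp only [e]
        ring
    _ ≤ C0 * M * ((nk k ^ 2 / mk c k + 1) / (4 * μ)) :=
        mul_le_mul_of_nonneg_left (wint hc (mk_pos hc k) hμ ht0) (by positivity)
    _ ≤ C0 * M * ((2 / c + 1) / (4 * μ)) := by
        have := nk2_mk hc k
        gcongr
    _ = _ := by unfold dl; ring

lemma TK_th_r {μ : ℝ} (hμ : 0 < μ) (k : K) (f g : TB) :
    ‖ThB hc μ (TK hc k f g)‖ ≤ dl c μ * (‖f‖ * ‖ThB hc μ g‖) :=
  TK_th hc hμ k f g (by positivity) fun s _ => by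
    rw [mul_div_assoc]
    exact mul_le_mul (f.norm_coe_le_norm s) (ThB_pt hc μ g s) (norm_nonneg _) (norm_nonneg _)

lemma TK_th_l {μ : ℝ} (hμ : 0 < μ) (k : K) (f g : TB) :
    ‖ThB hc μ (TK hc k f g)‖ ≤ dl c μ * (‖ThB hc μ f‖ * ‖g‖) :=
  TK_th hc hμ k f g (by positivity) fun s _ => by
    rw [mul_div_right_comm]
    exact mul_le_mul (ThB_pt hc μ f s) (g.norm_coe_le_norm s) (norm_nonneg _)
      (div_nonneg (norm_nonneg _) (th_pos c μ s).le)

/-- the weighted norm -/
noncomputable def nT (μ : ℝ) (x : EE) : ℝ := ∑' k, ‖ThB hc μ (x k)‖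

lemma nT_summ (μ : ℝ) (x : EE) : Summable fun k => ‖ThB hc μ (x k)‖ :=
  (sE x).of_nonneg_of_le (fun _ => norm_nonneg _) fun k => ThB_le hc μ (x k)

lemma nT_nonneg (μ : ℝ) (x : EE) : 0 ≤ nT hc μ x := tsum_nonneg fun _ => norm_nonneg _

lemma nT_le (μ : ℝ) (x : EE) : nT hc μ x ≤ ‖x‖ := by
  rw [nE]
  exact (nT_summ hc μ x).tsum_le_tsum (fun k => ThB_le hc μ (x k)) (sE x)

lemma nT_ge (μ : ℝ) (x : EE) : Real.exp (-(μ ^ 2 * (2 / c))) * ‖x‖ ≤ nT hc μ x := by
  rw [nE, ← tsum_mul_left]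
  exact ((sE x).mul_left _).tsum_le_tsum (fun k => ThB_ge hc μ (x k)) (nT_summ hc μ x)

lemma nT_add (μ : ℝ) (x y : EE) : nT hc μ (x + y) ≤ nT hc μ x + nT hc μ y := by
  unfold nT
  rw [← (nT_summ hc μ x).tsum_add (nT_summ hc μ y)]
  refine (nT_summ hc μ (x + y)).tsum_le_tsum (fun k => ?_) ((nT_summ hc μ x).add (nT_summ hc μ y))
  rw [lp.coeFn_add, Pi.add_apply, map_add]
  exact norm_add_le _ _

lemma nT_BB_gen {μ : ℝ} (_hμ : 0 < μ) (x y : EE) {a b : K → ℝ} (ha : Summable a) (hb : Summable b)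
    (ha0 : ∀ k, 0 ≤ a k) (hb0 : ∀ k, 0 ≤ b k) {D : ℝ}
    (h : ∀ k l, ‖ThB hc μ (TK hc k (x l) (y (k - l)))‖ ≤ D * (a l * b (k - l))) :
    nT hc μ (BB hc x y) ≤ D * ((∑' k, a k) * ∑' k, b k) := by
  unfold nT
  rw [← cvT ha hb ha0 hb0, ← tsum_mul_left]
  refine (nT_summ hc μ _).tsum_le_tsum (fun k => ?_) ((cvS2 ha hb ha0 hb0).mul_left _)
  rw [BB_apply, ContinuousLinearMap.map_tsum (ThB hc μ) (TKs hc x y k).of_norm]
  have h1 : Summable fun l => D * (a l * b (k - l)) := (cvS1 ha hb ha0 hb0 k).mul_left D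
  have h2 : Summable fun l => ‖ThB hc μ (TK hc k (x l) (y (k - l)))‖ :=
    h1.of_nonneg_of_le (fun _ => norm_nonneg _) fun l => h k l
  refine (norm_tsum_le_tsum_norm h2).trans ?_
  rw [← tsum_mul_left]
  exact h2.tsum_le_tsum (fun l => h k l) h1

lemma nT_BB_r {μ : ℝ} (hμ : 0 < μ) (x y : EE) : nT hc μ (BB hc x y) ≤ dl c μ * (‖x‖ * nT hc μ y) := by
  have := nT_BB_gen hc hμ x y (sE x) (nT_summ hc μ y) (fun _ => norm_nonneg _) (fun _ => norm_nonneg _)
    (D := dl c μ) fun k l => TK_th_r hc hμ k _ _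
  rw [← nE] at this
  exact this

lemma nT_BB_l {μ : ℝ} (hμ : 0 < μ) (x y : EE) : nT hc μ (BB hc x y) ≤ dl c μ * (nT hc μ x * ‖y‖) := by
  have := nT_BB_gen hc hμ x y (nT_summ hc μ x) (sE y) (fun _ => norm_nonneg _) (fun _ => norm_nonneg _)
    (D := dl c μ) fun k l => TK_th_l hc hμ k _ _
  rw [← nE y] at this
  exact this

/-- the linearised operator -/
noncomputable def LL (x y : EE) : EE →L[ℂ] EE := BB hc x + (BB hc).flip y

lemma LL_apply (x y h : EE) : LL hc x y h = BB hc x h + BB hc h y := rfl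

lemma LL_contr (x y : EE) : ∃ μ : ℝ, 0 < μ ∧ ∀ h, nT hc μ (LL hc x y h) ≤ 1 / 2 * nT hc μ h := by
  have hC := C0_pos
  set D := C0 * (2 / c + 1) * (‖x‖ + ‖y‖) with hD
  have hD0 : 0 ≤ D := by positivity
  refine ⟨D + 1, by positivity, fun h => ?_⟩
  have hμ : 0 < D + 1 := by positivity
  rw [LL_apply]
  refine (nT_add hc _ _ _).trans ?_
  have h1 := nT_BB_r hc hμ x h
  have h2 := nT_BB_l hc hμ h y
  have h3 := nT_nonneg hc (D + 1) h
  have h4 : dl c (D + 1) * (‖x‖ + ‖y‖) ≤ 1 / 2 := by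
    have e : dl c (D + 1) * (‖x‖ + ‖y‖) = D / (4 * (D + 1)) := by
      unfold dl; rw [hD]; ring
    rw [e, div_le_div_iff₀ (by positivity) (by norm_num)]
    linarith
  calc _ ≤ dl c (D + 1) * (‖x‖ * nT hc (D + 1) h) + dl c (D + 1) * (nT hc (D + 1) h * ‖y‖) := add_le_add h1 h2
    _ = dl c (D + 1) * (‖x‖ + ‖y‖) * nT hc (D + 1) h := by ring
    _ ≤ _ := mul_le_mul_of_nonneg_right h4 h3

/-- uniqueness -/
lemma LL_uniq {x y d : EE} (h : d = LL hc x y d) : d = 0 := by
  obtain ⟨μ, hμ, hL⟩ := LL_contr hc x y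
  have h1 := hL d
  rw [← h] at h1
  have h2 := nT_nonneg hc μ d
  have h3 := nT_ge hc μ d
  have h4 := Real.exp_pos (-(μ ^ 2 * (2 / c)))
  have h5 : nT hc μ d ≤ 0 := by linarith
  have h6 : ‖d‖ ≤ 0 := by
    by_contra hne
    push Not at hne
    have := mul_pos h4 hne
    linarith
  exact norm_le_zero_iff.1 h6

lemma LL_unit (x y : EE) : IsUnit (1 - LL hc x y) := by
  obtain ⟨μ, hμ, hL⟩ := LL_contr hc x y
  have h4 := Real.exp_pos (-(μ ^ 2 * (2 / c)))
  have hpow : ∀ (n : ℕ) (h : EE), nT hc μ ((LL hc x y ^ n) h) ≤ (1 / 2) ^ n * nT hc μ h := by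
    intro n
    induction n with
    | zero => intro h; simp
    | succ n ih =>
      intro h
      rw [pow_succ', pow_succ', mul_apply_eq_comp]
      refine (hL _).trans ?_
      have := ih h
      linarith
  obtain ⟨n, hn⟩ := exists_pow_lt_of_lt_one h4 (show (1 / 2 : ℝ) < 1 by norm_num)
  have hlt : ‖LL hc x y ^ n‖ < 1 := by
    have hle : ‖LL hc x y ^ n‖ ≤ (1 / 2) ^ n / Real.exp (-(μ ^ 2 * (2 / c))) := by
      refine ContinuousLinearMap.opNorm_le_bound _ (by positivity) fun h => ?_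
      rw [div_mul_eq_mul_div, le_div_iff₀' h4]
      exact (nT_ge hc μ _).trans ((hpow n h).trans (mul_le_mul_of_nonneg_left (nT_le hc μ h) (by positivity)))
    refine lt_of_le_of_lt hle ?_
    rwa [div_lt_one h4]
  have h5 : IsUnit (1 - LL hc x y ^ n) := (Units.oneSub (LL hc x y ^ n) hlt).isUnit
  rw [← mul_neg_geom_sum] at h5
  have hcomm : Commute (1 - LL hc x y) (∑ i ∈ Finset.range n, LL hc x y ^ i) := by
    refine Commute.sum_right _ _ _ fun i _ => ?_
    exact ((Commute.one_left _).sub_left ((Commute.refl _).pow_right i))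
  exact (hcomm.isUnit_mul_iff.1 h5).1

end Pool.Agent.U162.TS.EL
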