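import Pool.Agent.U162.TS.Ell2

/-!
The solution map is smooth.
-/

open MeasureTheory Set Filter Topology
open scoped ENNReal NNReal ContDiff

namespace Pool.Agent.U162.TS.EL

open Pool.Agent.H356R3.NS

variable {c : ℝ} (hc : 0 < c)

/-- the nonlinear map: `z` solves the equations with the heat flow `U` iff `Phi z = U` -/
noncomputable def Phi (z : EE) : EE := z - BB hc z z

lemma BB_contDiff : ContDiff ℂ ∞ (fun z : EE => BB hc z) := by
  have h := ContinuousLinearMap.contDiff (𝕜 := ℂ) (E := EE) (F := EE →L[ℂ] EE) (n := ∞) (BB hc)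
  exact h

lemma BB_contDiff2 : ContDiff ℂ ∞ (fun z : EE => (BB hc z) z) :=
  (BB_contDiff hc).clm_apply (contDiff_id (E := EE))

lemma Phi_contDiff : ContDiff ℂ ∞ (Phi hc) := (contDiff_id (E := EE)).sub (BB_contDiff2 hc)

lemma Phi_deriv (z : EE) : HasFDerivAt (Phi hc) (1 - LL hc z z) z := by
  have h1 : HasFDerivAt (fun z : EE => BB hc z) (BB hc) z := (BB hc).hasFDerivAt
  have h2 : HasFDerivAt (fun z : EE => z) (ContinuousLinearMap.id ℂ EE) z := hasFDerivAt_id z
  have h3 := h1.clm_apply h2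
  refine (h2.sub h3).congr_fderiv ?_
  ext1 h
  rfl

/-- uniqueness -/
lemma Phi_inj {z z' : EE} (h : Phi hc z = Phi hc z') : z = z' := by
  have h1 : z - z' = LL hc z z' (z - z') := by
    rw [LL_apply]
    unfold Phi at h
    have h2 : z - z' = BB hc z z - BB hc z' z' := by
      have h3 : z - z' - (BB hc z z - BB hc z' z') = (z - BB hc z z) - (z' - BB hc z' z') := by abel
      rw [h, sub_self] at h3
      exact sub_eq_zero.1 h3
    have h4 : BB hc z (z - z') + BB hc (z - z') z' = BB hc z z - BB hc z' z' := by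
      rw [map_sub (BB hc z), map_sub (BB hc), sub_apply]
      abel
    rw [h4]; exact h2
  exact sub_eq_zero.1 (LL_uniq hc h1)

/-- the inverse of the linearisation -/
noncomputable def inv' (z : EE) : EE ≃L[ℂ] EE := ContinuousLinearEquiv.ofUnit (LL_unit hc z z).unit

lemma inv'_coe (z : EE) : ((inv' hc z : EE ≃L[ℂ] EE) : EE →L[ℂ] EE) = 1 - LL hc z z := by
  ext1 h
  rfl

/-- solutions depend smoothly on parameters -/
theorem smooth_sol {P : Type*} [NormedAddCommGroup P] [NormedSpace ℝ P] {U z : P → EE}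
    (hU : ContDiff ℝ ∞ U) (hz : ∀ x, Phi hc (z x) = U x) : ContDiff ℝ ∞ z := by
  rw [contDiff_iff_contDiffAt]
  intro x₀
  have hf : ContDiffAt ℂ ∞ (Phi hc) (z x₀) := (Phi_contDiff hc).contDiffAt
  have hn : (∞ : ℕ∞ω) ≠ 0 := by simp
  have hf' : HasFDerivAt (Phi hc) ((inv' hc (z x₀) : EE ≃L[ℂ] EE) : EE →L[ℂ] EE) (z x₀) := by
    rw [inv'_coe]; exact Phi_deriv hc (z x₀)
  have h1 := (hf.to_localInverse hf' hn).restrict_scalars ℝ
  have h2 := (hf.hasStrictFDerivAt' hf' hn).eventually_right_inverse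
  rw [hz] at h1 h2
  have h3 : ContDiffAt ℝ ∞ (fun x => hf.localInverse hf' hn (U x)) x₀ :=
    h1.comp x₀ hU.contDiffAt
  refine h3.congr_of_eventuallyEq ?_
  filter_upwards [hU.continuous.continuousAt.eventually h2] with x hx
  apply Phi_inj hc
  rw [hz]
  exact hx.symm

/-- small data -/
theorem small_sol : ∀ᶠ U in 𝓝 (0 : EE), ∃ z : EE, Phi hc z = U := by
  have hf : ContDiffAt ℂ ∞ (Phi hc) 0 := (Phi_contDiff hc).contDiffAt
  have hn : (∞ : ℕ∞ω) ≠ 0 := by simp
  have hf' : HasFDerivAt (Phi hc) ((inv' hc 0 : EE ≃L[ℂ] EE) : EE →L[ℂ] EE) 0 := by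
    rw [inv'_coe]; exact Phi_deriv hc 0
  have h2 := (hf.hasStrictFDerivAt' hf' hn).eventually_right_inverse
  have h0 : Phi hc 0 = 0 := by unfold Phi; simp
  rw [h0] at h2
  filter_upwards [h2] with U hU
  exact ⟨_, hU⟩

end Pool.Agent.U162.TS.EL
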