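import Pool.Agent.U162.TS.Flow3

/-!
Fourier series of smooth periodic functions with values in a Banach space.
-/

open MeasureTheory Set Filter Topology
open scoped ENNReal NNReal ContDiff

namespace Pool.Agent.U162.TS.VF

open H459R3.NS

variable {F : Type*} [NormedAddCommGroup F] [NormedSpace ℝ F] [NormedSpace ℂ F] [IsScalarTower ℝ ℂ F]
  [CompleteSpace F]

/-- smooth periodic functions with values in a Banach space -/
structure SPv (g : V → F) : Prop where
  smooth : ContDiff ℝ ∞ g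
  per : Per g

omit [NormedSpace ℂ F] [IsScalarTower ℝ ℂ F] [CompleteSpace F] in
lemma SPv.pd {g : V → F} (hg : SPv g) (j : Fin 3) : SPv (pd j g) := by
  refine ⟨?_, fun i x => ?_⟩
  · have h1 : ContDiff ℝ ∞ (fderiv ℝ g) := hg.smooth.fderiv_right (by simp)
    exact h1.clm_apply contDiff_const
  · show fderiv ℝ g (x + Pi.single i 1) (Pi.single j 1) = fderiv ℝ g x (Pi.single j 1)
    rw [← fderiv_comp_add_right]
    congr 2
    funext y
    exact hg.per i y

omit [NormedSpace ℂ F] [IsScalarTower ℝ ℂ F] [CompleteSpace F] in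
lemma SPv.comp {g : V → F} (hg : SPv g) (ρ : F →L[ℝ] ℝ) : SP fun x => ρ (g x) :=
  ⟨ρ.contDiff.comp hg.smooth, fun i x => by simp only [hg.per i x]⟩

omit [NormedSpace ℂ F] [IsScalarTower ℝ ℂ F] [CompleteSpace F] in
lemma pd_comp {g : V → F} (hg : SPv g) (ρ : F →L[ℝ] ℝ) (j : Fin 3) (x : V) :
    H459R3.NS.pd j (fun x => ρ (g x)) x = ρ (H459R3.NS.pd j g x) := by
  have h1 : HasFDerivAt g (fderiv ℝ g x) x := (hg.smooth.differentiable (by simp) x).hasFDerivAt
  have h2 := (ρ.hasFDerivAt (x := g x)).comp x h1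
  unfold H459R3.NS.pd
  rw [show (fun x => ρ (g x)) = ρ ∘ g from rfl, h2.fderiv]
  rfl

/-- the Fourier coefficients -/
noncomputable def cfv (g : V → F) (l : K3) : F := ∫ x in cube, ee (-l) x • g x

omit [CompleteSpace F] [IsScalarTower ℝ ℂ F] in
lemma cfv_int {g : V → F} (hg : Continuous g) (l : K3) : IntegrableOn (fun x => ee (-l) x • g x) cube :=
  integrableOn_cube ((ee_continuous (-l)).smul hg)

lemma dual_cfv {g : V → F} (hg : Continuous g) (ψ : F →L[ℂ] ℂ) (l : K3) : ψ (cfv g l) = fc (fun x => ψ (g x)) l := by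
  unfold cfv fc
  rw [← ContinuousLinearMap.integral_comp_comm ψ (cfv_int hg l)]
  simp only [map_smul, smul_eq_mul]

lemma fc_split {φ : V → ℂ} (hφ : Continuous φ) (l : K3) :
    fc φ l = fr (fun x => (φ x).re) l + fr (fun x => (φ x).im) l * Complex.I := by
  unfold fr fc
  rw [← integral_mul_const, ← integral_add]
  · refine integral_congr_ae (Filter.Eventually.of_forall fun x => ?_)
    simp only
    rw [mul_assoc, ← mul_add, Complex.re_add_im]
  · exact integrableOn_cube ((ee_continuous (-l)).mul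
      (Complex.continuous_ofReal.comp (Complex.continuous_re.comp hφ)))
  · exact (integrableOn_cube ((ee_continuous (-l)).mul
      (Complex.continuous_ofReal.comp (Complex.continuous_im.comp hφ)))).mul_const _

/-- the coefficients of a derivative -/
lemma cfv_pd {g : V → F} (hg : SPv g) (j : Fin 3) (l : K3) :
    cfv (pd j g) l = (2 * Real.pi * Complex.I * (l j : ℂ)) • cfv g l := by
  refine NormedSpace.eq_iff_forall_dual_eq ℂ |>.2 fun ψ => ?_
  rw [map_smul, dual_cfv (hg.pd j).smooth.continuous, dual_cfv hg.smooth.continuous]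
  have c1 : Continuous fun x => ψ (g x) := ψ.continuous.comp hg.smooth.continuous
  have c2 : Continuous fun x => ψ (pd j g x) := ψ.continuous.comp (hg.pd j).smooth.continuous
  rw [fc_split c1, fc_split c2]
  set ρ1 : F →L[ℝ] ℝ := Complex.reCLM ∘L (ψ.restrictScalars ℝ)
  set ρ2 : F →L[ℝ] ℝ := Complex.imCLM ∘L (ψ.restrictScalars ℝ)
  have e1 : (fun x => (ψ (pd j g x)).re) = pd j (fun x => (ψ (g x)).re) :=
    funext fun x => (pd_comp hg ρ1 j x).symm
  have e2 : (fun x => (ψ (pd j g x)).im) = pd j (fun x => (ψ (g x)).im) :=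
    funext fun x => (pd_comp hg ρ2 j x).symm
  have s1 : SP fun x => (ψ (g x)).re := hg.comp ρ1
  have s2 : SP fun x => (ψ (g x)).im := hg.comp ρ2
  rw [e1, e2, fr_pd s1, fr_pd s2, smul_eq_mul]
  unfold D
  ring

omit [IsScalarTower ℝ ℂ F] in
lemma cfv_le {g : V → F} {M : ℝ} (hM : ∀ x ∈ cube, ‖g x‖ ≤ M) (l : K3) : ‖cfv g l‖ ≤ M := by
  unfold cfv
  have h := norm_setIntegral_le_of_norm_le_const (μ := volume) (s := cube) (f := fun x => ee (-l) x • g x)
    (C := M) (by rw [volume_cube]; exact ENNReal.one_lt_top) (fun x hx => by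
      rw [norm_smul, norm_ee, one_mul]; exact hM x hx)
  have h1 : (volume : Measure V).real cube = 1 := by
    unfold Measure.real; rw [volume_cube]; simp
  rwa [h1, mul_one] at h

lemma cfv_decay {g : V → F} (hg : SPv g) : ∃ M : ℝ, 0 ≤ M ∧ ∀ l : K3, l ≠ 0 → ‖cfv g l‖ ≤ M * (1 / (N l : ℝ) ^ 4) := by
  have h4 : ∀ j, ∃ M : ℝ, ∀ x ∈ cube, ‖pd j (pd j (pd j (pd j g))) x‖ ≤ M := fun j =>
    isCompact_Icc.exists_bound_of_continuousOn ((((hg.pd j).pd j).pd j).pd j).smooth.continuous.continuousOn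
  choose M hM using h4
  have hM0 : ∀ j, 0 ≤ M j := fun j => (norm_nonneg _).trans (hM j 0 (by simp [cube]))
  refine ⟨∑ j, M j, Finset.sum_nonneg fun j _ => hM0 j, fun l hl => ?_⟩
  obtain ⟨j, hj⟩ : ∃ j, (l j).natAbs = N l := by
    obtain ⟨j, -, hj⟩ := Finset.exists_mem_eq_sup (Finset.univ : Finset (Fin 3)) Finset.univ_nonempty
      fun j => (l j).natAbs
    exact ⟨j, hj.symm⟩
  have hN : 1 ≤ N l := Nat.one_le_iff_ne_zero.2 fun h => hl (N_eq_zero.1 h)
  have hN' : (1 : ℝ) ≤ N l := by exact_mod_cast hN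
  have h1 := cfv_le (hM j) l
  rw [cfv_pd (((hg.pd j).pd j).pd j), cfv_pd ((hg.pd j).pd j), cfv_pd (hg.pd j), cfv_pd hg] at h1
  simp only [norm_smul] at h1
  have h2 : ‖(2 * Real.pi * Complex.I * (l j : ℂ))‖ = 2 * Real.pi * N l := by
    rw [norm_mul, norm_mul, norm_mul, Complex.norm_I, Complex.norm_real, Complex.norm_ofNat,
      Real.norm_of_nonneg Real.pi_pos.le, ← hj]
    simp
  rw [h2] at h1
  have h3 : M j ≤ ∑ j, M j := Finset.single_le_sum (fun i _ => hM0 i) (Finset.mem_univ j)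
  rw [mul_one_div, le_div_iff₀ (by positivity)]
  have h5 : (N l : ℝ) ≤ 2 * Real.pi * N l := by
    have := Real.pi_gt_three
    nlinarith
  have h6 : (N l : ℝ) ^ 4 ≤ (2 * Real.pi * N l) ^ 4 := pow_le_pow_left₀ (by positivity) h5 4
  have h7 := norm_nonneg (cfv g l)
  calc ‖cfv g l‖ * (N l : ℝ) ^ 4 ≤ ‖cfv g l‖ * (2 * Real.pi * N l) ^ 4 := mul_le_mul_of_nonneg_left h6 h7
    _ = 2 * Real.pi * N l * (2 * Real.pi * N l * (2 * Real.pi * N l * (2 * Real.pi * N l * ‖cfv g l‖))) := by ring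
    _ ≤ M j := h1
    _ ≤ _ := h3

lemma cfv_summ {g : V → F} (hg : SPv g) : Summable fun l => ‖cfv g l‖ := by
  obtain ⟨M, hM0, hM⟩ := cfv_decay hg
  have h1 : Summable fun k : K3 => (if k = 0 then ‖cfv g 0‖ else 0) + M * (if k = 0 then (0 : ℝ) else 1 / (N k : ℝ) ^ 4) :=
    (hasSum_ite_eq (0 : K3) ‖cfv g 0‖).summable.add (summable_N4.mul_left M)
  refine h1.of_nonneg_of_le (fun _ => norm_nonneg _) fun l => ?_
  by_cases hl : l = 0
  · rw [hl]; simp
  · rw [if_neg hl, if_neg hl, zero_add]; exact hM l hl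

/-- Fourier inversion -/
lemma cfv_hasSum {g : V → F} (hg : SPv g) (x : V) : HasSum (fun l => ee l x • cfv g l) (g x) := by
  have hs : Summable fun l => ee l x • cfv g l := by
    refine Summable.of_norm ?_
    simp only [norm_smul, norm_ee, one_mul]
    exact cfv_summ hg
  have h1 : ∑' l, ee l x • cfv g l = g x := by
    refine NormedSpace.eq_iff_forall_dual_eq ℂ |>.2 fun ψ => ?_
    rw [ψ.map_tsum hs]
    have hp : Per fun x => ψ (g x) := fun i x => by simp only [hg.per i x]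
    have hc : Continuous fun x => ψ (g x) := ψ.continuous.comp hg.smooth.continuous
    have hfc : fc (fun x => ψ (g x)) = fun l => ψ (cfv g l) :=
      funext fun l => (dual_cfv hg.smooth.continuous ψ l).symm
    have h2 := hasSum_fc hp hc (by
      rw [hfc]
      exact ((cfv_summ hg).of_norm.mapL ψ)) x
    rw [hfc] at h2
    rw [← h2.tsum_eq]
    refine tsum_congr fun l => ?_
    rw [map_smul, smul_eq_mul, mul_comm]
  rw [← h1]
  exact hs.hasSum

end Pool.Agent.U162.TS.VF
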