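import Pool.Agent.U162.TS.Ell3
import Pool.Agent.U162.TS.Ell4
import Pool.Agent.U162.TS.Defs

/-!
Families of solutions which depend on a parameter in the torus: the equations for the Fourier
coefficients in both variables.
-/

open MeasureTheory Set Filter Topology
open scoped ENNReal NNReal ContDiff

namespace Pool.Agent.U162.TS.EL

open Pool.Agent.H356R3.NS Pool.Agent.U162.TS.VF

variable {c : ℝ} (hc : 0 < c)

/-- evaluation -/
noncomputable def ev (k : K) (t : ℝ) : EE →L[ℂ] C3 :=
  LinearMap.mkContinuous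
    { toFun := fun x => x k t
      map_add' := fun x y => by rw [lp.coeFn_add]; rfl
      map_smul' := fun a x => by rw [lp.coeFn_smul]; rfl } 1 (fun x => by
        rw [one_mul]
        exact ((x k).norm_coe_le_norm t).trans (leE x k))

lemma ev_apply (k : K) (t : ℝ) (x : EE) : ev k t x = x k t := rfl

lemma ee_eq_ch (k : K) (x : R3) : H459R3.NS.ee k x = ch k x := by
  unfold H459R3.NS.ee H459R3.NS.ph ch
  congr 1
  push_cast
  rfl

/-- the heat flow of a mode -/
noncomputable def hT (k : K) (v : C3) : TB :=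
  BoundedContinuousFunction.ofNormedAddCommGroup (fun t : ℝ => Real.exp (-(mk c k * max t 0)) • v)
    (by fun_prop) ‖v‖ (fun t => by
      rw [norm_smul, Real.norm_of_nonneg (Real.exp_pos _).le]
      have h1 : Real.exp (-(mk c k * max t 0)) ≤ 1 := by
        rw [Real.exp_le_one_iff]
        have := mul_nonneg (mk_pos hc k).le (le_max_right t 0)
        linarith
      exact mul_le_of_le_one_left (norm_nonneg _) h1)

lemma hT_apply (k : K) (v : C3) (t : ℝ) : hT hc k v t = Real.exp (-(mk c k * max t 0)) • v := rfl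

/-- the heat flow of the data -/
noncomputable def UU (b : K × K → C3) (S : Finset (K × K)) (x : R3) : EE :=
  ∑ P ∈ S, H459R3.NS.ee P.1 x • (lp.single 1 P.2 (hT hc P.2 (b P)) : EE)

lemma UU_smooth (b : K × K → C3) (S : Finset (K × K)) : ContDiff ℝ ∞ (UU hc b S) := by
  unfold UU
  exact ContDiff.sum fun P _ => (H459R3.NS.ee_contDiff P.1).smul contDiff_const

lemma UU_per (b : K × K → C3) (S : Finset (K × K)) : H459R3.NS.Per (UU hc b S) := by
  intro i x
  unfold UU
  refine Finset.sum_congr rfl fun P _ => ?_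
  rw [H459R3.NS.ee_per P.1 i x]

lemma BB_norm (x y : EE) : ‖BB hc x y‖ ≤ 2 * C0 / c * (‖x‖ * ‖y‖) := by
  rw [nE]
  exact BBk_total hc x y

/-- all the coefficients -/
lemma sumKK {z : R3 → EE} (hz : SPv z) : Summable fun P : K × K => ‖cfv z P.1 P.2‖ := by
  rw [summable_prod_of_nonneg fun _ => norm_nonneg _]
  refine ⟨fun l => sE (cfv z l), ?_⟩
  have : (fun l => ∑' k, ‖cfv z l k‖) = fun l => ‖cfv z l‖ := funext fun l => (nE _).symm
  simp only
  rw [this]
  exact cfv_summ hz

lemma sol_spv {b : K × K → C3} {S : Finset (K × K)} {z : R3 → EE} (hz : ∀ x, Phi hc (z x) = UU hc b S x) :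
    SPv z :=
  ⟨smooth_sol hc (UU_smooth hc b S) hz, fun i x => by
    apply Phi_inj hc
    rw [hz, hz, UU_per hc b S i x]⟩

/-- the Fourier coefficients of the product -/
lemma cfv_BB {z : R3 → EE} (hz : SPv z) (l : K) :
    cfv (fun x => BB hc (z x) (z x)) l = ∑' l', BB hc (cfv z l') (cfv z (l - l')) := by
  have hcz := hz.smooth.continuous
  obtain ⟨M, hM⟩ := isCompact_Icc.exists_bound_of_continuousOn (s := H459R3.NS.cube) hcz.continuousOn
  have hsum := cfv_summ hz
  have e1 : ∀ x, H459R3.NS.ee (-l) x • BB hc (z x) (z x)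
      = ∑' l', H459R3.NS.ee (-(l - l')) x • BB hc (cfv z l') (z x) := by
    intro x
    have h1 := cfv_hasSum hz x
    have h2 : HasSum (fun l' => (BB hc) (H459R3.NS.ee l' x • cfv z l') (z x)) (BB hc (z x) (z x)) := by
      have h3 := h1.mapL ((BB hc).flip (z x))
      exact h3
    have h4 := h2.const_smul (H459R3.NS.ee (-l) x)
    rw [← h4.tsum_eq]
    refine tsum_congr fun l' => ?_
    rw [map_smul, smul_apply, smul_smul, ← H459R3.NS.ee_add_left]
    congr 2
    abel
  have e2 : ∀ l', ∫ x in H459R3.NS.cube, H459R3.NS.ee (-(l - l')) x • BB hc (cfv z l') (z x)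
      = BB hc (cfv z l') (cfv z (l - l')) := by
    intro l'
    unfold cfv
    rw [← ContinuousLinearMap.integral_comp_comm (BB hc _) (cfv_int hcz (l - l'))]
    simp only [map_smul]
  have hint : ∀ l', Integrable (fun x => H459R3.NS.ee (-(l - l')) x • BB hc (cfv z l') (z x))
      (volume.restrict H459R3.NS.cube) := fun l' =>
    cfv_int (((BB hc (cfv z l')).continuous).comp hcz) (l - l')
  have hM0 : 0 ≤ M := (norm_nonneg _).trans (hM 0 (by simp [H459R3.NS.cube]))
  unfold cfv
  simp only [e1]
  rw [← integral_tsum_of_summable_integral_norm hint]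
  · exact tsum_congr e2
  · refine (hsum.mul_left (2 * C0 / c * M)).of_nonneg_of_le (fun _ => integral_nonneg fun _ => norm_nonneg _)
      fun l' => ?_
    have h5 : ∀ x ∈ H459R3.NS.cube, ‖H459R3.NS.ee (-(l - l')) x • BB hc (cfv z l') (z x)‖
        ≤ 2 * C0 / c * M * ‖cfv z l'‖ := by
      intro x hx
      rw [norm_smul, H459R3.NS.norm_ee, one_mul]
      refine (BB_norm hc _ _).trans ?_
      have hC := C0_pos
      calc 2 * C0 / c * (‖cfv z l'‖ * ‖z x‖) ≤ 2 * C0 / c * (‖cfv z l'‖ * M) := by
            have := hM x hx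
            gcongr
        _ = _ := by ring
    calc ∫ x in H459R3.NS.cube, ‖H459R3.NS.ee (-(l - l')) x • BB hc (cfv z l') (z x)‖
        ≤ ∫ _x in H459R3.NS.cube, 2 * C0 / c * M * ‖cfv z l'‖ :=
          setIntegral_mono_on (hint l').norm
            (by
              have := H459R3.NS.cube_finite
              exact integrable_const _) measurableSet_Icc h5
      _ = _ := by
        rw [setIntegral_const]
        unfold Measure.real
        rw [H459R3.NS.volume_cube]; simp

/-- the Fourier coefficients of the heat flow -/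
lemma cfv_UU {b : K × K → C3} {S : Finset (K × K)} (hS : ∀ P ∉ S, b P = 0) (l k : K) (t : ℝ) :
    cfv (UU hc b S) l k t = hT hc k (b (l, k)) t := by
  classical
  have h1 : ev k t (cfv (UU hc b S) l) = ∫ x in H459R3.NS.cube, ev k t (H459R3.NS.ee (-l) x • UU hc b S x) := by
    unfold cfv
    rw [← ContinuousLinearMap.integral_comp_comm (ev k t) (cfv_int (UU_smooth hc b S).continuous l)]
  rw [← ev_apply, h1]
  have h2 : ∀ x, ev k t (H459R3.NS.ee (-l) x • UU hc b S x)
      = ∑ P ∈ S, H459R3.NS.ee (P.1 - l) x • (if k = P.2 then hT hc P.2 (b P) t else 0) := by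
    intro x
    unfold UU
    rw [map_smul, map_sum, Finset.smul_sum]
    refine Finset.sum_congr rfl fun P _ => ?_
    rw [map_smul, smul_smul, ← H459R3.NS.ee_add_left, ev_apply, lp.single_apply]
    congr 1
    · congr 1; abel
    · by_cases h : k = P.2
      · subst h; simp
      · rw [if_neg h, Pi.single_eq_of_ne h]; rfl
  simp only [h2]
  rw [integral_finsetSum]
  · have h3 : ∀ P : K × K, ∫ x in H459R3.NS.cube, H459R3.NS.ee (P.1 - l) x • (if k = P.2 then hT hc P.2 (b P) t else 0)
        = if P = (l, k) then hT hc k (b (l, k)) t else 0 := by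
      intro P
      rw [integral_smul_const, H459R3.NS.integral_ee]
      by_cases hP : P = (l, k)
      · rw [hP]; simp
      · rw [if_neg hP]
        by_cases h : P.1 = l
        · have : k ≠ P.2 := fun h' => hP (by ext <;> simp [h, h'])
          rw [if_neg this, smul_zero]
        · rw [if_neg (sub_ne_zero.2 h), zero_smul]
    simp only [h3]
    rw [Finset.sum_ite_eq' S (l, k) fun _ => hT hc k (b (l, k)) t]
    split_ifs with h
    · rfl
    · rw [hS _ h, hT_apply, smul_zero]
  · intro P _
    exact H459R3.NS.integrableOn_cube ((H459R3.NS.ee_continuous _).smul continuous_const)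

/-- the equation for the Fourier coefficients in both variables -/
lemma cf_eq {b : K × K → C3} {S : Finset (K × K)} (hS : ∀ P ∉ S, b P = 0) {z : R3 → EE}
    (hz : ∀ x, Phi hc (z x) = UU hc b S x) (l k : K) (t : ℝ) :
    cfv z l k t = hT hc k (b (l, k)) t
      + ∑' P : K × K, tkf c k (cfv z P.1 P.2) (cfv z (l - P.1) (k - P.2)) t := by
  have hsp := sol_spv hc hz
  have hsum := cfv_summ hsp
  have h0 : z = fun x => UU hc b S x + BB hc (z x) (z x) := by
    funext x
    rw [← hz x]
    unfold Phi
    abel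
  have c1 : Continuous fun x => BB hc (z x) (z x) := by
    have h1 : Continuous fun x => BB hc (z x) := (BB hc).continuous.comp hsp.smooth.continuous
    exact h1.clm_apply hsp.smooth.continuous
  have h1 : cfv z l = cfv (UU hc b S) l + cfv (fun x => BB hc (z x) (z x)) l := by
    nth_rewrite 1 [h0]
    unfold cfv
    rw [← integral_add (cfv_int (UU_smooth hc b S).continuous l) (cfv_int c1 l)]
    simp only [smul_add]
  have hBs : Summable fun l' => BB hc (cfv z l') (cfv z (l - l')) := by
    refine Summable.of_norm_bounded (g := fun l' => 2 * C0 / c * (‖cfv z l'‖ * ‖cfv z (l - l')‖))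
      ((cvS1 hsum hsum (fun _ => norm_nonneg _) (fun _ => norm_nonneg _) l).mul_left _) fun l' => ?_
    exact BB_norm hc _ _
  have h2 : ev k t (cfv z l) = ev k t (cfv (UU hc b S) l)
      + ∑' l', ev k t (BB hc (cfv z l') (cfv z (l - l'))) := by
    rw [h1, map_add, cfv_BB hc hsp, (ev k t).map_tsum hBs]
  simp only [ev_apply] at h2
  rw [h2, cfv_UU hc hS]
  congr 1
  simp only [BB_eval]
  rw [Summable.tsum_prod]
  refine Summable.of_norm_bounded (g := fun P : K × K => 2 * C0 / c * (∑' l, ‖cfv z l‖) * ‖cfv z P.1 P.2‖)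
    ((sumKK hsp).mul_left _) fun P => ?_
  refine (tkf_norm hc k _ _ t).trans ?_
  have hC := C0_pos
  have h3 : ‖cfv z (l - P.1) (k - P.2)‖ ≤ ∑' l, ‖cfv z l‖ :=
    (leE _ _).trans (hsum.le_tsum (l - P.1) fun _ _ => norm_nonneg _)
  calc 2 * C0 / c * (‖cfv z P.1 P.2‖ * ‖cfv z (l - P.1) (k - P.2)‖)
      ≤ 2 * C0 / c * (‖cfv z P.1 P.2‖ * ∑' l, ‖cfv z l‖) := by gcongr
    _ = _ := by ring

end Pool.Agent.U162.TS.EL
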