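import Pool.Agent.U162.TS.Ell5
import Pool.Agent.U162.TS.CellExp

/-!
Families of solutions which depend on a parameter in the torus solve the cell problem.
-/

open MeasureTheory Set Filter Topology
open scoped ENNReal NNReal ContDiff

namespace Pool.Agent.U162.TS.EL

open Pool.Agent.H356R3.NS Pool.Agent.U162.TS.VF

variable {c : ℝ} (hc : 0 < c)

/-- the coefficients in both variables -/
noncomputable def WW (c : ℝ) (z : R3 → EE) (P : K × K) (s : ℝ) : C3 :=
  Real.exp (-(c / 2 * max s 0)) • cfv z P.1 P.2 (max s 0)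

lemma WW_cont (z : R3 → EE) (P : K × K) : Continuous (WW c z P) := by
  unfold WW
  have h1 : Continuous fun s : ℝ => Real.exp (-(c / 2 * max s 0)) := by fun_prop
  have h2 : Continuous fun s : ℝ => cfv z P.1 P.2 (max s 0) :=
    (cfv z P.1 P.2).continuous.comp (by fun_prop)
  exact h1.smul h2

lemma WW_norm (z : R3 → EE) (P : K × K) (s : ℝ) :
    ‖WW c z P s‖ ≤ Real.exp (-(c / 2 * max s 0)) * ‖cfv z P.1 P.2‖ := by
  unfold WW
  rw [norm_smul, Real.norm_of_nonneg (Real.exp_pos _).le]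
  exact mul_le_mul_of_nonneg_left ((cfv z P.1 P.2).norm_coe_le_norm _) (Real.exp_pos _).le

lemma bt0 (v v' : C3) : bt 0 v v' = 0 := by
  have := norm_bt_le 0 v v'
  rw [nk_zero, mul_zero, zero_mul] at this
  exact norm_le_zero_iff.1 this

lemma duf_zero (m t : ℝ) : duf m (fun _ => 0) t = 0 := by
  unfold duf; simp

lemma cfv_k0 {b : K × K → C3} {S : Finset (K × K)} (hb : Prof b S) {z : R3 → EE}
    (hz : ∀ x, Phi hc (z x) = UU hc b S x) (l : K) (t : ℝ) : cfv z l 0 t = 0 := by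
  rw [cf_eq hc hb.supp hz, hb.mean (l, 0) rfl, hT_apply, smul_zero, zero_add]
  have : ∀ P : K × K, tkf c 0 (cfv z P.1 P.2) (cfv z (l - P.1) (0 - P.2)) t = 0 := by
    intro P
    unfold tkf
    have e : prf c 0 (cfv z P.1 P.2) (cfv z (l - P.1) (0 - P.2)) = fun _ => 0 := by
      funext s; unfold prf; rw [bt0, smul_zero]
    rw [e, duf_zero]
  simp only [this, tsum_zero]

/-- the total forcing -/
noncomputable def FF (c : ℝ) (z : R3 → EE) (R : K × K) (s : ℝ) : C3 :=
  ∑' P : K × K, prf c R.2 (cfv z P.1 P.2) (cfv z (R.1 - P.1) (R.2 - P.2)) s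

include hc in
lemma FF_bd {z : R3 → EE} (hz : SPv z) (R P : K × K) (s : ℝ) :
    ‖prf c R.2 (cfv z P.1 P.2) (cfv z (R.1 - P.1) (R.2 - P.2)) s‖
      ≤ C0 * nk R.2 * (∑' l, ‖cfv z l‖) * ‖cfv z P.1 P.2‖ := by
  have hC := C0_pos
  have hn := nk_nonneg R.2
  refine (prf_norm hc _ _ _ s).trans ?_
  have h1 : ‖cfv z (R.1 - P.1) (R.2 - P.2) s‖ ≤ ∑' l, ‖cfv z l‖ :=
    (BoundedContinuousFunction.norm_coe_le_norm _ s).trans
      ((leE _ _).trans ((cfv_summ hz).le_tsum (R.1 - P.1) fun _ _ => norm_nonneg _))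
  have h2 : ‖cfv z P.1 P.2 s‖ ≤ ‖cfv z P.1 P.2‖ := BoundedContinuousFunction.norm_coe_le_norm _ s
  calc _ ≤ C0 * nk R.2 * (‖cfv z P.1 P.2‖ * ∑' l, ‖cfv z l‖) := by gcongr
    _ = _ := by ring

include hc in
lemma FF_cont {z : R3 → EE} (hz : SPv z) (R : K × K) : Continuous (FF c z R) :=
  continuous_tsum (fun P => prf_cont c R.2 (cfv z P.1 P.2).continuous (cfv z (R.1 - P.1) (R.2 - P.2)).continuous)
    ((sumKK hz).mul_left _) fun P s => FF_bd hc hz R P s

include hc in
lemma tsum_tkf {z : R3 → EE} (hz : SPv z) (R : K × K) (t : ℝ) :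
    ∑' P : K × K, tkf c R.2 (cfv z P.1 P.2) (cfv z (R.1 - P.1) (R.2 - P.2)) t
      = duf (mk c R.2) (FF c z R) (max t 0) := by
  unfold tkf duf
  set m := mk c R.2
  set t' := max t 0
  have ht' : 0 ≤ t' := le_max_right _ _
  have hS : Summable fun P : K × K => C0 * nk R.2 * (∑' l, ‖cfv z l‖) * ‖cfv z P.1 P.2‖ := (sumKK hz).mul_left _
  refine (intervalIntegral.hasSum_integral_of_dominated_convergence
    (fun (P : K × K) (_ : ℝ) => C0 * nk R.2 * (∑' l, ‖cfv z l‖) * ‖cfv z P.1 P.2‖) (fun P => ?_)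
    (fun P => Filter.Eventually.of_forall fun s hs => ?_)
    (Filter.Eventually.of_forall fun s _ => hS) ?_ (Filter.Eventually.of_forall fun s _ => ?_)).tsum_eq
  · have h1 : Continuous (prf c R.2 (cfv z P.1 P.2) (cfv z (R.1 - P.1) (R.2 - P.2))) :=
      prf_cont c R.2 (cfv z P.1 P.2).continuous (cfv z (R.1 - P.1) (R.2 - P.2)).continuous
    have h2 : Continuous fun s : ℝ => Real.exp (-(m * (t' - s))) := by fun_prop
    exact (h2.smul h1).aestronglyMeasurable
  · rw [uIoc_of_le ht'] at hs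
    rw [norm_smul, Real.norm_of_nonneg (Real.exp_pos _).le]
    have h3 : Real.exp (-(m * (t' - s))) ≤ 1 := by
      rw [Real.exp_le_one_iff]
      have := mul_nonneg (mk_pos hc R.2).le (sub_nonneg.2 hs.2)
      linarith
    calc _ ≤ 1 * ‖prf c R.2 (cfv z P.1 P.2) (cfv z (R.1 - P.1) (R.2 - P.2)) s‖ :=
          mul_le_mul_of_nonneg_right h3 (norm_nonneg _)
      _ ≤ _ := by rw [one_mul]; exact FF_bd hc hz R P s
  · exact intervalIntegrable_const
  · have h4 : Summable fun P : K × K => prf c R.2 (cfv z P.1 P.2) (cfv z (R.1 - P.1) (R.2 - P.2)) s :=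
      Summable.of_norm_bounded hS fun P => FF_bd hc hz R P s
    exact h4.hasSum.const_smul _

include hc in
lemma WW_full_summ {z : R3 → EE} (hz : SPv z) (R : K × K) (s : ℝ) (P : K × K) :
    ‖qb R (WW c z P s) (WW c z (R - P) s)‖
      ≤ C0 * (nk R.1 + nk R.2) * (∑' l, ‖cfv z l‖) * ‖cfv z P.1 P.2‖ := by
  have hC := C0_pos
  have hn := nk_nonneg R.2
  have hn1 := nk_nonneg R.1
  refine (norm_qb_le _ _ _).trans ?_
  have he : Real.exp (-(c / 2 * max s 0)) ≤ 1 := by
    rw [Real.exp_le_one_iff]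
    have := le_max_right s 0
    have : 0 ≤ c / 2 * max s 0 := by positivity
    linarith
  have h1 : ‖WW c z (R - P) s‖ ≤ ∑' l, ‖cfv z l‖ := by
    refine (WW_norm z (R - P) s).trans ?_
    refine (mul_le_of_le_one_left (norm_nonneg _) he).trans ?_
    exact (leE _ _).trans ((cfv_summ hz).le_tsum (R - P).1 fun _ _ => norm_nonneg _)
  have h2 : ‖WW c z P s‖ ≤ ‖cfv z P.1 P.2‖ :=
    (WW_norm z P s).trans (mul_le_of_le_one_left (norm_nonneg _) he)
  calc _ ≤ C0 * (nk R.1 + nk R.2) * (‖cfv z P.1 P.2‖ * ∑' l, ‖cfv z l‖) := by gcongr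
    _ = _ := by ring

lemma qb_cont (R : K × K) {f g : ℝ → C3} (hf : Continuous f) (hg : Continuous g) :
    Continuous fun s => qb R (f s) (g s) := by
  unfold qb
  split_ifs
  · exact (bt_cont R.1).comp (f := fun s : ℝ => (f s, g s)) (hf.prodMk hg)
  · exact (bt_cont R.2).comp (f := fun s : ℝ => (f s, g s)) (hf.prodMk hg)

include hc in
lemma WW_full_cont {z : R3 → EE} (hz : SPv z) (R : K × K) : Continuous (full (WW c z) R) :=
  continuous_tsum (fun P => qb_cont R (WW_cont z P) (WW_cont z (R - P)))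
    ((sumKK hz).mul_left _) fun P s => WW_full_summ hc hz R s P

lemma FF_full {z : R3 → EE} {R : K × K} (hR : R.2 ≠ 0) {s : ℝ} (hs : 0 ≤ s) :
    FF c z R s = Real.exp (c / 2 * s) • full (WW c z) R s := by
  unfold FF full
  rw [← tsum_const_smul'']
  refine tsum_congr fun P => ?_
  unfold prf qb WW
  rw [if_neg hR, bt_smul, smul_smul, max_eq_left hs]
  congr 1
  rw [← Real.exp_add, ← Real.exp_add]
  congr 1
  ring

/-- the Duhamel form for the coefficients in both variables -/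
lemma WW_mild {b : K × K → C3} {S : Finset (K × K)} (hS : ∀ P ∉ S, b P = 0) {z : R3 → EE}
    (hz : ∀ x, Phi hc (z x) = UU hc b S x) {R : K × K} (hR : R.2 ≠ 0) {s : ℝ} (hs : 0 ≤ s) :
    WW c z R s = Real.exp (-(c * H356R3.NS.sq R.2 * s)) •
      (b R + ∫ r in (0 : ℝ)..s, Real.exp (c * H356R3.NS.sq R.2 * r) • full (WW c z) R r) := by
  have hsp := sol_spv hc hz
  have hm : mk c R.2 = c * H356R3.NS.sq R.2 - c / 2 := by
    unfold mk; rw [max_eq_right (one_le_sq hR)]
  unfold WW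
  rw [max_eq_left hs, cf_eq hc hS hz, tsum_tkf hc hsp R s, max_eq_left hs, hT_apply, max_eq_left hs, duf_eq]
  have e1 : ∫ r in (0 : ℝ)..s, Real.exp (mk c R.2 * r) • FF c z R r
      = ∫ r in (0 : ℝ)..s, Real.exp (c * H356R3.NS.sq R.2 * r) • full (WW c z) R r := by
    refine intervalIntegral.integral_congr fun r hr => ?_
    rw [uIcc_of_le hs] at hr
    show Real.exp (mk c R.2 * r) • FF c z R r = Real.exp (c * H356R3.NS.sq R.2 * r) • full (WW c z) R r
    rw [FF_full hR hr.1, smul_smul, ← Real.exp_add]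
    congr 2
    rw [hm]; ring
  rw [e1, ← smul_add, smul_smul, ← Real.exp_add]
  congr 2
  rw [hm]; ring

lemma duh_deriv {q : ℝ} (b : C3) {F : ℝ → C3} (hF : Continuous F) (s : ℝ) :
    HasDerivAt (fun s => Real.exp (-(q * s)) • (b + ∫ r in (0 : ℝ)..s, Real.exp (q * r) • F r))
      (-q • (Real.exp (-(q * s)) • (b + ∫ r in (0 : ℝ)..s, Real.exp (q * r) • F r)) + F s) s := by
  have h1 : HasDerivAt (fun s : ℝ => Real.exp (-(q * s))) (Real.exp (-(q * s)) * -q) s := by
    have : HasDerivAt (fun s : ℝ => -(q * s)) (-q) s := by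
      simpa using ((hasDerivAt_id' s).const_mul q).fun_neg
    exact this.exp
  have hc2 : Continuous fun r : ℝ => Real.exp (q * r) • F r := by fun_prop
  have h2 : HasDerivAt (fun s => b + ∫ r in (0 : ℝ)..s, Real.exp (q * r) • F r) (Real.exp (q * s) • F s) s :=
    (intervalIntegral.integral_hasDerivAt_right (hc2.intervalIntegrable _ _)
      (hc2.stronglyMeasurableAtFilter _ _) hc2.continuousAt).const_add b
  refine (h1.smul h2).congr_deriv ?_
  rw [smul_smul, smul_smul, ← Real.exp_add]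
  have : Real.exp (-(q * s) + q * s) = 1 := by simp
  rw [this, one_smul, add_comm]
  congr 2
  ring

/-- evaluation of a component -/
noncomputable def evi (k : K) (t : ℝ) (i : Fin 3) : EE →L[ℂ] ℂ := (ContinuousLinearMap.proj i) ∘L ev k t

lemma cfv_comp {z : R3 → EE} (hz : Continuous z) (l k : K) (t : ℝ) (i : Fin 3) :
    cfv z l k t i = H459R3.NS.fc (fun x => z x k t i) l := dual_cfv hz (evi k t i) l

lemma cfv_real {z : R3 → EE} (hz : Continuous z) (hr : ∀ x k t i, z x (-k) t i = star (z x k t i))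
    (l k : K) (t : ℝ) (i : Fin 3) : cfv z (-l) (-k) t i = star (cfv z l k t i) := by
  rw [cfv_comp hz, cfv_comp hz]
  unfold H459R3.NS.fc
  rw [Complex.star_def, ← integral_conj]
  refine integral_congr_ae (Filter.Eventually.of_forall fun x => ?_)
  simp only
  rw [hr, map_mul, Complex.star_def, H459R3.NS.ee_neg (-l)]

/-- solutions which depend on a parameter solve the cell problem -/
theorem WW_flow {b : K × K → C3} {S : Finset (K × K)} (hb : Prof b S) {z : R3 → EE}
    (hz : ∀ x, Phi hc (z x) = UU hc b S x) (hr : ∀ x k t i, z x (-k) t i = star (z x k t i)) :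
    CellFlow c (WW c z) (c / 2) ∧ ∀ P, WW c z P 0 = b P := by
  have hsp := sol_spv hc hz
  have hzc := hsp.smooth.continuous
  have h0 : ∀ P, WW c z P 0 = b P := by
    intro P
    by_cases hP : P.2 = 0
    · unfold WW
      rw [hP, cfv_k0 hc hb hz, smul_zero, hb.mean P hP]
    · rw [WW_mild hc hb.supp hz hP le_rfl]
      simp
  have hBP0 : ∑' P : K × K, ‖cfv z P.1 P.2‖ = ∑' l, ‖cfv z l‖ := by
    rw [(sumKK hsp).tsum_prod]
    have e : ∀ l : K, ∑' k : K, ‖cfv z l k‖ = ‖cfv z l‖ := fun l => (nE (cfv z l)).symm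
    exact tsum_congr e
  generalize hB : ∑' l, ‖cfv z l‖ = B at hBP0
  have hBP : ∑' P : K × K, ‖cfv z P.1 P.2‖ = B := hBP0
  have hB0 : 0 ≤ B := by rw [← hB]; exact tsum_nonneg fun _ => norm_nonneg _
  have hPB : ∀ P : K × K, ‖cfv z P.1 P.2‖ ≤ B := fun P => by
    rw [← hB]
    exact (leE _ _).trans ((cfv_summ hsp).le_tsum P.1 fun _ _ => norm_nonneg _)
  have hsn : ∀ s, Summable fun P => ‖WW c z P s‖ := fun s =>
    ((sumKK hsp).mul_left (Real.exp (-(c / 2 * max s 0)))).of_nonneg_of_le (fun _ => norm_nonneg _)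
      fun P => WW_norm z P s
  refine ⟨⟨by positivity, fun P hP s => ?_, fun P => WW_cont z P, fun P => WW_full_cont hc hsp P, fun P s i => ?_,
    fun P => ?_, fun P hP s hs => ?_, ⟨B, fun P s hs => ?_⟩, hsn, ?_⟩, h0⟩
  · unfold WW
    rw [hP, cfv_k0 hc hb hz, smul_zero]
  · unfold WW
    rw [Pi.smul_apply, Pi.smul_apply, star_smul, star_trivial]
    congr 1
    exact cfv_real hzc hr P.1 P.2 _ i
  · rw [h0]; exact hb.div P
  · have h1 := duh_deriv (q := c * H356R3.NS.sq P.2) (b P) (WW_full_cont hc hsp P) s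
    have h2 : WW c z P =ᶠ[𝓝 s] fun s => Real.exp (-(c * H356R3.NS.sq P.2 * s)) •
      (b P + ∫ r in (0 : ℝ)..s, Real.exp (c * H356R3.NS.sq P.2 * r) • full (WW c z) P r) := by
      filter_upwards [lt_mem_nhds hs] with r hr'
      exact WW_mild hc hb.supp hz hP (le_of_lt hr')
    refine (h1.congr_of_eventuallyEq h2).congr_deriv ?_
    rw [← WW_mild hc hb.supp hz hP hs.le]
  · refine (WW_norm z P s).trans ?_
    rw [max_eq_left hs, mul_comm]
    exact mul_le_mul_of_nonneg_right (hPB P) (Real.exp_pos _).le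
  · have h1 : ∀ s, ∑' P, ‖WW c z P s‖ₑ ≤ ENNReal.ofReal (B * Real.exp (-(c / 2 * max s 0))) := by
      intro s
      have e : ∑' P, ‖WW c z P s‖ₑ = ENNReal.ofReal (∑' P, ‖WW c z P s‖) := by
        rw [ENNReal.ofReal_tsum_of_nonneg (fun _ => norm_nonneg _) (hsn s)]
        simp
      rw [e]
      apply ENNReal.ofReal_le_ofReal
      rw [← hBP, mul_comm, ← tsum_mul_left]
      exact (hsn s).tsum_le_tsum (fun P => WW_norm z P s) ((sumKK hsp).mul_left _)
    have h2 : ∫⁻ s in Ioi (0 : ℝ), (∑' P, ‖WW c z P s‖ₑ) * ∑' P, ‖WW c z P s‖ₑ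
        ≤ ∫⁻ s in Ioi (0 : ℝ), ENNReal.ofReal (B ^ 2 * Real.exp (-(c * max s 0))) := by
      refine lintegral_mono fun s => ?_
      refine (mul_le_mul' (h1 s) (h1 s)).trans (le_of_eq ?_)
      rw [← ENNReal.ofReal_mul (by positivity)]
      congr 1
      rw [show -(c * max s 0) = -(c / 2 * max s 0) + -(c / 2 * max s 0) by ring, Real.exp_add]
      ring
    refine ne_top_of_le_ne_top ?_ h2
    rw [lint_E (by positivity) (by positivity)]
    exact ENNReal.ofReal_ne_top

end Pool.Agent.U162.TS.EL
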