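import Pool.Agent.U162.TS.Ell6

/-!
Global smooth solutions belong to the Banach space.
-/

open MeasureTheory Set Filter Topology
open scoped ENNReal NNReal ContDiff

namespace Pool.Agent.U162.TS.EL

open Pool.Agent.H356R3.NS Pool.Agent.U162.TS.VF Pool.Agent.U162.TS.Ph

variable {c : ℝ} (hc : 0 < c)

/-! ### uniqueness up to a finite time -/

/-- stopping at the time `τ` -/
noncomputable def JB (τ : ℝ) (f : TB) : TB := f.compContinuous ⟨fun t => min t τ, by fun_prop⟩

lemma JB_apply (τ : ℝ) (f : TB) (t : ℝ) : JB τ f t = f (min t τ) := rfl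

lemma JB_norm (τ : ℝ) (f : TB) : ‖JB τ f‖ ≤ ‖f‖ := BoundedContinuousFunction.norm_compContinuous_le _ _

/-- stopping at the time `τ` -/
noncomputable def JE (τ : ℝ) (x : EE) : EE :=
  mkE (fun k => JB τ (x k)) ((sE x).of_nonneg_of_le (fun _ => norm_nonneg _) fun k => JB_norm τ (x k))

lemma JE_apply (τ : ℝ) (x : EE) (k : K) (t : ℝ) : JE τ x k t = x k (min t τ) := rfl

lemma JE_sub (τ : ℝ) (x y : EE) : JE τ (x - y) = JE τ x - JE τ y := by
  apply lp.ext
  funext k
  ext1 t
  rw [lp.coeFn_sub, Pi.sub_apply, BoundedContinuousFunction.sub_apply, JE_apply, JE_apply, JE_apply,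
    lp.coeFn_sub, Pi.sub_apply, BoundedContinuousFunction.sub_apply]

lemma th_anti {μ s t : ℝ} (h : s ≤ t) : th c μ t ≤ th c μ s := by
  unfold th
  apply Real.exp_le_exp.2
  have h1 : max s 0 ≤ max t 0 := max_le_max h le_rfl
  have h2 : psi c (max s 0) ≤ psi c (max t 0) := by
    unfold psi
    by_cases hc' : 0 < c
    · apply div_le_div_of_nonneg_right _ (by positivity)
      have : Real.exp (-(c / 2 * max t 0)) ≤ Real.exp (-(c / 2 * max s 0)) := by
        apply Real.exp_le_exp.2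
        have := mul_le_mul_of_nonneg_left h1 (by positivity : 0 ≤ c / 2)
        linarith
      linarith
    · rw [not_lt] at hc'
      rcases eq_or_lt_of_le hc' with h0 | h0
      · rw [h0]; simp
      · rw [div_le_div_right_of_neg (by linarith)]
        have : Real.exp (-(c / 2 * max s 0)) ≤ Real.exp (-(c / 2 * max t 0)) := by
          apply Real.exp_le_exp.2
          have := mul_le_mul_of_nonpos_left h1 (by linarith : c / 2 ≤ 0)
          linarith
        linarith
  have := mul_le_mul_of_nonneg_left h2 (sq_nonneg μ)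
  linarith

lemma nT_JE (μ τ : ℝ) (x : EE) : nT hc μ (JE τ x) ≤ nT hc μ x := by
  unfold nT
  refine (nT_summ hc μ (JE τ x)).tsum_le_tsum (fun k => ?_) (nT_summ hc μ x)
  refine (BoundedContinuousFunction.norm_le (norm_nonneg _)).2 fun t => ?_
  rw [ThB_apply, JE_apply, norm_smul, Real.norm_of_nonneg (th_pos c μ t).le]
  have h1 := (ThB hc μ (x k)).norm_coe_le_norm (min t τ)
  rw [ThB_apply, norm_smul, Real.norm_of_nonneg (th_pos c μ _).le] at h1
  exact (mul_le_mul_of_nonneg_right (th_anti (min_le_left t τ)) (norm_nonneg _)).trans h1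

/-- causality -/
lemma tkf_congr {k : K} {f g f' g' : ℝ → C3} {t : ℝ} (hf : ∀ s, 0 ≤ s → s ≤ max t 0 → f s = f' s)
    (hg : ∀ s, 0 ≤ s → s ≤ max t 0 → g s = g' s) : tkf c k f g t = tkf c k f' g' t := by
  unfold tkf duf
  refine intervalIntegral.integral_congr fun s hs => ?_
  rw [uIcc_of_le (le_max_right t 0)] at hs
  show Real.exp (-(mk c k * (max t 0 - s))) • prf c k f g s = Real.exp (-(mk c k * (max t 0 - s))) • prf c k f' g' s
  unfold prf
  rw [hf s hs.1 hs.2, hg s hs.1 hs.2]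

lemma JE_BB {τ : ℝ} (hτ : 0 ≤ τ) (x y : EE) : JE τ (BB hc x y) = JE τ (BB hc (JE τ x) (JE τ y)) := by
  apply lp.ext
  funext k
  ext1 t
  rw [JE_apply, JE_apply, BB_eval, BB_eval]
  refine tsum_congr fun l => tkf_congr (fun s _ h2 => ?_) fun s _ h2 => ?_
  · have h3 : s ≤ τ := h2.trans (max_le (min_le_right _ _) hτ)
    rw [JE_apply, min_eq_left h3]
  · have h3 : s ≤ τ := h2.trans (max_le (min_le_right _ _) hτ)
    rw [JE_apply, min_eq_left h3]

lemma nT_eq_zero {μ : ℝ} {d : EE} (h : nT hc μ d ≤ 1 / 2 * nT hc μ d) : d = 0 := by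
  have h2 := nT_nonneg hc μ d
  have h3 := nT_ge hc μ d
  have h4 := Real.exp_pos (-(μ ^ 2 * (2 / c)))
  have h5 : nT hc μ d ≤ 0 := by linarith
  have h6 : ‖d‖ ≤ 0 := by
    by_contra hne
    push Not at hne
    have := mul_pos h4 hne
    linarith
  exact norm_le_zero_iff.1 h6

lemma JE_uniq {τ : ℝ} (hτ : 0 ≤ τ) {x y : EE} (h : JE τ (Phi hc x) = JE τ (Phi hc y)) : JE τ x = JE τ y := by
  set d := JE τ x - JE τ y with hd
  have h1 : d = JE τ (LL hc (JE τ x) (JE τ y) d) := by
    have e1 : LL hc (JE τ x) (JE τ y) d = BB hc (JE τ x) (JE τ x) - BB hc (JE τ y) (JE τ y) := by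
      rw [LL_apply, hd, map_sub (BB hc (JE τ x)), map_sub (BB hc), sub_apply]
      abel
    rw [e1, JE_sub, ← JE_BB hc hτ, ← JE_BB hc hτ]
    unfold Phi at h
    rw [JE_sub, JE_sub] at h
    have e2 : JE τ x - JE τ y - (JE τ (BB hc x x) - JE τ (BB hc y y))
        = (JE τ x - JE τ (BB hc x x)) - (JE τ y - JE τ (BB hc y y)) := by abel
    rw [h, sub_self] at e2
    exact sub_eq_zero.1 e2
  obtain ⟨μ, hμ, hL⟩ := LL_contr hc (JE τ x) (JE τ y)
  have h2 : nT hc μ d ≤ 1 / 2 * nT hc μ d := by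
    conv_lhs => rw [h1]
    exact (nT_JE hc μ τ _).trans (hL d)
  exact sub_eq_zero.1 (nT_eq_zero hc h2)

/-! ### the Duhamel form of a flow -/

include hc in
lemma tsum_tkf1 (x y : EE) (k : K) (t : ℝ) :
    ∑' l, tkf c k (x l) (y (k - l)) t = duf (mk c k) (fun s => ∑' l, prf c k (x l) (y (k - l)) s) (max t 0) := by
  unfold tkf duf
  set m := mk c k
  set t' := max t 0
  have ht' : 0 ≤ t' := le_max_right _ _
  have hC := C0_pos
  have hbd : ∀ l s, ‖prf c k (x l) (y (k - l)) s‖ ≤ C0 * nk k * (‖x l‖ * ‖y (k - l)‖) := fun l s => by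
    have hn := nk_nonneg k
    refine (prf_norm hc _ _ _ s).trans ?_
    have h1 : ‖x l s‖ ≤ ‖x l‖ := BoundedContinuousFunction.norm_coe_le_norm _ s
    have h2 : ‖y (k - l) s‖ ≤ ‖y (k - l)‖ := BoundedContinuousFunction.norm_coe_le_norm _ s
    gcongr
  have hS : Summable fun l => C0 * nk k * (‖x l‖ * ‖y (k - l)‖) :=
    (cvS1 (sE x) (sE y) (fun _ => norm_nonneg _) (fun _ => norm_nonneg _) k).mul_left _
  refine (intervalIntegral.hasSum_integral_of_dominated_convergence
    (fun (l : K) (_ : ℝ) => C0 * nk k * (‖x l‖ * ‖y (k - l)‖)) (fun l => ?_)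
    (fun l => Filter.Eventually.of_forall fun s hs => ?_)
    (Filter.Eventually.of_forall fun s _ => hS) ?_ (Filter.Eventually.of_forall fun s _ => ?_)).tsum_eq
  · have h1 : Continuous (prf c k (x l) (y (k - l))) := prf_cont c k (x l).continuous (y (k - l)).continuous
    have h2 : Continuous fun s : ℝ => Real.exp (-(m * (t' - s))) := by fun_prop
    exact (h2.smul h1).aestronglyMeasurable
  · rw [uIoc_of_le ht'] at hs
    rw [norm_smul, Real.norm_of_nonneg (Real.exp_pos _).le]
    have h3 : Real.exp (-(m * (t' - s))) ≤ 1 := by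
      rw [Real.exp_le_one_iff]
      have := mul_nonneg (mk_pos hc k).le (sub_nonneg.2 hs.2)
      linarith
    calc _ ≤ 1 * ‖prf c k (x l) (y (k - l)) s‖ := mul_le_mul_of_nonneg_right h3 (norm_nonneg _)
      _ ≤ _ := by rw [one_mul]; exact hbd l s
  · exact intervalIntegrable_const
  · have h4 : Summable fun l => prf c k (x l) (y (k - l)) s := Summable.of_norm_bounded hS fun l => hbd l s
    exact h4.hasSum.const_smul _

lemma BB_k0 (x y : EE) (t : ℝ) : BB hc x y 0 t = 0 := by
  rw [BB_eval]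
  have : ∀ l : K, tkf c 0 (x l) (y (0 - l)) t = 0 := by
    intro l
    unfold tkf
    have e : prf c 0 (x l) (y (0 - l)) = fun _ => 0 := by
      funext s; unfold prf; rw [bt0, smul_zero]
    rw [e, duf_zero]
  simp only [this, tsum_zero]

/-- a flow satisfies the Duhamel form -/
lemma flow_mild {X : Fam} (hX : FlowC c X) {T t : ℝ} (hT0 : 0 ≤ T) (ht : 0 ≤ t) {x : EE}
    (hx : ∀ k s, 0 ≤ s → s ≤ t → x k s = Real.exp (c / 2 * s) • X k (T + s)) (k : K) :
    x k t = hT hc k (X k T) t + BB hc x x k t := by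
  by_cases hk : k = 0
  · subst hk
    rw [BB_k0, hx 0 t ht le_rfl, hX.z, hX.z, hT_apply]
    simp
  have hm : mk c k = c * H356R3.NS.sq k - c / 2 := by
    unfold mk; rw [max_eq_right (one_le_sq hk)]
  have h1 := mild_of_ode (lam := c * H356R3.NS.sq k) (x := fun s => X k (T + s)) (g := fun s => Bt X k (T + s))
    ((hX.cf k).comp (by fun_prop)) ((hX.cb k).comp (by fun_prop)) (fun s hs => by
      exact (hX.ode k (T + s) (by linarith)).comp_const_add T s) ht
  simp only [add_zero] at h1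
  rw [BB_eval, tsum_tkf1 hc, max_eq_left ht, duf_eq, hx k t ht le_rfl, h1, hT_apply, max_eq_left ht]
  have e1 : ∫ s in (0 : ℝ)..t, Real.exp (mk c k * s) • ∑' l, prf c k (x l) (x (k - l)) s
      = ∫ s in (0 : ℝ)..t, Real.exp (c * H356R3.NS.sq k * s) • Bt X k (T + s) := by
    refine intervalIntegral.integral_congr fun s hs => ?_
    rw [uIcc_of_le ht] at hs
    show Real.exp (mk c k * s) • ∑' l, prf c k (x l) (x (k - l)) s
      = Real.exp (c * H356R3.NS.sq k * s) • Bt X k (T + s)
    have e2 : ∀ l, prf c k (x l) (x (k - l)) s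
        = Real.exp (c / 2 * s) • bt k (at' X (T + s) l) (at' X (T + s) (k - l)) := by
      intro l
      unfold prf
      rw [hx l s hs.1 hs.2, hx (k - l) s hs.1 hs.2, bt_smul, smul_smul, max_eq_left hs.1, ← Real.exp_add,
        ← Real.exp_add]
      unfold at'
      congr 2
      ring
    simp only [e2]
    rw [tsum_const_smul'', ← Bf_eq_tsum (hX.sn (T + s)) (hX.sn (T + s)), smul_smul, ← Real.exp_add]
    unfold Bt
    congr 2
    rw [hm]; ring
  rw [e1, smul_add, smul_smul, smul_smul, ← Real.exp_add]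
  congr 3 <;> (rw [hm]; ring)

end Pool.Agent.U162.TS.EL
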