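import Pool.Agent.U162.TS.Ell7

/-!
Global smooth solutions belong to the Banach space.
-/

open MeasureTheory Set Filter Topology
open scoped ENNReal NNReal ContDiff

namespace Pool.Agent.U162.TS.EL

open Pool.Agent.H356R3.NS Pool.Agent.U162.TS.VF Pool.Agent.U162.TS.Ph

variable {ν : ℝ} {u : ℝ → R3 → R3} {p : ℝ → R3 → ℝ}

lemma XF_bd4 (h : Glob ν u p) {b : ℝ} (_hb : 0 ≤ b) : ∃ M : ℝ, 0 ≤ M ∧ ∀ k : K, k ≠ 0 → ∀ t, 0 ≤ t → t ≤ b →
    ‖XF u k t‖ ≤ M * (1 / (H459R3.NS.N k : ℝ) ^ 4) := by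
  have hs := h.sol (b + 1) (by linarith)
  have h1 : ∀ i, ∃ M, 0 ≤ M ∧ ∀ t ∈ Icc 0 b, ∀ k, (H459R3.NS.N k : ℝ) ^ 4 * ‖H459R3.NS.fr (fun y => u t y i) k‖ ≤ M :=
    fun i => Pool.Agent.Q63.Win.unif_fr (F := fun s y => u s y i) (hs.smooth_c i)
      (fun t ht => (hs.sp ht i).per) 4 (b := b) (by linarith)
  choose M hM0 hM using h1
  refine ⟨∑ i, M i, Finset.sum_nonneg fun i _ => hM0 i, fun k hk t ht htb => ?_⟩
  have hN : 1 ≤ H459R3.NS.N k := Nat.one_le_iff_ne_zero.2 fun h => hk (H459R3.NS.N_eq_zero.1 h)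
  have hN' : (0 : ℝ) < H459R3.NS.N k := by exact_mod_cast hN
  rw [pi_norm_le_iff_of_nonneg (by have := Finset.sum_nonneg fun i (_ : i ∈ Finset.univ) => hM0 i; positivity)]
  intro i
  have h2 := hM i t ⟨ht, htb⟩ k
  have e : XF u k t i = H459R3.NS.fr (fun y => u t y i) k := by
    unfold XF Pool.Agent.Q63.Win.cof
    rw [max_eq_left ht]
  rw [e, mul_one_div, le_div_iff₀ (by positivity), mul_comm]
  exact h2.trans (Finset.single_le_sum (fun i _ => hM0 i) (Finset.mem_univ i))

lemma XF_zero (h : Glob ν u p) (t : ℝ) : XF u 0 t = 0 := by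
  funext i
  exact h.mean (le_max_right t 0) i

lemma summ_of_bd {f : K → TB} {M : ℝ} (h0 : f 0 = 0) (g : EE)
    (h : ∀ k, k ≠ 0 → ‖f k‖ ≤ M * (1 / (H459R3.NS.N k : ℝ) ^ 4) + M * ‖g k‖) (hM : 0 ≤ M) : Summable fun k => ‖f k‖ := by
  have h1 : Summable fun k : K => M * (if k = 0 then (0 : ℝ) else 1 / (H459R3.NS.N k : ℝ) ^ 4) + M * ‖g k‖ :=
    (H459R3.NS.summable_N4.mul_left M).add ((sE g).mul_left M)
  refine h1.of_nonneg_of_le (fun _ => norm_nonneg _) fun k => ?_
  by_cases hk : k = 0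
  · subst hk
    rw [h0]; simp only [norm_zero, if_true, mul_zero, zero_add]
    positivity
  · rw [if_neg hk]; exact h k hk

section

variable {c : ℝ} (hc : 0 < c)

/-- the heat flow of data -/
noncomputable def hE (v : K → C3) (hv : Summable fun k => ‖v k‖) : EE :=
  mkE (fun k => hT hc k (v k)) (hv.of_nonneg_of_le (fun _ => norm_nonneg _) fun k => by
    refine (BoundedContinuousFunction.norm_le (norm_nonneg _)).2 fun t => ?_
    rw [hT_apply, norm_smul, Real.norm_of_nonneg (Real.exp_pos _).le]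
    have h1 : Real.exp (-(mk c k * max t 0)) ≤ 1 := by
      rw [Real.exp_le_one_iff]
      have := mul_nonneg (mk_pos hc k).le (le_max_right t 0)
      linarith
    exact mul_le_of_le_one_left (norm_nonneg _) h1)

lemma hE_apply (v : K → C3) (hv : Summable fun k => ‖v k‖) (k : K) (t : ℝ) : hE hc v hv k t = hT hc k (v k) t := rfl

lemma hE_norm (v : K → C3) (hv : Summable fun k => ‖v k‖) : ‖hE hc v hv‖ ≤ ∑' k, ‖v k‖ := by
  rw [nE]
  refine (sE _).tsum_le_tsum (fun k => ?_) hv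
  refine (BoundedContinuousFunction.norm_le (norm_nonneg _)).2 fun t => ?_
  rw [hE_apply, hT_apply, norm_smul, Real.norm_of_nonneg (Real.exp_pos _).le]
  have h1 : Real.exp (-(mk c k * max t 0)) ≤ 1 := by
    rw [Real.exp_le_one_iff]
    have := mul_nonneg (mk_pos hc k).le (le_max_right t 0)
    linarith
  exact mul_le_of_le_one_left (norm_nonneg _) h1

lemma BB_max (x y : EE) (k : K) (t : ℝ) : BB hc x y k t = BB hc x y k (max t 0) := by
  rw [BB_eval, BB_eval]
  unfold tkf
  simp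

lemma hT_max (k : K) (v : C3) (t : ℝ) : hT hc k v t = hT hc k v (max t 0) := by
  rw [hT_apply, hT_apply]; simp

end

/-- the flow from the time `T` on, stopped at the time `τ` -/
noncomputable def stB (c : ℝ) (X : Fam) (T τ : ℝ) (k : K) (t : ℝ) : C3 :=
  Real.exp (c / 2 * min (max t 0) τ) • X k (T + min (max t 0) τ)

lemma exists_late {c : ℝ} (hc : 0 < c) (hν : 0 < ν) (hcν : c = 4 * Real.pi ^ 2 * ν) (h : Glob ν u p) :
    ∃ T : ℝ, 0 ≤ T ∧ ∃ y : EE, ∀ k t, 0 ≤ t → y k t = Real.exp (c / 2 * t) • XF u k (T + t) := by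
  have hX : FlowC c (XF u) := by rw [hcν]; exact h.flowC hν
  -- a time at which the solution is small
  obtain ⟨δ, hδ, hsol⟩ := Metric.eventually_nhds_iff.1 (small_sol hc)
  obtain ⟨T, hT0, hTs⟩ : ∃ T : ℝ, 0 < T ∧ ∑' k, ‖XF u k T‖ < δ := by
    by_contra hcon
    push Not at hcon
    apply lint_XF h hν
    have h1 : ∫⁻ _t in Ioi (0 : ℝ), ENNReal.ofReal δ ^ (2 : ℝ) ≤ ∫⁻ t in Ioi (0 : ℝ), (∑' k, ‖XF u k t‖ₑ) ^ (2 : ℝ) := by
      refine setLIntegral_mono' measurableSet_Ioi fun t ht => ?_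
      apply ENNReal.rpow_le_rpow _ (by norm_num)
      have e : ∑' k, ‖XF u k t‖ₑ = ENNReal.ofReal (∑' k, ‖XF u k t‖) := by
        rw [ENNReal.ofReal_tsum_of_nonneg (fun _ => norm_nonneg _) (summ_XF h t)]
        simp
      rw [e]
      exact ENNReal.ofReal_le_ofReal (hcon t ht)
    rw [setLIntegral_const, Real.volume_Ioi, ENNReal.mul_top] at h1
    · exact top_le_iff.1 h1
    · have : ENNReal.ofReal δ ≠ 0 := by simpa using hδ
      simp [this]
  obtain ⟨y, hy⟩ := hsol (y := hE hc (fun k => XF u k T) (summ_XF h T)) (by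
    rw [dist_zero_right]
    exact lt_of_le_of_lt (hE_norm hc _ _) hTs)
  refine ⟨T, hT0.le, y, fun k₀ τ hτ => ?_⟩
  -- the stopped flow
  obtain ⟨M, hM0, hM⟩ := XF_bd4 h (b := T + τ) (by linarith)
  have hst : ∀ t, 0 ≤ min (max t 0) τ ∧ min (max t 0) τ ≤ τ := fun t =>
    ⟨le_min (le_max_right _ _) hτ, min_le_right _ _⟩
  have hE1 : ∀ t, Real.exp (c / 2 * min (max t 0) τ) ≤ Real.exp (c / 2 * τ) := fun t =>
    Real.exp_le_exp.2 (mul_le_mul_of_nonneg_left (hst t).2 (by positivity))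
  have hcont : ∀ k, Continuous (stB c (XF u) T τ k) := by
    intro k
    unfold stB
    have h1 : Continuous fun t : ℝ => XF u k (T + min (max t 0) τ) := (hX.cf k).comp (by fun_prop)
    have h2 : Continuous fun t : ℝ => Real.exp (c / 2 * min (max t 0) τ) := by fun_prop
    exact h2.smul h1
  have hbd : ∀ k, k ≠ 0 → ∀ t, ‖stB c (XF u) T τ k t‖ ≤ Real.exp (c / 2 * τ) * (M * (1 / (H459R3.NS.N k : ℝ) ^ 4)) := by
    intro k hk t
    unfold stB
    rw [norm_smul, Real.norm_of_nonneg (Real.exp_pos _).le]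
    exact mul_le_mul (hE1 t) (hM k hk _ (by linarith [(hst t).1]) (by linarith [(hst t).2])) (norm_nonneg _)
      (Real.exp_pos _).le
  have hbd' : ∀ k, ∃ C, ∀ t, ‖stB c (XF u) T τ k t‖ ≤ C := by
    intro k
    by_cases hk : k = 0
    · subst hk
      refine ⟨0, fun t => ?_⟩
      unfold stB; rw [XF_zero h, smul_zero, norm_zero]
    · exact ⟨_, hbd k hk⟩
  choose C hC using hbd'
  set f : K → TB := fun k => BoundedContinuousFunction.ofNormedAddCommGroup (stB c (XF u) T τ k) (hcont k) (C k) (hC k)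
    with hf
  have hfs : Summable fun k => ‖f k‖ := by
    refine summ_of_bd (M := Real.exp (c / 2 * τ) * M) ?_ 0 (fun k hk => ?_) (by positivity)
    · ext1 t
      show stB c (XF u) T τ 0 t = 0
      unfold stB; rw [XF_zero h, smul_zero]
    · have h0 : ‖(0 : EE) k‖ = 0 := by rw [lp.coeFn_zero]; exact norm_zero
      rw [h0, mul_zero, add_zero, mul_assoc]
      exact (BoundedContinuousFunction.norm_le (by positivity)).2 fun t => hbd k hk t
  set x : EE := mkE f hfs with hx
  have hxv : ∀ k t, x k t = stB c (XF u) T τ k t := fun k t => rfl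
  have hPhi : JE τ (Phi hc x) = JE τ (Phi hc y) := by
    rw [hy]
    apply lp.ext
    funext k
    ext1 t
    rw [JE_apply, JE_apply, hE_apply]
    unfold Phi
    rw [lp.coeFn_sub, Pi.sub_apply, BoundedContinuousFunction.sub_apply, BB_max hc x x k, hT_max hc k]
    set t' := max (min t τ) 0 with ht'
    have h0 : 0 ≤ t' := le_max_right _ _
    have h1 : t' ≤ τ := max_le (min_le_right _ _) hτ
    have e : x k (min t τ) = x k t' := by
      rw [hxv, hxv]
      unfold stB
      rw [ht', max_eq_left (le_max_right (min t τ) 0)]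
    rw [e, flow_mild hc hX hT0.le h0 (x := x) (fun k s hs hst' => ?_) k]
    · abel
    · rw [hxv]
      unfold stB
      rw [max_eq_left hs, min_eq_left (hst'.trans h1)]
  have h1 := JE_uniq hc hτ hPhi
  have h2 : JE τ x k₀ τ = JE τ y k₀ τ := by rw [h1]
  rw [JE_apply, JE_apply, min_self, hxv] at h2
  rw [← h2]
  unfold stB
  rw [max_eq_left hτ, min_self]

/-- global smooth solutions belong to the Banach space and satisfy the Duhamel form -/
theorem mem_of_glob {c : ℝ} (hc : 0 < c) (hν : 0 < ν) (hcν : c = 4 * Real.pi ^ 2 * ν) (h : Glob ν u p) :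
    ∃ z : EE, (∀ k t, z k t = Real.exp (c / 2 * max t 0) • XF u k (max t 0)) ∧
      Phi hc z = hE hc (fun k => XF u k 0) (summ_XF h 0) := by
  have hX : FlowC c (XF u) := by rw [hcν]; exact h.flowC hν
  obtain ⟨T, hT0, y, hy⟩ := exists_late hc hν hcν h
  obtain ⟨M, hM0, hM⟩ := XF_bd4 h (b := T) hT0
  have hcont : ∀ k, Continuous fun t => Real.exp (c / 2 * max t 0) • XF u k (max t 0) := by
    intro k
    have h1 : Continuous fun t : ℝ => XF u k (max t 0) := (hX.cf k).comp (by fun_prop)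
    have h2 : Continuous fun t : ℝ => Real.exp (c / 2 * max t 0) := by fun_prop
    exact h2.smul h1
  set D := Real.exp (c / 2 * T) * (M + 1) with hD
  have hD0 : 0 ≤ D := by positivity
  have hbd : ∀ k, k ≠ 0 → ∀ t, ‖Real.exp (c / 2 * max t 0) • XF u k (max t 0)‖
      ≤ D * (1 / (H459R3.NS.N k : ℝ) ^ 4) + D * ‖y k‖ := by
    intro k hk t
    rw [norm_smul, Real.norm_of_nonneg (Real.exp_pos _).le]
    have ht : 0 ≤ max t 0 := le_max_right _ _
    generalize max t 0 = r at ht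
    have hDM : Real.exp (c / 2 * T) * M ≤ D := by rw [hD]; gcongr; linarith
    have hD1 : Real.exp (c / 2 * T) * 1 ≤ D := by rw [hD]; gcongr; linarith
    rcases le_total r T with h1 | h1
    · have h2 := hM k hk r ht h1
      have h3 : Real.exp (c / 2 * r) ≤ Real.exp (c / 2 * T) :=
        Real.exp_le_exp.2 (mul_le_mul_of_nonneg_left h1 (by positivity))
      calc _ ≤ Real.exp (c / 2 * T) * (M * (1 / (H459R3.NS.N k : ℝ) ^ 4)) :=
            mul_le_mul h3 h2 (norm_nonneg _) (Real.exp_pos _).le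
        _ = Real.exp (c / 2 * T) * M * (1 / (H459R3.NS.N k : ℝ) ^ 4) := by ring
        _ ≤ D * (1 / (H459R3.NS.N k : ℝ) ^ 4) := mul_le_mul_of_nonneg_right hDM (by positivity)
        _ ≤ _ := le_add_of_nonneg_right (by positivity)
    · have h2 := hy k (r - T) (by linarith)
      have h3 : Real.exp (c / 2 * r) • XF u k r = Real.exp (c / 2 * T) • y k (r - T) := by
        rw [h2, smul_smul, ← Real.exp_add]
        congr 2
        · ring
        · ring
      have h4 : Real.exp (c / 2 * r) * ‖XF u k r‖ = Real.exp (c / 2 * T) * ‖y k (r - T)‖ := by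
        rw [← Real.norm_of_nonneg (Real.exp_pos (c / 2 * r)).le, ← norm_smul, h3, norm_smul,
          Real.norm_of_nonneg (Real.exp_pos _).le]
      rw [h4]
      have h5 : ‖y k (r - T)‖ ≤ ‖y k‖ := BoundedContinuousFunction.norm_coe_le_norm _ _
      calc _ ≤ Real.exp (c / 2 * T) * ‖y k‖ := mul_le_mul_of_nonneg_left h5 (Real.exp_pos _).le
        _ = Real.exp (c / 2 * T) * 1 * ‖y k‖ := by ring
        _ ≤ D * ‖y k‖ := mul_le_mul_of_nonneg_right hD1 (norm_nonneg _)
        _ ≤ _ := le_add_of_nonneg_left (by positivity)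
  have hbd' : ∀ k, ∃ C, ∀ t, ‖Real.exp (c / 2 * max t 0) • XF u k (max t 0)‖ ≤ C := by
    intro k
    by_cases hk : k = 0
    · subst hk
      refine ⟨0, fun t => ?_⟩
      rw [XF_zero h, smul_zero, norm_zero]
    · exact ⟨_, hbd k hk⟩
  choose C hC using hbd'
  set f : K → TB := fun k => BoundedContinuousFunction.ofNormedAddCommGroup
    (fun t => Real.exp (c / 2 * max t 0) • XF u k (max t 0)) (hcont k) (C k) (hC k) with hf
  have hfs : Summable fun k => ‖f k‖ := by
    refine summ_of_bd (M := D) ?_ y (fun k hk => ?_) hD0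
    · ext1 t
      show Real.exp (c / 2 * max t 0) • XF u 0 (max t 0) = 0
      rw [XF_zero h, smul_zero]
    · exact (BoundedContinuousFunction.norm_le (by positivity)).2 fun t => hbd k hk t
  refine ⟨mkE f hfs, fun k t => rfl, ?_⟩
  have hxv : ∀ k t, (mkE f hfs) k t = Real.exp (c / 2 * max t 0) • XF u k (max t 0) := fun k t => rfl
  apply lp.ext
  funext k
  ext1 t
  rw [hE_apply]
  unfold Phi
  rw [lp.coeFn_sub, Pi.sub_apply, BoundedContinuousFunction.sub_apply, BB_max hc _ _ k, hT_max hc k]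
  have h0 : 0 ≤ max t 0 := le_max_right _ _
  have e : (mkE f hfs) k t = (mkE f hfs) k (max t 0) := by
    rw [hxv, hxv, max_eq_left h0]
  rw [e, flow_mild hc hX le_rfl h0 (x := mkE f hfs) (fun k s hs _ => by
    rw [hxv, max_eq_left hs, zero_add]) k]
  abel

end Pool.Agent.U162.TS.EL
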