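import Pool.Agent.U162.TS.Ell8
import Pool.Agent.U162.TS.Defs2

/-!
The kick of the mean flow is given by the total Reynolds stress.
-/

open MeasureTheory Set Filter Topology
open scoped ENNReal NNReal ContDiff

namespace Pool.Agent.U162.TS.EL

open Pool.Agent.H356R3.NS Pool.Agent.U162.TS.VF Pool.Agent.U162.TS.Ph

lemma coef_leray (l : K) (i : Fin 3) (X : Fin 3 → Fin 3 → ℂ) :
    ∑ j, ∑ m, coef l i j m * X j m
      = -(2 * Real.pi * Complex.I) * leray l (fun m => ∑ j, (l j : ℂ) * X j m) i := by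
  unfold coef leray
  have hs : ((H356R3.NS.sq l : ℝ) : ℂ) = ((∑ j, (l j : ℝ) ^ 2 : ℝ) : ℂ) := rfl
  rw [← hs]
  generalize ((H356R3.NS.sq l : ℝ) : ℂ) = q
  simp only [Fin.sum_univ_three]
  fin_cases i <;> simp <;> ring

lemma qs_summ (x y : EE) (s : ℝ) (j m : Fin 3) : Summable fun k => ‖x k s j * y (-k) s m‖ := by
  refine ((sE x).mul_right ‖y‖).of_nonneg_of_le (fun _ => norm_nonneg _) fun k => ?_
  rw [norm_mul]
  have h1 : ‖x k s j‖ ≤ ‖x k‖ := (norm_le_pi_norm (x k s) j).trans ((x k).norm_coe_le_norm s)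
  have h2 : ‖y (-k) s m‖ ≤ ‖y‖ :=
    (norm_le_pi_norm (y (-k) s) m).trans (((y (-k)).norm_coe_le_norm s).trans (leE y _))
  exact mul_le_mul h1 h2 (norm_nonneg _) (norm_nonneg _)

lemma qs_norm (x y : EE) (s : ℝ) (j m : Fin 3) : ‖∑' k, x k s j * y (-k) s m‖ ≤ ‖x‖ * ‖y‖ := by
  refine (norm_tsum_le_tsum_norm (qs_summ x y s j m)).trans ?_
  rw [nE x, ← tsum_mul_right]
  refine (qs_summ x y s j m).tsum_le_tsum (fun k => ?_) ((sE x).mul_right ‖y‖)
  rw [norm_mul]
  have h1 : ‖x k s j‖ ≤ ‖x k‖ := (norm_le_pi_norm (x k s) j).trans ((x k).norm_coe_le_norm s)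
  have h2 : ‖y (-k) s m‖ ≤ ‖y‖ :=
    (norm_le_pi_norm (y (-k) s) m).trans (((y (-k)).norm_coe_le_norm s).trans (leE y _))
  exact mul_le_mul h1 h2 (norm_nonneg _) (norm_nonneg _)

/-- the quadratic form of the stress at a given time -/
noncomputable def qs (s : ℝ) (j m : Fin 3) : EE →L[ℂ] EE →L[ℂ] ℂ :=
  LinearMap.mkContinuous₂
    (LinearMap.mk₂ ℂ (fun x y : EE => ∑' k, x k s j * y (-k) s m)
      (fun x x' y => by
        rw [← (qs_summ x y s j m).of_norm.tsum_add (qs_summ x' y s j m).of_norm]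
        refine tsum_congr fun k => ?_
        rw [lp.coeFn_add, Pi.add_apply, BoundedContinuousFunction.add_apply, Pi.add_apply, add_mul])
      (fun a x y => by
        rw [← tsum_const_smul'']
        refine tsum_congr fun k => ?_
        rw [lp.coeFn_smul, Pi.smul_apply, BoundedContinuousFunction.smul_apply, Pi.smul_apply, smul_eq_mul,
          smul_eq_mul, mul_assoc])
      (fun x y y' => by
        rw [← (qs_summ x y s j m).of_norm.tsum_add (qs_summ x y' s j m).of_norm]
        refine tsum_congr fun k => ?_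
        rw [lp.coeFn_add, Pi.add_apply, BoundedContinuousFunction.add_apply, Pi.add_apply, mul_add])
      (fun a x y => by
        rw [← tsum_const_smul'']
        refine tsum_congr fun k => ?_
        rw [lp.coeFn_smul, Pi.smul_apply, BoundedContinuousFunction.smul_apply, Pi.smul_apply, smul_eq_mul,
          smul_eq_mul]
        ring))
    1
    (fun x y => by
      rw [one_mul]
      exact qs_norm x y s j m)

lemma qs_apply (s : ℝ) (j m : Fin 3) (x y : EE) : qs s j m x y = ∑' k, x k s j * y (-k) s m := rfl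

/-- the Fourier coefficients of a quadratic expression -/
lemma cfv_bil {B : EE →L[ℂ] EE →L[ℂ] ℂ} (hB : ∀ x y, ‖B x y‖ ≤ ‖x‖ * ‖y‖) {z : R3 → EE} (hz : SPv z) (l : K) :
    cfv (fun x => B (z x) (z x)) l = ∑' l', B (cfv z l') (cfv z (l - l')) := by
  have hcz := hz.smooth.continuous
  obtain ⟨M, hM⟩ := isCompact_Icc.exists_bound_of_continuousOn (s := H459R3.NS.cube) hcz.continuousOn
  have hsum := cfv_summ hz
  have e1 : ∀ x, H459R3.NS.ee (-l) x • B (z x) (z x)
      = ∑' l', H459R3.NS.ee (-(l - l')) x • B (cfv z l') (z x) := by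
    intro x
    have h1 := cfv_hasSum hz x
    have h2 : HasSum (fun l' => B (H459R3.NS.ee l' x • cfv z l') (z x)) (B (z x) (z x)) := by
      have h3 := h1.mapL (B.flip (z x))
      exact h3
    have h4 := h2.const_smul (H459R3.NS.ee (-l) x)
    rw [← h4.tsum_eq]
    refine tsum_congr fun l' => ?_
    rw [map_smul, smul_apply, smul_smul, ← H459R3.NS.ee_add_left]
    congr 2
    abel
  have e2 : ∀ l', ∫ x in H459R3.NS.cube, H459R3.NS.ee (-(l - l')) x • B (cfv z l') (z x)
      = B (cfv z l') (cfv z (l - l')) := by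
    intro l'
    unfold cfv
    rw [← ContinuousLinearMap.integral_comp_comm (B _) (cfv_int hcz (l - l'))]
    simp only [map_smul]
  have hint : ∀ l', Integrable (fun x => H459R3.NS.ee (-(l - l')) x • B (cfv z l') (z x))
      (volume.restrict H459R3.NS.cube) := fun l' =>
    cfv_int (((B (cfv z l')).continuous).comp hcz) (l - l')
  have hM0 : 0 ≤ M := (norm_nonneg _).trans (hM 0 (by simp [H459R3.NS.cube]))
  unfold cfv
  simp only [e1]
  rw [← integral_tsum_of_summable_integral_norm hint]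
  · exact tsum_congr e2
  · refine (hsum.mul_left M).of_nonneg_of_le (fun _ => integral_nonneg fun _ => norm_nonneg _)
      fun l' => ?_
    have h5 : ∀ x ∈ H459R3.NS.cube, ‖H459R3.NS.ee (-(l - l')) x • B (cfv z l') (z x)‖
        ≤ M * ‖cfv z l'‖ := by
      intro x hx
      rw [norm_smul, H459R3.NS.norm_ee, one_mul]
      refine (hB _ _).trans ?_
      rw [mul_comm]
      exact mul_le_mul_of_nonneg_right (hM x hx) (norm_nonneg _)
    calc ∫ x in H459R3.NS.cube, ‖H459R3.NS.ee (-(l - l')) x • B (cfv z l') (z x)‖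
        ≤ ∫ _x in H459R3.NS.cube, M * ‖cfv z l'‖ :=
          setIntegral_mono_on (hint l').norm
            (by
              have := H459R3.NS.cube_finite
              exact integrable_const _) measurableSet_Icc h5
      _ = _ := by
        rw [setIntegral_const]
        unfold Measure.real
        rw [H459R3.NS.volume_cube]; simp

lemma qs_smooth {z : R3 → EE} (hz : SPv z) (s : ℝ) (j m : Fin 3) : SPv fun x => qs s j m (z x) (z x) := by
  refine ⟨?_, fun i x => by simp only [hz.per i x]⟩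
  have h0 : ContDiff ℂ ∞ (fun z : EE => qs s j m z) := by
    have h := ContinuousLinearMap.contDiff (𝕜 := ℂ) (E := EE) (F := EE →L[ℂ] ℂ) (n := ∞) (qs s j m)
    exact h
  have h1 : ContDiff ℂ ∞ (fun z : EE => (qs s j m z) z) := h0.clm_apply (contDiff_id (E := EE))
  exact (h1.restrict_scalars ℝ).comp hz.smooth

variable {c : ℝ} (hc : 0 < c)

/-- the Fourier coefficients of the stress at a given time -/
noncomputable def As (c : ℝ) (z : R3 → EE) (j m : Fin 3) (l : K) (s : ℝ) : ℂ :=
  ∑' P : K × K, WW c z P s j * WW c z ((l, 0) - P) s m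

lemma cfv_le_tot {z : R3 → EE} (hz : SPv z) (Q : K × K) : ‖cfv z Q.1 Q.2‖ ≤ ∑' l, ‖cfv z l‖ :=
  (leE (cfv z Q.1) Q.2).trans ((cfv_summ hz).le_tsum Q.1 fun _ _ => norm_nonneg _)

lemma WW_norm_comp (z : R3 → EE) (Q : K × K) (s : ℝ) (m : Fin 3) :
    ‖WW c z Q s m‖ ≤ Real.exp (-(c / 2 * max s 0)) * ‖cfv z Q.1 Q.2‖ :=
  (norm_le_pi_norm (WW c z Q s) m).trans (WW_norm z Q s)

lemma As_term {z : R3 → EE} (hz : SPv z) (j m : Fin 3) (l : K) (P : K × K) (s : ℝ) :
    ‖WW c z P s j * WW c z ((l, 0) - P) s m‖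
      ≤ Real.exp (-(c * max s 0)) * ((∑' l, ‖cfv z l‖) * ‖cfv z P.1 P.2‖) := by
  rw [norm_mul]
  have h1 := WW_norm_comp (c := c) z P s j
  generalize ((l, 0) : K × K) - P = Q
  have h2 : ‖WW c z Q s m‖ ≤ Real.exp (-(c / 2 * max s 0)) * ∑' l, ‖cfv z l‖ :=
    (WW_norm_comp z Q s m).trans (mul_le_mul_of_nonneg_left (cfv_le_tot hz Q) (Real.exp_pos _).le)
  refine (mul_le_mul h1 h2 (norm_nonneg _) (by positivity)).trans (le_of_eq ?_)
  rw [show -(c * max s 0) = -(c / 2 * max s 0) + -(c / 2 * max s 0) by ring, Real.exp_add]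
  ring

include hc in
lemma As_cont {z : R3 → EE} (hz : SPv z) (j m : Fin 3) (l : K) : Continuous (As c z j m l) := by
  refine continuous_tsum (u := fun P : K × K => (∑' l, ‖cfv z l‖) * ‖cfv z P.1 P.2‖) (fun P => ?_)
    ((sumKK hz).mul_left _) fun P s => ?_
  · exact ((continuous_apply j).comp (WW_cont z P)).mul ((continuous_apply m).comp (WW_cont z _))
  · refine (As_term hz j m l P s).trans (mul_le_of_le_one_left ?_ ?_)
    · exact mul_nonneg (tsum_nonneg fun _ => norm_nonneg _) (norm_nonneg _)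
    · rw [Real.exp_le_one_iff]
      have := mul_nonneg hc.le (le_max_right s 0)
      linarith

/-- the coefficient of the stress at a given time -/
lemma As_eq {z : R3 → EE} (hz : SPv z) (j m : Fin 3) (l : K) {s : ℝ} (hs : 0 ≤ s) :
    As c z j m l s = Real.exp (-(c * s)) * cfv (fun x => qs s j m (z x) (z x)) l := by
  rw [cfv_bil (fun x y => qs_norm x y s j m) hz l]
  unfold As
  have hS : Summable fun P : K × K => WW c z P s j * WW c z ((l, 0) - P) s m := by
    refine Summable.of_norm_bounded (g := fun P : K × K => Real.exp (-(c * max s 0)) *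
      ((∑' l, ‖cfv z l‖) * ‖cfv z P.1 P.2‖)) (((sumKK hz).mul_left _).mul_left _) fun P => As_term hz j m l P s
  rw [hS.tsum_prod, ← tsum_mul_left]
  refine tsum_congr fun l' => ?_
  rw [qs_apply, ← tsum_mul_left]
  refine tsum_congr fun k => ?_
  unfold WW
  have e : ((l, 0) : K × K) - (l', k) = (l - l', -k) := by ext <;> simp
  rw [e, max_eq_left hs]
  simp only [Pi.smul_apply, Complex.real_smul]
  have e2 : Real.exp (-(c * s)) = Real.exp (-(c / 2 * s)) * Real.exp (-(c / 2 * s)) := by
    rw [← Real.exp_add]; congr 1; ring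
  rw [e2]
  push_cast
  ring

lemma As_bound {z : R3 → EE} (hz : SPv z) (j m : Fin 3) (l : K) {s : ℝ} (hs : 0 ≤ s) :
    ‖As c z j m l s‖ ≤ Real.exp (-(c * s)) * ∑' l', ‖cfv z l'‖ * ‖cfv z (l - l')‖ := by
  rw [As_eq hz j m l hs, norm_mul, Complex.norm_real, Real.norm_of_nonneg (Real.exp_pos _).le,
    cfv_bil (fun x y => qs_norm x y s j m) hz l]
  refine mul_le_mul_of_nonneg_left ?_ (Real.exp_pos _).le
  have h1 := cvS1 (cfv_summ hz) (cfv_summ hz) (fun _ => norm_nonneg _) (fun _ => norm_nonneg _) l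
  have h2 : Summable fun l' => ‖qs s j m (cfv z l') (cfv z (l - l'))‖ :=
    h1.of_nonneg_of_le (fun _ => norm_nonneg _) fun l' => qs_norm _ _ s j m
  exact (norm_tsum_le_tsum_norm h2).trans (h2.tsum_le_tsum (fun l' => qs_norm _ _ s j m) h1)

include hc in
lemma As_int {z : R3 → EE} (hz : SPv z) (j m : Fin 3) (l : K) :
    IntegrableOn (As c z j m l) (Ioi 0) ∧
      ∫ s in Ioi (0 : ℝ), ‖As c z j m l s‖ ≤ 1 / c * ∑' l', ‖cfv z l'‖ * ‖cfv z (l - l')‖ := by
  set a := ∑' l', ‖cfv z l'‖ * ‖cfv z (l - l')‖ with ha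
  have hE : IntegrableOn (fun s => Real.exp (-(c * s)) * a) (Ioi 0) := by
    have := (integrableOn_exp_mul_Ioi (neg_lt_zero.2 hc) 0).mul_const a
    simpa only [neg_mul, IntegrableOn] using this
  have hI : IntegrableOn (As c z j m l) (Ioi 0) := by
    refine Integrable.mono' hE (As_cont hc hz j m l).aestronglyMeasurable ?_
    filter_upwards [self_mem_ae_restrict measurableSet_Ioi] with s hs
    exact As_bound hz j m l (le_of_lt hs)
  refine ⟨hI, ?_⟩
  refine (setIntegral_mono_on hI.norm hE measurableSet_Ioi fun s hs => As_bound hz j m l (le_of_lt hs)).trans ?_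
  rw [integral_mul_const]
  have := integral_exp_mul_Ioi (neg_lt_zero.2 hc) 0
  simp only [neg_mul] at this
  rw [this]
  simp

/-- the kick in terms of the coefficients of the stress -/
lemma Kick_As {z : R3 → EE} (hz : SPv z) (hfl : CellFlow c (WW c z) (c / 2)) (l : K) (i : Fin 3) :
    Kick (WW c z) l i = -(2 * Real.pi * Complex.I) * leray l (fun m => ∑ j, (l j : ℂ) *
      ∫ s in Ioi (0 : ℝ), As c z j m l s) i := by
  have h1 : Kick (WW c z) l i = ∫ s in Ioi (0 : ℝ), full (WW c z) (l, 0) s i := by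
    unfold Kick
    have := ContinuousLinearMap.integral_comp_comm (ContinuousLinearMap.proj (R := ℂ) (φ := fun _ : Fin 3 => ℂ) i)
      (full_int hfl (l, 0))
    exact this.symm
  have hS : ∀ s j m, Summable fun P : K × K => WW c z P s j * WW c z ((l, 0) - P) s m := by
    intro s j m
    exact Summable.of_norm_bounded (g := fun P : K × K => Real.exp (-(c * max s 0)) *
      ((∑' l, ‖cfv z l‖) * ‖cfv z P.1 P.2‖)) (((sumKK hz).mul_left _).mul_left _) fun P => As_term hz j m l P s
  have hc' : 0 < c := by have := hfl.hσ; linarith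
  have hS2 : ∀ s, Summable fun P : K × K => qb (l, 0) (WW c z P s) (WW c z ((l, 0) - P) s) := fun s =>
    Summable.of_norm_bounded ((sumKK hz).mul_left _) fun P => WW_full_summ hc' hz (l, 0) s P
  have h2 : ∀ s, full (WW c z) (l, 0) s i = ∑ j, ∑ m, coef l i j m * As c z j m l s := by
    intro s
    unfold full
    rw [tsum_apply (hS2 s)]
    have e : ∀ P : K × K, qb (l, 0) (WW c z P s) (WW c z ((l, 0) - P) s) i
        = ∑ j, ∑ m, coef l i j m * (WW c z P s j * WW c z ((l, 0) - P) s m) := by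
      intro P
      unfold qb
      rw [if_pos rfl]
      rfl
    simp only [e]
    rw [Summable.tsum_finsetSum fun j _ => summable_sum fun m _ => (hS s j m).mul_left _]
    refine Finset.sum_congr rfl fun j _ => ?_
    rw [Summable.tsum_finsetSum fun m _ => (hS s j m).mul_left _]
    refine Finset.sum_congr rfl fun m _ => ?_
    rw [tsum_mul_left]
    rfl
  rw [h1]
  simp only [h2]
  have hI : ∀ j m, IntegrableOn (fun s => coef l i j m * As c z j m l s) (Ioi 0) := fun j m =>
    ((As_int hc' hz j m l).1).const_mul _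
  rw [integral_finsetSum _ fun j _ => integrable_finsetSum _ fun m _ => hI j m]
  have h3 : ∀ j, ∫ s in Ioi (0 : ℝ), ∑ m, coef l i j m * As c z j m l s
      = ∑ m, coef l i j m * ∫ s in Ioi (0 : ℝ), As c z j m l s := by
    intro j
    rw [integral_finsetSum _ fun m _ => hI j m]
    exact Finset.sum_congr rfl fun m _ => integral_const_mul _ _
  simp only [h3]
  exact coef_leray l i fun j m => ∫ s in Ioi (0 : ℝ), As c z j m l s

end Pool.Agent.U162.TS.EL
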