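import Pool.Agent.U162.TS.Flow1

/-!
Global smooth solutions: decay.
-/

open MeasureTheory Set Filter Topology
open scoped ContDiff

namespace Pool.Agent.U162.TS.Ph

open H459R3.NS Pool.Agent.Q63.Win

/-- absolute convergence of the Fourier series -/
theorem l1_le {f : V → ℝ} (hf : SP f) : ∑' k, ‖fr f k‖ ≤ nrm f + Real.sqrt C4 * nrm (lap f) := by
  have hr := rap_fr hf
  have hl := rap_fr hf.lap
  have hbd : ∀ k, ‖fr f k‖ ≤ (if k = 0 then ‖fr f 0‖ else 0)
      + Real.sqrt (if k = 0 then (0 : ℝ) else 1 / (N k : ℝ) ^ 4) * ‖fr (lap f) k‖ := by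
    intro k
    by_cases hk : k = 0
    · rw [if_pos hk, if_pos hk, hk]
      simp
    · rw [if_neg hk, if_neg hk, zero_add]
      have hN : 1 ≤ N k := Nat.one_le_iff_ne_zero.2 fun h => hk (N_eq_zero.1 h)
      have hN' : (0 : ℝ) < N k := by exact_mod_cast hN
      have e1 : fr (lap f) k = -(((2 * Real.pi) ^ 2 * ∑ j, (k j : ℝ) ^ 2 : ℝ) : ℂ) * fr f k := by
        unfold lap
        rw [fr_sum fun j _ => (hf.pd j).pd j]
        push_cast
        rw [Finset.mul_sum, ← Finset.sum_neg_distrib, Finset.sum_mul]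
        refine Finset.sum_congr rfl fun j _ => ?_
        rw [fr_pd (hf.pd j), fr_pd hf, D, D]
        have := Complex.I_sq
        linear_combination ((2 * Real.pi : ℂ) ^ 2 * (k j : ℂ) ^ 2 * fr f k) * this
      have e2 : (N k : ℝ) ^ 2 * ‖fr f k‖ ≤ ‖fr (lap f) k‖ := by
        rw [e1, norm_mul, norm_neg, Complex.norm_real, Real.norm_eq_abs,
          abs_of_nonneg (by positivity)]
        refine mul_le_mul_of_nonneg_right ?_ (norm_nonneg _)
        have a1 := N_sq_le k
        have a2 : (1 : ℝ) ≤ (2 * Real.pi) ^ 2 := by nlinarith [Real.pi_gt_three]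
        have a3 : (0 : ℝ) ≤ ∑ j, (k j : ℝ) ^ 2 := by positivity
        nlinarith
      have e3 : Real.sqrt (1 / (N k : ℝ) ^ 4) = 1 / (N k : ℝ) ^ 2 := by
        rw [show (1 : ℝ) / (N k : ℝ) ^ 4 = (1 / (N k : ℝ) ^ 2) ^ 2 by
          rw [div_pow, one_pow, ← pow_mul], Real.sqrt_sq (by positivity)]
      rw [e3, div_mul_eq_mul_div, one_mul, le_div_iff₀ (by positivity), mul_comm]
      exact e2
  have s1 : Summable fun k : K3 => if k = 0 then ‖fr f 0‖ else 0 :=
    (hasSum_ite_eq (0 : K3) ‖fr f 0‖).summable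
  have sq1 : Summable fun k : K3 => (Real.sqrt (if k = 0 then (0 : ℝ) else 1 / (N k : ℝ) ^ 4)) ^ 2 := by
    refine summable_N4.congr fun k => ?_
    rw [Real.sq_sqrt (by split_ifs <;> positivity)]
  have sq2 := summable_sq hl.summable
  have s2 : Summable fun k : K3 =>
      Real.sqrt (if k = 0 then (0 : ℝ) else 1 / (N k : ℝ) ^ 4) * ‖fr (lap f) k‖ := by
    refine Summable.of_nonneg_of_le (fun k => by positivity) (fun k => ?_) (sq1.add sq2)
    nlinarith [sq_nonneg (Real.sqrt (if k = 0 then (0 : ℝ) else 1 / (N k : ℝ) ^ 4)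
      - ‖fr (lap f) k‖), sq_nonneg (Real.sqrt (if k = 0 then (0 : ℝ) else 1 / (N k : ℝ) ^ 4)),
      sq_nonneg ‖fr (lap f) k‖]
  refine (hr.summable.norm.tsum_le_tsum hbd (s1.add s2)).trans ?_
  rw [s1.tsum_add s2, tsum_ite_eq]
  have t1 : ‖fr f 0‖ ≤ nrm f := by
    have a1 : ‖fr f 0‖ ^ 2 ≤ n2 (fr f) ^ 2 := by
      rw [n2_sq]
      exact (summable_sq hr.summable).le_tsum (0 : K3) fun _ _ => sq_nonneg _
    have a2 : n2 (fr f) ^ 2 = nrm f ^ 2 := by rw [n2_fr hf, nrm_sq]
    rw [a2] at a1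
    exact (pow_le_pow_iff_left₀ (norm_nonneg _) (nrm_nonneg _) (by norm_num)).1 a1
  have t2 : ∑' k : K3, Real.sqrt (if k = 0 then (0 : ℝ) else 1 / (N k : ℝ) ^ 4) * ‖fr (lap f) k‖
      ≤ Real.sqrt C4 * nrm (lap f) := by
    refine s2.tsum_le_of_sum_le fun F => ?_
    have b1 := Finset.sum_mul_sq_le_sq_mul_sq F
      (fun k : K3 => Real.sqrt (if k = 0 then (0 : ℝ) else 1 / (N k : ℝ) ^ 4))
      (fun k => ‖fr (lap f) k‖)
    have b2 : ∑ k ∈ F, (Real.sqrt (if k = 0 then (0 : ℝ) else 1 / (N k : ℝ) ^ 4)) ^ 2 ≤ C4 := by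
      have : ∑' k : K3, (Real.sqrt (if k = 0 then (0 : ℝ) else 1 / (N k : ℝ) ^ 4)) ^ 2 = C4 :=
        tsum_congr fun k => Real.sq_sqrt (by split_ifs <;> positivity)
      rw [← this]
      exact sq1.sum_le_tsum F fun _ _ => sq_nonneg _
    have b3 : ∑ k ∈ F, ‖fr (lap f) k‖ ^ 2 ≤ nrm (lap f) ^ 2 := by
      rw [nrm_sq, ← n2_fr hf.lap, n2_sq]
      exact sq2.sum_le_tsum F fun _ _ => sq_nonneg _
    have b4 : (∑ k ∈ F, Real.sqrt (if k = 0 then (0 : ℝ) else 1 / (N k : ℝ) ^ 4)
        * ‖fr (lap f) k‖) ^ 2 ≤ (Real.sqrt C4 * nrm (lap f)) ^ 2 := by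
      rw [mul_pow, Real.sq_sqrt C4_nonneg]
      refine b1.trans ?_
      exact mul_le_mul b2 b3 (Finset.sum_nonneg fun _ _ => sq_nonneg _) C4_nonneg
    exact (pow_le_pow_iff_left₀ (Finset.sum_nonneg fun _ _ => by positivity)
      (mul_nonneg (Real.sqrt_nonneg _) (nrm_nonneg _)) (by norm_num)).1 b4
  linarith

theorem fr_le_nrm {f : V → ℝ} (hf : SP f) (k : K3) : ‖fr f k‖ ≤ nrm f := by
  have hr := rap_fr hf
  have a1 : ‖fr f k‖ ^ 2 ≤ n2 (fr f) ^ 2 := by
    rw [n2_sq]
    exact (summable_sq hr.summable).le_tsum k fun _ _ => sq_nonneg _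
  have a2 : n2 (fr f) ^ 2 = nrm f ^ 2 := by rw [n2_fr hf, nrm_sq]
  rw [a2] at a1
  exact (pow_le_pow_iff_left₀ (norm_nonneg _) (nrm_nonneg _) (by norm_num)).1 a1

theorem fr_zero_int {f : V → ℝ} (h : fr f 0 = 0) : ∫ x in cube, f x = 0 := by
  unfold fr fc at h
  simp_rw [neg_zero, ee_zero, one_mul] at h
  rw [integral_complex_ofReal] at h
  exact_mod_cast h

/-- global smooth solutions with mean zero -/
structure Glob (ν : ℝ) (u : ℝ → V → V) (p : ℝ → V → ℝ) : Prop where
  sol : ∀ T, 0 < T → IsSol ν T u p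
  mz : ∀ i, cof (u 0) 0 i = 0

variable {ν : ℝ} {u : ℝ → V → V} {p : ℝ → V → ℝ}

theorem Glob.sp (h : Glob ν u p) {t : ℝ} (ht : 0 ≤ t) (i : Fin 3) : SP fun y => u t y i :=
  (h.sol (t + 1) (by linarith)).sp ⟨ht, by linarith⟩ i

theorem Glob.mean (h : Glob ν u p) {t : ℝ} (ht : 0 ≤ t) (i : Fin 3) : cof (u t) 0 i = 0 := by
  have hs := h.sol (t + 1) (by linarith)
  have hc : ContinuousOn (fun s => cof (u s) 0 i) (Icc 0 t) :=
    (cont_fr (F := fun s y => u s y i) (hs.smooth_c i) 0).mono fun s hs => ⟨hs.1, by linarith [hs.2]⟩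
  have hd : ∀ s ∈ Ioo 0 t, HasDerivAt (fun s => cof (u s) 0 i) 0 s := by
    intro s hs'
    refine (cof_deriv hs ⟨hs'.1, by linarith [hs'.2]⟩ 0 i).congr_deriv ?_
    simp [Pool.Agent.H356R3.NS.coef_zero, msym]
  have h1 := intervalIntegral.integral_eq_sub_of_hasDerivAt_of_le ht hc hd
    (continuous_const.intervalIntegrable _ _)
  rw [intervalIntegral.integral_zero, h.mz, sub_zero] at h1
  exact h1.symm

theorem energy_le_enstrophy {v : V → V} (hv : ∀ i, SP fun y => v y i) (h0 : ∀ i, cof v 0 i = 0) :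
    energy v ≤ enstrophy v := by
  unfold energy enstrophy
  refine Finset.sum_le_sum fun i _ => ?_
  rw [← nrm_sq, ← grd_sq]
  exact pow_le_pow_left₀ (nrm_nonneg _) (poincare (hv i) (fr_zero_int (h0 i))) 2

theorem enstrophy_le_palin {v : V → V} (hv : ∀ i, SP fun y => v y i) : enstrophy v ≤ palin v := by
  unfold enstrophy palin
  refine Finset.sum_le_sum fun i _ => ?_
  have h2 := sum_hess (v := fun _ => fun y => v y i) (fun _ => hv i)
  simp only [Finset.sum_const, Finset.card_univ, Fintype.card_fin, nsmul_eq_mul] at h2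
  have h3 : ∑ m, ∑ l, n2 (D l (D m (fr fun y => v y i))) ^ 2 = ∫ x in cube, lap (fun y => v y i) x ^ 2 := by
    push_cast at h2
    linarith
  rw [← h3]
  refine Finset.sum_le_sum fun j _ => ?_
  have h4 := poincare ((hv i).pd j) (int_pd_zero (hv i) j)
  have h5 := pow_le_pow_left₀ (nrm_nonneg _) h4 2
  rw [nrm_sq, grd_sq] at h5
  refine h5.trans (le_of_eq (Finset.sum_congr rfl fun l _ => ?_))
  rw [← n2_fr (((hv i).pd j).pd l), fr_pd ((hv i).pd j), fr_pd (hv i)]

theorem nrm_le_energy {v : V → V} (i : Fin 3) : nrm (fun y => v y i) ≤ Real.sqrt (energy v) := by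
  unfold nrm
  refine Real.sqrt_le_sqrt ?_
  exact Finset.single_le_sum (f := fun i => ∫ x in cube, v x i ^ 2)
    (fun _ _ => integral_nonneg fun _ => sq_nonneg _) (Finset.mem_univ i)

theorem nrm_lap_le {v : V → V} (i : Fin 3) : nrm (lap fun y => v y i) ≤ Real.sqrt (palin v) := by
  unfold nrm
  refine Real.sqrt_le_sqrt ?_
  exact Finset.single_le_sum (f := fun i => ∫ x in cube, lap (fun y => v y i) x ^ 2)
    (fun _ _ => integral_nonneg fun _ => sq_nonneg _) (Finset.mem_univ i)

/-- the constant in the bound of the cubic form -/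
noncomputable def κ0 : ℝ := 1 + Real.sqrt C4

theorem κ0_pos : 0 < κ0 := by unfold κ0; positivity

/-- the bound of the cubic form by a small enstrophy -/
theorem cub_le {v : V → V} (hv : ∀ i, SP fun y => v y i) (h0 : ∀ i, cof v 0 i = 0) :
    |cub fun i y => v y i| ≤ 54 * κ0 * Real.sqrt (enstrophy v) * palin v := by
  set P := Real.sqrt (palin v) with hP
  have hP2 : P ^ 2 = palin v := Real.sq_sqrt (palin_nonneg _)
  have hEP : energy v ≤ palin v := (energy_le_enstrophy hv h0).trans (enstrophy_le_palin hv)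
  have hβ : ∀ i x, |v x i| ≤ κ0 * P := by
    intro i x
    refine (sup_le (hv i) x).trans ?_
    have h1 := nrm_le_energy (v := v) i
    have h2 := nrm_lap_le (v := v) i
    have h3 : Real.sqrt (energy v) ≤ P := Real.sqrt_le_sqrt hEP
    have h4 := mul_le_mul_of_nonneg_left h2 (Real.sqrt_nonneg C4)
    unfold κ0
    linarith
  have hG : GH2 (fun i y => v y i) (Real.sqrt (enstrophy v)) P := by
    refine ⟨hv, Real.sqrt_nonneg _, Real.sqrt_nonneg _, ?_, ?_⟩
    · rw [Real.sq_sqrt (enstrophy_nonneg _)]; exact le_rfl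
    · rw [hP2]; exact le_rfl
  have h1 := abs_C3_1 (s := fun i y => v y i) hv hβ hG.gh hG.gh
  rw [← cub_eq] at h1
  refine h1.trans (le_of_eq ?_)
  rw [← hP2]; ring

theorem Glob.energy_decay (h : Glob ν u p) (hν : 0 < ν) {t : ℝ} (ht : 0 ≤ t) :
    energy (u t) ≤ energy (u 0) * Real.exp (-(2 * ν * t)) := by
  have hs := h.sol (t + 1) (by linarith)
  have hc : ContinuousOn (fun s => Real.exp (2 * ν * s) * energy (u s)) (Icc 0 t) := by
    refine ContinuousOn.mul (by fun_prop) ?_
    exact hs.energy_continuousOn.mono fun s hs => ⟨hs.1, by linarith [hs.2]⟩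
  have hd : ∀ s ∈ Ioo 0 t, HasDerivWithinAt (fun s => Real.exp (2 * ν * s) * energy (u s))
      (Real.exp (2 * ν * s) * (2 * ν) * energy (u s) + Real.exp (2 * ν * s) * -(2 * ν * enstrophy (u s)))
      (Ioi s) s := by
    intro s hs'
    have h1 : HasDerivAt (fun s : ℝ => Real.exp (2 * ν * s)) (Real.exp (2 * ν * s) * (2 * ν)) s := by
      have : HasDerivAt (fun s : ℝ => 2 * ν * s) (2 * ν) s := by
        simpa using (hasDerivAt_id' s).const_mul (2 * ν)
      exact this.exp
    exact (h1.fun_mul (hs.energy_hasDerivAt ⟨hs'.1, by linarith [hs'.2]⟩)).hasDerivWithinAt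
  have h1 := intervalIntegral.sub_le_integral_of_hasDeriv_right_of_le (φ := fun _ => 0) ht hc hd
    (by simp) (fun s hs' => by
      have h2 := energy_le_enstrophy (fun i => h.sp hs'.1.le i) (fun i => h.mean hs'.1.le i)
      have h3 := Real.exp_pos (2 * ν * s)
      have h4 : 0 ≤ Real.exp (2 * ν * s) * (2 * ν) * (enstrophy (u s) - energy (u s)) :=
        mul_nonneg (by positivity) (by linarith)
      linarith)
  simp only [intervalIntegral.integral_zero, mul_zero, Real.exp_zero, one_mul] at h1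
  have h5 : Real.exp (2 * ν * t) * energy (u t) ≤ energy (u 0) := by linarith
  have h6 := Real.exp_pos (2 * ν * t)
  rw [Real.exp_neg]
  rw [← div_eq_mul_inv, le_div_iff₀ h6]
  linarith

/-- at some time the enstrophy is small -/
theorem Glob.small_time (h : Glob ν u p) (hν : 0 < ν) {κ : ℝ} (hκ : 0 < κ) :
    ∃ t0, 0 < t0 ∧ enstrophy (u t0) ≤ κ := by
  by_contra hcon
  push Not at hcon
  set b := energy (u 0) / (2 * ν) / κ + 1 with hb
  have hE := energy_nonneg (u 0)
  have hb0 : 0 < b := by positivity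
  have hs := h.sol (b + 1) (by linarith)
  have hbI : b ∈ Ico 0 (b + 1) := ⟨hb0.le, by linarith⟩
  have h1 := hs.int_enstrophy hν hbI
  have hc : ContinuousOn (fun s => enstrophy (u s)) (Icc 0 b) :=
    hs.enstrophy_continuousOn.mono fun s hs => ⟨hs.1, by linarith [hs.2]⟩
  have h2 : κ * b ≤ ∫ s in (0 : ℝ)..b, enstrophy (u s) := by
    have : ∫ _s in (0 : ℝ)..b, κ = κ * b := by
      rw [intervalIntegral.integral_const]; simp [mul_comm]
    rw [← this]
    refine intervalIntegral.integral_mono_on_of_le_Ioo hb0.le (continuous_const.intervalIntegrable _ _)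
      (hc.intervalIntegrable_of_Icc hb0.le) fun s hs => ?_
    exact (hcon s hs.1).le
  have h3 : κ * b = energy (u 0) / (2 * ν) + κ := by
    rw [hb]; field_simp
  linarith

/-- after that time the enstrophy stays small and the Laplacian is square integrable -/
theorem Glob.int_palin (h : Glob ν u p) (hν : 0 < ν) : ∃ K : ℝ, ∀ t, 0 ≤ t →
    ∫ s in (0 : ℝ)..t, palin (u s) ≤ K := by
  set κ := (ν / (108 * κ0)) ^ 2 with hκ
  have hκ0 := κ0_pos
  have hκp : 0 < κ := by positivity
  have hsκ : Real.sqrt κ = ν / (108 * κ0) := Real.sqrt_sq (by positivity)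
  obtain ⟨t0, ht0, hs0⟩ := h.small_time hν hκp
  -- the enstrophy stays small
  have hder : ∀ s, 0 < s → enstrophy (u s) ≤ κ →
      -(2 * ν * palin (u s)) - 2 * cub (fun i y => u s y i) ≤ -(ν * palin (u s)) := by
    intro s hs hle
    have h1 := (_root_.abs_le.1 (cub_le (fun i => h.sp hs.le i) (fun i => h.mean hs.le i))).1
    have h2 : Real.sqrt (enstrophy (u s)) ≤ ν / (108 * κ0) := by
      rw [← hsκ]; exact Real.sqrt_le_sqrt hle
    have hp := palin_nonneg (u s)
    have h3 : 54 * κ0 * Real.sqrt (enstrophy (u s)) * palin (u s) ≤ ν / 2 * palin (u s) := by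
      have : 54 * κ0 * Real.sqrt (enstrophy (u s)) ≤ ν / 2 := by
        calc 54 * κ0 * Real.sqrt (enstrophy (u s)) ≤ 54 * κ0 * (ν / (108 * κ0)) := by gcongr
          _ = ν / 2 := by field_simp; norm_num
      exact mul_le_mul_of_nonneg_right this hp
    linarith
  have hsm : ∀ t, t0 ≤ t → enstrophy (u t) ≤ κ := by
    intro t ht
    have hs := h.sol (t + 1) (by linarith)
    have hc : ContinuousOn (fun s => enstrophy (u s)) (Icc t0 t) :=
      hs.enstrophy_continuousOn.mono fun s hs => ⟨by linarith [hs.1], by linarith [hs.2]⟩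
    refine image_le_of_deriv_right_lt_deriv_boundary' (f := fun s => enstrophy (u s))
      (f' := fun s => -(2 * ν * palin (u s)) - 2 * cub (fun i y => u s y i)) (B := fun _ => κ)
      (B' := fun _ => 0) hc (fun s hs' => ?_) hs0 continuousOn_const (fun s _ => ?_) (fun s hs' he => ?_)
      ⟨ht, le_rfl⟩
    · exact (hs.enstrophy_hasDerivAt ⟨by linarith [hs'.1], by linarith [hs'.2]⟩).hasDerivWithinAt
    · exact hasDerivWithinAt_const _ _ _
    · have hs1 : 0 < s := by linarith [hs'.1]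
      have h1 := hder s hs1 (le_of_eq he)
      have h2 := enstrophy_le_palin (fun i => h.sp hs1.le i)
      have h3 : 0 < ν * palin (u s) := mul_pos hν (by
        have : enstrophy (u s) = κ := he
        linarith)
      show -(2 * ν * palin (u s)) - 2 * cub (fun i y => u s y i) < 0
      linarith
  -- integrals
  have hpc : ∀ b, 0 ≤ b → ContinuousOn (fun s => palin (u s)) (Icc 0 b) := fun b hb =>
    (h.sol (b + 1) (by linarith)).palin_continuousOn.mono fun s hs => ⟨hs.1, by linarith [hs.2]⟩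
  have hint : ∀ t, t0 ≤ t → ∫ s in t0..t, palin (u s) ≤ κ / ν := by
    intro t ht
    have hs := h.sol (t + 1) (by linarith)
    have hc : ContinuousOn (fun s => enstrophy (u s)) (Icc t0 t) :=
      hs.enstrophy_continuousOn.mono fun s hs => ⟨by linarith [hs.1], by linarith [hs.2]⟩
    have hpc' : ContinuousOn (fun s => -(ν * palin (u s))) (Icc t0 t) :=
      (((hpc t (by linarith)).mono (Icc_subset_Icc_left ht0.le)).const_smul ν).neg
    have h1 := intervalIntegral.sub_le_integral_of_hasDeriv_right_of_le ht hc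
      (fun s hs' => (hs.enstrophy_hasDerivAt ⟨by linarith [hs'.1], by linarith [hs'.2]⟩).hasDerivWithinAt)
      hpc'.integrableOn_Icc (fun s hs' => hder s (by linarith [hs'.1]) (hsm s hs'.1.le))
    rw [intervalIntegral.integral_neg, intervalIntegral.integral_const_mul] at h1
    have h2 := enstrophy_nonneg (u t)
    rw [le_div_iff₀ hν]
    linarith
  refine ⟨(∫ s in (0 : ℝ)..t0, palin (u s)) + κ / ν, fun t ht => ?_⟩
  have hii : ∀ a b, 0 ≤ a → 0 ≤ b → IntervalIntegrable (fun s => palin (u s)) volume a b := by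
    intro a b ha hb
    refine ContinuousOn.intervalIntegrable ((hpc (max a b) (le_max_of_le_left ha)).mono ?_)
    rw [uIcc]
    exact Icc_subset_Icc (le_min ha hb) le_rfl
  rcases le_total t t0 with h1 | h1
  · have h2 : ∫ s in (0 : ℝ)..t, palin (u s) ≤ ∫ s in (0 : ℝ)..t0, palin (u s) := by
      rw [← intervalIntegral.integral_add_adjacent_intervals (hii 0 t le_rfl ht) (hii t t0 ht ht0.le)]
      have : 0 ≤ ∫ s in t..t0, palin (u s) := intervalIntegral.integral_nonneg h1 fun s _ => palin_nonneg _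
      linarith
    have : 0 ≤ κ / ν := by positivity
    linarith
  · rw [← intervalIntegral.integral_add_adjacent_intervals (hii 0 t0 le_rfl ht0.le) (hii t0 t ht0.le ht)]
    have := hint t h1
    linarith

end Pool.Agent.U162.TS.Ph
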