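import Pool.Agent.U162.TS.Flow2
import Pool.Agent.H356R3.NS.Defs

/-!
Global smooth solutions give flows on the Fourier side.
-/

open MeasureTheory Set Filter Topology
open scoped ContDiff ENNReal

namespace Pool.Agent.U162.TS.Ph

open H459R3.NS Pool.Agent.Q63.Win

variable {ν : ℝ} {u : ℝ → V → V} {p : ℝ → V → ℝ}

/-- the Fourier coefficients of a solution -/
noncomputable def XF (u : ℝ → V → V) : Pool.Agent.H356R3.NS.Fam := fun k t i => cof (u (max t 0)) k i

theorem at'_XF (u : ℝ → V → V) (t : ℝ) : Pool.Agent.H356R3.NS.at' (XF u) t = cof (u (max t 0)) := rfl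

theorem cont_max {E : Type*} [TopologicalSpace E] {f : ℝ → E} (h : ∀ T, 0 < T → ContinuousOn f (Ico 0 T)) :
    Continuous fun t => f (max t 0) := by
  have h1 : ContinuousOn f (Ici 0) := by
    intro t ht
    have h2 := h (t + 1) (by linarith [mem_Ici.1 ht]) t ⟨ht, by linarith⟩
    refine h2.mono_of_mem_nhdsWithin ?_
    rw [mem_nhdsWithin]
    exact ⟨Iio (t + 1), isOpen_Iio, by simp, fun s hs => ⟨hs.2, hs.1⟩⟩
  exact h1.comp_continuous (by fun_prop) fun t => le_max_right t 0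

theorem Glob.cont_cof (h : Glob ν u p) (k : K3) (i : Fin 3) : Continuous fun t => cof (u (max t 0)) k i :=
  cont_max (f := fun s => cof (u s) k i) fun T hT =>
    cont_fr (F := fun s y => u s y i) ((h.sol T hT).smooth_c i) k

theorem Glob.cont_pq (h : Glob ν u p) (k : K3) (i j : Fin 3) : Continuous fun t => pq (u (max t 0)) k i j :=
  cont_max (f := fun s => pq (u s) k i j) fun T hT =>
    cont_fr (F := fun s y => u s y i * u s y j) (((h.sol T hT).smooth_c i).mul ((h.sol T hT).smooth_c j)) k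

theorem msym_eq (ν : ℝ) (k : K3) : msym ν k = 4 * Real.pi ^ 2 * ν * Pool.Agent.H356R3.NS.sq k := rfl

theorem norm_XF_le (h : Glob ν u p) (k : K3) {t : ℝ} (ht : 0 ≤ t) :
    ‖XF u k t‖ ≤ Real.sqrt (energy (u t)) := by
  rw [pi_norm_le_iff_of_nonneg (Real.sqrt_nonneg _)]
  intro i
  unfold XF
  rw [max_eq_left ht]
  exact (fr_le_nrm (h.sp ht i) k).trans (nrm_le_energy i)

theorem summ_XF (h : Glob ν u p) (t : ℝ) : Summable fun k => ‖XF u k t‖ := by
  have ht : 0 ≤ max t 0 := le_max_right _ _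
  have h1 : Summable fun k => ∑ i, ‖cof (u (max t 0)) k i‖ :=
    summable_sum fun i _ => (rap_fr (h.sp ht i)).summable.norm
  refine h1.of_nonneg_of_le (fun _ => norm_nonneg _) fun k => ?_
  rw [pi_norm_le_iff_of_nonneg (Finset.sum_nonneg fun _ _ => norm_nonneg _)]
  intro i
  exact Finset.single_le_sum (f := fun i => ‖cof (u (max t 0)) k i‖) (fun _ _ => norm_nonneg _)
    (Finset.mem_univ i)

theorem tsum_XF_le (h : Glob ν u p) {t : ℝ} (ht : 0 ≤ t) :
    ∑' k, ‖XF u k t‖ ≤ 3 * κ0 * Real.sqrt (palin (u t)) := by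
  have h1 : ∀ i, Summable fun k => ‖cof (u t) k i‖ := fun i => (rap_fr (h.sp ht i)).summable.norm
  have h2 : ∑' k, ‖XF u k t‖ ≤ ∑' k, ∑ i, ‖cof (u t) k i‖ := by
    refine (summ_XF h t).tsum_le_tsum (fun k => ?_) (summable_sum fun i _ => h1 i)
    rw [pi_norm_le_iff_of_nonneg (Finset.sum_nonneg fun _ _ => norm_nonneg _)]
    intro i
    unfold XF
    rw [max_eq_left ht]
    exact Finset.single_le_sum (f := fun i => ‖cof (u t) k i‖) (fun _ _ => norm_nonneg _)
      (Finset.mem_univ i)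
  refine h2.trans ?_
  rw [Summable.tsum_finsetSum fun i _ => h1 i]
  have hEP : energy (u t) ≤ palin (u t) :=
    (energy_le_enstrophy (fun i => h.sp ht i) fun i => h.mean ht i).trans
      (enstrophy_le_palin fun i => h.sp ht i)
  have h3 : ∀ i, ∑' k, ‖cof (u t) k i‖ ≤ κ0 * Real.sqrt (palin (u t)) := by
    intro i
    refine (l1_le (h.sp ht i)).trans ?_
    have a1 := nrm_le_energy (v := u t) i
    have a2 := nrm_lap_le (v := u t) i
    have a3 : Real.sqrt (energy (u t)) ≤ Real.sqrt (palin (u t)) := Real.sqrt_le_sqrt hEP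
    have a4 := mul_le_mul_of_nonneg_left a2 (Real.sqrt_nonneg C4)
    unfold κ0
    linarith
  calc ∑ i, ∑' k, ‖cof (u t) k i‖ ≤ ∑ _i : Fin 3, κ0 * Real.sqrt (palin (u t)) :=
        Finset.sum_le_sum fun i _ => h3 i
    _ = _ := by simp; ring

theorem Glob.palin_int (h : Glob ν u p) (hν : 0 < ν) : IntegrableOn (fun t => palin (u t)) (Ioi 0) := by
  obtain ⟨K, hK⟩ := h.int_palin hν
  have hpc : ∀ b, 0 ≤ b → ContinuousOn (fun s => palin (u s)) (Icc 0 b) := fun b hb =>
    (h.sol (b + 1) (by linarith)).palin_continuousOn.mono fun s hs => ⟨hs.1, by linarith [hs.2]⟩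
  refine integrableOn_Ioi_of_intervalIntegral_norm_bounded (b := fun n : ℕ => (n : ℝ)) (l := atTop) K 0
    (fun n => ((hpc n (Nat.cast_nonneg n)).integrableOn_Icc).mono_set Ioc_subset_Icc_self)
    tendsto_natCast_atTop_atTop (Filter.Eventually.of_forall fun n => ?_)
  have : ∀ s, ‖palin (u s)‖ = palin (u s) := fun s => Real.norm_of_nonneg (palin_nonneg _)
  simp only [this]
  exact hK n (Nat.cast_nonneg n)

theorem lint_XF (h : Glob ν u p) (hν : 0 < ν) :
    ∫⁻ t in Ioi (0 : ℝ), (∑' k, ‖XF u k t‖ₑ) ^ (2 : ℝ) ≠ ⊤ := by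
  have h1 : ∫⁻ t in Ioi (0 : ℝ), (∑' k, ‖XF u k t‖ₑ) ^ (2 : ℝ)
      ≤ ∫⁻ t in Ioi (0 : ℝ), ENNReal.ofReal (9 * κ0 ^ 2) * ENNReal.ofReal (palin (u t)) := by
    refine setLIntegral_mono' measurableSet_Ioi fun t ht => ?_
    have ht' : 0 ≤ t := le_of_lt ht
    have e : ∑' k, ‖XF u k t‖ₑ = ENNReal.ofReal (∑' k, ‖XF u k t‖) := by
      rw [ENNReal.ofReal_tsum_of_nonneg (fun _ => norm_nonneg _) (summ_XF h t)]
      simp
    rw [e, ENNReal.rpow_two, ← ENNReal.ofReal_pow (tsum_nonneg fun _ => norm_nonneg _),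
      ← ENNReal.ofReal_mul (by positivity)]
    apply ENNReal.ofReal_le_ofReal
    have h2 := pow_le_pow_left₀ (tsum_nonneg fun _ => norm_nonneg _) (tsum_XF_le h ht') 2
    refine h2.trans (le_of_eq ?_)
    rw [mul_pow, Real.sq_sqrt (palin_nonneg _)]
    ring
  refine ne_top_of_le_ne_top ?_ h1
  rw [lintegral_const_mul' _ _ ENNReal.ofReal_ne_top]
  refine ENNReal.mul_ne_top ENNReal.ofReal_ne_top ?_
  have h3 := (h.palin_int hν).2
  unfold HasFiniteIntegral at h3
  refine ne_top_of_le_ne_top h3.ne (lintegral_mono fun t => ?_)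
  rw [← ofReal_norm, Real.norm_of_nonneg (palin_nonneg _)]

/-- a global smooth solution gives a flow on the Fourier side -/
theorem Glob.flowC (h : Glob ν u p) (hν : 0 < ν) : FlowC (4 * Real.pi ^ 2 * ν) (XF u) := by
  have hBt : ∀ k t i, Pool.Agent.H356R3.NS.Bt (XF u) k t i
      = ∑ j, ∑ m, Pool.Agent.H356R3.NS.coef k i j m * pq (u (max t 0)) k j m := by
    intro k t i
    unfold Pool.Agent.H356R3.NS.Bt
    rw [at'_XF]
    exact Bf_cof (fun i => h.sp (le_max_right t 0) i) k i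
  refine ⟨fun k => continuous_pi fun i => h.cont_cof k i, fun k => continuous_pi fun i => ?_, fun t => ?_,
    fun t k i => ?_, fun k t => ?_, ⟨Real.sqrt (energy (u 0)), fun k t => ?_⟩, fun t => summ_XF h t,
    fun k t ht => ?_, ?_⟩
  · simp only [hBt]
    refine continuous_finsetSum _ fun j _ => continuous_finsetSum _ fun m _ => ?_
    exact continuous_const.mul (h.cont_pq k j m)
  · funext i
    exact h.mean (le_max_right t 0) i
  · rw [at'_XF]
    exact fr_neg (h.sp (le_max_right t 0) i).cont k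
  · unfold XF; simp
  · have ht : 0 ≤ max t 0 := le_max_right _ _
    have e : XF u k t = XF u k (max t 0) := by unfold XF; simp
    rw [e]
    refine (norm_XF_le h k ht).trans (Real.sqrt_le_sqrt ?_)
    exact (h.sol (max t 0 + 1) (by linarith)).energy_le hν ⟨ht, by linarith⟩
  · rw [hasDerivAt_pi]
    intro i
    have hd := cof_deriv (h.sol (t + 1) (by linarith)) (t := t) ⟨ht, by linarith⟩ k i
    have e : (fun s => XF u k s i) =ᶠ[𝓝 t] fun s => cof (u s) k i := by
      filter_upwards [lt_mem_nhds ht] with s hs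
      simp only [XF, max_eq_left (le_of_lt hs)]
    refine (hd.congr_of_eventuallyEq e).congr_deriv ?_
    simp only [Pi.add_apply, Pi.smul_apply, hBt, XF, max_eq_left ht.le]
    rw [msym_eq, Complex.real_smul]
    push_cast
    ring
  · unfold Pool.Agent.H356R3.NS.LN
    apply ENNReal.rpow_ne_top_of_nonneg (by norm_num)
    have e : ∫⁻ t in Ioi (0 : ℝ), Pool.Agent.H356R3.NS.NW (Pool.Agent.H356R3.NS.Wa 0)
        (Pool.Agent.H356R3.NS.at' (XF u) t) ^ (2 : ℝ) = ∫⁻ t in Ioi (0 : ℝ), (∑' k, ‖XF u k t‖ₑ) ^ (2 : ℝ) := by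
      refine lintegral_congr fun t => ?_
      rw [NW_Wa0]; rfl
    rw [e]
    exact lint_XF h hν

theorem XF_decay (h : Glob ν u p) (hν : 0 < ν) (k : K3) {t : ℝ} (ht : 0 ≤ t) :
    ‖XF u k t‖ ≤ Real.sqrt (energy (u 0)) * Real.exp (-(ν * t)) := by
  refine (norm_XF_le h k ht).trans ?_
  have h1 := Real.sqrt_le_sqrt (h.energy_decay hν ht)
  refine h1.trans (le_of_eq ?_)
  rw [Real.sqrt_mul (energy_nonneg _)]
  congr 1
  rw [show -(2 * ν * t) = -(ν * t) + -(ν * t) by ring, Real.exp_add, Real.sqrt_mul_self (Real.exp_pos _).le]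

/-- admissible solutions are global smooth solutions -/
theorem glob_of_adm {g : V → V} (h : Pool.Agent.H356R3.NS.AdmissiblePeriodic ν g u p)
    (h0 : ∀ i, ∫ x in Icc (0 : V) 1, g x i = 0) : Glob ν u p := by
  refine ⟨fun T hT => ⟨h.smooth_u.mono (prod_mono Ico_subset_Ici_self le_rfl),
    h.smooth_p.mono (prod_mono Ico_subset_Ici_self le_rfl), fun t ht i x => h.periodic_u t ht.1 x i,
    fun t ht i x => h.periodic_p t ht.1 x i, fun t ht x => h.divFree t ht.1 x, fun t ht x i => ?_⟩,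
    fun i => ?_⟩
  · have h1 := h.momentum t ht.1.le x i
    rw [derivWithin_of_mem_nhds (Ici_mem_nhds ht.1)] at h1
    exact h1
  · unfold cof fr fc
    rw [h.initial]
    simp_rw [neg_zero, ee_zero, one_mul]
    rw [integral_complex_ofReal]
    have : ∫ x in cube, g x i = 0 := h0 i
    rw [this]; simp

end Pool.Agent.U162.TS.Ph
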