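import Pool.Agent.U162.TS.Lft
import Pool.Agent.H356R3.NS.Step3

/-!
Time scaling and the gluing of approximate solutions.
-/

open MeasureTheory Set Filter Topology
open scoped ENNReal NNReal

namespace Pool.Agent.U162.TS

open Pool.Agent.H356R3.NS

lemma lint_scale {a : ℝ} (ha : 0 < a) {F : ℝ → ℝ≥0∞} (hF : Measurable F) :
    ∫⁻ t in Ioi 0, F (a * t) = ENNReal.ofReal a⁻¹ * ∫⁻ s in Ioi 0, F s := by
  have h1 := Real.map_volume_mul_left ha.ne'
  have h2 : ∫⁻ s, (Ioi (0 : ℝ)).indicator F s ∂(Measure.map (a * ·) volume)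
      = ∫⁻ t, (Ioi (0 : ℝ)).indicator F (a * t) :=
    lintegral_map (hF.indicator measurableSet_Ioi) (measurable_const_mul a)
  rw [h1, lintegral_smul_measure, lintegral_indicator measurableSet_Ioi, abs_of_pos (inv_pos.2 ha)] at h2
  rw [smul_eq_mul] at h2
  rw [h2, ← lintegral_indicator measurableSet_Ioi]
  refine lintegral_congr fun t => ?_
  by_cases ht : 0 < t
  · rw [indicator_of_mem (show t ∈ Ioi (0 : ℝ) from ht),
      indicator_of_mem (show a * t ∈ Ioi (0 : ℝ) from mul_pos ha ht)]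
  · rw [indicator_of_notMem (show t ∉ Ioi (0 : ℝ) from ht),
      indicator_of_notMem (show a * t ∉ Ioi (0 : ℝ) from fun h => ht ((mul_pos_iff_of_pos_left ha).1 h))]

/-- the critical scaling of the `L²` norm in time -/
lemma LN_scale {N : ℝ} (hN : 0 < N) {F : ℝ → ℝ≥0∞} (hF : Measurable F) :
    LN (fun t => ENNReal.ofReal N * F (N ^ 2 * t)) = LN F := by
  have hm : Measurable fun t => F (N ^ 2 * t) := hF.comp (measurable_const_mul _)
  rw [LN_const_mul _ hm]
  unfold LN
  rw [lint_scale (F := fun s => F s ^ (2 : ℝ)) (by positivity) (hF.pow_const _)]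
  rw [ENNReal.mul_rpow_of_nonneg _ _ (by norm_num), ← mul_assoc]
  have : ENNReal.ofReal N * ENNReal.ofReal (N ^ 2)⁻¹ ^ (1 / 2 : ℝ) = 1 := by
    rw [ENNReal.ofReal_rpow_of_nonneg (by positivity) (by norm_num), ← Real.sqrt_eq_rpow,
      Real.sqrt_inv, Real.sqrt_sq hN.le, ← ENNReal.ofReal_mul hN.le, mul_inv_cancel₀ hN.ne']
    simp
  rw [this, one_mul]

lemma LN_sum_le {ι : Type*} (S : Finset ι) {φ : ι → ℝ → ℝ≥0∞} (h : ∀ i ∈ S, Measurable (φ i)) :
    LN (fun t => ∑ i ∈ S, φ i t) ≤ ∑ i ∈ S, LN (φ i) := by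
  classical
  induction S using Finset.induction_on with
  | empty => simp [LN]
  | insert a S ha ih =>
    simp only [Finset.sum_insert ha]
    have h' : ∀ i ∈ S, Measurable (φ i) := fun i hi => h i (Finset.mem_insert_of_mem hi)
    exact (LN_add_le (h a (Finset.mem_insert_self _ _)) (Finset.measurable_sum S h')).trans
      (add_le_add le_rfl (ih h'))

/-- gluing -/
lemma glue {u z r f g : Fam} (hu : CF u) (hz : CF z) (hr : CF r) (hf : CF f) (hg : CF g)
    (du : Dom u) (dz : Dom z) (dr : Dom r) {D1 D2 D3 B E ε1 ε2 : ℝ≥0∞}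
    (h1 : LN (fun t => NW (Wa 0) (at' u t)) ≤ D1) (h2 : LN (fun t => NW (Wa 0) (at' z t)) ≤ D2)
    (h3 : LN (fun t => NW (Wa 0) (at' r t)) ≤ D3) (hB : ∀ t, NW (Wa 0) (at' u t) ≤ B)
    (hE : ∫⁻ t in Ioi 0, NW (Wa 0) (at' z t) ≤ E)
    (e1 : ∫⁻ t in Ioi 0, NW (Wm 0) (at' (Bt u - f) t) ≤ ε1)
    (e2 : ∫⁻ t in Ioi 0, NW (Wm 0) (at' (Bt z - g) t) ≤ ε2) :
    ∫⁻ t in Ioi 0, NW (Wm 0) (at' (Bt (u + (z + r)) - (f + g)) t)
      ≤ ε1 + ε2 + ENNReal.ofReal C0 * (2 * (B * E)) + ENNReal.ofReal C0 * (D3 * (2 * D1 + 2 * D2 + D3)) := by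
  set au := fun t => NW (Wa 0) (at' u t) with hau
  set az := fun t => NW (Wa 0) (at' z t) with haz
  set ar := fun t => NW (Wa 0) (at' r t) with har
  have mu : Measurable au := NW_meas _ hu
  have mz : Measurable az := NW_meas _ hz
  have mr : Measurable ar := NW_meas _ hr
  have hBu : CF (Bt u - f) := fun k => (Bt_cont hu du k).sub (hf k)
  have hBz : CF (Bt z - g) := fun k => (Bt_cont hz dz k).sub (hg k)
  have m1 : Measurable fun t => NW (Wm 0) (at' (Bt u - f) t) := NW_meas _ hBu
  have m2 : Measurable fun t => NW (Wm 0) (at' (Bt z - g) t) := NW_meas _ hBz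
  have hpt : ∀ t, NW (Wm 0) (at' (Bt (u + (z + r)) - (f + g)) t) ≤
      NW (Wm 0) (at' (Bt u - f) t) + NW (Wm 0) (at' (Bt z - g) t)
        + ENNReal.ofReal C0 * (2 * (au t * az t)) + ENNReal.ofReal C0 * (ar t * (2 * au t + 2 * az t + ar t)) := by
    intro t
    have su := du.sn t
    have sz := dz.sn t
    have sr := dr.sn t
    have e : at' (Bt (u + (z + r)) - (f + g)) t = (at' (Bt u - f) t + at' (Bt z - g) t)
        + (Bf (at' u t) (at' z t) + Bf (at' z t) (at' u t))
        + (Bf (at' r t) (at' u t + (at' z t + at' r t)) + Bf (at' u t + at' z t) (at' r t)) := by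
      have e1 : at' (Bt (u + (z + r)) - (f + g)) t = Bf (at' u t + (at' z t + at' r t))
          (at' u t + (at' z t + at' r t)) - (at' f t + at' g t) := rfl
      have e2 : at' (Bt u - f) t = Bf (at' u t) (at' u t) - at' f t := rfl
      have e3 : at' (Bt z - g) t = Bf (at' z t) (at' z t) - at' g t := rfl
      rw [e1, e2, e3]
      have szr := sz.add sr
      have suz := su.add sz
      have s3 := su.add szr
      rw [Bf_add_left su szr s3, Bf_add_left sz sr s3, Bf_add_right su su szr, Bf_add_right sz su szr,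
        Bf_add_right su sz sr, Bf_add_right sz sz sr, Bf_add_left su sz sr]
      abel
    rw [e]
    calc _ ≤ (NW (Wm 0) (at' (Bt u - f) t) + NW (Wm 0) (at' (Bt z - g) t))
        + (NW (Wm 0) (Bf (at' u t) (at' z t)) + NW (Wm 0) (Bf (at' z t) (at' u t)))
        + (NW (Wm 0) (Bf (at' r t) (at' u t + (at' z t + at' r t)))
          + NW (Wm 0) (Bf (at' u t + at' z t) (at' r t))) := by
          refine (NW_add_le _ _ _).trans (add_le_add ((NW_add_le _ _ _).trans
            (add_le_add (NW_add_le _ _ _) (NW_add_le _ _ _))) (NW_add_le _ _ _))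
      _ ≤ (NW (Wm 0) (at' (Bt u - f) t) + NW (Wm 0) (at' (Bt z - g) t))
        + (ENNReal.ofReal C0 * (au t * az t) + ENNReal.ofReal C0 * (az t * au t))
        + (ENNReal.ofReal C0 * (ar t * (au t + (az t + ar t)))
          + ENNReal.ofReal C0 * ((au t + az t) * ar t)) := by
          refine add_le_add (add_le_add le_rfl (add_le_add (NW_Bf_le le_rfl _ _) (NW_Bf_le le_rfl _ _)))
            (add_le_add ?_ ?_)
          · refine (NW_Bf_le le_rfl _ _).trans (mul_le_mul' le_rfl (mul_le_mul' le_rfl ?_))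
            exact (NW_add_le _ _ _).trans (add_le_add le_rfl (NW_add_le _ _ _))
          · refine (NW_Bf_le le_rfl _ _).trans (mul_le_mul' le_rfl (mul_le_mul' ?_ le_rfl))
            exact NW_add_le _ _ _
      _ = _ := by ring
  refine (lintegral_mono hpt).trans ?_
  have m3 : Measurable fun t => ENNReal.ofReal C0 * (ar t * (2 * au t + 2 * az t + ar t)) :=
    (mr.mul (((mu.const_mul _).add (mz.const_mul _)).add mr)).const_mul _
  have m4 : Measurable fun t => ENNReal.ofReal C0 * (2 * (au t * az t)) := ((mu.mul mz).const_mul _).const_mul _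
  rw [lintegral_add_right _ m3, lintegral_add_right _ m4, lintegral_add_right _ m2]
  refine add_le_add (add_le_add (add_le_add e1 e2) ?_) ?_
  · have m5 : Measurable fun t => au t * az t := mu.mul mz
    have m6 : Measurable fun t => 2 * (au t * az t) := m5.const_mul _
    rw [lintegral_const_mul _ m6, lintegral_const_mul _ m5]
    refine mul_le_mul' le_rfl (mul_le_mul' le_rfl ?_)
    calc ∫⁻ t in Ioi 0, au t * az t ≤ ∫⁻ t in Ioi 0, B * az t :=
          lintegral_mono fun t => mul_le_mul' (hB t) le_rfl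
      _ = B * ∫⁻ t in Ioi 0, az t := lintegral_const_mul _ mz
      _ ≤ B * E := mul_le_mul' le_rfl hE
  · have m7 : Measurable fun t => 2 * au t + 2 * az t + ar t := ((mu.const_mul _).add (mz.const_mul _)).add mr
    have m8 : Measurable fun t => ar t * (2 * au t + 2 * az t + ar t) := mr.mul m7
    rw [lintegral_const_mul _ m8]
    refine mul_le_mul' le_rfl ((LN_cs mr m7).trans (mul_le_mul' h3 ?_))
    refine (LN_add_le ((mu.const_mul _).add (mz.const_mul _)) mr).trans (add_le_add ?_ h3)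
    refine (LN_add_le (mu.const_mul _) (mz.const_mul _)).trans (add_le_add ?_ ?_)
    · rw [LN_const_mul _ mu]; exact mul_le_mul' le_rfl h1
    · rw [LN_const_mul _ mz]; exact mul_le_mul' le_rfl h2

end Pool.Agent.U162.TS
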