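import Pool.Agent.U162.TS.Symb

/-!
Sums of modes indexed by pairs of frequencies.
-/

open MeasureTheory Set Filter Topology
open scoped ENNReal NNReal

namespace Pool.Agent.U162.TS

open Pool.Agent.H356R3.NS

/-- the sum of modes -/
noncomputable def lf (N : ℕ) (S : Finset (K × K)) (x : K × K → C3) : K → C3 :=
  ∑ P ∈ S, Sg (kp N P) (x P)

lemma SN_sum {ι : Type*} (S : Finset ι) {x : ι → K → C3} (h : ∀ i ∈ S, SN (x i)) : SN (∑ i ∈ S, x i) := by
  classical
  induction S using Finset.induction_on with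
  | empty => simp [SN, summable_zero]
  | insert a S ha ih =>
    rw [Finset.sum_insert ha]
    exact (h a (Finset.mem_insert_self _ _)).add (ih fun i hi => h i (Finset.mem_insert_of_mem hi))

lemma lf_SN (N : ℕ) (S : Finset (K × K)) (x : K × K → C3) : SN (lf N S x) :=
  SN_sum S fun _ _ => SN_Sg _ _

lemma Bf_zero_left (y : K → C3) : Bf 0 y = 0 := by
  funext k i; simp [Bf, cv]

lemma Bf_zero_right (y : K → C3) : Bf y 0 = 0 := by
  funext k i; simp [Bf, cv]

lemma Bf_sum_left {ι : Type*} (S : Finset ι) {x : ι → K → C3} {y : K → C3} (h : ∀ i ∈ S, SN (x i))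
    (hy : SN y) : Bf (∑ i ∈ S, x i) y = ∑ i ∈ S, Bf (x i) y := by
  classical
  induction S using Finset.induction_on with
  | empty => simp [Bf_zero_left]
  | insert a S ha ih =>
    have h' : ∀ i ∈ S, SN (x i) := fun i hi => h i (Finset.mem_insert_of_mem hi)
    rw [Finset.sum_insert ha, Finset.sum_insert ha,
      Bf_add_left (h a (Finset.mem_insert_self _ _)) (SN_sum S h') hy, ih h']

lemma Bf_sum_right {ι : Type*} (S : Finset ι) {x : ι → K → C3} {y : K → C3} (h : ∀ i ∈ S, SN (x i))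
    (hy : SN y) : Bf y (∑ i ∈ S, x i) = ∑ i ∈ S, Bf y (x i) := by
  classical
  induction S using Finset.induction_on with
  | empty => simp [Bf_zero_right]
  | insert a S ha ih =>
    have h' : ∀ i ∈ S, SN (x i) := fun i hi => h i (Finset.mem_insert_of_mem hi)
    rw [Finset.sum_insert ha, Finset.sum_insert ha,
      Bf_add_right hy (h a (Finset.mem_insert_self _ _)) (SN_sum S h'), ih h']

lemma Sg_sum {ι : Type*} (S : Finset ι) (κ : K) (v : ι → C3) : Sg κ (∑ i ∈ S, v i) = ∑ i ∈ S, Sg κ (v i) := by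
  classical
  induction S using Finset.induction_on with
  | empty => simp [Sg_zero]
  | insert a S ha ih => rw [Finset.sum_insert ha, Finset.sum_insert ha, Sg_add, ih]

lemma Sg_sub (κ : K) (v v' : C3) : Sg κ (v - v') = Sg κ v - Sg κ v' := by
  funext k; simp only [Sg, Pi.sub_apply]; split_ifs <;> simp

lemma Sg_smul (κ : K) (a : ℝ) (v : C3) : Sg κ (a • v) = a • Sg κ v := by
  funext k; simp only [Sg, Pi.smul_apply]; split_ifs <;> simp

lemma NW_sum_le {ι : Type*} (W : K → ℝ≥0∞) (S : Finset ι) (x : ι → K → C3) :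
    NW W (∑ i ∈ S, x i) ≤ ∑ i ∈ S, NW W (x i) := by
  classical
  induction S using Finset.induction_on with
  | empty => simp [NW_zero]
  | insert a S ha ih =>
    rw [Finset.sum_insert ha, Finset.sum_insert ha]
    exact (NW_add_le _ _ _).trans (add_le_add le_rfl ih)

lemma NW_lf_le (W : K → ℝ≥0∞) (N : ℕ) (S : Finset (K × K)) (x : K × K → C3) :
    NW W (lf N S x) ≤ ∑ P ∈ S, W (kp N P) * ‖x P‖ₑ := by
  refine (NW_sum_le W S _).trans (Finset.sum_le_sum fun P _ => ?_)
  rw [NW_Sg]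

/-- regrouping of the pairs -/
lemma regroup {M : Type*} [AddCommMonoid M] {S T : Finset (K × K)} (hT : ∀ P ∈ S, ∀ Q ∈ S, P + Q ∈ T)
    {P : K × K} (hP : P ∈ S) (H : K × K → K × K → M) (hH : ∀ R Q, Q ∉ S → H R Q = 0) :
    ∑ Q ∈ S, H (P + Q) Q = ∑ R ∈ T, H R (R - P) := by
  classical
  have h1 : ∑ Q ∈ S, H (P + Q) Q = ∑ R ∈ S.image (fun Q => P + Q), H R (R - P) := by
    rw [Finset.sum_image (fun a _ b _ h => add_left_cancel h)]
    refine Finset.sum_congr rfl fun Q _ => ?_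
    rw [add_sub_cancel_left]
  rw [h1]
  refine Finset.sum_subset ?_ ?_
  · intro R hR
    rw [Finset.mem_image] at hR
    obtain ⟨Q, hQ, rfl⟩ := hR
    exact hT P hP Q hQ
  · intro R _ hR
    apply hH
    intro hQ
    apply hR
    rw [Finset.mem_image]
    exact ⟨R - P, hQ, by abel⟩

/-- the self interaction of a sum of modes -/
lemma Bf_lf {N : ℕ} {S T : Finset (K × K)} (hT : ∀ P ∈ S, ∀ Q ∈ S, P + Q ∈ T) {x : K × K → C3}
    (hx : ∀ P ∉ S, x P = 0) :
    Bf (lf N S x) (lf N S x) = lf N T fun R => ∑ P ∈ S, bt (kp N R) (x P) (x (R - P)) := by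
  have h1 : Bf (lf N S x) (lf N S x) = ∑ P ∈ S, ∑ Q ∈ S, Sg (kp N (P + Q)) (bt (kp N (P + Q)) (x P) (x Q)) := by
    conv_lhs => rw [show Bf (lf N S x) (lf N S x) = Bf (∑ P ∈ S, Sg (kp N P) (x P)) (lf N S x) from rfl]
    rw [Bf_sum_left S (fun _ _ => SN_Sg _ _) (lf_SN _ _ _)]
    refine Finset.sum_congr rfl fun P _ => ?_
    unfold lf
    rw [Bf_sum_right S (fun _ _ => SN_Sg _ _) (SN_Sg _ _)]
    refine Finset.sum_congr rfl fun Q _ => ?_
    rw [Bf_Sg, kp_add]
  rw [h1]
  have h2 : ∀ P ∈ S, ∑ Q ∈ S, Sg (kp N (P + Q)) (bt (kp N (P + Q)) (x P) (x Q))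
      = ∑ R ∈ T, Sg (kp N R) (bt (kp N R) (x P) (x (R - P))) := by
    intro P hP
    refine regroup hT hP (fun R Q => Sg (kp N R) (bt (kp N R) (x P) (x Q))) ?_
    intro R Q hQ
    simp only [hx Q hQ, bt_zero_r, Sg_zero]
  rw [Finset.sum_congr rfl h2, Finset.sum_comm]
  unfold lf
  refine Finset.sum_congr rfl fun R _ => ?_
  rw [Sg_sum]

/-- the symbol of the limiting interaction -/
noncomputable def qb (R : K × K) (v v' : C3) : C3 := if R.2 = 0 then bt R.1 v v' else bt R.2 v v'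

/-- the bilinear term of the cell problem -/
noncomputable def Cb (S : Finset (K × K)) (x : K × K → C3) (R : K × K) : C3 :=
  ∑ P ∈ S, qb R (x P) (x (R - P))

/-- total size of the interactions -/
noncomputable def tot (S : Finset (K × K)) (x : K × K → C3) : ℝ := ∑ P ∈ S, ‖x P‖

lemma tot_nonneg (S : Finset (K × K)) (x : K × K → C3) : 0 ≤ tot S x :=
  Finset.sum_nonneg fun _ _ => norm_nonneg _

lemma norm_qb_le (R : K × K) (v v' : C3) : ‖qb R v v'‖ ≤ C0 * (nk R.1 + nk R.2) * (‖v‖ * ‖v'‖) := by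
  have hC := C0_pos
  have h1 := nk_nonneg R.1
  have h2 := nk_nonneg R.2
  unfold qb
  split_ifs
  · refine (norm_bt_le _ _ _).trans ?_
    gcongr; linarith
  · refine (norm_bt_le _ _ _).trans ?_
    gcongr; linarith

lemma le_tot {S : Finset (K × K)} {x : K × K → C3} (hx : ∀ P ∉ S, x P = 0) (P : K × K) : ‖x P‖ ≤ tot S x := by
  by_cases h : P ∈ S
  · exact Finset.single_le_sum (f := fun P => ‖x P‖) (fun _ _ => norm_nonneg _) h
  · rw [hx P h]; simpa using tot_nonneg S x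

lemma norm_Cb_le {S : Finset (K × K)} {x : K × K → C3} (hx : ∀ P ∉ S, x P = 0) (R : K × K) :
    ‖Cb S x R‖ ≤ C0 * (nk R.1 + nk R.2) * tot S x ^ 2 := by
  have hC := C0_pos
  have h1 := nk_nonneg R.1
  have h2 := nk_nonneg R.2
  calc ‖Cb S x R‖ ≤ ∑ P ∈ S, ‖qb R (x P) (x (R - P))‖ := norm_sum_le _ _
    _ ≤ ∑ P ∈ S, C0 * (nk R.1 + nk R.2) * (‖x P‖ * tot S x) := by
        refine Finset.sum_le_sum fun P _ => (norm_qb_le _ _ _).trans ?_
        have := le_tot hx (R - P)
        gcongr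
    _ = _ := by
        rw [← Finset.mul_sum, ← Finset.sum_mul]
        unfold tot; ring

/-- the main estimate: the interactions of the waves are given by the cell problem -/
lemma main_est {N : ℕ} (hN1 : 1 ≤ N) {S T : Finset (K × K)} (hT : ∀ P ∈ S, ∀ Q ∈ S, P + Q ∈ T)
    {Lm : ℝ} (hL : ∀ R ∈ T, nk R.1 ≤ Lm) (hN : 2 * Lm ≤ N)
    {x g : K × K → C3} (hx : ∀ P ∉ S, x P = 0) :
    NW (Wm 0) (Bf (lf N S fun P => (N : ℝ) • x P) (lf N S fun P => (N : ℝ) • x P)
      - lf N T fun R => if R.2 = 0 then (N : ℝ) ^ 2 • Cb S x R else (N : ℝ) ^ 3 • g R)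
      ≤ ENNReal.ofReal (14 * C0 * Lm * T.card * (N * tot S x ^ 2)
        + 2 * (N ^ 2 * ∑ R ∈ T, 1 / nk R.2 * ‖Cb S x R - g R‖)) := by
  classical
  have hC := C0_pos
  have hNr : (1 : ℝ) ≤ N := by exact_mod_cast hN1
  have hx' : ∀ P ∉ S, (fun P => (N : ℝ) • x P) P = 0 := fun P hP => by simp [hx P hP]
  rw [Bf_lf hT hx']
  have e : (lf N T fun R => ∑ P ∈ S, bt (kp N R) ((N : ℝ) • x P) ((N : ℝ) • x (R - P)))
      - (lf N T fun R => if R.2 = 0 then (N : ℝ) ^ 2 • Cb S x R else (N : ℝ) ^ 3 • g R)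
      = lf N T fun R => (∑ P ∈ S, bt (kp N R) ((N : ℝ) • x P) ((N : ℝ) • x (R - P)))
        - (if R.2 = 0 then (N : ℝ) ^ 2 • Cb S x R else (N : ℝ) ^ 3 • g R) := by
    unfold lf
    rw [← Finset.sum_sub_distrib]
    exact Finset.sum_congr rfl fun R _ => (Sg_sub _ _ _).symm
  rw [e]
  refine (NW_lf_le _ _ _ _).trans ?_
  have hterm : ∀ R ∈ T, Wm 0 (kp N R) * ‖(∑ P ∈ S, bt (kp N R) ((N : ℝ) • x P) ((N : ℝ) • x (R - P)))
        - (if R.2 = 0 then (N : ℝ) ^ 2 • Cb S x R else (N : ℝ) ^ 3 • g R)‖ₑ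
      ≤ ENNReal.ofReal (14 * C0 * Lm * (N * tot S x ^ 2) + 2 * (N ^ 2 * (1 / nk R.2 * ‖Cb S x R - g R‖))) := by
    intro R hR
    have hLR := hL R hR
    have hL0 : 0 ≤ Lm := (nk_nonneg _).trans hLR
    have h2 := nk_nonneg R.2
    by_cases h : R.2 = 0
    · rw [if_pos h, kp_low N h]
      have : (∑ P ∈ S, bt R.1 ((N : ℝ) • x P) ((N : ℝ) • x (R - P))) - (N : ℝ) ^ 2 • Cb S x R = 0 := by
        unfold Cb qb
        simp only [h, if_true, bt_smul]
        rw [← Finset.smul_sum, pow_two, sub_self]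
      rw [this]
      simp
    · rw [if_neg h]
      have hkp := kp_ge h ((mul_le_mul_of_nonneg_left hLR (by norm_num)).trans hN)
      have n2 := one_le_nk h
      have hpos : 0 < (N : ℝ) / 2 * nk R.2 := by positivity
      have e1 : (∑ P ∈ S, bt (kp N R) ((N : ℝ) • x P) ((N : ℝ) • x (R - P))) - (N : ℝ) ^ 3 • g R
          = (N : ℝ) ^ 2 • (∑ P ∈ S, (bt (kp N R) (x P) (x (R - P)) - (N : ℝ) • bt R.2 (x P) (x (R - P))))
            + (N : ℝ) ^ 3 • (Cb S x R - g R) := by
        unfold Cb qb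
        simp only [h, if_false, bt_smul]
        rw [Finset.sum_sub_distrib, ← Finset.smul_sum, ← Finset.smul_sum, smul_sub, smul_sub, smul_smul]
        rw [show (N : ℝ) ^ 2 * N = (N : ℝ) ^ 3 by ring, ← pow_two]
        abel
      have b1 : ‖∑ P ∈ S, (bt (kp N R) (x P) (x (R - P)) - (N : ℝ) • bt R.2 (x P) (x (R - P)))‖
          ≤ 7 * C0 * Lm * tot S x ^ 2 := by
        calc _ ≤ ∑ P ∈ S, ‖bt (kp N R) (x P) (x (R - P)) - (N : ℝ) • bt R.2 (x P) (x (R - P))‖ :=
              norm_sum_le _ _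
          _ ≤ ∑ P ∈ S, 7 * C0 * Lm * (‖x P‖ * tot S x) := by
              refine Finset.sum_le_sum fun P _ => ?_
              refine (bt_kp h ((mul_le_mul_of_nonneg_left hLR (by norm_num)).trans hN) hN1 _ _).trans ?_
              have := le_tot hx (R - P)
              have := tot_nonneg S x
              gcongr
          _ = _ := by
              rw [← Finset.mul_sum, ← Finset.sum_mul]
              unfold tot; ring
      have b2 : ‖(∑ P ∈ S, bt (kp N R) ((N : ℝ) • x P) ((N : ℝ) • x (R - P))) - (N : ℝ) ^ 3 • g R‖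
          ≤ N ^ 2 * (7 * C0 * Lm * tot S x ^ 2) + N ^ 3 * ‖Cb S x R - g R‖ := by
        rw [e1]
        refine (norm_add_le _ _).trans ?_
        rw [norm_smul, norm_smul, Real.norm_of_nonneg (by positivity), Real.norm_of_nonneg (by positivity)]
        gcongr
      unfold Wm
      rw [← ofReal_norm, ← ENNReal.ofReal_mul (div_nonneg (om_pos _ _).le (nk_nonneg _))]
      apply ENNReal.ofReal_le_ofReal
      have ho : om 0 (kp N R) = 1 := by simp [om]
      rw [ho]
      have b3 : 1 / nk (kp N R) ≤ 2 / (N * nk R.2) := by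
        rw [show 2 / ((N : ℝ) * nk R.2) = 1 / (N / 2 * nk R.2) by field_simp]
        exact one_div_le_one_div_of_le hpos hkp
      have t0 := tot_nonneg S x
      calc 1 / nk (kp N R) * _ ≤ 2 / (N * nk R.2) *
            (N ^ 2 * (7 * C0 * Lm * tot S x ^ 2) + N ^ 3 * ‖Cb S x R - g R‖) := by
            apply mul_le_mul b3 b2 (norm_nonneg _) (by positivity)
        _ = 14 * C0 * Lm * (N * tot S x ^ 2) * (1 / nk R.2) + 2 * (N ^ 2 * (1 / nk R.2 * ‖Cb S x R - g R‖)) := by
            field_simp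
            ring
        _ ≤ _ := by
            have : 1 / nk R.2 ≤ 1 := by
              rw [div_le_one (by linarith)]; exact n2
            have h5 : 0 ≤ 14 * C0 * Lm * (N * tot S x ^ 2) := by positivity
            have := mul_le_mul_of_nonneg_left this h5
            linarith
  refine (Finset.sum_le_sum hterm).trans ?_
  by_cases hTe : T = ∅
  · subst hTe; simp
  obtain ⟨R0, hR0⟩ := Finset.nonempty_iff_ne_empty.2 hTe
  have hL0 : 0 ≤ Lm := (nk_nonneg _).trans (hL R0 hR0)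
  have t0 := tot_nonneg S x
  rw [← ENNReal.ofReal_sum_of_nonneg (fun R _ => by
    have := nk_nonneg R.2
    positivity)]
  apply ENNReal.ofReal_le_ofReal
  rw [Finset.sum_add_distrib, Finset.sum_const, nsmul_eq_mul, ← Finset.mul_sum, ← Finset.mul_sum]
  apply le_of_eq
  ring

end Pool.Agent.U162.TS
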