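import Pool.Agent.U162.TS.Apx

/-!
Families with finitely many modes which solve forced heat equations.
-/

open MeasureTheory Set Filter Topology
open scoped ENNReal NNReal

namespace Pool.Agent.U162.TS

open Pool.Agent.H356R3.NS

/-- a family with finitely many modes which solves the forced heat equation -/
structure Od (c : ℝ) (x g : Fam) : Prop where
  cx : CF x
  cg : CF g
  fx : FinS x
  fg : FinS g
  bd : ∃ B : ℝ, ∀ k t, ‖x k t‖ ≤ B
  mx : ∀ k t, x k t = x k (max t 0)
  ode : ∀ k t, 0 < t → HasDerivAt (x k) (-(c * H356R3.NS.sq k) • x k t + g k t) t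

lemma Od.add {c : ℝ} {x g y h : Fam} (hx : Od c x g) (hy : Od c y h) : Od c (x + y) (g + h) := by
  obtain ⟨B, hB⟩ := hx.bd
  obtain ⟨B', hB'⟩ := hy.bd
  refine ⟨fun k => (hx.cx k).add (hy.cx k), fun k => (hx.cg k).add (hy.cg k), hx.fx.add hy.fx,
    hx.fg.add hy.fg, ⟨B + B', fun k t => (norm_add_le _ _).trans (add_le_add (hB k t) (hB' k t))⟩,
    fun k t => ?_, fun k t ht => ?_⟩
  · show x k t + y k t = x k (max t 0) + y k (max t 0)
    rw [← hx.mx, ← hy.mx]
  · refine ((hx.ode k t ht).add (hy.ode k t ht)).congr_deriv ?_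
    simp only [Pi.add_apply, smul_add]
    abel

lemma Od.zero (c : ℝ) : Od c 0 0 :=
  ⟨fun _ => continuous_const, fun _ => continuous_const, ⟨∅, fun _ _ _ => rfl⟩, ⟨∅, fun _ _ _ => rfl⟩,
    ⟨0, fun _ _ => by simp⟩, fun _ _ => rfl, fun k t _ => by
      have : HasDerivAt (fun _ : ℝ => (0 : C3)) 0 t := hasDerivAt_const t 0
      refine this.congr_deriv ?_
      simp⟩

lemma Od.sum {ι : Type*} {c : ℝ} {x g : ι → Fam} (S : Finset ι) (h : ∀ i ∈ S, Od c (x i) (g i)) :
    Od c (∑ i ∈ S, x i) (∑ i ∈ S, g i) := by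
  classical
  induction S using Finset.induction_on with
  | empty => simpa using Od.zero c
  | insert a S ha ih =>
    rw [Finset.sum_insert ha, Finset.sum_insert ha]
    exact (h a (Finset.mem_insert_self _ _)).add (ih fun i hi => h i (Finset.mem_insert_of_mem hi))

/-- a single mode -/
noncomputable def Md (κ : K) (φ : ℝ → C3) : Fam := fun k t => Sg κ (φ (max t 0)) k

lemma at'_Md (κ : K) (φ : ℝ → C3) (t : ℝ) : at' (Md κ φ) t = Sg κ (φ (max t 0)) := rfl

lemma Md_cf {κ : K} {φ : ℝ → C3} (hφ : Continuous φ) : CF (Md κ φ) := by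
  intro k
  unfold Md Sg
  split_ifs
  · fun_prop
  · exact continuous_const

lemma Md_fin (κ : K) (φ : ℝ → C3) : FinS (Md κ φ) := by
  refine ⟨{κ}, fun k hk t => ?_⟩
  simp only [Finset.mem_singleton] at hk
  simp [Md, Sg, hk]

lemma Md_od {c : ℝ} {κ : K} {φ γ : ℝ → C3} (hφ : Continuous φ) (hγ : Continuous γ)
    (hb : ∃ B : ℝ, ∀ t, 0 ≤ t → ‖φ t‖ ≤ B)
    (ho : ∀ t, 0 < t → HasDerivAt φ (-(c * H356R3.NS.sq κ) • φ t + γ t) t) : Od c (Md κ φ) (Md κ γ) := by
  obtain ⟨B, hB⟩ := hb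
  have hB0 : 0 ≤ B := (norm_nonneg _).trans (hB 0 le_rfl)
  refine ⟨Md_cf hφ, Md_cf hγ, Md_fin _ _, Md_fin _ _, ⟨B, fun k t => ?_⟩, fun k t => ?_, fun k t ht => ?_⟩
  · unfold Md Sg
    split_ifs
    · exact hB _ (le_max_right _ _)
    · simpa using hB0
  · unfold Md; simp
  · by_cases hk : k = κ
    · subst hk
      have e : Md k φ k =ᶠ[𝓝 t] φ := by
        filter_upwards [lt_mem_nhds ht] with u hu
        simp [Md, Sg, max_eq_left hu.le]
      refine ((ho t ht).congr_of_eventuallyEq e).congr_deriv ?_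
      simp [Md, Sg, max_eq_left ht.le]
    · have e : Md κ φ k = fun _ => 0 := by
        funext u; simp [Md, Sg, hk]
      rw [e]
      refine (hasDerivAt_const t (0 : C3)).congr_deriv ?_
      simp [Md, Sg, hk]

lemma mild_of_ode {lam : ℝ} {x g : ℝ → C3} (hx : Continuous x) (hg : Continuous g)
    (h : ∀ t, 0 < t → HasDerivAt x (-lam • x t + g t) t) {t : ℝ} (ht : 0 ≤ t) :
    x t = Real.exp (-(lam * t)) • x 0 + Real.exp (-(lam * t)) • ∫ s in (0 : ℝ)..t, Real.exp (lam * s) • g s := by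
  have h1 : ∀ s ∈ Ioo 0 t, HasDerivAt (fun s => Real.exp (lam * s) • x s) (Real.exp (lam * s) • g s) s := by
    intro s hs
    have h2 : HasDerivAt (fun u => Real.exp (lam * u)) (Real.exp (lam * s) * lam) s := by
      have : HasDerivAt (fun u : ℝ => lam * u) lam s := by
        simpa using (hasDerivAt_id' s).const_mul lam
      exact this.exp
    refine (h2.fun_smul (h s hs.1)).congr_deriv ?_
    rw [smul_add, smul_smul, add_right_comm, ← add_smul]
    rw [show Real.exp (lam * s) * -lam + Real.exp (lam * s) * lam = 0 by ring, zero_smul, zero_add]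
  have h2 := intervalIntegral.integral_eq_sub_of_hasDerivAt_of_le ht
    (by fun_prop : Continuous fun s => Real.exp (lam * s) • x s).continuousOn h1
    ((by fun_prop : Continuous fun s => Real.exp (lam * s) • g s).intervalIntegrable _ _)
  rw [h2]
  simp only [mul_zero, Real.exp_zero, one_smul]
  rw [smul_sub, smul_smul, ← Real.exp_add]
  simp

lemma Od.eq {c : ℝ} {x g : Fam} (h : Od c x g) (k : K) (t : ℝ) :
    x k t = Real.exp (-(c * H356R3.NS.sq k * max t 0)) • x k 0 + Duh c g k t := by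
  rw [h.mx k t, Duh_eq]
  exact mild_of_ode (h.cx k) (h.cg k) (h.ode k) (le_max_right t 0)

lemma Od.apx {c : ℝ} {V : K → C3} {U G : Fam} (h : Od c U G) (zu : ∀ t, U 0 t = 0) (zg : ∀ t, G 0 t = 0)
    (su : SymF U) (sg : SymF G) (hV : ∀ k, U k 0 = V k) : Apx c V U G :=
  ⟨h.cx, h.cg, zu, zg, su, sg, h.fx, h.fg, h.bd, fun k t => by rw [← hV]; exact h.eq k t⟩

lemma Apx.od {c : ℝ} {V : K → C3} {U G : Fam} (h : Apx c V U G) : Od c U G := by
  have hm : ∀ k t, U k t = U k (max t 0) := by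
    intro k t
    rw [h.eq k t, h.eq k (max t 0), Duh_max]
    simp
  refine ⟨h.cf, h.cg, h.fu, h.fg, h.bd, hm, fun k t ht => ?_⟩
  have e : U k =ᶠ[𝓝 t] fun t => Real.exp (-(c * H356R3.NS.sq k * t)) • V k + Duh c G k t := by
    filter_upwards [lt_mem_nhds ht] with u hu
    rw [h.eq k u, max_eq_left hu.le]
  have h2 : HasDerivAt (fun u => Real.exp (-(c * H356R3.NS.sq k * u)))
      (Real.exp (-(c * H356R3.NS.sq k * t)) * -(c * H356R3.NS.sq k)) t := by
    have : HasDerivAt (fun u : ℝ => -(c * H356R3.NS.sq k * u)) (-(c * H356R3.NS.sq k)) t := by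
      simpa using ((hasDerivAt_id' t).const_mul (c * H356R3.NS.sq k)).fun_neg
    exact this.exp
  refine (((h2.smul_const (V k)).add (Duh_hasDeriv h.cg c k ht)).congr_of_eventuallyEq e).congr_deriv ?_
  rw [h.eq k t, max_eq_left ht.le, smul_add, smul_smul, mul_comm, add_assoc]

lemma Apx.ini {c : ℝ} {V : K → C3} {U G : Fam} (h : Apx c V U G) (k : K) : U k 0 = V k := by
  rw [h.eq k 0, Duh_at_zero]; simp

end Pool.Agent.U162.TS
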