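import Pool.Agent.U162.TS.Flow3
import Pool.Agent.U162.TS.Comb
import Pool.Agent.U162.TS.Defs
import Pool.Agent.H356R3.NS.Late

/-!
The two-scale theorem in physical variables.
-/

open MeasureTheory Set Filter Topology
open scoped ENNReal NNReal

namespace Pool.Agent.U162.TS

open Pool.Agent.H356R3.NS

lemma ch_eq (k : K) (x : R3) : ch k x = ex k x := rfl

lemma leray_eq (κ : K) (v : C3) : leray κ v = pr κ v := rfl

lemma dt_pr (κ : K) (v : C3) : dt κ (pr κ v) = 0 := by
  by_cases hκ : κ = 0
  · subst hκ; simp [dt]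
  have hs : ((H356R3.NS.sq κ : ℝ) : ℂ) ≠ 0 := by exact_mod_cast (H356R3.NS.sq_pos hκ).ne'
  have h1 : ∑ j, (κ j : ℂ) * (κ j : ℂ) = ((H356R3.NS.sq κ : ℝ) : ℂ) := by
    unfold H356R3.NS.sq
    push_cast
    exact Finset.sum_congr rfl fun i _ => by ring
  unfold pr
  have h2 : dt κ (fun i => v i - (κ i : ℂ) * dt κ v / ((H356R3.NS.sq κ : ℝ) : ℂ))
      = dt κ v - (∑ j, (κ j : ℂ) * (κ j : ℂ)) * dt κ v / ((H356R3.NS.sq κ : ℝ) : ℂ) := by
    conv_lhs => unfold dt
    simp only [mul_sub, Finset.sum_sub_distrib]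
    congr 1
    rw [Finset.sum_mul, Finset.sum_div]
    refine Finset.sum_congr rfl fun j _ => ?_
    unfold dt
    ring
  rw [h2, h1]
  field_simp
  ring

lemma dt_add' (κ : K) (v v' : C3) : dt κ (v + v') = dt κ v + dt κ v' := by
  unfold dt
  rw [← Finset.sum_add_distrib]
  exact Finset.sum_congr rfl fun j _ => by simp; ring

lemma dt_smul' (κ : K) (a : ℝ) (v : C3) : dt κ (a • v) = a * dt κ v := by
  unfold dt
  rw [Finset.mul_sum]
  exact Finset.sum_congr rfl fun j _ => by simp; ring

lemma dt_sum {ι : Type*} (κ : K) (S : Finset ι) (v : ι → C3) : dt κ (∑ i ∈ S, v i) = ∑ i ∈ S, dt κ (v i) := by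
  classical
  induction S using Finset.induction_on with
  | empty => simp [dt]
  | insert a S ha ih => rw [Finset.sum_insert ha, Finset.sum_insert ha, dt_add', ih]

lemma dt_dat (N : ℕ) (S : Finset (K × K)) (w : K × K → ℝ → C3) (κ : K) : dt κ (dat N S w κ) = 0 := by
  unfold dat lf
  rw [Finset.sum_apply, dt_sum]
  refine Finset.sum_eq_zero fun P _ => ?_
  unfold Sg
  split_ifs with h
  · rw [h, dt_smul', dt_pr, mul_zero]
  · simp [dt]

lemma summ_fin {M : Type*} [AddCommMonoid M] [TopologicalSpace M] {x : K → M} {S : Finset K} (h : ∀ k ∉ S, x k = 0) :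
    Summable x := summable_of_ne_finset_zero (s := S) h

lemma tsum_lf (N : ℕ) (S : Finset (K × K)) (y : K × K → C3) (i : Fin 3) (x : E3) :
    Summable (fun k => lf N S y k i * ex k x) ∧ ∑' k, lf N S y k i * ex k x = ∑ P ∈ S, y P i * ex (kp N P) x := by
  have h1 : ∀ k, lf N S y k i * ex k x = ∑ P ∈ S, (Sg (kp N P) (y P) k i * ex k x) := by
    intro k
    unfold lf
    rw [Finset.sum_apply, Finset.sum_apply, Finset.sum_mul]
  have h2 : ∀ P : K × K, Summable fun k => Sg (kp N P) (y P) k i * ex k x := fun P =>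
    summable_of_ne_finset_zero (s := {kp N P}) fun k hk => by
      simp only [Finset.mem_singleton] at hk
      simp [Sg, hk]
  simp only [h1]
  refine ⟨summable_sum fun P _ => h2 P, ?_⟩
  rw [Summable.tsum_finsetSum fun P _ => h2 P]
  refine Finset.sum_congr rfl fun P _ => ?_
  rw [tsum_eq_single (kp N P)]
  · simp [Sg]
  · intro k hk; simp [Sg, hk]

open H459R3.NS in
lemma fr_eq_fc (g : R3 → R3) (k : K) (i : Fin 3) : fr (fun y => g y i) k = H356R3.NS.fc g k i := by
  unfold fr H459R3.NS.fc H356R3.NS.fc cube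
  refine integral_congr_ae (Filter.Eventually.of_forall fun x => ?_)
  simp only
  rw [mul_comm]
  congr 1
  unfold ee ph
  congr 1
  push_cast
  simp only [Pi.neg_apply, Int.cast_neg, neg_mul, Finset.sum_neg_distrib, mul_neg]

lemma ch_kp (N : ℕ) (P : K × K) (x : R3) : ch P.1 x * ch P.2 ((N : ℝ) • x) = ex (kp N P) x := by
  unfold ch ex kp
  rw [← Complex.exp_add, ← mul_add, ← Finset.sum_add_distrib]
  congr 2
  refine Finset.sum_congr rfl fun j _ => ?_
  simp only [Pi.add_apply, Pi.smul_apply, smul_eq_mul]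
  push_cast
  ring

/-- the two-scale theorem in physical variables -/
theorem phys {ν : ℝ} (hν : 0 < ν) {g : R3 → R3} {v : ℝ → R3 → R3} {p : ℝ → R3 → ℝ}
    (hv : AdmissiblePeriodic ν g v p) (hg0 : ∀ i, ∫ x in Icc (0 : R3) 1, g x i = 0)
    {w : K × K → ℝ → C3} {σ : ℝ} (hw : CellFlow (4 * Real.pi ^ 2 * ν) w σ)
    {W : R3 → ℝ → R3 → R3}
    (hW : ∀ x s y i, 0 ≤ s → ((W x s y i : ℝ) : ℂ) = ∑' P, w P s i * (ch P.1 x * ch P.2 y))
    {a : Fq → Fin 3 → ℂ} {A : Finset Fq} (ha : Slow a A)
    {b : Fq × Fq → Fin 3 → ℂ} {S : Finset (Fq × Fq)} (hb : ∀ P, w P 0 = b P) (hS : ∀ P ∉ S, b P = 0)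
    (hg : ∀ k i, H356R3.NS.fc g k i = a k i + Kick w k i) {ε : ℝ} (hε : 0 < ε) :
    ∃ N0 : ℕ, ∀ N : ℕ, N0 ≤ N → ∃ u q, AdmissiblePeriodic ν (fun x i => trig a A x i + N * osc b S N x i) u q ∧
      CloseAfter ε u v ∧ CloseTwoScale ε N u v W := by
  have hG := Ph.glob_of_adm hv hg0
  have hX := hG.flowC hν
  have hc : 0 < 4 * Real.pi ^ 2 * ν := by positivity
  have hX0 : ∀ k, Ph.XF v k 0 = a k + Kick w k := by
    intro k
    funext i
    rw [Pi.add_apply, ← hg k i, ← fr_eq_fc]
    unfold Ph.XF Pool.Agent.Q63.Win.cof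
    rw [max_self, hv.initial]
  have m3 : 0 < min ε 1 := lt_min hε one_pos
  have m1 : min ε 1 ≤ ε := min_le_left _ _
  have m2 : min ε 1 ≤ 1 := min_le_right _ _
  obtain ⟨F, hF, N0, hN0⟩ := two_scale hc hX hw (V0 := a) (S0 := A) ha.supp (Sb := S)
    (fun P hP => by rw [hb, hS P hP]) hX0 (ε := min ε 1 / 2) (δ := ε) (half_pos m3) hε
  refine ⟨max N0 1, fun N hN => ?_⟩
  have hNpos : (0 : ℝ) < N := by exact_mod_cast (le_max_right _ _).trans hN
  obtain ⟨al, u, hal, hSol, hcl, hasy⟩ := hN0 N ((le_max_left _ _).trans hN)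
  have hdiv : ∀ k, dt k ((a + dat N S w) k) = 0 := by
    intro k
    rw [Pi.add_apply, dt_add', dt_dat, add_zero]
    exact ha.div k
  have hphys := sol_physical hal hdiv hSol (0 : E3)
  have hd : Dom u := hSol.dom' hal
  have hv1 : ∀ t, 0 ≤ t → ∀ x i, ((v t x i : ℝ) : ℂ) = ∑' k, Ph.XF v k t i * ex k x := by
    intro t ht x i
    have := H459R3.NS.S_fr (hG.sp ht i) x
    rw [← this]
    unfold H459R3.NS.S Ph.XF Pool.Agent.Q63.Win.cof
    rw [max_eq_left ht]
    refine tsum_congr fun k => ?_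
    congr 1
    unfold H459R3.NS.ee H459R3.NS.ph ex
    congr 1
    push_cast
    rfl
  have su : ∀ t i x, Summable fun k => u k t i * ex k x := by
    intro t i x
    refine Summable.of_norm_bounded (hd.sn t) fun k => ?_
    rw [norm_mul, norm_ex, mul_one]
    exact norm_le_pi_norm (u k t) i
  have sx : ∀ t, 0 ≤ t → ∀ i x, Summable fun k => Ph.XF v k t i * ex k x := by
    intro t _ i x
    refine Summable.of_norm_bounded (Ph.summ_XF hG t) fun k => ?_
    rw [norm_mul, norm_ex, mul_one]
    exact norm_le_pi_norm (Ph.XF v k t) i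
  have hre : ∀ t (x : E3) i, (GS 0 (cf' u i) t x).re = (∑' k, u k t i * ex k x).re := by
    intro t x i
    unfold GS SF cf'
    simp
  refine ⟨fun t x i => (GS 0 (cf' u i) t x).re, fun t x => (GS 0 (PF u) t x).re, ?_, ?_, ?_⟩
  · have e1 : (fun (x : E3) i => (0 : E3) i + (∑' k, (a + dat N S w) k i * ex k x).re)
        = fun x i => trig a A x i + N * osc b S N x i := by
      funext x i
      have s1 : Summable fun k => a k i * ex k x :=
        summable_of_ne_finset_zero (s := A) fun k hk => by rw [ha.supp k hk]; simp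
      obtain ⟨s2, s3⟩ := tsum_lf N S (fun P => (N : ℝ) • pr (kp N P) (w P 0)) i x
      have e2 : ∀ k, (a + dat N S w) k i * ex k x = a k i * ex k x
          + lf N S (fun P => (N : ℝ) • pr (kp N P) (w P 0)) k i * ex k x := by
        intro k
        rw [Pi.add_apply, Pi.add_apply, add_mul]
        rfl
      simp only [e2]
      rw [s1.tsum_add s2, s3, Complex.add_re]
      simp only [Pi.zero_apply, zero_add]
      congr 1
      · rw [tsum_eq_sum (s := A) fun k hk => by rw [ha.supp k hk]; simp]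
        rfl
      · unfold osc
        rw [← Complex.re_ofReal_mul, Finset.mul_sum]
        congr 1
        refine Finset.sum_congr rfl fun P _ => ?_
        rw [Pi.smul_apply, Complex.real_smul, hb, mul_assoc]
        rfl
    have e3 : (fun (t : ℝ) (x : E3) i => (0 : E3) i + (GS 0 (cf' u i) t x).re)
        = fun t x i => (GS 0 (cf' u i) t x).re := by
      funext t x i; simp
    rw [e1, e3] at hphys
    exact hphys
  · unfold CloseAfter
    have hpt : ∀ t, 0 ≤ t → (⨆ x, ‖(fun i => (GS 0 (cf' u i) t x).re) - v t x‖ₑ)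
        ≤ NW (Wa 0) (at' (u - Ph.XF v) t) := by
      intro t ht
      refine iSup_le fun x => ?_
      have hs2 := Ph.summ_XF hG t
      have hs3 : Summable fun k => ‖(u - Ph.XF v) k t‖ :=
        (Summable.add (show Summable fun k => ‖u k t‖ from hd.sn t) hs2).of_nonneg_of_le
          (fun _ => norm_nonneg _) fun k => norm_sub_le _ _
      have e0 : NW (Wa 0) (at' (u - Ph.XF v) t) = ENNReal.ofReal (∑' k, ‖(u - Ph.XF v) k t‖) := by
        rw [NW_Wa0, ENNReal.ofReal_tsum_of_nonneg (fun _ => norm_nonneg _) hs3]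
        simp [at']
      rw [e0, ← ofReal_norm]
      apply ENNReal.ofReal_le_ofReal
      rw [pi_norm_le_iff_of_nonneg (tsum_nonneg fun _ => norm_nonneg _)]
      intro i
      have e1 : ((((fun i => (GS 0 (cf' u i) t x).re) - v t x) i : ℝ))
          = (∑' k, (u - Ph.XF v) k t i * ex k x).re := by
        have e2 : ∀ k, (u - Ph.XF v) k t i * ex k x = u k t i * ex k x - Ph.XF v k t i * ex k x := by
          intro k
          rw [Pi.sub_apply, Pi.sub_apply, Pi.sub_apply, sub_mul]
        simp only [e2]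
        rw [(su t i x).tsum_sub (sx t ht i x), Complex.sub_re, ← hv1 t ht, Complex.ofReal_re, ← hre]
        rfl
      rw [e1, Real.norm_eq_abs]
      refine (Complex.abs_re_le_norm _).trans ?_
      have hs4 : Summable fun k => ‖(u - Ph.XF v) k t i * ex k x‖ := by
        refine hs3.of_nonneg_of_le (fun _ => norm_nonneg _) fun k => ?_
        rw [norm_mul, norm_ex, mul_one]
        exact norm_le_pi_norm ((u - Ph.XF v) k t) i
      refine (norm_tsum_le_tsum_norm hs4).trans (hs4.tsum_le_tsum (fun k => ?_) hs3)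
      rw [norm_mul, norm_ex, mul_one]
      exact norm_le_pi_norm ((u - Ph.XF v) k t) i
    have h2 : ∫⁻ t in Ioi ε, (⨆ x, ‖(fun i => (GS 0 (cf' u i) t x).re) - v t x‖ₑ) ^ 2
        ≤ LNd ε (u - Ph.XF v) ^ 2 := by
      unfold LNd LN
      rw [← ENNReal.rpow_two, ← ENNReal.rpow_mul]
      norm_num
      calc _ ≤ ∫⁻ t in Ioi ε, NW (Wa 0) (at' (u - Ph.XF v) t) ^ 2 :=
            setLIntegral_mono' measurableSet_Ioi fun t ht =>
              pow_le_pow_left' (hpt t (hε.le.trans (le_of_lt ht))) 2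
        _ = ∫⁻ t in Ioi ε, ((Ioi ε).indicator (fun t => NW (Wa 0) (at' (u - Ph.XF v) t)) t) ^ 2 :=
            setLIntegral_congr_fun measurableSet_Ioi fun t ht => by
              simp only [indicator_of_mem ht]
        _ ≤ _ := lintegral_mono_set fun t ht => lt_trans hε ht
    refine h2.trans ((pow_le_pow_left' hcl 2).trans ?_)
    rw [← ENNReal.ofReal_pow (by positivity)]
    apply ENNReal.ofReal_le_ofReal
    nlinarith
  · unfold CloseTwoScale
    set FF := FM N F (zφ w N) with hFF
    set T : ℝ → ℝ≥0∞ := fun s => ∑' P : K × K, if P ∈ F then 0 else ‖w P s‖ₑ with hT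
    have hTm : Measurable T := by
      refine Measurable.tsum fun P => ?_
      split_ifs
      · exact measurable_const
      · exact (hw.cw P).enorm.measurable
    have hpt : ∀ t ∈ Ioi (0 : ℝ), (⨆ x, ‖(fun i => (GS 0 (cf' u i) t x).re) - v t x
        - (N : ℝ) • W x ((N : ℝ) ^ 2 * t) ((N : ℝ) • x)‖ₑ)
        ≤ NW (Wa 0) (at' (u - Ph.XF v - FF) t) + ENNReal.ofReal N * T ((N : ℝ) ^ 2 * t) := by
      intro t ht0
      have ht : (0 : ℝ) ≤ t := le_of_lt ht0
      have hNt : 0 ≤ (N : ℝ) ^ 2 * t := by positivity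
      refine iSup_le fun x => ?_
      have key : ∀ i, ‖(((fun i => (GS 0 (cf' u i) t x).re) - v t x
          - (N : ℝ) • W x ((N : ℝ) ^ 2 * t) ((N : ℝ) • x)) i : ℝ)‖ₑ
          ≤ NW (Wa 0) (at' (u - Ph.XF v - FF) t) + ENNReal.ofReal N * T ((N : ℝ) ^ 2 * t) := by
        intro i
        obtain ⟨f1, f2⟩ := tsum_lf N F (fun P => zφ w N P (max t 0)) i x
        have sw : Summable fun P : K × K => w P ((N : ℝ) ^ 2 * t) i * ex (kp N P) x := by
          refine Summable.of_norm_bounded (hw.sn ((N : ℝ) ^ 2 * t)) fun P => ?_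
          rw [norm_mul, norm_ex, mul_one]
          exact norm_le_pi_norm (w P _) i
        have sF : Summable fun P : K × K => (if P ∈ F then w P ((N : ℝ) ^ 2 * t) i * ex (kp N P) x else 0) :=
          summable_of_ne_finset_zero (s := F) fun P hP => by rw [if_neg hP]
        have sF' : Summable fun P : K × K => (if P ∈ F then 0 else w P ((N : ℝ) ^ 2 * t) i * ex (kp N P) x) := by
          refine (sw.sub sF).congr fun P => ?_
          split_ifs <;> ring
        have g1 : ∑' P : K × K, w P ((N : ℝ) ^ 2 * t) i * ex (kp N P) x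
            = (∑ P ∈ F, w P ((N : ℝ) ^ 2 * t) i * ex (kp N P) x)
              + ∑' P : K × K, (if P ∈ F then 0 else w P ((N : ℝ) ^ 2 * t) i * ex (kp N P) x) := by
          have g0 : ∑' P : K × K, (if P ∈ F then w P ((N : ℝ) ^ 2 * t) i * ex (kp N P) x else 0)
              = ∑ P ∈ F, w P ((N : ℝ) ^ 2 * t) i * ex (kp N P) x := by
            rw [tsum_eq_sum (s := F) (fun P hP => if_neg hP)]
            exact Finset.sum_congr rfl fun P hP => if_pos hP
          rw [← g0, ← sF.tsum_add sF']
          refine tsum_congr fun P => ?_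
          split_ifs <;> ring
        have g2 : ∑' k, FF k t i * ex k x = N * ∑ P ∈ F, w P ((N : ℝ) ^ 2 * t) i * ex (kp N P) x := by
          rw [show (fun k => FF k t i * ex k x) = fun k => lf N F (fun P => zφ w N P (max t 0)) k i * ex k x from rfl,
            f2, Finset.mul_sum]
          refine Finset.sum_congr rfl fun P _ => ?_
          unfold zφ
          rw [max_eq_left ht, Pi.smul_apply, Complex.real_smul]
          push_cast
          ring
        have e1 : ((((fun i => (GS 0 (cf' u i) t x).re) - v t x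
            - (N : ℝ) • W x ((N : ℝ) ^ 2 * t) ((N : ℝ) • x)) i : ℝ))
            = (∑' k, (u - Ph.XF v - FF) k t i * ex k x
              - N * ∑' P : K × K, (if P ∈ F then 0 else w P ((N : ℝ) ^ 2 * t) i * ex (kp N P) x)).re := by
          have e2 : ∀ k, (u - Ph.XF v - FF) k t i * ex k x
              = u k t i * ex k x - Ph.XF v k t i * ex k x - FF k t i * ex k x := by
            intro k
            simp only [Pi.sub_apply, sub_mul]
          simp only [e2]
          have f1' : Summable fun k => FF k t i * ex k x := f1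
          rw [((su t i x).sub (sx t ht i x)).tsum_sub f1', (su t i x).tsum_sub (sx t ht i x), ← hv1 t ht, g2]
          have e3 : ((W x ((N : ℝ) ^ 2 * t) ((N : ℝ) • x) i : ℝ) : ℂ)
              = ∑' P : K × K, w P ((N : ℝ) ^ 2 * t) i * ex (kp N P) x := by
            rw [hW _ _ _ _ hNt]
            refine tsum_congr fun P => ?_
            rw [ch_kp]
          have e4 : (N : ℂ) * (∑ P ∈ F, w P ((N : ℝ) ^ 2 * t) i * ex (kp N P) x)
              + N * ∑' P : K × K, (if P ∈ F then 0 else w P ((N : ℝ) ^ 2 * t) i * ex (kp N P) x)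
              = (((N : ℝ) * W x ((N : ℝ) ^ 2 * t) ((N : ℝ) • x) i : ℝ) : ℂ) := by
            rw [Complex.ofReal_mul, e3, g1]
            push_cast
            ring
          have e5 : ∀ A V X Y Z : ℂ, X + Y = Z → A - V - X - Y = A - V - Z := fun A V X Y Z h => by
            rw [← h]; ring
          rw [e5 _ _ _ _ _ e4, Complex.sub_re, Complex.sub_re, Complex.ofReal_re, Complex.ofReal_re, ← hre]
          rfl
        rw [e1]
        refine (enorm_le_iff_norm_le.2 ((Real.norm_eq_abs _).le.trans (Complex.abs_re_le_norm _))).trans ?_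
        refine enorm_sub_le.trans (add_le_add ?_ ?_)
        · rw [NW_Wa0]
          refine enorm_tsum_le_tsum_enorm.trans (ENNReal.tsum_le_tsum fun k => ?_)
          refine enorm_le_iff_norm_le.2 ?_
          rw [norm_mul, norm_ex, mul_one]
          exact norm_le_pi_norm _ i
        · rw [enorm_mul]
          refine mul_le_mul' ?_ (enorm_tsum_le_tsum_enorm.trans (ENNReal.tsum_le_tsum fun P => ?_))
          · rw [← ofReal_norm]
            simp
          · split_ifs
            · simp
            · refine enorm_le_iff_norm_le.2 ?_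
              rw [norm_mul, norm_ex, mul_one]
              exact norm_le_pi_norm _ i
      set B := NW (Wa 0) (at' (u - Ph.XF v - FF) t) + ENNReal.ofReal N * T ((N : ℝ) ^ 2 * t) with hB
      by_cases hBt : B = ⊤
      · rw [hBt]; exact le_top
      have hBr : B = ENNReal.ofReal B.toReal := (ENNReal.ofReal_toReal hBt).symm
      rw [hBr, ← ofReal_norm]
      apply ENNReal.ofReal_le_ofReal
      rw [pi_norm_le_iff_of_nonneg ENNReal.toReal_nonneg]
      intro i
      have := key i
      rw [hBr, ← ofReal_norm] at this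
      exact (ENNReal.ofReal_le_ofReal_iff ENNReal.toReal_nonneg).1 this
    have hcF : CF FF := by
      intro k
      rw [hFF]
      unfold FM lf
      simp only [Finset.sum_apply]
      refine continuous_finsetSum _ fun P _ => ?_
      unfold Sg zφ
      have hcP := hw.cw P
      split_ifs
      · fun_prop
      · exact continuous_const
    have hcc : CF (u - Ph.XF v - FF) := fun k => ((hSol.cf k).sub (hX.cf k)).sub (hcF k)
    have hm1 := NW_meas (Wa 0) hcc
    have hm2 : Measurable fun t : ℝ => ENNReal.ofReal N * T ((N : ℝ) ^ 2 * t) :=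
      (hTm.comp (measurable_const_mul _)).const_mul _
    have hLN : LN (fun t => ⨆ x, ‖(fun i => (GS 0 (cf' u i) t x).re) - v t x
        - (N : ℝ) • W x ((N : ℝ) ^ 2 * t) ((N : ℝ) • x)‖ₑ) ≤ ENNReal.ofReal (min ε 1) := by
      calc _ ≤ LN (fun t => NW (Wa 0) (at' (u - Ph.XF v - FF) t) + ENNReal.ofReal N * T ((N : ℝ) ^ 2 * t)) :=
            LN_mono hpt
        _ ≤ LN (fun t => NW (Wa 0) (at' (u - Ph.XF v - FF) t)) + LN (fun t => ENNReal.ofReal N * T ((N : ℝ) ^ 2 * t)) :=
            LN_add_le hm1 hm2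
        _ ≤ ENNReal.ofReal (min ε 1 / 2) + ENNReal.ofReal (min ε 1 / 2) := by
            rw [LN_scale hNpos hTm]
            exact add_le_add hasy hF
        _ = _ := by
            rw [← ENNReal.ofReal_add (by positivity) (by positivity)]
            congr 1; ring
    have h2 : ∫⁻ t in Ioi (0 : ℝ), (⨆ x, ‖(fun i => (GS 0 (cf' u i) t x).re) - v t x
        - (N : ℝ) • W x ((N : ℝ) ^ 2 * t) ((N : ℝ) • x)‖ₑ) ^ 2
        = (LN (fun t => ⨆ x, ‖(fun i => (GS 0 (cf' u i) t x).re) - v t x
        - (N : ℝ) • W x ((N : ℝ) ^ 2 * t) ((N : ℝ) • x)‖ₑ)) ^ 2 := by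
      unfold LN
      rw [← ENNReal.rpow_two, ← ENNReal.rpow_mul]
      norm_num
    rw [h2]
    refine (pow_le_pow_left' hLN 2).trans ?_
    rw [← ENNReal.ofReal_pow m3.le]
    apply ENNReal.ofReal_le_ofReal
    nlinarith

end Pool.Agent.U162.TS
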