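import Pool.Agent.U162.TS.Cell

/-!
The pieces of the two-scale approximation, II.
-/

open MeasureTheory Set Filter Topology
open scoped ENNReal NNReal

namespace Pool.Agent.U162.TS

open Pool.Agent.H356R3.NS

variable {c : ℝ} {S : Finset (K × K)} {w f : K × K → ℝ → C3} {β σ : ℝ}

/-- the oscillating part -/
noncomputable def zφ (w : K × K → ℝ → C3) (N : ℕ) (P : K × K) (t : ℝ) : C3 := (N : ℝ) • w P ((N : ℝ) ^ 2 * t)

/-- its forcing -/
noncomputable def zγ (c : ℝ) (w f : K × K → ℝ → C3) (N : ℕ) (P : K × K) (t : ℝ) : C3 :=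
  (N : ℝ) ^ 3 • f P ((N : ℝ) ^ 2 * t)
    + (c * N * (H356R3.NS.sq (kp N P) - N ^ 2 * H356R3.NS.sq P.2)) • w P ((N : ℝ) ^ 2 * t)

/-- the mean flow correction -/
noncomputable def vφ (S : Finset (K × K)) (w : K × K → ℝ → C3) (N : ℕ) (R : K × K) (t : ℝ) : C3 :=
  kc S w R ((N : ℝ) ^ 2 * t)

/-- its forcing -/
noncomputable def vγ (c : ℝ) (S : Finset (K × K)) (w : K × K → ℝ → C3) (N : ℕ) (R : K × K) (t : ℝ) : C3 :=
  (N : ℝ) ^ 2 • Dk S w R ((N : ℝ) ^ 2 * t) + (c * H356R3.NS.sq (kp N R)) • kc S w R ((N : ℝ) ^ 2 * t)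

/-- the projection correction -/
noncomputable def hφ (c : ℝ) (w : K × K → ℝ → C3) (N : ℕ) (P : K × K) (t : ℝ) : C3 :=
  Real.exp (-(c * H356R3.NS.sq (kp N P) * t)) • ((N : ℝ) • (pr (kp N P) (w P 0) - w P 0))

lemma scale_deriv {x : ℝ → C3} {x' : C3} (N : ℕ) {t : ℝ} (h : HasDerivAt x x' ((N : ℝ) ^ 2 * t)) :
    HasDerivAt (fun t => x ((N : ℝ) ^ 2 * t)) ((N : ℝ) ^ 2 • x') t := by
  have h2 : HasDerivAt (fun t : ℝ => (N : ℝ) ^ 2 * t) ((N : ℝ) ^ 2) t := by
    simpa using (hasDerivAt_id' t).const_mul ((N : ℝ) ^ 2)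
  exact HasDerivAt.scomp t h h2

lemma z_od (h : CApx c S w f β σ) {N : ℕ} (hN : 1 ≤ N) (T : Finset (K × K)) :
    Od c (FM N T (zφ w N)) (FM N T (zγ c w f N)) := by
  have hβ := h.β0
  have hσ := h.hσ
  have hNr : (0 : ℝ) < N := by exact_mod_cast hN
  refine FM_od (fun P => ?_) (fun P => ?_) (fun P => ⟨N * β, fun t ht => ?_⟩) fun P t ht => ?_
  · have := h.cw P; unfold zφ; fun_prop
  · have := h.cw P; have := h.cf P; unfold zγ; fun_prop
  · unfold zφ
    rw [norm_smul, Real.norm_of_nonneg hNr.le]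
    refine mul_le_mul_of_nonneg_left ?_ hNr.le
    refine (h.bw P _ (by positivity)).trans ?_
    have : Real.exp (-(σ * ((N : ℝ) ^ 2 * t))) ≤ 1 := by
      rw [Real.exp_le_one_iff]
      have : 0 ≤ σ * ((N : ℝ) ^ 2 * t) := by positivity
      linarith
    calc β * _ ≤ β * 1 := mul_le_mul_of_nonneg_left this hβ
      _ = β := mul_one _
  · have h1 := (scale_deriv N (h.ode P ((N : ℝ) ^ 2 * t) (by positivity))).const_smul (N : ℝ)
    refine h1.congr_deriv ?_
    simp only [zγ, zφ, smul_add, smul_smul]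
    rw [show (N : ℝ) * ((N : ℝ) ^ 2 * -(c * H356R3.NS.sq P.2)) = -(c * H356R3.NS.sq (kp N P)) * N
      + c * N * (H356R3.NS.sq (kp N P) - N ^ 2 * H356R3.NS.sq P.2) by ring, add_smul]
    rw [show (N : ℝ) * (N : ℝ) ^ 2 = (N : ℝ) ^ 3 by ring]
    abel

lemma v_od (h : CApx c S w f β σ) {N : ℕ} (hN : 1 ≤ N) (T : Finset (K × K)) :
    Od c (FM N T (vφ S w N)) (FM N T (vγ c S w N)) := by
  have hσ := h.hσ
  have hβ := h.β0
  have hC := C0_pos
  have hNr : (0 : ℝ) < N := by exact_mod_cast hN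
  refine FM_od (fun P => ?_) (fun P => ?_)
    (fun P => ⟨C0 * nk P.1 * (S.card * β) ^ 2 / σ, fun t ht => ?_⟩) fun P t ht => ?_
  · have := kc_cont h P; unfold vφ; fun_prop
  · have := kc_cont h P; have := Dk_cont h P; unfold vγ; fun_prop
  · unfold vφ
    refine (kc_le h le_rfl (by positivity)).trans ?_
    have : Real.exp (-(σ * ((N : ℝ) ^ 2 * t))) ≤ 1 := by
      rw [Real.exp_le_one_iff]
      have : 0 ≤ σ * ((N : ℝ) ^ 2 * t) := by positivity
      linarith
    have hn := nk_nonneg P.1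
    calc _ ≤ C0 * nk P.1 * (S.card * β) ^ 2 / σ * 1 := mul_le_mul_of_nonneg_left this (by positivity)
      _ = _ := mul_one _
  · refine (scale_deriv N (kc_deriv h P ((N : ℝ) ^ 2 * t))).congr_deriv ?_
    simp only [vγ, vφ, neg_smul]
    abel

lemma heat_od (hc : 0 ≤ c) (κ : K) (v : C3) :
    Od c (Md κ fun t => Real.exp (-(c * H356R3.NS.sq κ * t)) • v) 0 := by
  have e : (0 : Fam) = Md κ fun _ => (0 : C3) := by
    funext k t; simp [Md, Sg]
  rw [e]
  refine Md_od (by fun_prop) continuous_const ⟨‖v‖, fun t ht => ?_⟩ fun t _ => ?_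
  · rw [norm_smul, Real.norm_of_nonneg (Real.exp_pos _).le]
    have : Real.exp (-(c * H356R3.NS.sq κ * t)) ≤ 1 := by
      rw [Real.exp_le_one_iff]
      have := sq_nonneg' κ
      have : 0 ≤ c * H356R3.NS.sq κ * t := by positivity
      linarith
    calc _ ≤ 1 * ‖v‖ := mul_le_mul_of_nonneg_right this (norm_nonneg _)
      _ = _ := one_mul _
  · have h2 : HasDerivAt (fun u => Real.exp (-(c * H356R3.NS.sq κ * u)))
        (Real.exp (-(c * H356R3.NS.sq κ * t)) * -(c * H356R3.NS.sq κ)) t := by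
      have : HasDerivAt (fun u : ℝ => -(c * H356R3.NS.sq κ * u)) (-(c * H356R3.NS.sq κ)) t := by
        simpa using ((hasDerivAt_id' t).const_mul (c * H356R3.NS.sq κ)).fun_neg
      exact this.exp
    refine (h2.smul_const v).congr_deriv ?_
    rw [smul_smul, add_zero, mul_comm]

lemma h_od (hc : 0 ≤ c) (w : K × K → ℝ → C3) (N : ℕ) (T : Finset (K × K)) :
    Od c (FM N T (hφ c w N)) 0 := by
  rw [FM_eq]
  have : (0 : Fam) = ∑ _P ∈ T, (0 : Fam) := by simp
  rw [this]
  exact Od.sum _ fun P _ => heat_od hc _ _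

/-- the heat flow of a trigonometric polynomial -/
noncomputable def mF (c : ℝ) (m : K → C3) : Fam := fun k t => Real.exp (-(c * H356R3.NS.sq k * max t 0)) • m k

lemma m_od (hc : 0 ≤ c) {m : K → C3} {M : Finset K} (hm : ∀ k ∉ M, m k = 0) : Od c (mF c m) 0 := by
  classical
  have e : mF c m = ∑ l ∈ M, Md l fun t => Real.exp (-(c * H356R3.NS.sq l * t)) • m l := by
    funext k t
    simp only [Finset.sum_apply, Md, Sg, mF]
    by_cases hk : k ∈ M
    · rw [Finset.sum_eq_single k]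
      · simp
      · intro l _ hl; rw [if_neg (Ne.symm hl)]
      · intro h; exact absurd hk h
    · rw [hm k hk, smul_zero]
      symm
      refine Finset.sum_eq_zero fun l hl => ?_
      rw [if_neg]
      rintro rfl; exact hk hl
  rw [e]
  have : (0 : Fam) = ∑ _P ∈ M, (0 : Fam) := by simp
  rw [this]
  exact Od.sum _ fun P _ => heat_od hc _ _

/-! ### sizes -/

lemma NW0_lf_le (N : ℕ) (T : Finset (K × K)) (x : K × K → C3) :
    NW (Wa 0) (lf N T x) ≤ ENNReal.ofReal (∑ P ∈ T, ‖x P‖) := by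
  refine (NW_lf_le _ _ _ _).trans ?_
  rw [ENNReal.ofReal_sum_of_nonneg fun _ _ => norm_nonneg _]
  refine Finset.sum_le_sum fun P _ => ?_
  unfold Wa om
  simp [ofReal_norm]

lemma z_size (h : CApx c S w f β σ) (N : ℕ) {t : ℝ} (ht : 0 ≤ t) :
    NW (Wa 0) (at' (FM N (TT S) (zφ w N)) t) ≤
      ENNReal.ofReal N * ENNReal.ofReal (tot S fun P => w P ((N : ℝ) ^ 2 * t)) := by
  rw [at'_FM, max_eq_left ht]
  refine (NW0_lf_le _ _ _).trans ?_
  rw [← ENNReal.ofReal_mul (Nat.cast_nonneg _)]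
  apply ENNReal.ofReal_le_ofReal
  unfold tot zφ
  rw [Finset.mul_sum]
  have : ∑ P ∈ TT S, ‖(N : ℝ) • w P ((N : ℝ) ^ 2 * t)‖ = ∑ P ∈ S, ‖(N : ℝ) • w P ((N : ℝ) ^ 2 * t)‖ := by
    symm
    refine Finset.sum_subset (sub_TT S) fun P _ hP => ?_
    rw [h.w0 P hP]; simp
  rw [this]
  refine Finset.sum_le_sum fun P _ => ?_
  rw [norm_smul, Real.norm_of_nonneg (Nat.cast_nonneg _)]

lemma z_size' (h : CApx c S w f β σ) (N : ℕ) (t : ℝ) :
    NW (Wa 0) (at' (FM N (TT S) (zφ w N)) t) ≤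
      ENNReal.ofReal (N * (S.card * β) * Real.exp (-(σ * N ^ 2 * max t 0))) := by
  have e : at' (FM N (TT S) (zφ w N)) t = at' (FM N (TT S) (zφ w N)) (max t 0) := by
    rw [at'_FM, at'_FM]; simp
  rw [e]
  refine (z_size h N (le_max_right t 0)).trans ?_
  rw [← ENNReal.ofReal_mul (Nat.cast_nonneg _)]
  apply ENNReal.ofReal_le_ofReal
  rw [mul_assoc]
  apply mul_le_mul_of_nonneg_left _ (Nat.cast_nonneg _)
  have ht : 0 ≤ max t 0 := le_max_right t 0
  have hN2 : (0 : ℝ) ≤ (N : ℝ) ^ 2 := by positivity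
  refine (h.tot_le (mul_nonneg hN2 ht)).trans (le_of_eq ?_)
  congr 2
  ring

/-- a common bound for the frequencies -/
noncomputable def Lm (S : Finset (K × K)) : ℝ := ∑ R ∈ TT S, nk R.1

lemma Lm_nonneg (S : Finset (K × K)) : 0 ≤ Lm S := Finset.sum_nonneg fun _ _ => nk_nonneg _

lemma le_Lm {S : Finset (K × K)} {R : K × K} (hR : R ∈ TT S) : nk R.1 ≤ Lm S :=
  Finset.single_le_sum (f := fun R : K × K => nk R.1) (fun _ _ => nk_nonneg _) hR

lemma v_size (h : CApx c S w f β σ) (N : ℕ) (t : ℝ) :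
    NW (Wa 0) (at' (FM N (TT S) (vφ S w N)) t) ≤
      ENNReal.ofReal ((TT S).card * (C0 * Lm S * (S.card * β) ^ 2 / σ) * Real.exp (-(σ * N ^ 2 * max t 0))) := by
  rw [at'_FM]
  refine (NW0_lf_le _ _ _).trans (ENNReal.ofReal_le_ofReal ?_)
  have ht : 0 ≤ max t 0 := le_max_right t 0
  have hN2 : (0 : ℝ) ≤ (N : ℝ) ^ 2 := by positivity
  calc _ ≤ ∑ P ∈ TT S, C0 * Lm S * (S.card * β) ^ 2 / σ * Real.exp (-(σ * N ^ 2 * max t 0)) := by
        refine Finset.sum_le_sum fun R hR => ?_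
        unfold vφ
        refine (kc_le h (le_Lm hR) (mul_nonneg hN2 ht)).trans (le_of_eq ?_)
        congr 2
        ring
    _ = _ := by rw [Finset.sum_const, nsmul_eq_mul]; ring

lemma h_size (hc : 0 ≤ c) (h : CApx c S w f β σ) {N : ℕ} (hN1 : 1 ≤ N) (hN : 2 * Lm S ≤ N) (t : ℝ) :
    NW (Wa 0) (at' (FM N (TT S) (hφ c w N)) t) ≤
      ENNReal.ofReal ((TT S).card * (6 * Lm S * β) * Real.exp (-(c / 4 * N ^ 2 * max t 0))) := by
  rw [at'_FM]
  refine (NW0_lf_le _ _ _).trans (ENNReal.ofReal_le_ofReal ?_)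
  have ht : 0 ≤ max t 0 := le_max_right t 0
  have hN2 : (0 : ℝ) ≤ (N : ℝ) ^ 2 := by positivity
  have hβ := h.β0
  have hL := Lm_nonneg S
  calc _ ≤ ∑ P ∈ TT S, 6 * Lm S * β * Real.exp (-(c / 4 * N ^ 2 * max t 0)) := by
        refine Finset.sum_le_sum fun R hR => ?_
        unfold hφ
        by_cases hRS : R ∈ S
        · have hk := h.k0 R hRS
          rw [norm_smul, Real.norm_of_nonneg (Real.exp_pos _).le, mul_comm]
          apply mul_le_mul
          · refine (pr_sub_le hk (le_Lm hR) hN hN1 (h.dv R)).trans ?_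
            have := h.bw R 0 le_rfl
            rw [mul_zero, neg_zero, Real.exp_zero, mul_one] at this
            gcongr
          · apply Real.exp_le_exp.2
            have h1 := kp_ge hk ((mul_le_mul_of_nonneg_left (le_Lm hR) (by norm_num)).trans hN)
            have h2 := one_le_nk hk
            have h3 : (N : ℝ) / 2 ≤ nk (kp N R) := by
              have : (0 : ℝ) ≤ N := Nat.cast_nonneg _
              nlinarith
            have h4 : (N : ℝ) ^ 2 / 4 ≤ H356R3.NS.sq (kp N R) := by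
              rw [← nk_mul_self]
              have : (0 : ℝ) ≤ (N : ℝ) / 2 := by positivity
              nlinarith
            have h5 : c * ((N : ℝ) ^ 2 / 4) * max t 0 ≤ c * H356R3.NS.sq (kp N R) * max t 0 := by gcongr
            linarith
          · exact (Real.exp_pos _).le
          · positivity
        · rw [h.w0 R hRS]
          have : pr (kp N R) 0 - 0 = 0 := by
            funext i; simp [pr, dt]
          rw [this]
          simp only [smul_zero, norm_zero]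
          positivity
    _ = _ := by rw [Finset.sum_const, nsmul_eq_mul]; ring

lemma m_size (hc : 0 < c) {m : K → C3} {M : Finset K} (hm : ∀ k ∉ M, m k = 0) (hm0 : m 0 = 0) :
    LN (fun t => NW (Wa 0) (at' (mF c m) t)) ≤
      ENNReal.ofReal (∑ l ∈ M, ‖m l‖ * Real.sqrt (1 / (2 * c)) * (1 / nk l)) := by
  have h1 : ∀ t, NW (Wa 0) (at' (mF c m) t)
      = ∑ l ∈ M, ENNReal.ofReal ‖m l‖ * ENNReal.ofReal (Real.exp (-(c * H356R3.NS.sq l * max t 0))) := by
    intro t
    rw [NW_fin (S := M) (x := at' (mF c m) t) fun k hk => by simp [at', mF, hm k hk]]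
    refine Finset.sum_congr rfl fun l _ => ?_
    unfold at' mF Wa om
    rw [← ofReal_norm, norm_smul, Real.norm_of_nonneg (Real.exp_pos _).le,
      ENNReal.ofReal_mul (Real.exp_pos _).le]
    simp [mul_comm]
  simp only [h1]
  refine (LN_sum_le M fun l _ => by fun_prop).trans ?_
  rw [ENNReal.ofReal_sum_of_nonneg fun l _ => by have := nk_nonneg l; positivity]
  refine Finset.sum_le_sum fun l _ => ?_
  by_cases hl : l = 0
  · subst hl
    rw [hm0]; simp [LN]
  rw [LN_const_mul _ (by fun_prop), LN_e (mul_pos hc (H356R3.NS.sq_pos hl)), ← ENNReal.ofReal_mul (norm_nonneg _)]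
  apply ENNReal.ofReal_le_ofReal
  rw [mul_assoc]
  apply mul_le_mul_of_nonneg_left _ (norm_nonneg _)
  apply le_of_eq
  have e : 1 / (2 * (c * H356R3.NS.sq l)) = 1 / (2 * c) * (1 / nk l) ^ 2 := by
    rw [← nk_mul_self]
    have := nk_pos hl
    field_simp
  rw [e, Real.sqrt_mul (by positivity), Real.sqrt_sq (by have := nk_nonneg l; positivity)]

end Pool.Agent.U162.TS
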