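import Pool.Agent.U162.TS.CellExp
import Pool.Agent.H356R3.NS.Final

/-!
Superposition of two global solutions at different scales.
-/

open MeasureTheory Set Filter Topology
open scoped ENNReal NNReal

namespace Pool.Agent.U162.TS

open Pool.Agent.H356R3.NS

/-- the solution of the cell problem which does not depend on the slow variable -/
noncomputable def wC (X : Fam) (P : K × K) (s : ℝ) : C3 := if P.1 = 0 then X P.2 s else 0

lemma qb_wC {X : Fam} {R : K × K} {s : ℝ} (h : R.1 ≠ 0 ∨ R.2 = 0) (P : K × K) :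
    qb R (wC X P s) (wC X (R - P) s) = 0 := by
  by_cases h0 : R.1 = 0
  · have h2 : R.2 = 0 := by
      rcases h with h | h
      · exact absurd h0 h
      · exact h
    have := norm_qb_le' R (wC X P s) (wC X (R - P) s)
    rw [if_pos h2, h0, nk_zero, mul_zero, zero_mul] at this
    exact norm_le_zero_iff.1 this
  · by_cases h1 : P.1 = 0
    · have : (R - P).1 ≠ 0 := by simpa [h1] using h0
      unfold wC
      rw [if_neg this, qb_zero_r]
    · unfold wC
      rw [if_neg h1, qb_zero_l]

lemma full_wC {X : Fam} (hX : ∀ t, SN (at' X t)) (R : K × K) (s : ℝ) :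
    full (wC X) R s = if R.1 = 0 then Bt X R.2 s else 0 := by
  by_cases h1 : R.1 = 0
  · rw [if_pos h1]
    by_cases h2 : R.2 = 0
    · unfold full
      simp only [qb_wC (Or.inr h2), tsum_zero]
      rw [h2]
      unfold Bt
      rw [Bf_zero]
    · unfold full Bt
      rw [Bf_eq_tsum (hX s) (hX s)]
      have hinj : Function.Injective fun l : K => ((0, l) : K × K) := fun a b h => (Prod.mk.injEq _ _ _ _ ▸ h).2
      rw [← hinj.tsum_eq]
      · refine tsum_congr fun l => ?_
        unfold qb wC
        simp [h2, h1, at']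
      · intro P hP
        by_contra hne
        apply hP
        have : P.1 ≠ 0 := fun h => hne ⟨P.2, by ext <;> simp [h]⟩
        have h3 : wC X P s = 0 := by unfold wC; rw [if_neg this]
        simp only [h3, qb_zero_l]
  · rw [if_neg h1]
    unfold full
    simp only [qb_wC (Or.inl h1), tsum_zero]

lemma Kick_wC {X : Fam} (hX : ∀ t, SN (at' X t)) (κ : K) : Kick (wC X) κ = 0 := by
  unfold Kick
  have : ∀ s, full (wC X) (κ, 0) s = 0 := by
    intro s
    rw [full_wC hX]
    split_ifs
    · unfold Bt; exact Bf_zero _ _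
    · rfl
  simp [this]

lemma wC_flow {c : ℝ} {X : Fam} (h : FlowC c X) (hdiv : ∀ k, dt k (X k 0) = 0) {σ B : ℝ} (hσ : 0 < σ)
    (hB : ∀ k t, 0 ≤ t → ‖X k t‖ ≤ B * Real.exp (-(σ * t))) : CellFlow c (wC X) σ := by
  have hB0 : 0 ≤ B := by
    have := (norm_nonneg _).trans (hB 0 0 le_rfl)
    simpa using this
  have hinj : Function.Injective fun l : K => ((0, l) : K × K) := fun a b h => (Prod.mk.injEq _ _ _ _ ▸ h).2
  have hsupp : ∀ (s : ℝ) (P : K × K), P ∉ Set.range (fun l : K => ((0, l) : K × K)) → wC X P s = 0 := by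
    intro s P hP
    have : P.1 ≠ 0 := fun h => hP ⟨P.2, by ext <;> simp [h]⟩
    unfold wC; rw [if_neg this]
  have hts : ∀ s, ∑' P, ‖wC X P s‖ₑ = ∑' k, ‖X k s‖ₑ := by
    intro s
    rw [← hinj.tsum_eq]
    · exact tsum_congr fun k => by simp [wC]
    · intro P hP
      by_contra hne
      apply hP
      simp only [hsupp s P hne, enorm_zero]
  refine ⟨hσ, fun P hP s => ?_, fun P => ?_, fun R => ?_, fun P s i => ?_, fun P => ?_, fun P hP s hs => ?_,
    ⟨B, fun P s hs => ?_⟩, fun s => ?_, ?_⟩
  · unfold wC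
    split_ifs
    · rw [hP]; exact h.z s
    · rfl
  · unfold wC
    split_ifs
    · exact h.cf _
    · exact continuous_const
  · have e : full (wC X) R = fun s => if R.1 = 0 then Bt X R.2 s else 0 := funext fun s => full_wC h.sn R s
    rw [e]
    split_ifs
    · exact h.cb _
    · exact continuous_const
  · unfold wC
    by_cases hP : P.1 = 0
    · have : (-P).1 = 0 := by simp [hP]
      rw [if_pos hP, if_pos this]
      exact h.sym s P.2 i
    · have : (-P).1 ≠ 0 := by simpa using hP
      rw [if_neg hP, if_neg this]; simp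
  · unfold wC
    split_ifs
    · exact hdiv _
    · simp [dt]
  · rw [full_wC h.sn]
    by_cases h1 : P.1 = 0
    · have e : wC X P = X P.2 := by funext s; simp [wC, h1]
      rw [if_pos h1, e]
      exact h.ode _ _ hs
    · have e : wC X P = fun _ => 0 := by funext s; simp [wC, h1]
      rw [if_neg h1, e]
      simpa using hasDerivAt_const s (0 : C3)
  · unfold wC
    split_ifs
    · exact hB _ _ hs
    · rw [norm_zero]; positivity
  · rw [← hinj.summable_iff]
    · refine (h.sn s).congr fun k => ?_
      simp [wC, at']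
    · intro P hP
      rw [hsupp s P hP, norm_zero]
  · simp only [hts]
    exact h.l2'

lemma slow_div_cof {a : Fq → Fin 3 → ℂ} {v : ℝ → R3 → R3}
    (h : ∀ k i, H356R3.NS.fc (v 0) k i = a k i) (k : K) : Ph.XF v k 0 = a k := by
  funext i
  rw [← h k i, ← fr_eq_fc]
  unfold Ph.XF Pool.Agent.Q63.Win.cof
  rw [max_self]

lemma fc_slow {a : Fq → Fin 3 → ℂ} {A : Finset Fq} (ha : Slow a A) (k : K) (i : Fin 3) :
    H356R3.NS.fc (trig a A) k i = a k i := by
  have hsub : Function.support a ⊆ A := by
    intro k hk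
    by_contra hne
    exact hk (ha.supp k hne)
  have hf : (Function.support a).Finite := A.finite_toSet.subset hsub
  have e : trig a A = trig a hf.toFinset := by
    funext x i
    unfold trig
    congr 1
    symm
    refine Finset.sum_subset (fun k hk => hsub (hf.mem_toFinset.1 hk)) fun k _ hk => ?_
    have : a k = 0 := by
      by_contra hne
      exact hk (hf.mem_toFinset.2 hne)
    rw [this]; simp
  rw [e, fc_trig hf ha.real]

lemma mean_slow {a : Fq → Fin 3 → ℂ} {A : Finset Fq} (ha : Slow a A) (i : Fin 3) :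
    ∫ x in Icc (0 : R3) 1, trig a A x i = 0 := by
  have h := fc_slow ha 0 i
  rw [ha.mean] at h
  unfold H356R3.NS.fc at h
  simp only [Pi.zero_apply, Int.cast_zero, zero_mul, Finset.sum_const_zero, mul_zero, neg_zero,
    Complex.exp_zero, mul_one] at h
  rw [integral_complex_ofReal] at h
  exact_mod_cast h

lemma pr_of_div {κ : K} {v : C3} (h : dt κ v = 0) : pr κ v = v := by
  funext i
  unfold pr
  rw [h]; simp

lemma dt_nsmul (N : ℕ) (κ : K) (v : C3) : dt ((N : ℤ) • κ) v = N * dt κ v := by
  unfold dt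
  rw [Finset.mul_sum]
  refine Finset.sum_congr rfl fun j _ => ?_
  simp
  ring

/-- superposition of global solutions at different scales -/
theorem superpose {ν : ℝ} (hν : 0 < ν) {a a' : Fq → Fin 3 → ℂ} {A A' : Finset Fq} (ha : Slow a A)
    (ha' : Slow a' A') {v v' : ℝ → R3 → R3} {p p' : ℝ → R3 → ℝ}
    (hv : AdmissiblePeriodic ν (trig a A) v p) (hv' : AdmissiblePeriodic ν (trig a' A') v' p')
    {ε : ℝ} (hε : 0 < ε) :
    ∃ N0 : ℕ, ∀ N : ℕ, N0 ≤ N → ∃ u q,
      AdmissiblePeriodic ν (fun x i => trig a A x i + N * trig a' A' (fun j => N * x j) i) u q ∧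
      CloseAfter ε u v := by
  have hG := Ph.glob_of_adm hv' (mean_slow ha')
  have hX := hG.flowC hν
  have hX0 : ∀ k, Ph.XF v' k 0 = a' k :=
    slow_div_cof (v := v') fun k i => by rw [hv'.initial]; exact fc_slow ha' k i
  have hdiv : ∀ k, dt k (Ph.XF v' k 0) = 0 := by
    intro k; rw [hX0]; exact ha'.div k
  have hw := wC_flow hX hdiv hν fun k t ht => Ph.XF_decay hG hν k ht
  classical
  set b : Fq × Fq → Fin 3 → ℂ := fun P => if P.1 = 0 then a' P.2 else 0 with hb
  set S : Finset (Fq × Fq) := A'.image fun k => ((0, k) : Fq × Fq) with hS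
  have hb0 : ∀ P, wC (Ph.XF v') P 0 = b P := by
    intro P
    unfold wC
    rw [hX0]
  have hbS : ∀ P ∉ S, b P = 0 := by
    intro P hP
    rw [hb]
    simp only
    split_ifs with h1
    · apply ha'.supp
      intro h2
      apply hP
      rw [hS, Finset.mem_image]
      exact ⟨P.2, h2, by ext <;> simp [h1]⟩
    · rfl
  obtain ⟨N0, hN0⟩ := phys hν hv (mean_slow ha) hw ha hb0 hbS (fun k i => by
    rw [Kick_wC hX.sn, fc_slow ha]; simp) hε
  refine ⟨N0, fun N hN => ?_⟩
  obtain ⟨u, q, h1, h2⟩ := hN0 N hN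
  refine ⟨u, q, ?_, h2⟩
  have e : osc b S N = fun x i => trig a' A' (fun j => N * x j) i := by
    funext x i
    unfold osc trig
    congr 1
    rw [hS, Finset.sum_image fun a _ b _ h => (Prod.mk.injEq _ _ _ _ ▸ h).2]
    refine Finset.sum_congr rfl fun k _ => ?_
    rw [hb]
    simp only [if_true, zero_add]
    rw [leray_eq, pr_of_div (by rw [dt_nsmul]; have : dt k (a' k) = 0 := ha'.div k; rw [this, mul_zero])]
    congr 1
    unfold ch
    congr 1
    congr 1
    refine Finset.sum_congr rfl fun j _ => ?_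
    simp only [Pi.smul_apply, smul_eq_mul]
    push_cast
    ring
  rw [e] at h1
  exact h1

end Pool.Agent.U162.TS
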