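import Pool.Agent.U162.TS.Ode

/-!
Estimates for the symbol of the bilinear term.
-/

open MeasureTheory Set Filter Topology
open scoped ENNReal NNReal

namespace Pool.Agent.U162.TS

open Pool.Agent.H356R3.NS

/-- the frequency as a point of euclidean space -/
noncomputable def eu (k : K) : EuclideanSpace ℝ (Fin 3) := WithLp.toLp 2 fun i => (k i : ℝ)

lemma nk_eq_eu (k : K) : nk k = ‖eu k‖ := by
  unfold nk H356R3.NS.sq eu
  rw [EuclideanSpace.norm_eq]
  congr 1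
  refine Finset.sum_congr rfl fun i _ => ?_
  simp

lemma nk_add (k l : K) : nk (k + l) ≤ nk k + nk l := by
  rw [nk_eq_eu, nk_eq_eu, nk_eq_eu]
  have : eu (k + l) = eu k + eu l := by
    unfold eu; ext i; simp
  rw [this]
  exact norm_add_le _ _

lemma nk_nsmul (N : ℕ) (k : K) : nk ((N : ℤ) • k) = N * nk k := by
  rw [nk_eq_eu, nk_eq_eu]
  have : eu ((N : ℤ) • k) = (N : ℝ) • eu k := by
    unfold eu; ext i; simp
  rw [this, norm_smul]
  simp

/-- the high frequency -/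
def kp (N : ℕ) (P : K × K) : K := P.1 + (N : ℤ) • P.2

lemma kp_add (N : ℕ) (P Q : K × K) : kp N (P + Q) = kp N P + kp N Q := by
  unfold kp
  simp only [Prod.fst_add, Prod.snd_add, smul_add]
  abel

lemma kp_neg (N : ℕ) (P : K × K) : kp N (-P) = -kp N P := by
  unfold kp
  simp only [Prod.fst_neg, Prod.snd_neg, smul_neg]
  abel

lemma kp_low (N : ℕ) {P : K × K} (h : P.2 = 0) : kp N P = P.1 := by
  unfold kp; rw [h]; simp

lemma kp_ge {N : ℕ} {P : K × K} (h : P.2 ≠ 0) (hN : 2 * nk P.1 ≤ N) :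
    (N : ℝ) / 2 * nk P.2 ≤ nk (kp N P) := by
  have h1 : nk ((N : ℤ) • P.2) ≤ nk (kp N P) + nk P.1 := by
    have : (N : ℤ) • P.2 = kp N P + (-P.1) := by unfold kp; abel
    rw [this, ← H356R3.NS.nk_neg P.1]
    exact nk_add _ _
  rw [nk_nsmul] at h1
  have h2 := one_le_nk h
  have h3 : (0 : ℝ) ≤ N := Nat.cast_nonneg _
  nlinarith

lemma kp_ne {N : ℕ} {P : K × K} (h : P.2 ≠ 0) (hN : 2 * nk P.1 ≤ N) (hN1 : 1 ≤ N) : kp N P ≠ 0 := by
  intro h0
  have h1 := kp_ge h hN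
  rw [h0, nk_zero] at h1
  have h2 := one_le_nk h
  have h3 : (1 : ℝ) ≤ N := by exact_mod_cast hN1
  nlinarith

lemma norm_bt_le (k : K) (v v' : C3) : ‖bt k v v'‖ ≤ C0 * nk k * (‖v‖ * ‖v'‖) := by
  rw [pi_norm_le_iff_of_nonneg (by
    have := C0_pos; have := nk_nonneg k; positivity)]
  intro i
  unfold bt
  have h1 : ∀ j m, ‖coef k i j m * (v j * v' m)‖ ≤ 4 * Real.pi * nk k * (‖v‖ * ‖v'‖) := by
    intro j m
    rw [norm_mul, norm_mul]
    apply mul_le_mul (norm_coef_le k i j m) _ (by positivity) (by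
      have := nk_nonneg k; positivity)
    exact mul_le_mul (norm_le_pi_norm v j) (norm_le_pi_norm v' m) (norm_nonneg _) (norm_nonneg _)
  calc ‖∑ j, ∑ m, coef k i j m * (v j * v' m)‖
      ≤ ∑ j : Fin 3, ∑ m : Fin 3, ‖coef k i j m * (v j * v' m)‖ :=
        (norm_sum_le _ _).trans (Finset.sum_le_sum fun j _ => norm_sum_le _ _)
    _ ≤ ∑ j : Fin 3, ∑ m : Fin 3, 4 * Real.pi * nk k * (‖v‖ * ‖v'‖) :=
        Finset.sum_le_sum fun j _ => Finset.sum_le_sum fun m _ => h1 j m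
    _ = _ := by
        simp only [Finset.sum_const, Finset.card_univ, Fintype.card_fin, nsmul_eq_mul]
        unfold C0
        push_cast
        ring

/-- the symbol is Lipschitz -/
lemma coef_lip {κ κ' l : K} (h : κ = κ' + l) (h0 : κ ≠ 0) (h1 : κ' ≠ 0) (h2 : nk κ' ≤ 2 * nk κ)
    (i j m : Fin 3) : ‖coef κ i j m - coef κ' i j m‖ ≤ 28 * Real.pi * nk l := by
  have hpi := Real.pi_pos
  have n0 := nk_pos h0
  have n1 := nk_pos h1
  have nl := nk_nonneg l
  have e : coef κ i j m - coef κ' i j m = ((-(2 * Real.pi) * (((κ j : ℝ)) *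
        ((if m = i then 1 else 0) - (κ i : ℝ) * (κ m : ℝ) / H356R3.NS.sq κ) - ((κ' j : ℝ)) *
        ((if m = i then 1 else 0) - (κ' i : ℝ) * (κ' m : ℝ) / H356R3.NS.sq κ')) : ℝ) : ℂ) * Complex.I := by
    unfold coef
    split_ifs <;> · push_cast; ring
  rw [e, norm_mul, Complex.norm_I, mul_one, Complex.norm_real, Real.norm_eq_abs, abs_mul, abs_neg,
    abs_of_pos (by positivity : 0 < 2 * Real.pi)]
  set δ : ℝ := if m = i then 1 else 0 with hδ
  have hδ1 : |δ| ≤ 1 := by rw [hδ]; split_ifs <;> simp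
  set p := (κ i : ℝ) * (κ m : ℝ) / H356R3.NS.sq κ with hp
  set p' := (κ' i : ℝ) * (κ' m : ℝ) / H356R3.NS.sq κ' with hp'
  have s0 := H356R3.NS.sq_pos h0
  have s1 := H356R3.NS.sq_pos h1
  have bi := abs_le_nk κ i
  have bm := abs_le_nk κ m
  have bi' := abs_le_nk κ' i
  have bm' := abs_le_nk κ' m
  have bj' := abs_le_nk κ' j
  have hp1 : |p| ≤ 1 := by
    rw [hp, abs_div, abs_mul, abs_of_pos s0, div_le_one s0, ← nk_mul_self]
    exact mul_le_mul bi bm (abs_nonneg _) n0.le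
  have hdj : ∀ a : Fin 3, (κ a : ℝ) - (κ' a : ℝ) = (l a : ℝ) := by
    intro a; rw [h]; push_cast [Pi.add_apply]; ring
  have hl : ∀ a : Fin 3, |(κ a : ℝ) - (κ' a : ℝ)| ≤ nk l := by
    intro a; rw [hdj]; exact abs_le_nk l a
  have hsum : nk κ ≤ nk κ' + nk l := by rw [h]; exact nk_add _ _
  have hsum' : nk κ' ≤ nk κ + nk l := by
    have : κ' = κ + (-l) := by rw [h]; abel
    rw [this, ← H356R3.NS.nk_neg l]; exact nk_add _ _
  -- the difference of the projections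
  have hpp : nk κ' * |p - p'| ≤ 12 * nk l := by
    have e1 : p - p' = ((κ i : ℝ) * κ m - κ' i * κ' m) / H356R3.NS.sq κ
        + (κ' i : ℝ) * κ' m * (H356R3.NS.sq κ' - H356R3.NS.sq κ) / (H356R3.NS.sq κ * H356R3.NS.sq κ') := by
      rw [hp, hp']
      field_simp
      ring
    have b1 : |(κ i : ℝ) * κ m - κ' i * κ' m| ≤ nk l * (nk κ + nk κ') := by
      have : (κ i : ℝ) * κ m - κ' i * κ' m = (κ i - κ' i) * κ m + κ' i * (κ m - κ' m) := by ring
      rw [this]
      calc _ ≤ |((κ i : ℝ) - κ' i) * κ m| + |(κ' i : ℝ) * (κ m - κ' m)| := abs_add_le _ _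
        _ ≤ nk l * nk κ + nk κ' * nk l := by
            rw [abs_mul, abs_mul]
            exact add_le_add (mul_le_mul (hl i) bm (abs_nonneg _) nl)
              (mul_le_mul bi' (hl m) (abs_nonneg _) n1.le)
        _ = _ := by ring
    have b2 : |H356R3.NS.sq κ' - H356R3.NS.sq κ| ≤ nk l * (nk κ + nk κ') := by
      rw [← nk_mul_self, ← nk_mul_self]
      have : nk κ' * nk κ' - nk κ * nk κ = (nk κ' - nk κ) * (nk κ + nk κ') := by ring
      rw [this, abs_mul, abs_of_pos (by linarith : 0 < nk κ + nk κ')]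
      apply mul_le_mul_of_nonneg_right _ (by linarith)
      rw [abs_le]; constructor <;> linarith
    have b3 : |(κ' i : ℝ) * κ' m| ≤ H356R3.NS.sq κ' := by
      rw [abs_mul, ← nk_mul_self]; exact mul_le_mul bi' bm' (abs_nonneg _) n1.le
    have b4 : |p - p'| ≤ 2 * (nk l * (nk κ + nk κ')) / H356R3.NS.sq κ := by
      rw [e1]
      refine (abs_add_le _ _).trans ?_
      rw [abs_div, abs_div, abs_mul ((κ' i : ℝ) * κ' m), abs_of_pos s0, abs_of_pos (mul_pos s0 s1)]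
      have c1 : |(κ' i : ℝ) * κ' m| * |H356R3.NS.sq κ' - H356R3.NS.sq κ| / (H356R3.NS.sq κ * H356R3.NS.sq κ')
          ≤ nk l * (nk κ + nk κ') / H356R3.NS.sq κ := by
        rw [div_le_div_iff₀ (mul_pos s0 s1) s0]
        have := mul_le_mul b3 b2 (abs_nonneg _) s1.le
        nlinarith
      have c2 : |(κ i : ℝ) * κ m - κ' i * κ' m| / H356R3.NS.sq κ ≤ nk l * (nk κ + nk κ') / H356R3.NS.sq κ :=
        div_le_div_of_nonneg_right b1 s0.le
      calc _ ≤ _ := add_le_add c2 c1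
        _ = _ := by ring
    calc nk κ' * |p - p'| ≤ nk κ' * (2 * (nk l * (nk κ + nk κ')) / H356R3.NS.sq κ) :=
          mul_le_mul_of_nonneg_left b4 n1.le
      _ = 2 * nk l * (nk κ' * (nk κ + nk κ')) / H356R3.NS.sq κ := by ring
      _ ≤ 12 * nk l := by
          rw [div_le_iff₀ s0, ← nk_mul_self]
          have : nk κ' * (nk κ + nk κ') ≤ 6 * (nk κ * nk κ) := by nlinarith
          nlinarith
  have key : |(κ j : ℝ) * (δ - p) - (κ' j : ℝ) * (δ - p')| ≤ 14 * nk l := by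
    have : (κ j : ℝ) * (δ - p) - (κ' j : ℝ) * (δ - p') = (κ j - κ' j) * (δ - p) - κ' j * (p - p') := by ring
    rw [this]
    refine (abs_sub _ _).trans ?_
    rw [abs_mul, abs_mul]
    have d1 : |δ - p| ≤ 2 := (abs_sub _ _).trans (by linarith)
    have d2 : |(κ j : ℝ) - κ' j| * |δ - p| ≤ nk l * 2 := mul_le_mul (hl j) d1 (abs_nonneg _) nl
    have d3 : |(κ' j : ℝ)| * |p - p'| ≤ 12 * nk l :=
      (mul_le_mul_of_nonneg_right bj' (abs_nonneg _)).trans hpp
    linarith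
  calc 2 * Real.pi * _ ≤ 2 * Real.pi * (14 * nk l) := mul_le_mul_of_nonneg_left key (by positivity)
    _ = _ := by ring

lemma bt_lip {κ κ' l : K} (h : κ = κ' + l) (h0 : κ ≠ 0) (h1 : κ' ≠ 0) (h2 : nk κ' ≤ 2 * nk κ)
    (v v' : C3) : ‖bt κ v v' - bt κ' v v'‖ ≤ 7 * C0 * nk l * (‖v‖ * ‖v'‖) := by
  have hC := C0_pos
  have nl := nk_nonneg l
  rw [pi_norm_le_iff_of_nonneg (by positivity)]
  intro i
  have e : (bt κ v v' - bt κ' v v') i = ∑ j, ∑ m, (coef κ i j m - coef κ' i j m) * (v j * v' m) := by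
    simp only [Pi.sub_apply, bt, ← Finset.sum_sub_distrib, sub_mul]
  rw [e]
  have h3 : ∀ j m, ‖(coef κ i j m - coef κ' i j m) * (v j * v' m)‖ ≤ 28 * Real.pi * nk l * (‖v‖ * ‖v'‖) := by
    intro j m
    rw [norm_mul, norm_mul]
    apply mul_le_mul (coef_lip h h0 h1 h2 i j m) _ (by positivity) (by positivity)
    exact mul_le_mul (norm_le_pi_norm v j) (norm_le_pi_norm v' m) (norm_nonneg _) (norm_nonneg _)
  calc _ ≤ ∑ j : Fin 3, ∑ m : Fin 3, ‖(coef κ i j m - coef κ' i j m) * (v j * v' m)‖ :=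
        (norm_sum_le _ _).trans (Finset.sum_le_sum fun j _ => norm_sum_le _ _)
    _ ≤ ∑ j : Fin 3, ∑ m : Fin 3, 28 * Real.pi * nk l * (‖v‖ * ‖v'‖) :=
        Finset.sum_le_sum fun j _ => Finset.sum_le_sum fun m _ => h3 j m
    _ = _ := by
        simp only [Finset.sum_const, Finset.card_univ, Fintype.card_fin, nsmul_eq_mul]
        unfold C0
        push_cast
        ring

lemma coef_nsmul {N : ℕ} (hN : 1 ≤ N) (k : K) (i j m : Fin 3) :
    coef ((N : ℤ) • k) i j m = (N : ℂ) * coef k i j m := by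
  have hN0 : (N : ℂ) ≠ 0 := by exact_mod_cast (Nat.one_le_iff_ne_zero.1 hN)
  have hs : ((H356R3.NS.sq ((N : ℤ) • k) : ℝ) : ℂ) = (N : ℂ) ^ 2 * ((H356R3.NS.sq k : ℝ) : ℂ) := by
    unfold H356R3.NS.sq
    push_cast [Pi.smul_apply, smul_eq_mul]
    rw [Finset.mul_sum]
    exact Finset.sum_congr rfl fun a _ => by ring
  unfold coef
  rw [hs]
  simp only [Pi.smul_apply, smul_eq_mul, Int.cast_mul, Int.cast_natCast]
  by_cases hk : ((H356R3.NS.sq k : ℝ) : ℂ) = 0
  · rw [hk]; simp; ring_nf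
  · field_simp

lemma bt_nsmul {N : ℕ} (hN : 1 ≤ N) (k : K) (v v' : C3) :
    bt ((N : ℤ) • k) v v' = (N : ℝ) • bt k v v' := by
  funext i
  simp only [bt, coef_nsmul hN, Pi.smul_apply, Finset.smul_sum]
  refine Finset.sum_congr rfl fun j _ => Finset.sum_congr rfl fun m _ => ?_
  rw [Complex.real_smul]
  push_cast; ring

lemma bt_smul (k : K) (a b : ℝ) (v v' : C3) : bt k (a • v) (b • v') = (a * b) • bt k v v' := by
  funext i
  simp only [bt, Pi.smul_apply, Finset.smul_sum]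
  refine Finset.sum_congr rfl fun j _ => Finset.sum_congr rfl fun m _ => ?_
  simp only [Complex.real_smul]
  push_cast; ring

lemma bt_zero_l (k : K) (v : C3) : bt k 0 v = 0 := by
  funext i; simp [bt]

lemma bt_zero_r (k : K) (v : C3) : bt k v 0 = 0 := by
  funext i; simp [bt]

/-- the leading order of the high frequency interactions -/
lemma bt_kp {N : ℕ} {P : K × K} (h : P.2 ≠ 0) (hN : 2 * nk P.1 ≤ N) (hN1 : 1 ≤ N) (v v' : C3) :
    ‖bt (kp N P) v v' - (N : ℝ) • bt P.2 v v'‖ ≤ 7 * C0 * nk P.1 * (‖v‖ * ‖v'‖) := by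
  rw [← bt_nsmul hN1]
  have h3 : (1 : ℝ) ≤ N := by exact_mod_cast hN1
  have h4 := one_le_nk h
  refine bt_lip (l := P.1) (by unfold kp; abel) (kp_ne h hN hN1) ?_ ?_ v v'
  · intro h0
    have : nk ((N : ℤ) • P.2) = 0 := by rw [h0, nk_zero]
    rw [nk_nsmul] at this
    nlinarith
  · rw [nk_nsmul]
    have := kp_ge h hN
    linarith

end Pool.Agent.U162.TS
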