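import Pool.Agent.U162.TS.Core2

/-!
Truncation of bilinear interactions.
-/

open MeasureTheory Set Filter Topology
open scoped ENNReal NNReal

namespace Pool.Agent.U162.TS

open Pool.Agent.H356R3.NS

section
variable {Γ : Type*} [AddCommGroup Γ] [Countable Γ] [DecidableEq Γ]

/-- the interactions which are lost by the truncation -/
noncomputable def lost (F : Finset Γ) (a : Γ → ℝ≥0∞) : ℝ≥0∞ :=
  ∑' p : Γ × Γ, if p.1 ∈ F ∧ p.2 ∈ F ∧ p.1 + p.2 ∈ F then 0 else a p.1 * a p.2

lemma tsum_sq (a : Γ → ℝ≥0∞) : ∑' p : Γ × Γ, a p.1 * a p.2 = (∑' P, a P) * ∑' P, a P := by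
  rw [ENNReal.tsum_prod (f := fun x y => a x * a y), ← ENNReal.tsum_mul_right]
  exact tsum_congr fun P => ENNReal.tsum_mul_left

lemma lost_eq (F : Finset Γ) (a : Γ → ℝ≥0∞) :
    lost F a = ∑' R, ∑' P, if P ∈ F ∧ R - P ∈ F ∧ R ∈ F then 0 else a P * a (R - P) := by
  unfold lost
  rw [ENNReal.tsum_prod (f := fun x y => if x ∈ F ∧ y ∈ F ∧ x + y ∈ F then 0 else a x * a y),
    ENNReal.tsum_comm (f := fun R P => if P ∈ F ∧ R - P ∈ F ∧ R ∈ F then 0 else a P * a (R - P))]
  refine tsum_congr fun P => ?_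
  rw [← (Equiv.subRight P).tsum_eq]
  refine tsum_congr fun R => ?_
  simp only [Equiv.subRight_apply, add_sub_cancel]

lemma tail_le {a : Γ → ℝ → ℝ≥0∞} (ha : ∀ P, Measurable (a P))
    (hfin : ∫⁻ t in Ioi (0 : ℝ), (∑' P, a P t) * ∑' P, a P t ≠ ⊤) {ε : ℝ≥0∞} (hε : 0 < ε) :
    ∃ F0 : Finset Γ, ∀ F : Finset Γ, F0 ⊆ F → ∫⁻ t in Ioi (0 : ℝ), lost F (fun P => a P t) ≤ ε := by
  classical
  set φ : Γ × Γ → ℝ≥0∞ := fun p => ∫⁻ t in Ioi (0 : ℝ), a p.1 t * a p.2 t with hφ
  have hm : ∀ p : Γ × Γ, Measurable fun t => a p.1 t * a p.2 t := fun p => (ha _).mul (ha _)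
  have h1 : ∑' p, φ p ≠ ⊤ := by
    have : ∑' p, φ p = ∫⁻ t in Ioi (0 : ℝ), (∑' P, a P t) * ∑' P, a P t := by
      rw [hφ, ← lintegral_tsum fun p => (hm p).aemeasurable]
      exact lintegral_congr fun t => tsum_sq fun P => a P t
    rw [this]; exact hfin
  have h2 := (ENNReal.tendsto_tsum_compl_atTop_zero h1).eventually (gt_mem_nhds hε)
  obtain ⟨E, hE⟩ := h2.exists
  refine ⟨E.image Prod.fst ∪ (E.image Prod.snd ∪ E.image fun p => p.1 + p.2), fun F hF => ?_⟩
  have hsub : ∀ p ∈ E, p.1 ∈ F ∧ p.2 ∈ F ∧ p.1 + p.2 ∈ F := by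
    intro p hp
    refine ⟨hF ?_, hF ?_, hF ?_⟩
    · exact Finset.mem_union_left _ (Finset.mem_image_of_mem _ hp)
    · exact Finset.mem_union_right _ (Finset.mem_union_left _ (Finset.mem_image_of_mem _ hp))
    · exact Finset.mem_union_right _ (Finset.mem_union_right _ (Finset.mem_image_of_mem (fun p => p.1 + p.2) hp))
  have h3 : ∫⁻ t in Ioi (0 : ℝ), lost F (fun P => a P t) ≤ ∑' b : { x // x ∉ E }, φ b := by
    have e1 : ∑' b : { x // x ∉ E }, φ b = ∑' p, {x : Γ × Γ | x ∉ E}.indicator φ p :=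
      tsum_subtype {x : Γ × Γ | x ∉ E} φ
    have e2 : ∀ p, {x : Γ × Γ | x ∉ E}.indicator φ p
        = ∫⁻ t in Ioi (0 : ℝ), if p ∈ E then 0 else a p.1 t * a p.2 t := by
      intro p
      by_cases hp : p ∈ E
      · rw [indicator_of_notMem (by simpa using hp)]; simp [hp]
      · rw [indicator_of_mem (show p ∈ {x : Γ × Γ | x ∉ E} from hp)]; simp [hp, hφ]
    rw [e1]
    simp only [e2]
    rw [← lintegral_tsum fun p => by
      split_ifs
      · exact aemeasurable_const
      · exact (hm p).aemeasurable]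
    refine lintegral_mono fun t => ?_
    unfold lost
    refine ENNReal.tsum_le_tsum fun p => ?_
    by_cases hp : p ∈ E
    · rw [if_pos (hsub p hp)]; exact zero_le
    · rw [if_neg hp]
      split_ifs
      · exact zero_le
      · exact le_rfl
  exact h3.trans hE.le

/-- the restriction to a finite set -/
def res {M : Type*} [Zero M] (F : Finset Γ) (x : Γ → M) : Γ → M := fun P => if P ∈ F then x P else 0

/-- truncation of a bilinear term -/
lemma gen_diff {q : C3 → C3 → C3} {C : ℝ} (hq : ∀ v v', ‖q v v'‖ ≤ C * (‖v‖ * ‖v'‖))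
    {x : Γ → C3} (hx : Summable fun P => ‖x P‖) (F : Finset Γ) (R : Γ) :
    ‖(∑ P ∈ F, q (res F x P) (res F x (R - P))) - (if R ∈ F then ∑' P, q (x P) (x (R - P)) else 0)‖ₑ
      ≤ ENNReal.ofReal C * ∑' P, if P ∈ F ∧ R - P ∈ F ∧ R ∈ F then 0 else ‖x P‖ₑ * ‖x (R - P)‖ₑ := by
  have q0 : ∀ v, q 0 v = 0 := fun v => by
    have := hq 0 v
    rw [norm_zero, zero_mul, mul_zero] at this
    exact norm_le_zero_iff.1 this
  have q1 : ∀ v, q v 0 = 0 := fun v => by
    have := hq v 0
    rw [norm_zero, mul_zero, mul_zero] at this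
    exact norm_le_zero_iff.1 this
  have hqe : ∀ v v', ‖q v v'‖ₑ ≤ ENNReal.ofReal C * (‖v‖ₑ * ‖v'‖ₑ) := fun v v' => by
    by_cases hC : 0 ≤ C
    · rw [← ofReal_norm, ← ofReal_norm, ← ofReal_norm, ← ENNReal.ofReal_mul (norm_nonneg _),
        ← ENNReal.ofReal_mul hC]
      exact ENNReal.ofReal_le_ofReal (hq v v')
    · have h1 : C * (‖v‖ * ‖v'‖) ≤ 0 :=
        mul_nonpos_of_nonpos_of_nonneg (le_of_not_ge hC) (by positivity)
      have : q v v' = 0 := norm_le_zero_iff.1 ((hq v v').trans h1)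
      rw [this]; simp
  have hs2 : Summable fun P => ‖x P‖ * ‖x (R - P)‖ := by
    refine Summable.of_nonneg_of_le (fun P => by positivity) (fun P => ?_)
      (hx.mul_right (∑' P, ‖x P‖))
    exact mul_le_mul_of_nonneg_left (hx.le_tsum (R - P) fun _ _ => norm_nonneg _) (norm_nonneg _)
  have hs3 : Summable fun P => q (x P) (x (R - P)) :=
    Summable.of_norm_bounded (hs2.mul_left C) fun P => hq _ _
  have hsf : Summable fun P => q (res F x P) (res F x (R - P)) :=
    summable_of_ne_finset_zero (s := F) fun P hP => by simp [res, hP, q0]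
  have hfin : ∑ P ∈ F, q (res F x P) (res F x (R - P)) = ∑' P, q (res F x P) (res F x (R - P)) :=
    (tsum_eq_sum fun P hP => by simp [res, hP, q0]).symm
  have hen : ∀ f : Γ → C3, ‖∑' P, f P‖ₑ ≤ ∑' P, ‖f P‖ₑ := by
    intro f
    by_cases h : Summable fun P => ‖f P‖
    · rw [← ofReal_norm]
      refine (ENNReal.ofReal_le_ofReal (norm_tsum_le_tsum_norm h)).trans ?_
      rw [ENNReal.ofReal_tsum_of_nonneg (fun _ => norm_nonneg _) h]
      simp
    · by_cases h2 : ∑' P, ‖f P‖ₑ = ⊤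
      · rw [h2]; exact le_top
      · exfalso; apply h
        have := ENNReal.summable_toReal h2
        simpa using this
  rw [hfin]
  by_cases hR : R ∈ F
  · rw [if_pos hR, ← hsf.tsum_sub hs3]
    refine (hen _).trans ?_
    rw [← ENNReal.tsum_mul_left]
    refine ENNReal.tsum_le_tsum fun P => ?_
    by_cases h1 : P ∈ F
    · by_cases h2 : R - P ∈ F
      · simp [res, h1, h2]
      · rw [if_neg (fun h => h2 h.2.1)]
        simp only [res, h2, if_false, q1, zero_sub, enorm_neg]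
        exact hqe _ _
    · rw [if_neg (fun h => h1 h.1)]
      simp only [res, h1, if_false, q0, zero_sub, enorm_neg]
      exact hqe _ _
  · rw [if_neg hR, sub_zero]
    refine (hen _).trans ?_
    rw [← ENNReal.tsum_mul_left]
    refine ENNReal.tsum_le_tsum fun P => ?_
    rw [if_neg (fun h => hR h.2.2)]
    refine (hqe _ _).trans (mul_le_mul' le_rfl (mul_le_mul' ?_ ?_))
    · unfold res; split_ifs <;> simp
    · unfold res; split_ifs <;> simp

/-- the lost part is controlled -/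
lemma tail_sq_le (F : Finset Γ) (a : Γ → ℝ≥0∞) :
    (∑' P, if P ∈ F then 0 else a P) * (∑' P, if P ∈ F then 0 else a P) ≤ lost F a := by
  rw [← tsum_sq]
  unfold lost
  refine ENNReal.tsum_le_tsum fun p => ?_
  by_cases h1 : p.1 ∈ F
  · simp [h1]
  · by_cases h2 : p.2 ∈ F
    · simp [h2]
    · rw [if_neg h1, if_neg h2, if_neg (fun h => h1 h.1)]

end

lemma SN_res {x : K → C3} (F : Finset K) : SN (res F x) :=
  summable_of_ne_finset_zero (s := F) fun k hk => by simp [res, hk]

/-- the bilinear term as a sum of the interactions -/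
lemma Bf_eq_tsum {x y : K → C3} (hx : SN x) (hy : SN y) (k : K) :
    Bf x y k = ∑' l, bt k (x l) (y (k - l)) := by
  have hs : Summable fun l => bt k (x l) (y (k - l)) := by
    have hs2 : Summable fun P => ‖x P‖ * ‖y (k - P)‖ := by
      refine Summable.of_nonneg_of_le (fun P => by positivity) (fun P => ?_)
        (hx.mul_right (∑' P, ‖y P‖))
      exact mul_le_mul_of_nonneg_left (hy.le_tsum (k - P) fun _ _ => norm_nonneg _) (norm_nonneg _)
    exact Summable.of_norm_bounded (hs2.mul_left (C0 * nk k)) fun P => norm_bt_le _ _ _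
  funext i
  rw [tsum_apply hs]
  unfold Bf bt cv
  rw [Summable.tsum_finsetSum fun j _ => summable_sum fun m _ => (summ_cv hx hy k j m).mul_left _]
  refine Finset.sum_congr rfl fun j _ => ?_
  rw [Summable.tsum_finsetSum fun m _ => (summ_cv hx hy k j m).mul_left _]
  refine Finset.sum_congr rfl fun m _ => ?_
  rw [(summ_cv hx hy k j m).tsum_mul_left]

/-- truncation of the Navier-Stokes nonlinearity -/
lemma NW_Bf_res {x : K → C3} (hx : SN x) (F : Finset K) :
    NW (Wm 0) (Bf (res F x) (res F x) - res F (Bf x x)) ≤ ENNReal.ofReal C0 * lost F fun k => ‖x k‖ₑ := by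
  unfold NW
  rw [lost_eq, ← ENNReal.tsum_mul_left]
  refine ENNReal.tsum_le_tsum fun R => ?_
  by_cases hR0 : R = 0
  · subst hR0
    have : (Bf (res F x) (res F x) - res F (Bf x x)) 0 = 0 := by
      rw [Pi.sub_apply, Bf_zero]
      unfold res
      split_ifs <;> simp [Bf_zero]
    rw [this]; simp
  have hn := nk_pos hR0
  have e : (Bf (res F x) (res F x) - res F (Bf x x)) R
      = (∑ P ∈ F, bt R (res F x P) (res F x (R - P))) - (if R ∈ F then ∑' P, bt R (x P) (x (R - P)) else 0) := by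
    rw [Pi.sub_apply]
    congr 1
    · rw [Bf_eq_tsum (SN_res F) (SN_res F)]
      refine tsum_eq_sum fun P hP => ?_
      simp [res, hP, bt_zero_l]
    · unfold res
      split_ifs
      · rw [Bf_eq_tsum hx hx]
      · rfl
  rw [e]
  have h1 := gen_diff (q := bt R) (C := C0 * nk R) (norm_bt_le R) hx F R
  calc _ ≤ Wm 0 R * (ENNReal.ofReal (C0 * nk R) * ∑' P, if P ∈ F ∧ R - P ∈ F ∧ R ∈ F then 0
        else ‖x P‖ₑ * ‖x (R - P)‖ₑ) := mul_le_mul' le_rfl h1
    _ = _ := by
        rw [← mul_assoc]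
        congr 1
        unfold Wm
        rw [← ENNReal.ofReal_mul (div_nonneg (om_pos _ _).le hn.le)]
        congr 1
        have : om 0 R = 1 := by simp [om]
        rw [this]
        field_simp

end Pool.Agent.U162.TS
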