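import Pool.Agent.U162.TS.Sup

/-!
Explicit waves.
-/

open MeasureTheory Set Filter Topology
open scoped ENNReal NNReal

namespace Pool.Agent.U162.TS

open Pool.Agent.H356R3.NS

/-- modulated waves which do not interact -/
theorem waves {ν : ℝ} (hν : 0 < ν) {a : Fq → Fin 3 → ℂ} {A : Finset Fq} (ha : Slow a A)
    {b : Fq × Fq → Fin 3 → ℂ} {S : Finset (Fq × Fq)} (hb : Prof b S) (hni : NonInt b S)
    {g : R3 → R3} {v : ℝ → R3 → R3} {p : ℝ → R3 → ℝ} (hv : AdmissiblePeriodic ν g v p)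
    (hg : ∀ l i, H356R3.NS.fc g l i = a l i + effect ν b S l i) {ε : ℝ} (hε : 0 < ε) :
    ∃ N0 : ℕ, ∀ N : ℕ, N0 ≤ N → ∃ u q, AdmissiblePeriodic ν (fun x i => trig a A x i + N * osc b S N x i) u q ∧
      CloseAfter ε u v := by
  have hc : 0 < 4 * Real.pi ^ 2 * ν := by positivity
  have hg0 : ∀ i, ∫ x in Icc (0 : R3) 1, g x i = 0 := by
    intro i
    have h := hg 0 i
    have h1 : effect ν b S 0 i = 0 := by
      unfold effect
      refine Finset.sum_eq_zero fun P _ => ?_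
      simp
    rw [ha.mean, h1] at h
    unfold H356R3.NS.fc at h
    simp only [Pi.zero_apply, Int.cast_zero, zero_mul, Finset.sum_const_zero, mul_zero, neg_zero,
      Complex.exp_zero, mul_one, add_zero] at h
    rw [integral_complex_ofReal] at h
    exact_mod_cast h
  refine phys hν hv hg0 (wE_flow hc hb hni) ha (b := b) (fun P => ?_) hb.supp (fun k i => ?_) hε
  · unfold wE; simp
  · rw [hg, Kick_wE hν hb]

lemma leray_neg_star (κ : Fq) (v : C3) (i : Fin 3) :
    leray (-κ) (fun j => star (v j)) i = star (leray κ v i) := by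
  unfold leray
  simp only [Pi.neg_apply, Int.cast_neg, star_sub, Complex.star_def, map_mul, map_div₀, map_sum,
    Complex.conj_ofReal, map_intCast]
  have h1 : ∑ j, (-(κ j : ℝ)) ^ 2 = ∑ j, (κ j : ℝ) ^ 2 := Finset.sum_congr rfl fun j _ => by ring
  have h2 : ∑ j, -(κ j : ℂ) * (starRingEnd ℂ) (v j) = -∑ j, (κ j : ℂ) * (starRingEnd ℂ) (v j) := by
    rw [← Finset.sum_neg_distrib]
    exact Finset.sum_congr rfl fun j _ => by ring
  rw [h1, h2]
  ring

/-- the slow part which compensates the effect of the waves -/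
noncomputable def comp (ν : ℝ) (b : Fq × Fq → Fin 3 → ℂ) (S : Finset (Fq × Fq)) (l : Fq) (i : Fin 3) : ℂ :=
  -effect ν b S l i

/-- its frequencies -/
def compS (S : Finset (Fq × Fq)) : Finset Fq := (S ×ˢ S).image fun q => q.1.1 + q.2.1

lemma comp_slow {ν : ℝ} {b : Fq × Fq → Fin 3 → ℂ} {S : Finset (Fq × Fq)} (hb : Prof b S) :
    Slow (comp ν b S) (compS S) := by
  have hF : ∀ (l : Fq) (i : Fin 3), effect ν b S l i = ∑' P : Fq × Fq,
      -(2 * Real.pi * Complex.I) * (∑ j, (l j : ℂ) * b P j) * leray l (b (l - P.1, -P.2)) i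
        / ((8 * Real.pi ^ 2 * ν * ∑ j, (P.2 j : ℝ) ^ 2 : ℝ) : ℂ) := by
    intro l i
    unfold effect
    rw [tsum_eq_sum]
    intro P hP
    rw [hb.supp P hP]; simp
  refine ⟨fun l hl => ?_, fun l i => ?_, fun l => ?_, ?_⟩
  · funext i
    unfold comp effect
    rw [Pi.zero_apply, neg_eq_zero]
    refine Finset.sum_eq_zero fun P hP => ?_
    have h1 : b (l - P.1, -P.2) = 0 := by
      apply hb.supp
      intro h2
      apply hl
      unfold compS
      rw [Finset.mem_image]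
      exact ⟨(P, (l - P.1, -P.2)), Finset.mem_product.2 ⟨hP, h2⟩, by simp⟩
    rw [h1]
    simp [leray]
  · unfold comp
    rw [hF, hF, ← (Equiv.neg (Fq × Fq)).tsum_eq, star_neg,
      show ∀ f : Fq × Fq → ℂ, star (∑' P, f P) = ∑' P, star (f P) from fun f => tsum_star]
    congr 1
    refine tsum_congr fun P => ?_
    have e1 : ((-l - (-P).1, -(-P).2) : Fq × Fq) = -(l - P.1, -P.2) := by
      ext <;> simp; ring
    have e2 : b (-(l - P.1, -P.2)) = fun j => star (b (l - P.1, -P.2) j) := funext fun j => hb.real _ j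
    have e3 : ∑ j, ((-l) j : ℂ) * b (-P) j = -star (∑ j, (l j : ℂ) * b P j) := by
      rw [star_sum, ← Finset.sum_neg_distrib]
      refine Finset.sum_congr rfl fun j _ => ?_
      rw [hb.real]
      simp
    have e4 : ∑ j, (((-P).2 j : ℤ) : ℝ) ^ 2 = ∑ j, (P.2 j : ℝ) ^ 2 :=
      Finset.sum_congr rfl fun j _ => by simp
    simp only [Equiv.neg_apply]
    rw [e1, e2, leray_neg_star, e3, e4]
    simp only [star_div₀, star_mul', star_neg, Complex.star_def, Complex.conj_ofReal, Complex.conj_I, map_ofNat]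
    ring
  · unfold comp effect
    have e : ∀ j, (l j : ℂ) * -(∑ P ∈ S, -(2 * Real.pi * Complex.I) * (∑ j, (l j : ℂ) * b P j) *
        leray l (b (l - P.1, -P.2)) j / ((8 * Real.pi ^ 2 * ν * ∑ j, (P.2 j : ℝ) ^ 2 : ℝ) : ℂ))
        = -∑ P ∈ S, (l j : ℂ) * (-(2 * Real.pi * Complex.I) * (∑ j, (l j : ℂ) * b P j) *
        leray l (b (l - P.1, -P.2)) j / ((8 * Real.pi ^ 2 * ν * ∑ j, (P.2 j : ℝ) ^ 2 : ℝ) : ℂ)) :=
      fun j => by rw [mul_neg, Finset.mul_sum]
    simp only [e]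
    rw [Finset.sum_neg_distrib, Finset.sum_comm, neg_eq_zero]
    refine Finset.sum_eq_zero fun P _ => ?_
    have h1 : ∑ j, (l j : ℂ) * leray l (b (l - P.1, -P.2)) j = 0 := dt_pr l (b (l - P.1, -P.2))
    have h2 : ∀ j, (l j : ℂ) * (-(2 * Real.pi * Complex.I) * (∑ j, (l j : ℂ) * b P j) *
        leray l (b (l - P.1, -P.2)) j / ((8 * Real.pi ^ 2 * ν * ∑ j, (P.2 j : ℝ) ^ 2 : ℝ) : ℂ))
        = (-(2 * Real.pi * Complex.I) * (∑ j, (l j : ℂ) * b P j) /
          ((8 * Real.pi ^ 2 * ν * ∑ j, (P.2 j : ℝ) ^ 2 : ℝ) : ℂ)) * ((l j : ℂ) * leray l (b (l - P.1, -P.2)) j) :=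
      fun j => by ring
    simp only [h2]
    rw [← Finset.mul_sum, h1, mul_zero]
  · funext i
    unfold comp effect
    rw [Pi.zero_apply, neg_eq_zero]
    refine Finset.sum_eq_zero fun P _ => ?_
    have h1 : ∑ j, ((0 : Fq) j : ℂ) * b P j = 0 := Finset.sum_eq_zero fun j _ => by simp
    rw [h1]; simp

lemma zero_adm (ν : ℝ) : AdmissiblePeriodic ν (0 : R3 → R3) (fun _ => 0) (fun _ _ => 0) := by
  refine ⟨contDiffOn_const, contDiffOn_const, fun _ _ _ _ => rfl, fun _ _ _ _ => rfl, fun t ht x i => ?_,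
    fun t ht x => ?_, rfl⟩
  · have h1 : ∀ j, (H356R3.NS.pd j fun _ : R3 => (0 : ℝ)) = fun _ => 0 := fun j => by
      funext y; simp [H356R3.NS.pd]
    have h2 : (fun y : R3 => (fun _ : ℝ => (0 : R3 → R3)) t y i) = fun _ => (0 : ℝ) := rfl
    simp only [Pi.zero_apply, h1]
    simp
  · simp [H356R3.NS.pd]

/-- explicit data -/
theorem waves0 {ν : ℝ} (hν : 0 < ν) {b : Fq × Fq → Fin 3 → ℂ} {S : Finset (Fq × Fq)} (hb : Prof b S)
    (hni : NonInt b S) {ε : ℝ} (hε : 0 < ε) :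
    ∃ N0 : ℕ, ∀ N : ℕ, N0 ≤ N → ∃ u q,
      AdmissiblePeriodic ν (fun x i => trig (comp ν b S) (compS S) x i + N * osc b S N x i) u q ∧
      CloseAfter ε u fun _ _ => 0 := by
  refine waves hν (comp_slow hb) hb hni (zero_adm ν) (fun l i => ?_) hε
  unfold comp H356R3.NS.fc
  simp

end Pool.Agent.U162.TS
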